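import Mathlib

/-!
# Hemisystems of H(3,q^2): definitions

`K` is the field with `q^6` elements, `q` congruent to 1 mod 4 and not congruent to 1 mod 3.
Notation of the paper proof (notes of near row 70): `x_j = x^(q^(2j))`, `bar x = x^(q^3)`.
-/

set_option autoImplicit false

namespace Pool.Agent.TH501.Hemi

open Finset Classical

/-- Standing hypotheses. -/
structure Std (K : Type) [Field K] [Fintype K] (q : ℕ) : Prop where
  card : Fintype.card K = q ^ 6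
  mod4 : q % 4 = 1
  mod3 : q % 3 ≠ 1

section defs

variable {K : Type} [Field K]

/-- `x_0 + x_1 + x_2`. -/
def T3 (q : ℕ) (x : K) : K := x + x ^ q ^ 2 + x ^ q ^ 4

/-- `x_0 x_1 x_2`. -/
def N3 (q : ℕ) (x : K) : K := x * x ^ q ^ 2 * x ^ q ^ 4

/-- The elliptic quadratic form. -/
def Qf (q : ℕ) (x : K) : K := T3 q (x * x ^ q ^ 3)

/-- Its polar form. -/
def Bf (q : ℕ) (x y : K) : K := T3 q (x * y ^ q ^ 3 + x ^ q ^ 3 * y)

/-- `eta`: the quadratic character of the field of `q` elements, as an integer. -/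
noncomputable def eta (q : ℕ) (a : K) : ℤ :=
  if a = 0 then 0 else if a ^ ((q - 1) / 2) = 1 then 1 else -1

/-- `chi2`: the quadratic character of the cyclic group of order `q^3+1`. -/
noncomputable def chi2 (q : ℕ) (s : K) : ℤ :=
  if s ^ ((q ^ 3 + 1) / 2) = 1 then 1 else -1

/-- `R(s,u)` as a polynomial in `y_j`, `z_j`, `N`. -/
def Rp (th N y0 y1 y2 z0 z1 z2 : K) : K :=
  N * (z0 ^ 2 + z1 ^ 2 + z2 ^ 2 - 2 * (z0 * z1 + z1 * z2 + z2 * z0))
    + N⁻¹ * (y0 ^ 2 + y1 ^ 2 + y2 ^ 2 - 2 * (y0 * y1 + y1 * y2 + y2 * y0))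
    - (y0 * y1 + y1 * y2 + y2 * y0 + z0 * z1 + z1 * z2 + z2 * z0)
    - th * ((y1 - y2) * z0 + (y2 - y0) * z1 + (y0 - y1) * z2)

/-- `R(s,u)`, half of `B(A_s u, u)`. -/
def Rf (q : ℕ) (th s u : K) : K :=
  Rp th (N3 q s) (s * u) ((s * u) ^ q ^ 2) ((s * u) ^ q ^ 4)
    (u ^ q ^ 3 / s) ((u ^ q ^ 3 / s) ^ q ^ 2) ((u ^ q ^ 3 / s) ^ q ^ 4)

/-- `s_0 A_s u` as a polynomial. -/
def Ap (th N y1 y2 z0 z1 z2 : K) : K :=
  2 * N * z0 - (2 * N + 1) * (z1 + z2) - th * (y1 - y2)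

/-- The selfadjoint operator `A_s`. -/
def Af (q : ℕ) (th s u : K) : K :=
  s⁻¹ * Ap th (N3 q s) ((s * u) ^ q ^ 2) ((s * u) ^ q ^ 4)
    (u ^ q ^ 3 / s) ((u ^ q ^ 3 / s) ^ q ^ 2) ((u ^ q ^ 3 / s) ^ q ^ 4)

/-- `Y_0(e)`. -/
def Yp (th g e0 e1 e2 : K) : K := 2 * e1 * e2 + th * g * e0 * (e1 - e2) - g ^ 2 * e0 ^ 2

/-- `Z_0(e)`. -/
def Zp (th g e0 e1 e2 : K) : K := 2 * g ^ 2 * e1 * e2 - th * g * e0 * (e1 - e2) - e0 ^ 2

/-- The point `u_S(e)`. -/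
def uS (q : ℕ) (th S lam e : K) : K :=
  lam * N3 q S * Yp th (N3 q S) e (e ^ q ^ 2) (e ^ q ^ 4) / S

/-- `x` lies on the conic `C_S`. -/
def InC (q : ℕ) (th S x : K) : Prop :=
  ∃ lam e : K, lam ≠ 0 ∧ lam ^ q = N3 q S ^ 3 * lam ∧ e ≠ 0 ∧ e ^ q ^ 3 = e ∧ T3 q e = 0 ∧
    x = uS q th S lam e

/-- The sign `F(S)`. -/
noncomputable def Fs (q : ℕ) (S : K) : ℤ := - chi2 q S * eta q (N3 q S + (N3 q S)⁻¹)

/-- `u, v` span a totally singular line. -/
structure IsLine (q : ℕ) (u v : K) : Prop where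
  ind : ∀ a b : K, a ^ q = a → b ^ q = b → a * u + b * v = 0 → a = 0 ∧ b = 0
  qu : Qf q u = 0
  qv : Qf q v = 0
  b : Bf q u v = 0

variable [Fintype K]

/-- The elements of the field with `q` elements. -/
noncomputable def Fq (K : Type) [Field K] [Fintype K] (q : ℕ) : Finset K :=
  univ.filter (fun a : K => a ^ q = a)

/-- The group of elements with `s^(q^3+1) = 1`. -/
noncomputable def mu (K : Type) [Field K] [Fintype K] (q : ℕ) : Finset K :=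
  univ.filter (fun s : K => s ^ (q ^ 3 + 1) = 1)

/-- Sum of `g` over the `q+1` points of the line spanned by `u, v`. -/
noncomputable def lsum (q : ℕ) (g : K → ℤ) (u v : K) : ℤ :=
  g v + ∑ b ∈ Fq K q, g (u + b * v)

/-- What the geometric part needs. -/
def CoreProp (K : Type) [Field K] [Fintype K] (q : ℕ) : Prop :=
  ∃ f : K → ℤ, (∀ x, f x = 1 ∨ f x = -1) ∧
    (∀ c x : K, c ≠ 0 → c ^ q = c → f (c * x) = f x) ∧
    (∀ c x : K, c ^ (q ^ 2 - q + 1) = 1 → f (c * x) = f x) ∧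
    ∀ u v : K, IsLine q u v → lsum q f u v = 0

end defs

end Pool.Agent.TH501.Hemi
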