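import Mathlib
import Pool.Agent.TH501.Hemi.Defs

/-!
# Character sums of binary quadratic forms
-/

set_option autoImplicit false

namespace Pool.Agent.TH501.Hemi

open Finset Classical

namespace Bin

section field

variable {F : Type} [Field F] [Fintype F] [DecidableEq F]

theorem sum_sq_sub (hF : ringChar F ≠ 2) {d : F} (hd : d ≠ 0) :
    ∑ t : F, quadraticChar F (t ^ 2 - d) = -1 := by
  have h1 : ∑ t : F, quadraticChar F (t ^ 2 - d) =
      ∑ u : F, (quadraticChar F u + 1) * quadraticChar F (u - d) := by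
    rw [← Finset.sum_fiberwise (univ : Finset F) (fun t => t ^ 2)
      (fun t => quadraticChar F (t ^ 2 - d))]
    refine Finset.sum_congr rfl fun u _ => ?_
    have h2 : ∑ t ∈ univ.filter (fun t : F => t ^ 2 = u), quadraticChar F (t ^ 2 - d) =
        ∑ t ∈ univ.filter (fun t : F => t ^ 2 = u), quadraticChar F (u - d) := by
      refine Finset.sum_congr rfl fun t ht => ?_
      rw [(mem_filter.1 ht).2]
    rw [h2, Finset.sum_const, nsmul_eq_mul]
    have h3 := quadraticChar_card_sqrts hF u
    rw [Set.toFinset_ofPred] at h3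
    rw [h3]
  rw [h1]
  simp only [add_mul, one_mul, Finset.sum_add_distrib]
  have h4 : ∑ u : F, quadraticChar F (u - d) = 0 := by
    have h6 := Equiv.sum_comp (Equiv.subRight d) (fun u => quadraticChar F u)
    simp only [Equiv.subRight_apply] at h6
    rw [h6]
    exact quadraticChar_sum_zero hF
  have h5 : ∑ u : F, quadraticChar F u * quadraticChar F (u - d) = -1 := by
    rw [← Equiv.sum_comp (Equiv.mulLeft₀ d hd)
      (fun u => quadraticChar F u * quadraticChar F (u - d))]
    have h6 : ∀ v : F, quadraticChar F (Equiv.mulLeft₀ d hd v) *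
        quadraticChar F (Equiv.mulLeft₀ d hd v - d) =
        quadraticChar F (-1) * (quadraticChar F v * quadraticChar F (1 - v)) := by
      intro v
      have e1 : Equiv.mulLeft₀ d hd v = d * v := rfl
      have e2 : d * v - d = d * (-1 * (1 - v)) := by ring
      have e3 := quadraticChar_sq_one hd
      rw [e1, e2, map_mul, map_mul, map_mul]
      calc _ = quadraticChar F d ^ 2 *
            (quadraticChar F (-1) * (quadraticChar F v * quadraticChar F (1 - v))) := by ring
        _ = _ := by rw [e3, one_mul]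
    rw [Finset.sum_congr rfl fun v _ => h6 v, ← Finset.mul_sum]
    have h7 := jacobiSum_nontrivial_inv (quadraticChar_ne_one (F := F) hF)
    rw [(quadraticChar_isQuadratic F).inv] at h7
    unfold jacobiSum at h7
    rw [h7]
    have h8 := quadraticChar_sq_one (F := F) (a := -1) (neg_ne_zero.2 one_ne_zero)
    linear_combination -h8
  rw [h4, h5, add_zero]

theorem sum_sq :
    ∑ t : F, quadraticChar F (t ^ 2) = (Fintype.card F : ℤ) - 1 := by
  have h1 : ∀ t : F, quadraticChar F (t ^ 2) = 1 - if t = 0 then 1 else 0 := by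
    intro t
    by_cases h : t = 0
    · rw [h, if_pos rfl]; simp
    · rw [if_neg h, quadraticChar_sq_one' h]; simp
  rw [Finset.sum_congr rfl fun t _ => h1 t, Finset.sum_sub_distrib]
  simp

theorem main (hF : ringChar F ≠ 2) (α β γ : F) :
    quadraticChar F γ + ∑ b : F, quadraticChar F (α + b * β + b ^ 2 * γ) =
      if β ^ 2 - 4 * α * γ = 0 then
        (Fintype.card F : ℤ) * (if α = 0 then quadraticChar F γ else quadraticChar F α) else 0 := by
  have h2 : (2 : F) ≠ 0 := Ring.two_ne_zero hF
  by_cases hγ : γ = 0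
  · subst hγ
    by_cases hβ : β = 0
    · subst hβ
      simp only [mul_zero, add_zero, MulChar.map_zero, zero_add, Finset.sum_const, card_univ,
        nsmul_eq_mul]
      by_cases hα : α = 0
      · simp [hα]
      · simp [hα]
    · rw [if_neg (by simpa using hβ)]
      have e1 : ∑ b : F, quadraticChar F (α + b * β + b ^ 2 * 0) = 0 := by
        have e2 : ∀ b : F, α + b * β + b ^ 2 * 0 =
            ((Equiv.mulRight₀ β hβ).trans (Equiv.addLeft α)) b := by
          intro b
          simp
        rw [Finset.sum_congr rfl fun b _ => by rw [e2 b],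
          ((Equiv.mulRight₀ β hβ).trans (Equiv.addLeft α)).sum_comp (fun u => quadraticChar F u)]
        exact quadraticChar_sum_zero hF
      rw [e1]
      simp
  · have h4 : (4 : F) ≠ 0 := by
      have : (4 : F) = 2 * 2 := by norm_num
      rw [this]
      exact mul_ne_zero h2 h2
    have h2γ : 2 * γ ≠ 0 := mul_ne_zero h2 hγ
    have hχγ := quadraticChar_sq_one hγ
    have e1 : ∀ b : F, quadraticChar F (α + b * β + b ^ 2 * γ) = quadraticChar F γ *
        quadraticChar F ((((Equiv.mulRight₀ (2 * γ) h2γ).trans (Equiv.addLeft β)) b) ^ 2 -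
          (β ^ 2 - 4 * α * γ)) := by
      intro b
      have e0 : ((Equiv.mulRight₀ (2 * γ) h2γ).trans (Equiv.addLeft β)) b =
          β + b * (2 * γ) := rfl
      have e2 : ((((Equiv.mulRight₀ (2 * γ) h2γ).trans (Equiv.addLeft β)) b) ^ 2 -
          (β ^ 2 - 4 * α * γ)) = 2 ^ 2 * (γ * (α + b * β + b ^ 2 * γ)) := by
        rw [e0]
        ring
      rw [e2, map_mul, map_mul, quadraticChar_sq_one' h2]
      linear_combination (-quadraticChar F (α + b * β + b ^ 2 * γ)) * hχγ
    rw [Finset.sum_congr rfl fun b _ => e1 b, ← Finset.mul_sum,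
      ((Equiv.mulRight₀ (2 * γ) h2γ).trans (Equiv.addLeft β)).sum_comp
        (fun u => quadraticChar F (u ^ 2 - (β ^ 2 - 4 * α * γ)))]
    by_cases hd : β ^ 2 - 4 * α * γ = 0
    · rw [if_pos hd, hd]
      simp only [sub_zero]
      rw [sum_sq]
      have e3 : (if α = 0 then quadraticChar F γ else quadraticChar F α) = quadraticChar F γ := by
        by_cases hα : α = 0
        · rw [if_pos hα]
        · rw [if_neg hα]
          have hβ : β ≠ 0 := by
            rintro rfl
            have : 4 * α * γ = 0 := by linear_combination -hd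
            exact mul_ne_zero (mul_ne_zero h4 hα) hγ this
          have e4 : quadraticChar F (2 ^ 2 * (α * γ)) = 1 := by
            have : (2 : F) ^ 2 * (α * γ) = β ^ 2 := by linear_combination -hd
            rw [this, quadraticChar_sq_one' hβ]
          rw [map_mul, map_mul, quadraticChar_sq_one' h2, one_mul] at e4
          linear_combination (quadraticChar F γ) * e4 - (quadraticChar F α) * hχγ
      rw [e3]
      ring
    · rw [if_neg hd, sum_sq_sub hF hd]
      ring

end field

section sub

variable {K : Type} [Field K] [Fintype K] {q : ℕ}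

theorem q_ge (h : Std K q) : 5 ≤ q := by
  have h1 := h.mod4
  have h2 : q ≠ 1 := by
    intro h3
    have h4 := h.card
    rw [h3, one_pow] at h4
    have := Fintype.one_lt_card (α := K)
    omega
  omega

theorem add_pow_q (h : Std K q) (a b : K) : (a + b) ^ q = a ^ q + b ^ q := by
  obtain ⟨p, hp⟩ := CharP.exists K
  obtain ⟨n, hn, hc⟩ := FiniteField.card K p
  have hp' : Fact p.Prime := ⟨hn⟩
  have h1 : q ∣ p ^ (n : ℕ) := by
    rw [← hc, h.card]
    exact dvd_pow_self q (by norm_num)
  obtain ⟨m, -, hm⟩ := (Nat.dvd_prime_pow hn).1 h1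
  rw [hm]
  exact add_pow_char_pow a b p m

/-- the subfield with `q` elements -/
def kk (h : Std K q) : Subfield K where
  carrier := {a | a ^ q = a}
  mul_mem' := by
    intro a b ha hb
    change (a * b) ^ q = a * b
    rw [mul_pow, ha, hb]
  one_mem' := one_pow q
  add_mem' := by
    intro a b ha hb
    change (a + b) ^ q = a + b
    rw [add_pow_q h, ha, hb]
  zero_mem' := by
    change (0 : K) ^ q = 0
    rw [zero_pow]
    have := q_ge h
    omega
  neg_mem' := by
    intro a ha
    change (-a) ^ q = -a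
    have hodd : Odd q := by
      rw [Nat.odd_iff]
      have := h.mod4
      omega
    rw [hodd.neg_pow, ha]
  inv_mem' := by
    intro a ha
    change (a⁻¹) ^ q = a⁻¹
    rw [inv_pow, ha]

theorem mem_kk (h : Std K q) (a : K) : a ∈ kk h ↔ a ^ q = a := Iff.rfl

theorem mem_Fq (a : K) : a ∈ Fq K q ↔ a ^ q = a := by
  unfold Fq
  simp

end sub

end Bin

open Bin

variable {K : Type} [Field K] [Fintype K] {q : ℕ}

theorem card_Fq (h : Std K q) : (Fq K q).card = q := by
  have hq := q_ge h
  have e1 : Fq K q = insert 0 ((univ.filter fun u : Kˣ => u ^ (q - 1) = 1).map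
      ⟨Units.val, Units.val_injective⟩) := by
    ext a
    rw [mem_Fq, mem_insert, mem_map]
    simp only [mem_filter, mem_univ, true_and, Function.Embedding.coeFn_mk]
    constructor
    · intro ha
      by_cases h0 : a = 0
      · exact Or.inl h0
      · right
        refine ⟨Units.mk0 a h0, ?_, rfl⟩
        apply Units.ext
        rw [Units.val_pow_eq_pow_val, Units.val_mk0, Units.val_one]
        have h1 : a ^ (q - 1) * a = 1 * a := by
          rw [← pow_succ, Nat.sub_add_cancel (by omega), ha, one_mul]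
        exact mul_right_cancel₀ h0 h1
    · rintro (rfl | ⟨u, hu, rfl⟩)
      · rw [zero_pow (by omega)]
      · have h1 : (u : K) ^ (q - 1) = 1 := by
          rw [← Units.val_pow_eq_pow_val, hu, Units.val_one]
        calc (u : K) ^ q = (u : K) ^ (q - 1) * u := by
              rw [← pow_succ, Nat.sub_add_cancel (by omega)]
          _ = u := by rw [h1, one_mul]
  have e2 : (univ.filter fun u : Kˣ => u ^ (q - 1) = 1).card = q - 1 := by
    have h1 := IsCyclic.card_powMonoidHom_ker Kˣ (q - 1)
    have h2 : Nat.card Kˣ = q ^ 6 - 1 := by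
      rw [Nat.card_units, Nat.card_eq_fintype_card, h.card]
    rw [h2] at h1
    have h3 : Nat.gcd (q ^ 6 - 1) (q - 1) = q - 1 := by
      rw [Nat.gcd_eq_right_iff_dvd]
      have := Nat.sub_dvd_pow_sub_pow q 1 6
      rwa [one_pow] at this
    rw [h3] at h1
    have h4 : Nat.card (powMonoidHom (q - 1) : Kˣ →* Kˣ).ker =
        Fintype.card {u : Kˣ // u ^ (q - 1) = 1} := by
      rw [← Nat.card_eq_fintype_card]
      exact Nat.card_congr (Equiv.subtypeEquivRight fun u => by rw [MonoidHom.mem_ker]; rfl)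
    rw [h1, Fintype.card_subtype] at h4
    exact h4.symm
  rw [e1, card_insert_of_notMem, card_map, e2]
  · omega
  · rw [mem_map]
    rintro ⟨u, -, hu⟩
    exact u.ne_zero hu

namespace Bin

theorem card_kk (h : Std K q) : Fintype.card (kk h) = q := by
  have h1 : Fintype.card (kk h) = Fintype.card (Fq K q) :=
    Fintype.card_congr (Equiv.subtypeEquivRight fun a => by rw [mem_Fq, mem_kk])
  rw [h1, Fintype.card_coe, card_Fq h]

theorem ringChar_kk (h : Std K q) : ringChar (kk h) ≠ 2 := by
  intro h1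
  have h2 := FiniteField.even_card_of_char_two h1
  rw [card_kk h] at h2
  have := h.mod4
  omega

theorem eta_coe (h : Std K q) (a : kk h) : eta q (a : K) = quadraticChar (kk h) a := by
  unfold eta
  by_cases h0 : a = 0
  · rw [h0]; simp
  · have h0' : (a : K) ≠ 0 := fun h' => h0 (Subtype.ext h')
    rw [if_neg h0', quadraticChar_eq_pow_of_char_ne_two (ringChar_kk h) h0, card_kk h]
    have h1 : (q - 1) / 2 = q / 2 := by
      have := h.mod4
      omega
    have h2 : (a : K) ^ ((q - 1) / 2) = 1 ↔ a ^ (q / 2) = 1 := by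
      rw [h1]
      constructor
      · intro h3
        exact Subtype.ext h3
      · intro h3
        exact congrArg Subtype.val h3
    by_cases h3 : (a : K) ^ ((q - 1) / 2) = 1
    · rw [if_pos h3, if_pos (h2.1 h3)]
    · rw [if_neg h3, if_neg fun h4 => h3 (h2.2 h4)]

theorem binary (h : Std K q) {α β γ : K} (hα' : α ^ q = α) (hβ' : β ^ q = β)
    (hγ' : γ ^ q = γ) :
    eta q γ + ∑ b ∈ Fq K q, eta q (α + b * β + b ^ 2 * γ) =
      if β ^ 2 - 4 * α * γ = 0 then (q : ℤ) * (if α = 0 then eta q γ else eta q α) else 0 := by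
  have hα : α ∈ kk h := (mem_kk h α).2 hα'
  have hβ : β ∈ kk h := (mem_kk h β).2 hβ'
  have hγ : γ ∈ kk h := (mem_kk h γ).2 hγ'
  have h1 := main (ringChar_kk h) (⟨α, hα⟩ : kk h) ⟨β, hβ⟩ ⟨γ, hγ⟩
  rw [card_kk h] at h1
  have e1 : ∑ b ∈ Fq K q, eta q (α + b * β + b ^ 2 * γ) =
      ∑ b : kk h, quadraticChar (kk h) (⟨α, hα⟩ + b * ⟨β, hβ⟩ + b ^ 2 * ⟨γ, hγ⟩) := by
    rw [Finset.sum_subtype (Fq K q) (p := fun a => a ∈ kk h)
      (fun a => by rw [mem_Fq, mem_kk])]
    refine Finset.sum_congr rfl fun b _ => ?_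
    exact eta_coe h (⟨α, hα⟩ + b * ⟨β, hβ⟩ + b ^ 2 * ⟨γ, hγ⟩)
  have e2 : (⟨β, hβ⟩ ^ 2 - 4 * ⟨α, hα⟩ * ⟨γ, hγ⟩ : kk h) = 0 ↔ β ^ 2 - 4 * α * γ = 0 := by
    constructor
    · intro h3
      exact congrArg Subtype.val h3
    · intro h3
      exact Subtype.ext h3
  have e3 : (⟨α, hα⟩ : kk h) = 0 ↔ α = 0 := by
    constructor
    · intro h3
      exact congrArg Subtype.val h3
    · intro h3
      exact Subtype.ext h3
  have e4 : quadraticChar (kk h) ⟨γ, hγ⟩ = eta q γ := (eta_coe h ⟨γ, hγ⟩).symm
  have e5 : quadraticChar (kk h) ⟨α, hα⟩ = eta q α := (eta_coe h ⟨α, hα⟩).symm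
  rw [← e1, e4, e5] at h1
  rw [h1]
  simp only [e2, e3]

end Bin

theorem eta_mul (h : Std K q) {a b : K} (ha : a ^ q = a) (hb : b ^ q = b) :
    eta q (a * b) = eta q a * eta q b := by
  have ha' : a ∈ kk h := (mem_kk h a).2 ha
  have hb' : b ∈ kk h := (mem_kk h b).2 hb
  have h1 := map_mul (quadraticChar (kk h)) ⟨a, ha'⟩ ⟨b, hb'⟩
  rw [← eta_coe, ← eta_coe, ← eta_coe] at h1
  exact h1

theorem eta_sq (h : Std K q) {a : K} (ha : a ^ q = a) (ha0 : a ≠ 0) : eta q (a ^ 2) = 1 := by
  have ha' : a ∈ kk h := (mem_kk h a).2 ha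
  have h1 := quadraticChar_sq_one' (F := kk h) (a := ⟨a, ha'⟩)
    (fun h' => ha0 (congrArg Subtype.val h'))
  rw [← eta_coe] at h1
  exact h1

theorem eta_neg_one (h : Std K q) : eta q (-1 : K) = 1 := by
  unfold eta
  have h1 : Even ((q - 1) / 2) := by
    rw [Nat.even_iff]
    have := h.mod4
    omega
  rw [if_neg (neg_ne_zero.2 one_ne_zero), h1.neg_one_pow, if_pos rfl]

theorem binary_sum_nondeg (h : Std K q) {α β γ : K} (hα : α ^ q = α) (hβ : β ^ q = β)
    (hγ : γ ^ q = γ) (hd : β ^ 2 - 4 * α * γ ≠ 0) :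
    eta q γ + ∑ b ∈ Fq K q, eta q (α + b * β + b ^ 2 * γ) = 0 := by
  rw [binary h hα hβ hγ, if_neg hd]

theorem binary_sum_deg (h : Std K q) {α β γ : K} (hα : α ^ q = α) (hβ : β ^ q = β)
    (hγ : γ ^ q = γ) (hd : β ^ 2 - 4 * α * γ = 0) :
    eta q γ + ∑ b ∈ Fq K q, eta q (α + b * β + b ^ 2 * γ)
      = (q : ℤ) * (if α = 0 then eta q γ else eta q α) := by
  rw [binary h hα hβ hγ, if_pos hd]

end Pool.Agent.TH501.Hemi
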