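import Mathlib
import Pool.Agent.TH501.Hemi.Defs

set_option autoImplicit false

namespace Pool.Agent.TH501.Hemi

open Finset Classical

variable {K : Type} [Field K] [Fintype K] {q : ℕ}

theorem hd_q_ge (h : Std K q) : 5 ≤ q := by
  have h1 := h.mod4
  have h2 : 1 < Fintype.card K := Fintype.one_lt_card
  rw [h.card] at h2
  by_contra hlt
  have : q = 1 := by omega
  subst this
  simp at h2

theorem hd_char (h : Std K q) : ∃ p m : ℕ, p.Prime ∧ CharP K p ∧ q = p ^ m := by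
  obtain ⟨p, hp⟩ := CharP.exists K
  have := hp
  obtain ⟨n, hpp, hn⟩ := FiniteField.card K p
  have hd : q ∣ p ^ (n : ℕ) := by
    rw [← hn, h.card]
    exact dvd_pow_self q (by norm_num)
  obtain ⟨m, -, hm⟩ := (Nat.dvd_prime_pow hpp).1 hd
  exact ⟨p, m, hpp, hp, hm⟩

theorem hd_frob_add (h : Std K q) (x y : K) : (x + y) ^ q = x ^ q + y ^ q := by
  obtain ⟨p, m, hpp, hp, hm⟩ := hd_char h
  have := hp
  have := Fact.mk hpp
  rw [hm]
  exact add_pow_char_pow x y p m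

theorem hd_frob_full (h : Std K q) (x : K) : x ^ q ^ 6 = x := by
  rw [← h.card]
  exact FiniteField.pow_card x

theorem hd_two_ne (h : Std K q) : (2 : K) ≠ 0 := by
  intro h2
  obtain ⟨p, m, hpp, hp, hm⟩ := hd_char h
  have := hp
  have : (p : ℕ) ∣ 2 := (CharP.cast_eq_zero_iff K p 2).1 (by exact_mod_cast h2)
  have hp2 : p = 2 := (Nat.prime_dvd_prime_iff_eq hpp Nat.prime_two).1 this
  subst hp2
  have h5 := hd_q_ge h
  have h4 := h.mod4
  cases m with
  | zero => simp at hm; omega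
  | succ m => rw [pow_succ] at hm; omega

theorem hd_neg_one_ne (h : Std K q) : (-1 : K) ≠ 1 := by
  intro h1
  apply hd_two_ne h
  linear_combination -h1

/-- Powers in the cyclic group of `K`. -/
theorem hd_cyc {d e : ℕ} (hde : Fintype.card K - 1 = d * e) {g : K} (hg : g ≠ 0)
    (hge : g ^ e = 1) : ∃ x : K, x ≠ 0 ∧ x ^ d = g := by
  have hcard : Nat.card Kˣ = d * e := by
    rw [Nat.card_eq_fintype_card, Fintype.card_units, hde]
  have hpos : 0 < d * e := by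
    rw [← hcard]; exact Nat.card_pos
  obtain ⟨γ, hγ⟩ := IsCyclic.exists_generator (α := Kˣ)
  obtain ⟨k, hk⟩ := (mem_powers_iff_mem_zpowers.2 (hγ (Units.mk0 g hg)))
  simp only at hk
  have hord : orderOf γ = d * e := by
    rw [← hcard]; exact orderOf_eq_card_of_forall_mem_zpowers hγ
  have h1 : γ ^ (k * e) = 1 := by
    rw [pow_mul, hk]
    ext
    simpa using hge
  have h2 : d * e ∣ k * e := by
    rw [← hord]; exact orderOf_dvd_of_pow_eq_one h1
  have he : 0 < e := Nat.pos_of_mul_pos_left hpos |> fun _ => by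
    rcases Nat.eq_zero_or_pos e with h0 | h0
    · simp [h0] at hpos
    · exact h0
  obtain ⟨j, hj⟩ := Nat.dvd_of_mul_dvd_mul_right he h2
  refine ⟨((γ ^ j : Kˣ) : K), Units.ne_zero _, ?_⟩
  have h3 : (γ ^ j) ^ d = Units.mk0 g hg := by
    rw [← pow_mul, mul_comm j d, ← hj, hk]
  have h4 := congrArg (fun u : Kˣ => (u : K)) h3
  simpa using h4

theorem lam_exists (h : Std K q) {g : K} (hg : g ^ (q + 1) = 1) :
    ∃ lam : K, lam ≠ 0 ∧ lam ^ q = g * lam := by
  have h5 := hd_q_ge h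
  have hg0 : g ≠ 0 := by
    rintro rfl
    simp at hg
  have hde : Fintype.card K - 1 = (q - 1) * ((q + 1) * (q ^ 4 + q ^ 2 + 1)) := by
    rw [h.card]
    obtain ⟨r, rfl⟩ : ∃ r, q = r + 1 := ⟨q - 1, by omega⟩
    simp only [Nat.add_sub_cancel]
    apply Nat.sub_eq_of_eq_add
    ring
  obtain ⟨x, hx0, hx⟩ := hd_cyc hde hg0 (by rw [pow_mul, hg, one_pow])
  refine ⟨x, hx0, ?_⟩
  obtain ⟨r, rfl⟩ : ∃ r, q = r + 1 := ⟨q - 1, by omega⟩
  simp only [Nat.add_sub_cancel] at hx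
  rw [pow_succ, hx]

theorem eps_exists (h : Std K q) : ∃ ε : K, ε ≠ 0 ∧ ε ^ q = - ε := by
  have h4 := h.mod4
  have hev : Even (q + 1) := by
    rw [Nat.even_iff]; omega
  obtain ⟨x, hx0, hx⟩ := lam_exists h (g := (-1 : K)) (by rw [hev.neg_one_pow])
  exact ⟨x, hx0, by rw [hx]; ring⟩

theorem card_mu (h : Std K q) : (mu K q).card = q ^ 3 + 1 := by
  have h5 := hd_q_ge h
  have hgcd : (Nat.card Kˣ).gcd (q ^ 3 + 1) = q ^ 3 + 1 := by
    apply Nat.gcd_eq_right
    rw [Nat.card_eq_fintype_card, Fintype.card_units, h.card]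
    refine ⟨q ^ 3 - 1, ?_⟩
    have h1 : 1 ≤ q ^ 3 := Nat.one_le_pow _ _ (by omega)
    obtain ⟨r, hr⟩ : ∃ r, q ^ 3 = r + 1 := ⟨q ^ 3 - 1, by omega⟩
    have h6 : q ^ 6 = (q ^ 3) ^ 2 := by ring
    rw [h6, hr]
    simp only [Nat.add_sub_cancel]
    apply Nat.sub_eq_of_eq_add
    ring
  rw [← hgcd, ← IsCyclic.card_powMonoidHom_ker (G := Kˣ) (q ^ 3 + 1), Nat.card_eq_fintype_card,
    ← Fintype.card_coe]
  apply Fintype.card_congr
  refine ⟨fun s => ⟨Units.mk0 s.1 ?_, ?_⟩, fun u => ⟨((u : Kˣ) : K), ?_⟩, ?_, ?_⟩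
  · rintro h0
    have := s.2
    simp only [mu, mem_filter, mem_univ, true_and] at this
    rw [h0] at this
    simp at this
  · have := s.2
    simp only [mu, mem_filter, mem_univ, true_and] at this
    rw [MonoidHom.mem_ker]
    ext
    simpa using this
  · have := u.2
    rw [MonoidHom.mem_ker] at this
    have h2 := congrArg (fun u : Kˣ => (u : K)) this
    simp only [mu, mem_filter, mem_univ, true_and]
    simpa using h2
  · intro s
    rfl
  · intro u
    ext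
    rfl

/-- Basic facts on an element of `mu`. -/
theorem hd_mu_facts (_h : Std K q) {S : K} (hS : S ∈ mu K q) :
    S ≠ 0 ∧ S ^ q ^ 3 = S⁻¹ ∧ S ^ q ^ 4 = (S ^ q)⁻¹ ∧ S ^ q ^ 5 = (S ^ q ^ 2)⁻¹ := by
  simp only [mu, mem_filter, mem_univ, true_and] at hS
  have h0 : S ≠ 0 := by
    rintro rfl
    simp at hS
  have h3 : S ^ q ^ 3 = S⁻¹ := by
    rw [pow_succ] at hS
    exact eq_inv_of_mul_eq_one_left hS
  refine ⟨h0, h3, ?_, ?_⟩
  · rw [show q ^ 4 = q ^ 3 * q by ring, pow_mul, h3, inv_pow]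
  · rw [show q ^ 5 = q ^ 3 * q ^ 2 by ring, pow_mul, h3, inv_pow]

theorem hd_N3 (h : Std K q) {S : K} (hS : S ∈ mu K q) :
    N3 q S = S * S ^ q ^ 2 / S ^ q := by
  obtain ⟨h0, h3, h4, h5⟩ := hd_mu_facts h hS
  unfold N3
  rw [h4, div_eq_mul_inv]

theorem hd_rho (h : Std K q) {S : K} (hS : S ∈ mu K q) :
    S / N3 q S = S ^ q / S ^ q ^ 2 := by
  obtain ⟨h0, h3, h4, h5⟩ := hd_mu_facts h hS
  rw [hd_N3 h hS]
  have h1 : S ^ q ≠ 0 := pow_ne_zero _ h0
  have h2 : S ^ q ^ 2 ≠ 0 := pow_ne_zero _ h0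
  field_simp

theorem hd_half (h : Std K q) : ∃ j : ℕ, (q ^ 3 + 1) / 2 = 2 * j + 1 ∧ q ^ 3 + 1 = 2 * (2 * j + 1) := by
  have h4 := h.mod4
  have h1 : q ^ 3 % 4 = 1 := by
    rw [Nat.pow_mod, h4]
  exact ⟨(q ^ 3 - 1) / 4, by omega, by omega⟩

theorem hd_pm (h : Std K q) {S : K} (hS : S ∈ mu K q) :
    S ^ ((q ^ 3 + 1) / 2) = 1 ∨ S ^ ((q ^ 3 + 1) / 2) = -1 := by
  obtain ⟨j, hj1, hj2⟩ := hd_half h
  simp only [mu, mem_filter, mem_univ, true_and] at hS
  rw [hj1]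
  rw [hj2, mul_comm, pow_mul] at hS
  exact sq_eq_one_iff.1 hS

theorem hd_odd (h : Std K q) : Odd q := by
  have h4 := h.mod4
  rw [Nat.odd_iff]; omega

theorem hd_chi2_eq_one (_h : Std K q) {s : K} :
    chi2 q s = 1 ↔ s ^ ((q ^ 3 + 1) / 2) = 1 := by
  unfold chi2
  split_ifs with h1
  · simp [h1]
  · simp [h1]

theorem hd_mul_mem {s t : K} (hs : s ∈ mu K q) (ht : t ∈ mu K q) : s * t ∈ mu K q := by
  simp only [mu, mem_filter, mem_univ, true_and] at *
  rw [mul_pow, hs, ht, one_mul]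

theorem hd_inv_mem {s : K} (hs : s ∈ mu K q) : s⁻¹ ∈ mu K q := by
  simp only [mu, mem_filter, mem_univ, true_and] at *
  rw [inv_pow, hs, inv_one]

theorem hd_pow_mem {s : K} (hs : s ∈ mu K q) (n : ℕ) : s ^ n ∈ mu K q := by
  simp only [mu, mem_filter, mem_univ, true_and] at *
  rw [← pow_mul, mul_comm, pow_mul, hs, one_pow]

theorem chi2_mul (h : Std K q) {s t : K} (hs : s ∈ mu K q) (ht : t ∈ mu K q) :
    chi2 q (s * t) = chi2 q s * chi2 q t := by
  have hne := hd_neg_one_ne h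
  unfold chi2
  rw [mul_pow]
  rcases hd_pm h hs with h1 | h1 <;> rcases hd_pm h ht with h2 | h2 <;> rw [h1, h2] <;>
    simp [hne]

theorem hd_pm_frob (h : Std K q) {S : K} (hS : S ∈ mu K q) (n : ℕ) :
    (S ^ q ^ n) ^ ((q ^ 3 + 1) / 2) = S ^ ((q ^ 3 + 1) / 2) := by
  have ho : Odd (q ^ n) := (hd_odd h).pow
  rw [← pow_mul, mul_comm, pow_mul]
  rcases hd_pm h hS with h1 | h1
  · rw [h1, one_pow]
  · rw [h1, ho.neg_one_pow]

theorem chi2_div_N3 (h : Std K q) {S : K} (hS : S ∈ mu K q) : chi2 q (S / N3 q S) = 1 := by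
  rw [hd_chi2_eq_one h, hd_rho h hS, div_pow, hd_pm_frob h hS 2]
  have h1 := hd_pm_frob h hS 1
  rw [pow_one] at h1
  rw [h1]
  apply div_self
  exact pow_ne_zero _ (hd_mu_facts h hS).1

theorem chi2_N3_mul (h : Std K q) {S : K} (hS : S ∈ mu K q) : chi2 q (N3 q S * S) = 1 := by
  have h1 := hd_pm_frob h hS 1
  rw [pow_one] at h1
  have h0 := pow_ne_zero ((q ^ 3 + 1) / 2) (hd_mu_facts h hS).1
  rw [hd_chi2_eq_one h, hd_N3 h hS, mul_pow, div_pow, mul_pow, hd_pm_frob h hS 2, h1]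
  rcases hd_pm h hS with h1 | h1 <;> rw [h1] <;> simp

/-- The inverse-like map: `psi r = r r^q / r^(q^2)`. -/
theorem hd_psi_rho (h : Std K q) {S : K} (hS : S ∈ mu K q) :
    (S / N3 q S) * (S / N3 q S) ^ q / (S / N3 q S) ^ q ^ 2 = S ^ 2 := by
  obtain ⟨h0, h3, h4, h5⟩ := hd_mu_facts h hS
  have h1 : S ^ q ≠ 0 := pow_ne_zero _ h0
  have h2 : S ^ q ^ 2 ≠ 0 := pow_ne_zero _ h0
  rw [hd_rho h hS, div_pow, div_pow, ← pow_mul, ← pow_mul, ← pow_mul, ← pow_mul,
    show q * q = q ^ 2 by ring, show q ^ 2 * q = q ^ 3 by ring, show q * q ^ 2 = q ^ 3 by ring,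
    show q ^ 2 * q ^ 2 = q ^ 4 by ring, h3, h4]
  field_simp

theorem hd_rho_psi (h : Std K q) {t : K} (ht : t ∈ mu K q) :
    (t * t ^ q / t ^ q ^ 2) / N3 q (t * t ^ q / t ^ q ^ 2) = t ^ 2 := by
  have hm : t * t ^ q / t ^ q ^ 2 ∈ mu K q := by
    rw [div_eq_mul_inv]
    exact hd_mul_mem (hd_mul_mem ht (hd_pow_mem ht _)) (hd_inv_mem (hd_pow_mem ht _))
  obtain ⟨h0, h3, h4, h5⟩ := hd_mu_facts h ht
  have h1 : t ^ q ≠ 0 := pow_ne_zero _ h0
  have h2 : t ^ q ^ 2 ≠ 0 := pow_ne_zero _ h0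
  rw [hd_rho h hm, div_pow, div_pow, mul_pow, mul_pow, ← pow_mul, ← pow_mul, ← pow_mul, ← pow_mul,
    show q * q = q ^ 2 by ring, show q ^ 2 * q = q ^ 3 by ring, show q * q ^ 2 = q ^ 3 by ring,
    show q ^ 2 * q ^ 2 = q ^ 4 by ring, h3, h4]
  field_simp

theorem two_to_one (h : Std K q) (G : K → ℤ) :
    ∑ S ∈ mu K q, G (S / N3 q S) = 2 * ∑ s ∈ (mu K q).filter (fun s => chi2 q s = 1), G s := by
  have hmaps : ∀ S ∈ mu K q, S / N3 q S ∈ (mu K q).filter (fun s => chi2 q s = 1) := by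
    intro S hS
    rw [mem_filter]
    refine ⟨?_, chi2_div_N3 h hS⟩
    rw [hd_rho h hS, div_eq_mul_inv]
    exact hd_mul_mem (hd_pow_mem hS _) (hd_inv_mem (hd_pow_mem hS _))
  rw [← Finset.sum_fiberwise_of_maps_to hmaps, Finset.mul_sum]
  apply Finset.sum_congr rfl
  intro s hs
  rw [mem_filter] at hs
  obtain ⟨hsm, hs1⟩ := hs
  have hcard : ((mu K q).filter (fun S => S / N3 q S = s)).card = 2 := by
    obtain ⟨j, hj1, hj2⟩ := hd_half h
    rw [hd_chi2_eq_one h, hj1] at hs1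
    -- a square root
    have hst : (s ^ (j + 1)) ^ 2 = s := by
      rw [← pow_mul, show (j + 1) * 2 = (2 * j + 1) + 1 by ring, pow_succ, hs1, one_mul]
    set t : K := s ^ (j + 1) with ht
    have htm : t ∈ mu K q := hd_pow_mem hsm _
    set S0 : K := t * t ^ q / t ^ q ^ 2 with hS0
    have hS0m : S0 ∈ mu K q := by
      rw [hS0, div_eq_mul_inv]
      exact hd_mul_mem (hd_mul_mem htm (hd_pow_mem htm _)) (hd_inv_mem (hd_pow_mem htm _))
    have hS0s : S0 / N3 q S0 = s := by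
      rw [hS0, hd_rho_psi h htm, hst]
    have hS00 : S0 ≠ 0 := (hd_mu_facts h hS0m).1
    have hneg1 : (-1 : K) ∈ mu K q := by
      simp only [mu, mem_filter, mem_univ, true_and]
      rw [hj2, pow_mul]
      simp
    have hnm : -S0 ∈ mu K q := by
      have := hd_mul_mem hneg1 hS0m
      rwa [neg_one_mul] at this
    have hns : (-S0) / N3 q (-S0) = s := by
      rw [← hS0s, hd_rho h hnm, hd_rho h hS0m, (hd_odd h).neg_pow, ((hd_odd h).pow).neg_pow,
        neg_div_neg_eq]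
    have hset : (mu K q).filter (fun S => S / N3 q S = s) = {S0, -S0} := by
      ext S
      rw [mem_filter, mem_insert, mem_singleton]
      constructor
      · rintro ⟨hSm, hSs⟩
        have e1 := hd_psi_rho h hSm
        have e2 := hd_psi_rho h hS0m
        rw [hSs] at e1
        rw [hS0s] at e2
        exact sq_eq_sq_iff_eq_or_eq_neg.1 (e1.symm.trans e2)
      · rintro (rfl | rfl)
        · exact ⟨hS0m, hS0s⟩
        · exact ⟨hnm, hns⟩
    rw [hset, card_pair]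
    intro hc
    apply hd_two_ne h
    have : (2 : K) * S0 = 0 := by linear_combination hc
    exact (mul_eq_zero.1 this).resolve_right hS00
  rw [Finset.sum_congr rfl (g := fun _ => G s) (fun S hS => by rw [(mem_filter.1 hS).2]),
    Finset.sum_const, hcard]
  simp

theorem th_exists (h : Std K q) : ∃ th : K, th ^ 2 = 3 ∧ th ^ q = - th := by
  have h4 := h.mod4
  have h5 := hd_q_ge h
  have h2 := hd_two_ne h
  by_cases h3 : (3 : K) = 0
  · refine ⟨0, by rw [h3]; simp, ?_⟩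
    rw [zero_pow (by omega)]; simp
  have hi : ∃ i : K, i ^ 2 = -1 ∧ i ^ q = i := by
    have hsq : IsSquare (-1 : K) := by
      rw [FiniteField.isSquare_neg_one_iff, h.card]
      rw [Nat.pow_mod, h4]
      norm_num
    obtain ⟨i, hi⟩ := hsq
    refine ⟨i, by rw [hi]; ring, ?_⟩
    obtain ⟨r, hr⟩ : ∃ r, q = 2 * (2 * r) + 1 := ⟨q / 4, by omega⟩
    rw [hr, pow_succ, pow_mul, show i ^ 2 = -1 by rw [hi]; ring, pow_mul]
    simp
  obtain ⟨i, hi2, hiq⟩ := hi
  -- the integer 3 is fixed by Frobenius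
  have h3q : (3 : K) ^ q = 3 := by
    have h1 : (2 : K) ^ q = 2 := by
      rw [show (2 : K) = 1 + 1 by norm_num, hd_frob_add h, one_pow]
    rw [show (3 : K) = 2 + 1 by norm_num, hd_frob_add h, one_pow, h1]
  have h3e : (3 : K) ^ ((q - 1) * (((q + 1) / 2) * (q ^ 4 + q ^ 2 + 1))) = 1 := by
    have : (3 : K) ^ (q - 1) = 1 := by
      obtain ⟨r, hr⟩ : ∃ r, q = r + 1 := ⟨q - 1, by omega⟩
      rw [hr, pow_succ] at h3q
      rw [hr, Nat.add_sub_cancel]
      exact mul_right_cancel₀ h3 (by rw [h3q, one_mul])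
    rw [pow_mul, this, one_pow]
  obtain ⟨th, hth0, hth⟩ := hd_cyc (K := K) (d := 2)
    (e := (q - 1) * (((q + 1) / 2) * (q ^ 4 + q ^ 2 + 1))) (by
      rw [h.card]
      obtain ⟨r, hr⟩ : ∃ r, q = 2 * r + 1 := ⟨q / 2, by omega⟩
      rw [show (q + 1) / 2 = r + 1 by omega, show q - 1 = 2 * r by omega]
      apply Nat.sub_eq_of_eq_add
      rw [hr]
      ring) h3 h3e
  refine ⟨th, hth, ?_⟩
  have hthq : (th ^ q) ^ 2 = th ^ 2 := by
    rw [← pow_mul, mul_comm, pow_mul, hth, h3q]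
  rcases sq_eq_sq_iff_eq_or_eq_neg.1 hthq with h6 | h6
  · exfalso
    -- a cube root of unity in the field with q elements
    set ω : K := (-1 + i * th) / 2 with hω
    have hω1 : ω ^ 3 = 1 := by
      rw [hω]
      field_simp
      have e1 : (i * th) ^ 2 = -3 := by rw [mul_pow, hi2, hth]; ring
      linear_combination (-3 + i * th) * e1
    have hωq : ω ^ q = ω := by
      have e2 : (2 : K) ^ q = 2 := by
        rw [show (2 : K) = 1 + 1 by norm_num, hd_frob_add h, one_pow]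
      rw [hω, div_pow, e2, hd_frob_add h, (hd_odd h).neg_one_pow, mul_pow, hiq, h6]
    have hω0 : ω ≠ 0 := by
      intro h0
      rw [h0] at hω1
      simp at hω1
    have hωq1 : ω ^ (q - 1) = 1 := by
      obtain ⟨r, hr⟩ : ∃ r, q = r + 1 := ⟨q - 1, by omega⟩
      rw [hr, pow_succ] at hωq
      rw [hr, Nat.add_sub_cancel]
      exact mul_right_cancel₀ hω0 (by rw [hωq, one_mul])
    have hm3 := h.mod3
    have hω2 : ω = 1 := by
      have hd1 : orderOf ω ∣ 3 := orderOf_dvd_of_pow_eq_one hω1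
      have hd2 : orderOf ω ∣ q - 1 := orderOf_dvd_of_pow_eq_one hωq1
      rcases (Nat.dvd_prime Nat.prime_three).1 hd1 with h7 | h7
      · exact orderOf_eq_one_iff.1 h7
      · rw [h7] at hd2
        omega
    rw [hω2] at hω
    have e3 : i * th = 3 := by
      field_simp at hω
      linear_combination -hω
    have e4 : (3 : K) * (2 * 2) = 0 := by
      have e1 : (i * th) ^ 2 = -3 := by rw [mul_pow, hi2, hth]; ring
      rw [e3] at e1
      linear_combination e1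
    rcases mul_eq_zero.1 e4 with h8 | h8
    · exact h3 h8
    · rcases mul_eq_zero.1 h8 with h9 | h9 <;> exact h2 h9
  · exact h6

end Pool.Agent.TH501.Hemi
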