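import Mathlib
import Pool.Agent.TH501.Hemi.Defs

set_option autoImplicit false

namespace Pool.Agent.TH501.Hemi

open Finset Classical

variable {K : Type} [Field K] [Fintype K] {q : ℕ}

/-- The Frobenius `x ↦ x ^ q` as a ring homomorphism of order six. -/
theorem ops_frob (h : Std K q) : ∃ φ : K →+* K, (∀ x, x ^ q = φ x) ∧
    (∀ x, x ^ q ^ 2 = φ (φ x)) ∧ (∀ x, x ^ q ^ 3 = φ (φ (φ x))) ∧
    (∀ x, x ^ q ^ 4 = φ (φ (φ (φ x)))) ∧ (∀ x, φ (φ (φ (φ (φ (φ x))))) = x) := by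
  obtain ⟨p, hp⟩ := CharP.exists K
  haveI := hp
  obtain ⟨n, hpr, hn⟩ := FiniteField.card K p
  haveI : Fact p.Prime := ⟨hpr⟩
  haveI : ExpChar K p := ExpChar.prime hpr
  have hq6 : q ^ 6 = p ^ (n : ℕ) := by rw [← h.card, hn]
  have hd : q ∣ p ^ (n : ℕ) := by rw [← hq6]; exact dvd_pow_self q (by norm_num)
  obtain ⟨m, -, hm⟩ := (Nat.dvd_prime_pow hpr).1 hd
  have e1 : ∀ x : K, iterateFrobenius K p m x = x ^ q := fun x => by
    rw [iterateFrobenius_def, hm]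
  refine ⟨iterateFrobenius K p m, fun x => (e1 x).symm, fun x => ?_, fun x => ?_, fun x => ?_,
    fun x => ?_⟩
  · simp only [e1, ← pow_mul]; congr 1; ring
  · simp only [e1, ← pow_mul]; congr 1; ring
  · simp only [e1, ← pow_mul]; congr 1; ring
  · simp only [e1, ← pow_mul]
    have : q * q * q * q * q * q = Fintype.card K := by rw [h.card]; ring
    rw [this]
    exact FiniteField.pow_card x

/-- The values of the Frobenius on `mu`. -/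
theorem ops_mu {s : K} (hs : s ∈ mu K q) : s ≠ 0 ∧ s ^ q ^ 3 = s⁻¹ := by
  have h1 : s ^ (q ^ 3 + 1) = 1 := by simpa [mu] using hs
  have h0 : s ≠ 0 := by
    rintro rfl
    rw [zero_pow (by omega)] at h1
    exact zero_ne_one h1
  refine ⟨h0, ?_⟩
  rw [pow_succ] at h1
  exact eq_inv_of_mul_eq_one_left h1

theorem Af_add (h : Std K q) (th s u v : K) :
    Af q th s (u + v) = Af q th s u + Af q th s v := by
  obtain ⟨φ, h1, h2, h3, h4, h6⟩ := ops_frob h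
  simp only [Af, Ap, N3, h2, h3, h4, map_mul, map_add, map_div₀]
  ring

theorem Af_smul (h : Std K q) (th s : K) {a : K} (ha : a ^ q = a) (u : K) :
    Af q th s (a * u) = a * Af q th s u := by
  obtain ⟨φ, h1, h2, h3, h4, h6⟩ := ops_frob h
  have ha' : φ a = a := by rw [← h1]; exact ha
  simp only [Af, Ap, N3, h2, h3, h4, map_mul, map_add, map_div₀, ha']
  ring

/-- The action of the Frobenius on the coordinates. -/
theorem ops_coord (h : Std K q) {s : K} (hs : s ∈ mu K q) {φ : K →+* K}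
    (h1 : ∀ x, x ^ q = φ x) (h3 : ∀ x, x ^ q ^ 3 = φ (φ (φ x)))
    (h6 : ∀ x, φ (φ (φ (φ (φ (φ x))))) = x) (u : K) :
    ∃ N y0 y1 y2 z0 z1 z2 : K, s ≠ 0 ∧ N ≠ 0 ∧ N = s * φ (φ s) * φ (φ (φ (φ s))) ∧
      y0 = s * u ∧ y1 = φ (φ y0) ∧ y2 = φ (φ (φ (φ y0))) ∧
      z0 = φ (φ (φ u)) / s ∧ z1 = φ (φ z0) ∧ z2 = φ (φ (φ (φ z0))) ∧
      φ N = N⁻¹ ∧ φ y0 = z2 ∧ φ y1 = z0 ∧ φ y2 = z1 ∧ φ z0 = y2 ∧ φ z1 = y0 ∧ φ z2 = y1 := by
  obtain ⟨s0, s3⟩ := ops_mu hs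
  rw [h3] at s3
  have n1 : φ s ≠ 0 := by simpa using s0
  have n2 : φ (φ s) ≠ 0 := by simpa using s0
  refine ⟨_, _, _, _, _, _, _, s0, ?_, rfl, rfl, rfl, rfl, rfl, rfl, rfl, ?_, ?_, ?_, ?_, ?_, ?_, ?_⟩
  · simp [s0]
  · simp only [map_mul, s3, map_inv₀]
    field_simp
  · simp only [map_mul, map_div₀, s3, map_inv₀, h6]
    field_simp
  · simp only [map_mul, map_div₀, s3, map_inv₀, h6]
    field_simp
  · simp only [map_mul, map_div₀, s3, map_inv₀, h6]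
    field_simp
  · simp only [map_mul, map_div₀, s3, map_inv₀, h6]
    field_simp
  · simp only [map_mul, map_div₀, s3, map_inv₀, h6]
    field_simp
  · simp only [map_mul, map_div₀, s3, map_inv₀, h6]
    field_simp

theorem ops_sq {N th y0 y1 y2 z0 z1 z2 : K} (hN : N ≠ 0) (hth : th ^ 2 = 3) :
    Ap th N (Ap th N y2 y0 z1 z2 z0) (Ap th N y0 y1 z2 z0 z1)
      (Ap (-th) N⁻¹ z1 z2 y0 y1 y2) (Ap (-th) N⁻¹ z2 z0 y1 y2 y0)
      (Ap (-th) N⁻¹ z0 z1 y2 y0 y1) = 4 * (1 + N) ^ 2 / N * y0 := by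
  simp only [Ap]
  field_simp
  linear_combination (N * (y1 + y2 - 2 * y0)) * hth

/-- The Frobenius images of `a_0`. -/
theorem ops_a {φ : K →+* K} {th N y0 y1 y2 z0 z1 z2 : K} (hth : φ th = -th)
    (f1 : φ N = N⁻¹) (f2 : φ y0 = z2) (f3 : φ y1 = z0) (f4 : φ y2 = z1) (f5 : φ z0 = y2)
    (f6 : φ z1 = y0) (f7 : φ z2 = y1) :
    φ (φ (Ap th N y1 y2 z0 z1 z2)) = Ap th N y2 y0 z1 z2 z0 ∧
    φ (φ (Ap th N y2 y0 z1 z2 z0)) = Ap th N y0 y1 z2 z0 z1 ∧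
    φ (φ (φ (Ap th N y1 y2 z0 z1 z2))) = Ap (-th) N⁻¹ z1 z2 y0 y1 y2 ∧
    φ (φ (Ap (-th) N⁻¹ z1 z2 y0 y1 y2)) = Ap (-th) N⁻¹ z2 z0 y1 y2 y0 ∧
    φ (φ (Ap (-th) N⁻¹ z2 z0 y1 y2 y0)) = Ap (-th) N⁻¹ z0 z1 y2 y0 y1 := by
  refine ⟨?_, ?_, ?_, ?_, ?_⟩ <;>
    simp only [Ap, map_sub, map_add, map_mul, map_neg, map_inv₀, map_ofNat, map_one, hth, f1, f2,
      f3, f4, f5, f6, f7, inv_inv, neg_neg]

theorem Af_sq (h : Std K q) {th s : K} (hth : th ^ 2 = 3) (hth' : th ^ q = - th)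
    (hs : s ∈ mu K q) (u : K) :
    Af q th s (Af q th s u) = 4 * (1 + N3 q s) ^ 2 / N3 q s * u := by
  obtain ⟨φ, h1, h2, h3, h4, h6⟩ := ops_frob h
  rw [h1] at hth'
  obtain ⟨s0, s3⟩ := ops_mu hs
  obtain ⟨N, y0, y1, y2, z0, z1, z2, -, hN0, hN, e1, e2, e3, e4, e5, e6, f1, f2, f3, f4, f5, f6,
    f7⟩ := ops_coord h hs h1 h3 h6 u
  have g2 : φ (φ y0) = y1 := e2.symm
  have g3 : φ (φ y1) = y2 := by rw [e3, ← e2]
  have g5 : φ (φ z0) = z1 := e5.symm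
  have g6 : φ (φ z1) = z2 := by rw [e6, ← e5]
  obtain ⟨a1, a2, a3, a4, a5⟩ := ops_a hth' f1 f2 f3 f4 f5 f6 f7
  have hA : Af q th s u = s⁻¹ * Ap th N y1 y2 z0 z1 z2 := by
    simp only [Af, N3, h2, h3, h4]
    rw [← hN, ← e1, ← e4, g2, g3, g5, g6]
  have hy : s * (s⁻¹ * Ap th N y1 y2 z0 z1 z2) = Ap th N y1 y2 z0 z1 z2 := by
    field_simp
  have hz : φ (φ (φ (s⁻¹ * Ap th N y1 y2 z0 z1 z2))) / s = Ap (-th) N⁻¹ z1 z2 y0 y1 y2 := by
    rw [h3] at s3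
    simp only [map_mul, map_inv₀, s3, a3, inv_inv]
    field_simp
  rw [hA]
  simp only [Af, N3, h2, h3, h4]
  rw [hy, hz, ← hN, a1, a2, a4, a5, ops_sq hN0 hth, e1]
  field_simp

theorem Af_adj (h : Std K q) {th s : K} (hth' : th ^ q = - th)
    (hs : s ∈ mu K q) (u v : K) : Bf q (Af q th s u) v = Bf q u (Af q th s v) := by
  obtain ⟨φ, h1, h2, h3, h4, h6⟩ := ops_frob h
  rw [h1] at hth'
  obtain ⟨s0, s3⟩ := ops_mu hs
  rw [h3] at s3
  obtain ⟨N, y0, y1, y2, z0, z1, z2, -, hN0, hN, e1, e2, e3, e4, e5, e6, f1, f2, f3, f4, f5, f6,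
    f7⟩ := ops_coord h hs h1 h3 h6 u
  have g2 : φ (φ y0) = y1 := e2.symm
  have g3 : φ (φ y1) = y2 := by rw [e3, ← e2]
  have g5 : φ (φ z0) = z1 := e5.symm
  have g6 : φ (φ z1) = z2 := by rw [e6, ← e5]
  obtain ⟨N', y0', y1', y2', z0', z1', z2', -, -, hN', e1', e2', e3', e4', e5', e6', f1', f2', f3',
    f4', f5', f6', f7'⟩ := ops_coord h hs h1 h3 h6 v
  have g2' : φ (φ y0') = y1' := e2'.symm
  have g3' : φ (φ y1') = y2' := by rw [e3', ← e2']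
  have g5' : φ (φ z0') = z1' := e5'.symm
  have g6' : φ (φ z1') = z2' := by rw [e6', ← e5']
  have hNN : N' = N := by rw [hN, hN']
  subst hNN
  obtain ⟨a1, a2, a3, a4, a5⟩ := ops_a hth' f1 f2 f3 f4 f5 f6 f7
  obtain ⟨b1, b2, b3, b4, b5⟩ := ops_a hth' f1' f2' f3' f4' f5' f6' f7'
  have hA : Af q th s u = s⁻¹ * Ap th N' y1 y2 z0 z1 z2 := by
    simp only [Af, N3, h2, h3, h4]
    rw [← hN, ← e1, ← e4, g2, g3, g5, g6]
  have hB : Af q th s v = s⁻¹ * Ap th N' y1' y2' z0' z1' z2' := by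
    simp only [Af, N3, h2, h3, h4]
    rw [← hN', ← e1', ← e4', g2', g3', g5', g6']
  have c1 : s⁻¹ * Ap th N' y1 y2 z0 z1 z2 * φ (φ (φ v)) +
      φ (φ (φ (s⁻¹ * Ap th N' y1 y2 z0 z1 z2))) * v
      = Ap th N' y1 y2 z0 z1 z2 * z0' + Ap (-th) N'⁻¹ z1 z2 y0 y1 y2 * y0' := by
    rw [e4', e1']
    simp only [map_mul, map_inv₀, s3, a3, inv_inv]
    field_simp
  have c2 : u * φ (φ (φ (s⁻¹ * Ap th N' y1' y2' z0' z1' z2'))) +
      φ (φ (φ u)) * (s⁻¹ * Ap th N' y1' y2' z0' z1' z2')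
      = Ap (-th) N'⁻¹ z1' z2' y0' y1' y2' * y0 + Ap th N' y1' y2' z0' z1' z2' * z0 := by
    rw [e4, e1]
    simp only [map_mul, map_inv₀, s3, b3, inv_inv]
    field_simp
  rw [hA, hB]
  simp only [Bf, T3, h2, h3, h4]
  rw [c1, c2]
  simp only [map_add, map_mul, a1, a2, a4, a5, b1, b2, b4, b5, g2, g3, g5, g6, g2', g3', g5', g6']
  simp only [Ap]
  field_simp
  ring

theorem Rf_eq (h : Std K q) {th s : K} (hth' : th ^ q = - th) (hs : s ∈ mu K q) (u : K) :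
    2 * Rf q th s u = Bf q (Af q th s u) u := by
  obtain ⟨φ, h1, h2, h3, h4, h6⟩ := ops_frob h
  rw [h1] at hth'
  obtain ⟨s0, s3⟩ := ops_mu hs
  rw [h3] at s3
  obtain ⟨N, y0, y1, y2, z0, z1, z2, -, hN0, hN, e1, e2, e3, e4, e5, e6, f1, f2, f3, f4, f5, f6,
    f7⟩ := ops_coord h hs h1 h3 h6 u
  have g2 : φ (φ y0) = y1 := e2.symm
  have g3 : φ (φ y1) = y2 := by rw [e3, ← e2]
  have g5 : φ (φ z0) = z1 := e5.symm
  have g6 : φ (φ z1) = z2 := by rw [e6, ← e5]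
  obtain ⟨a1, a2, a3, a4, a5⟩ := ops_a hth' f1 f2 f3 f4 f5 f6 f7
  have hA : Af q th s u = s⁻¹ * Ap th N y1 y2 z0 z1 z2 := by
    simp only [Af, N3, h2, h3, h4]
    rw [← hN, ← e1, ← e4, g2, g3, g5, g6]
  have hR : Rf q th s u = Rp th N y0 y1 y2 z0 z1 z2 := by
    simp only [Rf, N3, h2, h3, h4]
    rw [← hN, ← e1, ← e4, g2, g3, g5, g6]
  have c1 : s⁻¹ * Ap th N y1 y2 z0 z1 z2 * φ (φ (φ u)) +
      φ (φ (φ (s⁻¹ * Ap th N y1 y2 z0 z1 z2))) * u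
      = Ap th N y1 y2 z0 z1 z2 * z0 + Ap (-th) N⁻¹ z1 z2 y0 y1 y2 * y0 := by
    have t4 : φ (φ (φ u)) = s * z0 := by rw [e4]; field_simp
    have t1 : u = s⁻¹ * y0 := by rw [e1]; field_simp
    simp only [map_mul, map_inv₀, s3, a3, inv_inv]
    rw [t4, t1]
    field_simp
  rw [hA, hR]
  simp only [Bf, T3, h2, h3, h4]
  rw [c1]
  simp only [map_add, map_mul, a1, a2, a4, a5, g2, g3, g5, g6]
  simp only [Ap, Rp]
  field_simp
  ring

theorem Rf_real (h : Std K q) {th s : K} (hth' : th ^ q = - th) (hs : s ∈ mu K q) (u : K) :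
    Rf q th s u ^ q = Rf q th s u := by
  obtain ⟨φ, h1, h2, h3, h4, h6⟩ := ops_frob h
  rw [h1] at hth'
  obtain ⟨N, y0, y1, y2, z0, z1, z2, -, hN0, hN, e1, e2, e3, e4, e5, e6, f1, f2, f3, f4, f5, f6,
    f7⟩ := ops_coord h hs h1 h3 h6 u
  have g2 : φ (φ y0) = y1 := e2.symm
  have g3 : φ (φ y1) = y2 := by rw [e3, ← e2]
  have g5 : φ (φ z0) = z1 := e5.symm
  have g6 : φ (φ z1) = z2 := by rw [e6, ← e5]
  have hR : Rf q th s u = Rp th N y0 y1 y2 z0 z1 z2 := by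
    simp only [Rf, N3, h2, h3, h4]
    rw [← hN, ← e1, ← e4, g2, g3, g5, g6]
  rw [hR, h1]
  simp only [Rp, map_sub, map_add, map_mul, map_pow, map_inv₀, map_ofNat, hth', f1, f2, f3, f4, f5,
    f6, f7, inv_inv]
  ring

theorem Rf_smul (h : Std K q) (th s : K) {a : K} (ha : a ^ q = a) (u : K) :
    Rf q th s (a * u) = a ^ 2 * Rf q th s u := by
  obtain ⟨φ, h1, h2, h3, h4, h6⟩ := ops_frob h
  have ha' : φ a = a := by rw [← h1]; exact ha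
  simp only [Rf, Rp, N3, h2, h3, h4, map_mul, map_add, map_div₀, ha']
  ring

theorem Rf_add (h : Std K q) {th s : K} (hth' : th ^ q = - th) (hs : s ∈ mu K q) (u v : K) :
    Rf q th s (u + v) = Rf q th s u + Rf q th s v + Bf q (Af q th s u) v := by
  obtain ⟨φ, h1, h2, h3, h4, h6⟩ := ops_frob h
  rw [h1] at hth'
  obtain ⟨s0, s3⟩ := ops_mu hs
  rw [h3] at s3
  obtain ⟨N, y0, y1, y2, z0, z1, z2, -, hN0, hN, e1, e2, e3, e4, e5, e6, f1, f2, f3, f4, f5, f6,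
    f7⟩ := ops_coord h hs h1 h3 h6 u
  have g2 : φ (φ y0) = y1 := e2.symm
  have g3 : φ (φ y1) = y2 := by rw [e3, ← e2]
  have g5 : φ (φ z0) = z1 := e5.symm
  have g6 : φ (φ z1) = z2 := by rw [e6, ← e5]
  obtain ⟨N', y0', y1', y2', z0', z1', z2', -, -, hN', e1', e2', e3', e4', e5', e6', f1', f2', f3',
    f4', f5', f6', f7'⟩ := ops_coord h hs h1 h3 h6 v
  have g2' : φ (φ y0') = y1' := e2'.symm
  have g3' : φ (φ y1') = y2' := by rw [e3', ← e2']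
  have g5' : φ (φ z0') = z1' := e5'.symm
  have g6' : φ (φ z1') = z2' := by rw [e6', ← e5']
  have hNN : N' = N := by rw [hN, hN']
  subst hNN
  obtain ⟨a1, a2, a3, a4, a5⟩ := ops_a hth' f1 f2 f3 f4 f5 f6 f7
  have hA : Af q th s u = s⁻¹ * Ap th N' y1 y2 z0 z1 z2 := by
    simp only [Af, N3, h2, h3, h4]
    rw [← hN, ← e1, ← e4, g2, g3, g5, g6]
  have hR : Rf q th s u = Rp th N' y0 y1 y2 z0 z1 z2 := by
    simp only [Rf, N3, h2, h3, h4]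
    rw [← hN, ← e1, ← e4, g2, g3, g5, g6]
  have hR' : Rf q th s v = Rp th N' y0' y1' y2' z0' z1' z2' := by
    simp only [Rf, N3, h2, h3, h4]
    rw [← hN', ← e1', ← e4', g2', g3', g5', g6']
  have k1 : s * (u + v) = y0 + y0' := by rw [e1, e1']; ring
  have k2 : φ (φ (φ (u + v))) / s = z0 + z0' := by
    rw [e4, e4']; simp only [map_add]; ring
  have hS : Rf q th s (u + v) =
      Rp th N' (y0 + y0') (y1 + y1') (y2 + y2') (z0 + z0') (z1 + z1') (z2 + z2') := by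
    simp only [Rf, N3, h2, h3, h4]
    rw [← hN, k1, k2]
    simp only [map_add, g2, g3, g5, g6, g2', g3', g5', g6']
  have c1 : s⁻¹ * Ap th N' y1 y2 z0 z1 z2 * φ (φ (φ v)) +
      φ (φ (φ (s⁻¹ * Ap th N' y1 y2 z0 z1 z2))) * v
      = Ap th N' y1 y2 z0 z1 z2 * z0' + Ap (-th) N'⁻¹ z1 z2 y0 y1 y2 * y0' := by
    rw [e4', e1']
    simp only [map_mul, map_inv₀, s3, a3, inv_inv]
    field_simp
  rw [hA, hR, hR', hS]
  simp only [Bf, T3, h2, h3, h4]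
  rw [c1]
  simp only [map_add, map_mul, a1, a2, a4, a5, g2, g3, g5, g6, g2', g3', g5', g6']
  simp only [Ap, Rp]
  field_simp
  ring

theorem Bf_real (h : Std K q) (u v : K) : Bf q u v ^ q = Bf q u v := by
  obtain ⟨φ, h1, h2, h3, h4, h6⟩ := ops_frob h
  simp only [Bf, T3, h1, h2, h3, h4, map_add, map_mul, h6]
  ring

theorem Bf_symm (h : Std K q) (u v : K) : Bf q u v = Bf q v u := by
  obtain ⟨φ, h1, h2, h3, h4, h6⟩ := ops_frob h
  simp only [Bf, T3, h2, h3, h4, map_add, map_mul, h6]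
  ring

theorem Bf_add (h : Std K q) (u v w : K) : Bf q (u + v) w = Bf q u w + Bf q v w := by
  obtain ⟨φ, h1, h2, h3, h4, h6⟩ := ops_frob h
  simp only [Bf, T3, h2, h3, h4, map_add, map_mul, h6]
  ring

theorem Bf_smul (h : Std K q) {a : K} (ha : a ^ q = a) (u v : K) :
    Bf q (a * u) v = a * Bf q u v := by
  obtain ⟨φ, h1, h2, h3, h4, h6⟩ := ops_frob h
  have ha' : φ a = a := by rw [← h1]; exact ha
  simp only [Bf, T3, h2, h3, h4, map_add, map_mul, h6, ha']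
  ring

theorem Qf_add (h : Std K q) (u v : K) : Qf q (u + v) = Qf q u + Qf q v + Bf q u v := by
  obtain ⟨φ, h1, h2, h3, h4, h6⟩ := ops_frob h
  simp only [Qf, Bf, T3, h2, h3, h4, map_add, map_mul, h6]
  ring

theorem Qf_smul (h : Std K q) {a : K} (ha : a ^ q = a) (u : K) :
    Qf q (a * u) = a ^ 2 * Qf q u := by
  obtain ⟨φ, h1, h2, h3, h4, h6⟩ := ops_frob h
  have ha' : φ a = a := by rw [← h1]; exact ha
  simp only [Qf, T3, h2, h3, h4, map_add, map_mul, h6, ha']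
  ring

theorem Bf_self (h : Std K q) (u : K) : Bf q u u = 2 * Qf q u := by
  obtain ⟨φ, h1, h2, h3, h4, h6⟩ := ops_frob h
  simp only [Qf, Bf, T3, h2, h3, h4, map_add, map_mul, h6]
  ring

end Pool.Agent.TH501.Hemi
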