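import Mathlib
import Pool.Agent.TH501.Hemi.Defs
import Pool.Agent.TH501.Hemi.Binary
import Pool.Agent.TH501.Hemi.Exist
import Pool.Agent.TH501.Hemi.Ops

/-!
# The core from its pieces (job Hemi M, helper416 for helper501)
-/

set_option autoImplicit false
set_option linter.unusedSectionVars false

namespace Pool.Agent.TH501.Hemi

open Finset Classical

variable {K : Type} [Field K] [Fintype K] {q : ℕ}

/-- the pieces used in the proof of `CoreProp` -/
structure CorH (K : Type) [Field K] [Fintype K] (q : ℕ) (th : K) : Prop where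
  ev : ∀ S x : K, S ∈ mu K q → InC q th S x →
    (∑ s ∈ mu K q, chi2 q s * eta q (Rf q th s x) = Fs q S * (q : ℤ) ^ 2) ∨
    (∑ s ∈ mu K q, chi2 q s * eta q (Rf q th s x) = Fs q S * ((q : ℤ) ^ 2 - q))
  part : ∀ x : K, x ≠ 0 → Qf q x = 0 → ∃! S : K, S ∈ mu K q ∧ InC q th S x
  fs : ∀ S : K, S ∈ mu K q → Fs q S = 1 ∨ Fs q S = -1
  ne : ∀ S x : K, S ∈ mu K q → InC q th S x → x ≠ 0
  sing : ∀ S x : K, S ∈ mu K q → InC q th S x → Qf q x = 0
  t0 : ∀ x : K, x ≠ 0 → Qf q x = 0 → ∀ s s' : K, s ∈ mu K q → s' ∈ mu K q →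
    N3 q s = -1 → N3 q s' = -1 → Af q th s x = 0 → Af q th s' x = 0 → s = s'
  s0 : ∀ u v : K, IsLine q u v → ∀ s : K, s ∈ mu K q → N3 q s = -1 →
    |lsum q (fun x => eta q (Rf q th s x)) u v|
      ≤ q * lsum q (fun x => if Af q th s x = 0 then 1 else 0) u v
  sm : ∀ u v : K, IsLine q u v → ∀ s : K, s ∈ mu K q → chi2 q s = -1 → N3 q s ≠ -1 →
    lsum q (fun x => eta q (Rf q th s x)) u v = 0
  sp : ∀ u v : K, IsLine q u v → ∀ S : K, S ∈ mu K q →
    lsum q (fun x => eta q (Rf q th (S / N3 q S) x)) u v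
      = - q * lsum q (fun x => (if InC q th S x then Fs q S else 0)
          + (if InC q th (-S) x then Fs q (-S) else 0)) u v

/-! ### sums over a line -/

theorem cor_pt (h : Std K q) {u v : K} (hl : IsLine q u v) {b : K} (hb : b ^ q = b) :
    u + b * v ≠ 0 ∧ Qf q (u + b * v) = 0 := by
  have hq := hd_q_ge h
  constructor
  · intro h0
    have := hl.ind 1 b (one_pow q) hb (by rw [one_mul]; exact h0)
    exact one_ne_zero this.1
  · rw [Qf_add h, Qf_smul h hb, hl.qu, hl.qv, Bf_symm h, Bf_smul h hb, Bf_symm h, hl.b]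
    ring

theorem cor_pv (h : Std K q) {u v : K} (hl : IsLine q u v) : v ≠ 0 ∧ Qf q v = 0 := by
  have hq := hd_q_ge h
  refine ⟨?_, hl.qv⟩
  intro h0
  have := hl.ind 0 1 (zero_pow (by omega)) (one_pow q) (by rw [h0]; ring)
  exact one_ne_zero this.2

theorem cor_congr (h : Std K q) {u v : K} (hl : IsLine q u v) {g g' : K → ℤ}
    (hg : ∀ x : K, x ≠ 0 → Qf q x = 0 → g x = g' x) : lsum q g u v = lsum q g' u v := by
  unfold lsum
  have h1 := cor_pv h hl
  rw [hg v h1.1 h1.2]
  congr 1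
  refine sum_congr rfl fun b hb => ?_
  have h2 := cor_pt h hl ((Bin.mem_Fq b).1 hb)
  exact hg _ h2.1 h2.2

theorem cor_le (h : Std K q) {u v : K} (hl : IsLine q u v) {g g' : K → ℤ}
    (hg : ∀ x : K, x ≠ 0 → Qf q x = 0 → g x ≤ g' x) : lsum q g u v ≤ lsum q g' u v := by
  unfold lsum
  have h1 := cor_pv h hl
  refine add_le_add (hg v h1.1 h1.2) (sum_le_sum fun b hb => ?_)
  have h2 := cor_pt h hl ((Bin.mem_Fq b).1 hb)
  exact hg _ h2.1 h2.2

theorem cor_abs (g : K → ℤ) (u v : K) : |lsum q g u v| ≤ lsum q (fun x => |g x|) u v := by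
  unfold lsum
  refine (abs_add_le _ _).trans (add_le_add le_rfl (abs_sum_le_sum_abs _ _))

theorem cor_add (g g' : K → ℤ) (u v : K) :
    lsum q (fun x => g x + g' x) u v = lsum q g u v + lsum q g' u v := by
  unfold lsum
  rw [sum_add_distrib]
  ring

theorem cor_mul (c : ℤ) (g : K → ℤ) (u v : K) :
    lsum q (fun x => c * g x) u v = c * lsum q g u v := by
  unfold lsum
  rw [← mul_sum]
  ring

theorem cor_sum (A : Finset K) (g : K → K → ℤ) (u v : K) :
    lsum q (fun x => ∑ s ∈ A, g s x) u v = ∑ s ∈ A, lsum q (g s) u v := by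
  unfold lsum
  rw [sum_add_distrib, sum_comm]

theorem cor_one (h : Std K q) (u v : K) : lsum q (fun _ => 1) u v = q + 1 := by
  unfold lsum
  rw [sum_const, card_Fq h]
  simp
  ring

/-! ### the conics -/

theorem cor_smul (_h : Std K q) {th S x a : K} (hx : InC q th S x) (ha : a ^ q = a)
    (ha0 : a ≠ 0) : InC q th S (a * x) := by
  obtain ⟨lam, e, h1, h2, h3, h4, h5, h6⟩ := hx
  refine ⟨a * lam, e, mul_ne_zero ha0 h1, ?_, h3, h4, h5, ?_⟩
  · rw [mul_pow, h2, ha]
    ring
  · rw [h6]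
    unfold uS
    ring

theorem cor_dvd1 (hq : 1 ≤ q) : q ^ 2 - q + 1 ∣ q ^ 4 + q ^ 2 + 1 := by
  refine ⟨q ^ 2 + q + 1, ?_⟩
  have h1 : q ≤ q ^ 2 := by nlinarith
  zify [h1]
  ring

theorem cor_dvd2 (hq : 1 ≤ q) : q ^ 3 + 1 = (q ^ 2 - q + 1) * (q + 1) := by
  have h1 : q ≤ q ^ 2 := by nlinarith
  zify [h1]
  ring

theorem cor_N3 (h : Std K q) {c : K} (hc : c ^ (q ^ 2 - q + 1) = 1) : N3 q c = 1 := by
  have hq := hd_q_ge h
  unfold N3
  have e : c * c ^ q ^ 2 * c ^ q ^ 4 = c ^ (q ^ 4 + q ^ 2 + 1) := by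
    rw [pow_add, pow_add, pow_one]
    ring
  obtain ⟨k, hk⟩ := cor_dvd1 (q := q) (by omega)
  rw [e, hk, pow_mul, hc, one_pow]

theorem cor_mem (h : Std K q) {c : K} (hc : c ^ (q ^ 2 - q + 1) = 1) : c ∈ mu K q := by
  have hq := hd_q_ge h
  unfold mu
  rw [mem_filter]
  refine ⟨mem_univ _, ?_⟩
  rw [cor_dvd2 (q := q) (by omega), pow_mul, hc, one_pow]

theorem cor_chi (h : Std K q) {c : K} (hc : c ^ (q ^ 2 - q + 1) = 1) : chi2 q c = 1 := by
  have hq := hd_q_ge h
  have h4 := h.mod4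
  unfold chi2
  rw [if_pos]
  have e : (q ^ 3 + 1) / 2 = (q ^ 2 - q + 1) * ((q + 1) / 2) := by
    rw [cor_dvd2 (q := q) (by omega)]
    rw [Nat.mul_div_assoc]
    omega
  rw [e, pow_mul, hc, one_pow]

theorem cor_rot (h : Std K q) {th S x c : K} (hx : InC q th S x)
    (hc : c ^ (q ^ 2 - q + 1) = 1) : InC q th (S / c) (c * x) := by
  have hN : N3 q (S / c) = N3 q S := by
    have h1 := cor_N3 h hc
    have : N3 q (S / c) = N3 q S / N3 q c := by
      unfold N3
      rw [div_pow, div_pow]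
      field_simp
    rw [this, h1, div_one]
  obtain ⟨lam, e, h1, h2, h3, h4, h5, h6⟩ := hx
  have hc0 : c ≠ 0 := by
    rintro rfl
    rw [zero_pow (by omega)] at hc
    exact zero_ne_one hc
  refine ⟨lam, e, h1, by rw [hN]; exact h2, h3, h4, h5, ?_⟩
  rw [h6]
  unfold uS
  rw [hN]
  field_simp

theorem cor_Fs (h : Std K q) {S c : K} (hS : S ∈ mu K q) (hc : c ^ (q ^ 2 - q + 1) = 1) :
    Fs q (S / c) = Fs q S := by
  have hN : N3 q (S / c) = N3 q S := by
    have h1 := cor_N3 h hc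
    have : N3 q (S / c) = N3 q S / N3 q c := by
      unfold N3
      rw [div_pow, div_pow]
      field_simp
    rw [this, h1, div_one]
  have hc0 : c ≠ 0 := by
    rintro rfl
    rw [zero_pow (by omega)] at hc
    exact zero_ne_one hc
  have hSc : S / c ∈ mu K q := by
    rw [div_eq_mul_inv]
    exact hd_mul_mem hS (hd_inv_mem (cor_mem h hc))
  have h2 : chi2 q S = chi2 q (S / c) * chi2 q c := by
    rw [← chi2_mul h hSc (cor_mem h hc)]
    congr 1
    field_simp
  rw [cor_chi h hc, mul_one] at h2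
  unfold Fs
  rw [hN, h2]

/-! ### the function -/

/-- the signs -/
noncomputable def corF (q : ℕ) (th x : K) : ℤ :=
  if hx : ∃ S : K, S ∈ mu K q ∧ InC q th S x then Fs q hx.choose else 1

theorem corF_eq {th : K} (H : CorH K q th) {S x : K} (hS : S ∈ mu K q) (hx : InC q th S x) :
    corF q th x = Fs q S := by
  have hex : ∃ S : K, S ∈ mu K q ∧ InC q th S x := ⟨S, hS, hx⟩
  unfold corF
  rw [dif_pos hex]
  congr 1
  exact (H.part x (H.ne S x hS hx) (H.sing S x hS hx)).unique hex.choose_spec ⟨hS, hx⟩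

theorem corF_pm {th : K} (H : CorH K q th) (x : K) : corF q th x = 1 ∨ corF q th x = -1 := by
  by_cases hex : ∃ S : K, S ∈ mu K q ∧ InC q th S x
  · obtain ⟨S, hS, hx⟩ := hex
    rw [corF_eq H hS hx]
    exact H.fs S hS
  · unfold corF
    rw [dif_neg hex]
    exact Or.inl rfl

theorem corF_none {th x : K} (hx : ¬ ∃ S : K, S ∈ mu K q ∧ InC q th S x) : corF q th x = 1 := by
  unfold corF
  rw [dif_neg hx]

theorem corF_smul (h : Std K q) {th : K} (H : CorH K q th) {c : K} (hc0 : c ≠ 0)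
    (hc : c ^ q = c) (x : K) : corF q th (c * x) = corF q th x := by
  by_cases hex : ∃ S : K, S ∈ mu K q ∧ InC q th S x
  · obtain ⟨S, hS, hx⟩ := hex
    rw [corF_eq H hS hx, corF_eq H hS (cor_smul h hx hc hc0)]
  · rw [corF_none hex, corF_none]
    rintro ⟨S, hS, hx⟩
    apply hex
    refine ⟨S, hS, ?_⟩
    have h1 := cor_smul h hx (a := c⁻¹) (by rw [inv_pow, hc]) (inv_ne_zero hc0)
    rwa [← mul_assoc, inv_mul_cancel₀ hc0, one_mul] at h1

theorem corF_rot (h : Std K q) {th : K} (H : CorH K q th) {c : K}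
    (hc : c ^ (q ^ 2 - q + 1) = 1) (x : K) : corF q th (c * x) = corF q th x := by
  have hc0 : c ≠ 0 := by
    rintro rfl
    rw [zero_pow (by omega)] at hc
    exact zero_ne_one hc
  have hmem : ∀ {S d : K}, S ∈ mu K q → d ^ (q ^ 2 - q + 1) = 1 → S / d ∈ mu K q := by
    intro S d hS hd
    rw [div_eq_mul_inv]
    exact hd_mul_mem hS (hd_inv_mem (cor_mem h hd))
  by_cases hex : ∃ S : K, S ∈ mu K q ∧ InC q th S x
  · obtain ⟨S, hS, hx⟩ := hex
    rw [corF_eq H hS hx, corF_eq H (hmem hS hc) (cor_rot h hx hc), cor_Fs h hS hc]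
  · rw [corF_none hex, corF_none]
    rintro ⟨S, hS, hx⟩
    apply hex
    have hc' : (c⁻¹) ^ (q ^ 2 - q + 1) = 1 := by rw [inv_pow, hc, inv_one]
    refine ⟨S / c⁻¹, hmem hS hc', ?_⟩
    have h1 := cor_rot h hx hc'
    rwa [← mul_assoc, inv_mul_cancel₀ hc0, one_mul] at h1

/-! ### the lines -/

theorem cor_neg_mem (h : Std K q) {S : K} (hS : S ∈ mu K q) : -S ∈ mu K q := by
  have ho : Even (q ^ 3 + 1) := ((hd_odd h).pow).add_one
  unfold mu at hS ⊢
  rw [mem_filter] at hS ⊢
  exact ⟨mem_univ _, by rw [ho.neg_pow]; exact hS.2⟩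

/-- the sum over the conics through a point -/
theorem cor_sumF {th : K} (H : CorH K q th) {x : K} (hx0 : x ≠ 0) (hx : Qf q x = 0) :
    ∑ S ∈ mu K q, (if InC q th S x then Fs q S else 0) = corF q th x := by
  obtain ⟨S, ⟨hS, hSx⟩, huni⟩ := H.part x hx0 hx
  rw [sum_eq_single_of_mem S hS, if_pos hSx, corF_eq H hS hSx]
  intro T hT hne
  rw [if_neg]
  intro hTx
  exact hne (huni T ⟨hT, hTx⟩)

theorem cor_sumF' (h : Std K q) {th : K} (H : CorH K q th) {x : K} (hx0 : x ≠ 0)
    (hx : Qf q x = 0) :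
    ∑ S ∈ mu K q, (if InC q th (-S) x then Fs q (-S) else 0) = corF q th x := by
  rw [← cor_sumF H hx0 hx]
  refine sum_nbij' (fun S => -S) (fun S => -S) (fun S hS => cor_neg_mem h hS)
    (fun S hS => cor_neg_mem h hS) (fun S _ => neg_neg S) (fun S _ => neg_neg S)
    (fun S _ => rfl)

theorem cor_plus (h : Std K q) {th : K} (H : CorH K q th) {u v : K} (hl : IsLine q u v) :
    ∑ s ∈ (mu K q).filter (fun s => chi2 q s = 1),
      lsum q (fun x => eta q (Rf q th s x)) u v = - q * lsum q (corF q th) u v := by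
  have h1 := two_to_one h (fun s => lsum q (fun x => eta q (Rf q th s x)) u v)
  have h2 : ∑ S ∈ mu K q, lsum q (fun x => eta q (Rf q th (S / N3 q S) x)) u v =
      - q * (2 * lsum q (corF q th) u v) := by
    rw [sum_congr rfl (fun S hS => H.sp u v hl S hS), ← mul_sum, ← cor_sum]
    congr 1
    rw [← cor_mul]
    refine cor_congr h hl fun x hx0 hx => ?_
    rw [sum_add_distrib, cor_sumF H hx0 hx, cor_sumF' h H hx0 hx]
    ring
  rw [h2] at h1
  linarith

theorem cor_chi_neg {s : K} (hs : ¬ chi2 q s = 1) : chi2 q s = -1 := by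
  unfold chi2 at hs ⊢
  split_ifs at hs ⊢ with h1
  · exact absurd rfl hs
  · rfl

theorem cor_D (h : Std K q) {th : K} (H : CorH K q th) {u v : K} (hl : IsLine q u v) :
    |∑ s ∈ (mu K q).filter (fun s => ¬ chi2 q s = 1),
      lsum q (fun x => eta q (Rf q th s x)) u v| ≤ q * (q + 1) := by
  refine (abs_sum_le_sum_abs _ _).trans ?_
  have h1 : ∑ s ∈ (mu K q).filter (fun s => ¬ chi2 q s = 1),
      |lsum q (fun x => eta q (Rf q th s x)) u v| ≤
      ∑ s ∈ (mu K q).filter (fun s => ¬ chi2 q s = 1),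
        q * lsum q (fun x => if N3 q s = -1 ∧ Af q th s x = 0 then 1 else 0) u v := by
    refine sum_le_sum fun s hs => ?_
    rw [mem_filter] at hs
    by_cases hN : N3 q s = -1
    · have := H.s0 u v hl s hs.1 hN
      simpa only [hN, true_and] using this
    · rw [H.sm u v hl s hs.1 (cor_chi_neg hs.2) hN, abs_zero]
      refine mul_nonneg (Nat.cast_nonneg q) ?_
      have : lsum q (fun _ : K => (0 : ℤ)) u v ≤
          lsum q (fun x => if N3 q s = -1 ∧ Af q th s x = 0 then 1 else 0) u v := by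
        refine cor_le h hl fun x _ _ => ?_
        split_ifs <;> norm_num
      refine le_trans ?_ this
      unfold lsum
      simp
  have h2 : ∑ s ∈ (mu K q).filter (fun s => ¬ chi2 q s = 1),
        (q : ℤ) * lsum q (fun x => if N3 q s = -1 ∧ Af q th s x = 0 then 1 else 0) u v ≤
      q * (q + 1) := by
    rw [← mul_sum, ← cor_sum, ← cor_one h u v]
    refine mul_le_mul_of_nonneg_left ?_ (Nat.cast_nonneg q)
    refine cor_le h hl fun x hx0 hx => ?_
    rw [← sum_filter]
    rw [sum_const, nsmul_eq_mul, mul_one]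
    have h3 : (((mu K q).filter (fun s => ¬ chi2 q s = 1)).filter
        (fun s => N3 q s = -1 ∧ Af q th s x = 0)).card ≤ 1 := by
      rw [card_le_one]
      intro s hs s' hs'
      rw [mem_filter, mem_filter] at hs hs'
      exact H.t0 x hx0 hx s s' hs.1.1 hs'.1.1 hs.2.1 hs'.2.1 hs.2.2 hs'.2.2
    exact_mod_cast h3
  exact h1.trans h2

theorem cor_line (h : Std K q) {th : K} (H : CorH K q th) {u v : K} (hl : IsLine q u v) :
    lsum q (corF q th) u v = 0 := by
  have hq := hd_q_ge h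
  have hqZ : (5 : ℤ) ≤ q := by exact_mod_cast hq
  have h4 := h.mod4
  obtain ⟨m, hm⟩ : ∃ m, m = lsum q (corF q th) u v := ⟨_, rfl⟩
  -- the evaluation
  obtain ⟨E, hE⟩ : ∃ E : K → ℤ, E = fun x => ∑ s ∈ mu K q, chi2 q s * eta q (Rf q th s x) :=
    ⟨_, rfl⟩
  obtain ⟨nn, hnn⟩ : ∃ nn : K → ℤ, nn = fun x => if E x = corF q th x * (q : ℤ) ^ 2 then 0 else 1 :=
    ⟨_, rfl⟩
  have hn01 : ∀ x, nn x = 0 ∨ nn x = 1 := by
    intro x
    rw [hnn]
    simp only
    split_ifs
    · exact Or.inl rfl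
    · exact Or.inr rfl
  have hEx : ∀ x : K, x ≠ 0 → Qf q x = 0 →
      E x = (q : ℤ) ^ 2 * corF q th x + (-q) * (nn x * corF q th x) := by
    intro x hx0 hx
    obtain ⟨S, ⟨hS, hSx⟩, -⟩ := H.part x hx0 hx
    have hF := corF_eq H hS hSx
    have hnx : nn x = if E x = corF q th x * (q : ℤ) ^ 2 then 0 else 1 := by rw [hnn]
    by_cases h0 : E x = corF q th x * (q : ℤ) ^ 2
    · rw [hnx, if_pos h0, h0]
      ring
    · rw [hnx, if_neg h0]
      have h1 := H.ev S x hS hSx
      have e0 : ∑ s ∈ mu K q, chi2 q s * eta q (Rf q th s x) = E x := by rw [hE]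
      rw [e0, ← hF] at h1
      rcases h1 with h1 | h1
      · exact absurd h1 h0
      · rw [h1]
        ring
  obtain ⟨M, hM⟩ : ∃ M, M = lsum q (fun x => nn x * corF q th x) u v := ⟨_, rfl⟩
  have s1 : lsum q E u v = (q : ℤ) ^ 2 * m + (-q) * M := by
    rw [hm, hM, ← cor_mul, ← cor_mul, ← cor_add]
    exact cor_congr h hl hEx
  obtain ⟨D, hD⟩ : ∃ D, D = ∑ s ∈ (mu K q).filter (fun s => ¬ chi2 q s = 1),
      lsum q (fun x => eta q (Rf q th s x)) u v := ⟨_, rfl⟩
  have s2 : lsum q E u v = -q * m - D := by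
    rw [hE, cor_sum]
    have e1 : ∀ s ∈ mu K q, lsum q (fun x => chi2 q s * eta q (Rf q th s x)) u v =
        chi2 q s * lsum q (fun x => eta q (Rf q th s x)) u v := fun s _ => cor_mul _ _ _ _
    rw [sum_congr rfl e1, ← sum_filter_add_sum_filter_not (mu K q) (fun s => chi2 q s = 1), hm,
      ← cor_plus h H hl, hD, sub_eq_add_neg, ← sum_neg_distrib]
    congr 1
    · refine sum_congr rfl fun s hs => ?_
      rw [(mem_filter.1 hs).2, one_mul]
    · refine sum_congr rfl fun s hs => ?_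
      rw [cor_chi_neg (mem_filter.1 hs).2, neg_one_mul]
  have hDb : |D| ≤ q * (q + 1) := by
    rw [hD]
    exact cor_D h H hl
  -- the number of exceptional points
  obtain ⟨k, hk⟩ : ∃ k, k = lsum q (fun x => 1 + (-1) * nn x) u v := ⟨_, rfl⟩
  have hcabs : ∀ x, |corF q th x| = 1 := by
    intro x
    rcases corF_pm H x with h1 | h1 <;> rw [h1] <;> norm_num
  have k0 : 0 ≤ k := by
    have h1 : lsum q (fun _ : K => (0 : ℤ)) u v ≤ lsum q (fun x => 1 + (-1) * nn x) u v := by
      refine cor_le h hl fun x _ _ => ?_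
      rcases hn01 x with h2 | h2 <;> rw [h2] <;> norm_num
    have h2 : lsum q (fun _ : K => (0 : ℤ)) u v = 0 := by
      unfold lsum
      simp
    rw [hk]
    linarith
  have k1 : |m - M| ≤ k := by
    have e1 : m - M = lsum q (fun x => (1 + (-1) * nn x) * corF q th x) u v := by
      have e2 : lsum q (fun x => (1 + (-1) * nn x) * corF q th x) u v =
          lsum q (fun x => corF q th x + (-1) * (nn x * corF q th x)) u v :=
        cor_congr h hl fun x _ _ => by ring
      rw [e2, cor_add, cor_mul, ← hM]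
      rw [hm]
      have : lsum q (fun x => corF q th x) u v = lsum q (corF q th) u v := rfl
      rw [this]
      ring
    rw [e1, hk]
    refine (cor_abs _ _ _).trans (cor_le h hl fun x _ _ => ?_)
    rw [abs_mul, hcabs x, mul_one]
    rcases hn01 x with h2 | h2 <;> rw [h2] <;> norm_num
  have k2 : |M| ≤ q + 1 - k := by
    have e1 : (q : ℤ) + 1 - k = lsum q nn u v := by
      have e2 : k = lsum q (fun _ => 1) u v + (-1) * lsum q nn u v := by
        rw [hk, cor_add, cor_mul]
      rw [e2, cor_one h]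
      ring
    rw [e1, hM]
    refine (cor_abs _ _ _).trans (cor_le h hl fun x _ _ => ?_)
    rw [abs_mul, hcabs x, mul_one]
    rcases hn01 x with h2 | h2 <;> rw [h2] <;> norm_num
  -- parity
  have hpar : ∃ j : ℤ, m = 2 * j := by
    have h1 : ∀ x, ∃ y : ℤ, corF q th x = 1 + 2 * y := by
      intro x
      rcases corF_pm H x with h2 | h2
      · exact ⟨0, by rw [h2]; norm_num⟩
      · exact ⟨-1, by rw [h2]; norm_num⟩
    choose y hy using h1
    have h2 : m = lsum q (fun _ => 1) u v + 2 * lsum q y u v := by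
      rw [hm, ← cor_mul, ← cor_add]
      exact cor_congr h hl fun x _ _ => hy x
    rw [cor_one h] at h2
    obtain ⟨t, ht⟩ : ∃ t : ℕ, q = 4 * t + 1 := ⟨q / 4, by omega⟩
    refine ⟨2 * t + 1 + lsum q y u v, ?_⟩
    rw [h2, ht]
    push_cast
    ring
  obtain ⟨j, hj⟩ := hpar
  rw [← hm]
  -- the conclusion
  have hmain : (q : ℤ) ^ 2 * m + (-q) * M = -q * m - D := s1.symm.trans s2
  have hDl := (abs_le.1 hDb).1
  have hDu := (abs_le.1 hDb).2
  have hM1 := (abs_le.1 k2).1
  have hM2 := (abs_le.1 k2).2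
  have hmM1 := (abs_le.1 k1).1
  have hmM2 := (abs_le.1 k1).2
  have hj0 : j = 0 := by
    rcases k0.eq_or_lt with hk0 | hk0
    · -- all the points are exceptional
      rw [← hk0] at hmM1 hmM2
      have hMm : M = m := by linarith
      rw [hMm] at hmain
      rcases lt_trichotomy j 0 with hj' | hj' | hj'
      · exfalso
        have hj1 : j ≤ -1 := by omega
        have h1 : (q : ℤ) ^ 2 * m = -D := by linarith
        rw [hj] at h1
        nlinarith
      · exact hj'
      · exfalso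
        have hj1 : 1 ≤ j := by omega
        have h1 : (q : ℤ) ^ 2 * m = -D := by linarith
        rw [hj] at h1
        nlinarith
    · have hk1 : 1 ≤ k := by omega
      have hMu : M ≤ q := by linarith
      have hMl : -(q : ℤ) ≤ M := by linarith
      have h1 : (q : ℤ) * (q + 1) * m = q * M - D := by linarith
      rw [hj] at h1
      rcases lt_trichotomy j 0 with hj' | hj' | hj'
      · exfalso
        have hj1 : j ≤ -1 := by omega
        have h2 : (q : ℤ) * (-q) ≤ q * M := mul_le_mul_of_nonneg_left hMl (by linarith)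
        have h3 : (q : ℤ) * (q + 1) * (2 * j) ≤ q * (q + 1) * (-2) :=
          mul_le_mul_of_nonneg_left (by linarith) (by positivity)
        nlinarith
      · exact hj'
      · exfalso
        have hj1 : 1 ≤ j := by omega
        have h2 : (q : ℤ) * M ≤ q * q := mul_le_mul_of_nonneg_left hMu (by linarith)
        have h3 : (q : ℤ) * (q + 1) * 2 ≤ q * (q + 1) * (2 * j) :=
          mul_le_mul_of_nonneg_left (by linarith) (by positivity)
        nlinarith
  rw [hj, hj0]
  norm_num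

theorem core_of (h : Std K q) {th : K} (H : CorH K q th) : CoreProp K q :=
  ⟨corF q th, corF_pm H, fun _ x hc0 hc => corF_smul h H hc0 hc x,
    fun _ x hc => corF_rot h H hc x, fun _ _ hl => cor_line h H hl⟩

end Pool.Agent.TH501.Hemi
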