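import Mathlib
import Pool.Agent.TH501.Hemi.Defs
import Pool.Agent.TH501.Hemi.Ops
import Pool.Agent.TH501.Hemi.Exist

set_option autoImplicit false

namespace Pool.Agent.TH501.Hemi

open Finset Classical

variable {K : Type} [Field K] [Fintype K] {q : ℕ}

theorem cb_three (h : Std K q) (h3 : (3 : K) ≠ 0) : q % 3 = 2 := by
  obtain ⟨p, m, hpp, hp, hm⟩ := hd_char h
  have hq0 : q % 3 ≠ 0 := by
    intro h0
    have hd : 3 ∣ p ^ m := by rw [← hm]; exact Nat.dvd_of_mod_eq_zero h0
    have hp3 : 3 = p := (Nat.prime_dvd_prime_iff_eq Nat.prime_three hpp).1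
      (Nat.prime_three.dvd_of_dvd_pow hd)
    apply h3
    have := hp
    have h4 : ((3 : ℕ) : K) = 0 := by rw [hp3]; exact CharP.cast_eq_zero K p
    exact_mod_cast h4
  have := h.mod3
  omega

/-- A square root of `-1` lies in the field with `q` elements. -/
theorem cb_i (h : Std K q) {w : K} (hw : w ^ 2 = -1) : w ^ q = w := by
  obtain ⟨k, hk⟩ : ∃ k, q = 4 * k + 1 := ⟨q / 4, by have := h.mod4; omega⟩
  have h4 : w ^ 4 = 1 := by
    rw [show (4 : ℕ) = 2 * 2 by norm_num, pow_mul, hw]; norm_num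
  rw [hk, pow_succ, pow_mul, h4, one_pow, one_mul]

/-- The map `x ↦ x ^ 3 + a x` is injective on the field with `q ^ 3` elements. -/
theorem cubic_inj (h : Std K q) {ε e a : K} (hε0 : ε ≠ 0) (hε : ε ^ q = -ε)
    (he : e ^ q ^ 3 = e) (heT : T3 q e = 0)
    (ha : ((3 : K) ≠ 0 ∧ a = 0) ∨
      ((3 : K) = 0 ∧ a = -(e * e ^ q ^ 2 + e ^ q ^ 2 * e ^ q ^ 4 + e ^ q ^ 4 * e) / ε ^ 2))
    {x y : K} (hx : x ^ q ^ 3 = x) (hy : y ^ q ^ 3 = y)
    (hxy : x ^ 3 + a * x = y ^ 3 + a * y) : x = y := by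
  obtain ⟨φ, h1, h2, h3, h4, h6⟩ := ops_frob h
  rcases ha with ⟨hc, ha⟩ | ⟨hc, ha⟩
  · subst ha
    have hq := cb_three h hc
    have hxy' : x ^ 3 = y ^ 3 := by linear_combination hxy
    by_cases hy0 : y = 0
    · subst hy0
      have : x ^ 3 = 0 := by rw [hxy']; ring
      exact pow_eq_zero_iff (by norm_num) |>.mp this
    have hx0 : x ≠ 0 := by
      rintro rfl
      apply hy0
      have : y ^ 3 = 0 := by rw [← hxy']; ring
      exact pow_eq_zero_iff (by norm_num) |>.mp this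
    have hz3 : (x / y) ^ 3 = 1 := by
      rw [div_pow, hxy', div_self (pow_ne_zero _ hy0)]
    have hzq : (x / y) ^ q ^ 3 = x / y := by rw [div_pow, hx, hy]
    obtain ⟨k, hk⟩ : ∃ k, q ^ 3 = 3 * k + 2 := by
      have : q ^ 3 % 3 = 2 := by rw [Nat.pow_mod, hq]
      exact ⟨q ^ 3 / 3, by omega⟩
    rw [hk, pow_add, pow_mul, hz3, one_pow, one_mul] at hzq
    have hz0 : x / y ≠ 0 := div_ne_zero hx0 hy0
    have hz1 : x / y = 1 := by
      have : (x / y) * (x / y) = (x / y) * 1 := by rw [mul_one, ← pow_two]; exact hzq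
      exact mul_left_cancel₀ hz0 this
    exact (div_eq_one_iff_eq hy0).1 hz1
  · rw [h3] at he hx hy
    simp only [T3, h2, h4] at heT ha
    -- the difference
    set t := x - y with ht
    by_contra hne
    have ht0 : t ≠ 0 := sub_ne_zero.2 hne
    have ht3 : t ^ 2 + a = 0 := by
      have h5 : t * (t ^ 2 + a) = 0 := by
        rw [ht]
        linear_combination hxy - (x ^ 2 * y - x * y ^ 2) * hc
      rcases mul_eq_zero.1 h5 with h5 | h5
      · exact absurd h5 ht0
      · exact h5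
    set e1 := φ (φ e) with he1
    set e2 := φ (φ (φ (φ e))) with he2
    have hd : φ (e - e1) = e - e1 := by
      have e21 : φ e = e2 := by rw [he2, he]
      have e10 : φ (φ e) = e1 := rfl
      have : φ e1 = e := by rw [he1, he]
      rw [map_sub, this, e21]
      -- e2 - e = e - e1
      linear_combination heT - e * hc
    have hE : -(e * e1 + e1 * e2 + e2 * e) = (e - e1) ^ 2 := by
      have h0 : e2 = - e - e1 := by linear_combination heT
      rw [h0]
      linear_combination (e * e1) * hc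
    rw [hE] at ha
    have hε2 : ε ^ 2 ≠ 0 := pow_ne_zero _ hε0
    have h7 : (t * ε) ^ 2 = - (e - e1) ^ 2 := by
      have : t ^ 2 = - ((e - e1) ^ 2 / ε ^ 2) := by rw [← ha]; linear_combination ht3
      rw [mul_pow, this]
      field_simp
    have hδ : e - e1 ≠ 0 := by
      intro h0
      rw [h0] at h7
      have : t * ε = 0 := by
        apply pow_eq_zero_iff (two_ne_zero) |>.mp
        rw [h7]; ring
      exact mul_ne_zero ht0 hε0 this
    have h8 : (t * ε / (e - e1)) ^ 2 = -1 := by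
      rw [div_pow, h7, neg_div, div_self (pow_ne_zero _ hδ)]
    have h9 := cb_i h h8
    rw [h1] at h9
    have hεφ : φ ε = -ε := by rw [← h1]; exact hε
    have h10 : φ (φ (φ (t * ε / (e - e1)))) = - (t * ε / (e - e1)) := by
      simp only [map_div₀, map_mul, hd, hεφ, map_neg, neg_neg]
      have : φ (φ (φ t)) = t := by rw [ht]; simp only [map_sub, hx, hy]
      rw [this]; ring
    rw [h9, h9, h9] at h10
    have h11 : 2 * (t * ε / (e - e1)) = 0 := by linear_combination h10
    rcases mul_eq_zero.1 h11 with h12 | h12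
    · exact hd_two_ne h h12
    · rw [h12] at h8
      norm_num at h8

/-- The cubic has exactly one root in the field with `q` elements. -/
theorem cubic_root (h : Std K q) {ε e a b : K} (hε0 : ε ≠ 0) (hε : ε ^ q = -ε)
    (he : e ^ q ^ 3 = e) (heT : T3 q e = 0)
    (ha : ((3 : K) ≠ 0 ∧ a = 0) ∨
      ((3 : K) = 0 ∧ a = -(e * e ^ q ^ 2 + e ^ q ^ 2 * e ^ q ^ 4 + e ^ q ^ 4 * e) / ε ^ 2))
    (haq : a ^ q = a) (hbq : b ^ q = b) :
    ∃! x : K, x ^ q = x ∧ x ^ 3 + a * x + b = 0 := by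
  obtain ⟨φ, h1, h2, h3, h4, h6⟩ := ops_frob h
  have hL : ∀ x : K, x ^ q = x → x ^ q ^ 3 = x := by
    intro x hx
    rw [h3]
    rw [h1] at hx
    rw [hx, hx, hx]
  have hinj : ∀ x y : K, x ^ q = x → y ^ q = y → x ^ 3 + a * x = y ^ 3 + a * y → x = y :=
    fun x y hx hy hxy => cubic_inj h hε0 hε he heT ha (hL x hx) (hL y hy) hxy
  let f : {x : K // x ^ q = x} → {x : K // x ^ q = x} := fun x =>
    ⟨x.1 ^ 3 + a * x.1, by
      have hx := x.2
      rw [h1] at hx haq ⊢
      rw [map_add, map_mul, map_pow, hx, haq]⟩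
  have hf : Function.Injective f := by
    intro x y hxy
    apply Subtype.ext
    exact hinj x.1 y.1 x.2 y.2 (congrArg Subtype.val hxy)
  have hs : Function.Surjective f := Finite.surjective_of_injective hf
  obtain ⟨x, hx⟩ := hs ⟨-b, by
    rw [h1] at hbq ⊢
    rw [map_neg, hbq]⟩
  have hx' : x.1 ^ 3 + a * x.1 = -b := congrArg Subtype.val hx
  refine ⟨x.1, ⟨x.2, by rw [hx']; ring⟩, ?_⟩
  rintro y ⟨hy1, hy2⟩
  apply hinj y x.1 hy1 x.2
  rw [hx']
  linear_combination hy2

end Pool.Agent.TH501.Hemi
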