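import Mathlib
import Pool.Agent.TH501.Hemi.Defs

set_option autoImplicit false

namespace Pool.Agent.TH501.Hemi

/-- The quartic `F(W)` in integral form. -/
def FW {K : Type} [Field K] (th g e0 e1 e2 W0 W1 W2 : K) : K :=
  (W0 * W1 + W1 * W2 + W2 * W0 + g ^ 2 * (e0 * e1 + e1 * e2 + e2 * e0)) ^ 2
    - 4 * (W0 + W1 + W2) * (W0 * W1 * W2)
    + g ^ 2 * (1 - g ^ 2) * (e0 * e1 * e2) * (W0 + W1 + W2)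
    - g ^ 2 * (e0 ^ 2 * W0 ^ 2 + e1 ^ 2 * W1 ^ 2 + e2 ^ 2 * W2 ^ 2)
    - 2 * g ^ 2 * ((e2 ^ 2 - (e0 * e1 + e1 * e2 + e2 * e0)) * (W0 * W1)
        + (e0 ^ 2 - (e0 * e1 + e1 * e2 + e2 * e0)) * (W1 * W2)
        + (e1 ^ 2 - (e0 * e1 + e1 * e2 + e2 * e0)) * (W2 * W0))
    + 4 * g ^ 2 * (W0 + W1 + W2) * (e0 ^ 2 * W0 + e1 ^ 2 * W1 + e2 ^ 2 * W2)
    - 2 * g * th * (e0 * W0 ^ 2 * (W1 - W2) + e1 * W1 ^ 2 * (W2 - W0) + e2 * W2 ^ 2 * (W0 - W1))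
    + 2 * g ^ 3 * th * (e0 ^ 2 * (e1 - e2) * W0 + e1 ^ 2 * (e2 - e0) * W1
        + e2 ^ 2 * (e0 - e1) * W2)

/-- The cubic `4 C(W_0)` in integral form. -/
def CW {K : Type} [Field K] (th g e0 e1 e2 W0 : K) : K :=
  4 * W0 ^ 3 + 4 * g * th * (e1 - e2) * W0 ^ 2 + 4 * g ^ 2 * (e0 ^ 2 - 4 * (e1 * e2)) * W0
    - g ^ 2 * (1 - g ^ 2) * (e0 * e1 * e2) - 2 * g ^ 3 * th * (e1 * e2) * (e1 - e2)

end Pool.Agent.TH501.Hemi
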