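import Mathlib
import Pool.Agent.TH501.Hemi.Defs
import Pool.Agent.TH501.Hemi.FWdef

set_option autoImplicit false

namespace Pool.Agent.TH501.Hemi

/-- The constants `κ`, `A` (characteristic 3 and not 3). -/
def KA {K : Type} [Field K] (th g e0 e1 e2 ka A : K) : Prop :=
  ((3 : K) ≠ 0 ∧ 3 * ka = th ∧ A = 0) ∨
    ((3 : K) = 0 ∧ ka = 0 ∧ A = - g ^ 2 * (e0 * e1 + e1 * e2 + e2 * e0))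

/-- `4 B`. -/
def B4 {K : Type} [Field K] (g e0 e1 e2 ka : K) : K :=
  - g ^ 2 * (1 - g ^ 2) * (e0 * e1 * e2)
    + 2 * g ^ 3 * ka ^ 3 * ((e1 - e2) * (e2 - e0) * (e0 - e1))

theorem ids_th0 {K : Type} [Field K] {th : K} (hth : th ^ 2 = 3) (h3 : (3 : K) = 0) : th = 0 := by
  have : th ^ 2 = 0 := by rw [hth, h3]
  exact pow_eq_zero_iff two_ne_zero |>.mp this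

theorem ids_ka {K : Type} [Field K] {th ka : K} (hth : th ^ 2 = 3) (h3 : (3 : K) ≠ 0)
    (hka : 3 * ka = th) : 3 * ka ^ 2 - 1 = 0 := by
  have : 3 * (3 * ka ^ 2 - 1) = 0 := by rw [← hka] at hth; linear_combination hth
  rcases mul_eq_zero.mp this with h | h
  · exact absurd h h3
  · exact h

theorem FW_nf {K : Type} [Field K] {th g e0 e1 e2 W0 W1 W2 ka A : K}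
    (hth : th ^ 2 = 3) (he : e0 + e1 + e2 = 0) (hk : KA th g e0 e1 e2 ka A) :
    FW th g e0 e1 e2 W0 W1 W2 =
      ((W0 + g * ka * (e1 - e2)) * (W1 + g * ka * (e2 - e0))
        + (W1 + g * ka * (e2 - e0)) * (W2 + g * ka * (e0 - e1))
        + (W2 + g * ka * (e0 - e1)) * (W0 + g * ka * (e1 - e2)) - A) ^ 2
      - (W0 + W1 + W2) * (4 * ((W0 + g * ka * (e1 - e2)) * (W1 + g * ka * (e2 - e0))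
        * (W2 + g * ka * (e0 - e1))) + B4 g e0 e1 e2 ka) := by
  have h0 : e0 = -e1 - e2 := by linear_combination he
  subst h0
  rcases hk with ⟨h3, hka, hA⟩ | ⟨h3, hka, hA⟩
  · have h1 := ids_ka hth h3 hka
    subst hka hA
    unfold FW B4
    linear_combination (-3 * g ^ 4 * ka ^ 2 * e1 ^ 4 - 6 * g ^ 4 * ka ^ 2 * e1 ^ 3 * e2 - 9 * g ^ 4 * ka ^ 2 * e1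
      ^ 2 * e2 ^ 2 - 6 * g ^ 4 * ka ^ 2 * e1 * e2 ^ 3 - 3 * g ^ 4 * ka ^ 2 * e2 ^ 4 - g ^
      4 * e1 ^ 4 - 2 * g ^ 4 * e1 ^ 3 * e2 - 3 * g ^ 4 * e1 ^ 2 * e2 ^ 2 - 2 * g ^ 4 * e1
      * e2 ^ 3 - g ^ 4 * e2 ^ 4 - 6 * g ^ 3 * ka * e1 ^ 3 * W0 - 6 * g ^ 3 * ka * e1 ^ 3 *
      W1 - 6 * g ^ 3 * ka * e1 ^ 2 * e2 * W0 - 12 * g ^ 3 * ka * e1 ^ 2 * e2 * W1 + 6 * g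
      ^ 3 * ka * e1 * e2 ^ 2 * W0 + 12 * g ^ 3 * ka * e1 * e2 ^ 2 * W2 + 6 * g ^ 3 * ka *
      e2 ^ 3 * W0 + 6 * g ^ 3 * ka * e2 ^ 3 * W2 - 3 * g ^ 2 * e1 ^ 2 * W0 ^ 2 - 4 * g ^ 2
      * e1 ^ 2 * W0 * W1 + 2 * g ^ 2 * e1 ^ 2 * W0 * W2 - 3 * g ^ 2 * e1 ^ 2 * W1 ^ 2 + 2
      * g ^ 2 * e1 ^ 2 * W1 * W2 - 6 * g ^ 2 * e1 * e2 * W0 ^ 2 - 4 * g ^ 2 * e1 * e2 * W0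
      * W1 - 4 * g ^ 2 * e1 * e2 * W0 * W2 + 8 * g ^ 2 * e1 * e2 * W1 * W2 - 3 * g ^ 2 *
      e2 ^ 2 * W0 ^ 2 + 2 * g ^ 2 * e2 ^ 2 * W0 * W1 - 4 * g ^ 2 * e2 ^ 2 * W0 * W2 + 2 *
      g ^ 2 * e2 ^ 2 * W1 * W2 - 3 * g ^ 2 * e2 ^ 2 * W2 ^ 2) * h1
  · have h1 := ids_th0 hth h3
    subst h1 hka hA
    unfold FW B4
    linear_combination (g ^ 2 * e1 ^ 2 * W0 ^ 2 + 2 * g ^ 2 * e1 ^ 2 * W0 * W1 + g ^ 2 * e1 ^ 2 * W1 ^ 2 + 2 * g ^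
      2 * e1 * e2 * W0 ^ 2 + 2 * g ^ 2 * e1 * e2 * W0 * W1 + 2 * g ^ 2 * e1 * e2 * W0 * W2
      - 2 * g ^ 2 * e1 * e2 * W1 * W2 + g ^ 2 * e2 ^ 2 * W0 ^ 2 + 2 * g ^ 2 * e2 ^ 2 * W0
      * W2 + g ^ 2 * e2 ^ 2 * W2 ^ 2) * h3

theorem CW_nf {K : Type} [Field K] {th g e0 e1 e2 W0 ka A : K}
    (hth : th ^ 2 = 3) (he : e0 + e1 + e2 = 0) (hk : KA th g e0 e1 e2 ka A) :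
    CW th g e0 e1 e2 W0 = 4 * ((W0 + g * ka * (e1 - e2)) ^ 3
        + A * (W0 + g * ka * (e1 - e2))) + B4 g e0 e1 e2 ka := by
  have h0 : e0 = -e1 - e2 := by linear_combination he
  subst h0
  rcases hk with ⟨h3, hka, hA⟩ | ⟨h3, hka, hA⟩
  · have h1 := ids_ka hth h3 hka
    subst hka hA
    unfold CW B4
    linear_combination (6 * g ^ 3 * ka * e1 ^ 2 * e2 - 6 * g ^ 3 * ka * e1 * e2 ^ 2 - 4 * g ^ 2 * e1 ^ 2 * W0 + 8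
      * g ^ 2 * e1 * e2 * W0 - 4 * g ^ 2 * e2 ^ 2 * W0) * h1
  · have h1 := ids_th0 hth h3
    subst h1 hka hA
    unfold CW B4
    linear_combination (-4 * g ^ 2 * e1 * e2 * W0) * h3

theorem prod_nf {K : Type} [Field K] {th g e0 e1 e2 X ka A : K}
    (hth : th ^ 2 = 3) (he : e0 + e1 + e2 = 0) (hk : KA th g e0 e1 e2 ka A) :
    4 * ((e0 * (X - g * ka * (e1 - e2)) - e1 * e2) * (e1 * (X - g * ka * (e2 - e0)) - e2 * e0)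
        * (e2 * (X - g * ka * (e0 - e1)) - e0 * e1))
      + (2 * (e0 * e1 + e1 * e2 + e2 * e0) * X + ((2 - g ^ 2) * (e0 * e1 * e2)
          - g * ka * ((e1 - e2) * (e2 - e0) * (e0 - e1)))) ^ 2
    = (e0 * e1 * e2) * (4 * (X ^ 3 + A * X) + B4 g e0 e1 e2 ka) := by
  have h0 : e0 = -e1 - e2 := by linear_combination he
  subst h0
  rcases hk with ⟨h3, hka, hA⟩ | ⟨h3, hka, hA⟩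
  · have h1 := ids_ka hth h3 hka
    subst hka hA
    unfold B4
    linear_combination (-4 * g ^ 3 * ka * e1 ^ 5 * e2 - 10 * g ^ 3 * ka * e1 ^ 4 * e2 ^ 2 + 10 * g ^ 3 * ka * e1 ^
      2 * e2 ^ 4 + 4 * g ^ 3 * ka * e1 * e2 ^ 5 + 3 * g ^ 2 * e1 ^ 4 * e2 ^ 2 + 4 * g ^ 2
      * e1 ^ 4 * e2 * X + 6 * g ^ 2 * e1 ^ 3 * e2 ^ 3 + 8 * g ^ 2 * e1 ^ 3 * e2 ^ 2 * X +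
      3 * g ^ 2 * e1 ^ 2 * e2 ^ 4 + 8 * g ^ 2 * e1 ^ 2 * e2 ^ 3 * X + 4 * g ^ 2 * e1 * e2
      ^ 4 * X) * h1
  · have h1 := ids_th0 hth h3
    subst h1 hka hA
    unfold B4
    linear_combination (- g ^ 2 * e1 ^ 4 * e2 ^ 2 - 2 * g ^ 2 * e1 ^ 3 * e2 ^ 3 - g ^ 2 * e1 ^ 2 * e2 ^ 4) * h3

theorem phi_zero {K : Type} [Field K] {th g e0 e1 e2 : K}
    (hth : th ^ 2 = 3) (he : e0 + e1 + e2 = 0) :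
    Yp th g e0 e1 e2 ^ 2 - 4 * Zp th g e1 e2 e0 * Zp th g e2 e0 e1
      - 2 * th * g * (Yp th g e1 e2 e0 * Zp th g e1 e2 e0 - Yp th g e2 e0 e1 * Zp th g e2 e0 e1)
      + 4 * g ^ 2 * Yp th g e1 e2 e0 * Yp th g e2 e0 e1 - g ^ 2 * Zp th g e0 e1 e2 ^ 2 = 0 := by
  have h0 : e0 = -e1 - e2 := by linear_combination he
  subst h0
  unfold Yp Zp
  linear_combination (-3 * g ^ 4 * e1 ^ 4 + 6 * g ^ 4 * e1 ^ 2 * e2 ^ 2 - 3 * g ^ 4 * e2 ^ 4 + 2 * g ^ 3 * th *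
      e1 ^ 4 + 8 * g ^ 3 * th * e1 ^ 3 * e2 - 8 * g ^ 3 * th * e1 * e2 ^ 3 - 2 * g ^ 3 *
      th * e2 ^ 4 + 3 * g ^ 2 * e1 ^ 4 - 6 * g ^ 2 * e1 ^ 2 * e2 ^ 2 + 3 * g ^ 2 * e2 ^ 4) * hth

theorem phi_identity {K : Type} [Field K] {th g e0 e1 e2 W0 : K}
    (hth : th ^ 2 = 3) (he : e0 + e1 + e2 = 0) :
    Yp th g e0 e1 e2 ^ 2 * (e0 * W0 + g ^ 2 * (e1 * e2)) ^ 4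
      - 4 * Zp th g e1 e2 e0 * Zp th g e2 e0 e1
        * (e0 * W0 + g ^ 2 * (e1 * e2)) ^ 3 * (e0 * W0 - e1 * e2)
      - 2 * th * g * (Yp th g e1 e2 e0 * Zp th g e1 e2 e0 - Yp th g e2 e0 e1 * Zp th g e2 e0 e1)
        * (e0 * W0 + g ^ 2 * (e1 * e2)) ^ 2 * (e0 * W0 - e1 * e2) ^ 2
      + 4 * g ^ 2 * Yp th g e1 e2 e0 * Yp th g e2 e0 e1
        * (e0 * W0 + g ^ 2 * (e1 * e2)) * (e0 * W0 - e1 * e2) ^ 3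
      - g ^ 2 * Zp th g e0 e1 e2 ^ 2 * (e0 * W0 - e1 * e2) ^ 4
    = (1 + g ^ 2) ^ 4 * (e0 * e1 * e2) ^ 3 * CW th g e0 e1 e2 W0 := by
  have h0 : e0 = -e1 - e2 := by linear_combination he
  subst h0
  unfold Yp Zp CW
  linear_combination (g ^ 10 * e1 ^ 8 * e2 ^ 4 - 2 * g ^ 10 * e1 ^ 6 * e2 ^ 6 + g ^ 10 * e1 ^ 4 * e2 ^ 8 - 2 * g
      ^ 8 * e1 ^ 8 * e2 ^ 4 - 8 * g ^ 8 * e1 ^ 8 * e2 ^ 3 * W0 - 2 * g ^ 8 * e1 ^ 8 * e2 ^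
      2 * W0 ^ 2 + 4 * g ^ 8 * e1 ^ 7 * e2 ^ 3 * W0 ^ 2 + 4 * g ^ 8 * e1 ^ 6 * e2 ^ 6 + 44
      * g ^ 8 * e1 ^ 6 * e2 ^ 5 * W0 + 38 * g ^ 8 * e1 ^ 6 * e2 ^ 4 * W0 ^ 2 + 44 * g ^ 8
      * e1 ^ 5 * e2 ^ 6 * W0 + 64 * g ^ 8 * e1 ^ 5 * e2 ^ 5 * W0 ^ 2 - 2 * g ^ 8 * e1 ^ 4
      * e2 ^ 8 + 38 * g ^ 8 * e1 ^ 4 * e2 ^ 6 * W0 ^ 2 - 8 * g ^ 8 * e1 ^ 3 * e2 ^ 8 * W0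
      + 4 * g ^ 8 * e1 ^ 3 * e2 ^ 7 * W0 ^ 2 - 2 * g ^ 8 * e1 ^ 2 * e2 ^ 8 * W0 ^ 2 + 2 *
      g ^ 7 * th * e1 ^ 8 * e2 ^ 4 + 4 * g ^ 7 * th * e1 ^ 8 * e2 ^ 3 * W0 + 2 * g ^ 7 *
      th * e1 ^ 8 * e2 ^ 2 * W0 ^ 2 + 8 * g ^ 7 * th * e1 ^ 7 * e2 ^ 5 + 20 * g ^ 7 * th *
      e1 ^ 7 * e2 ^ 4 * W0 + 12 * g ^ 7 * th * e1 ^ 7 * e2 ^ 3 * W0 ^ 2 + 16 * g ^ 7 * th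
      * e1 ^ 6 * e2 ^ 5 * W0 + 18 * g ^ 7 * th * e1 ^ 6 * e2 ^ 4 * W0 ^ 2 - 8 * g ^ 7 * th
      * e1 ^ 5 * e2 ^ 7 - 16 * g ^ 7 * th * e1 ^ 5 * e2 ^ 6 * W0 - 2 * g ^ 7 * th * e1 ^ 4
      * e2 ^ 8 - 20 * g ^ 7 * th * e1 ^ 4 * e2 ^ 7 * W0 - 18 * g ^ 7 * th * e1 ^ 4 * e2 ^
      6 * W0 ^ 2 - 4 * g ^ 7 * th * e1 ^ 3 * e2 ^ 8 * W0 - 12 * g ^ 7 * th * e1 ^ 3 * e2 ^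
      7 * W0 ^ 2 - 2 * g ^ 7 * th * e1 ^ 2 * e2 ^ 8 * W0 ^ 2 + 2 * g ^ 6 * e1 ^ 8 * e2 ^ 4
      + 8 * g ^ 6 * e1 ^ 8 * e2 ^ 3 * W0 + 16 * g ^ 6 * e1 ^ 8 * e2 ^ 2 * W0 ^ 2 + 4 * g ^
      6 * e1 ^ 8 * e2 * W0 ^ 3 + 24 * g ^ 6 * e1 ^ 7 * e2 ^ 4 * W0 + 40 * g ^ 6 * e1 ^ 7 *
      e2 ^ 3 * W0 ^ 2 + 4 * g ^ 6 * e1 ^ 7 * e2 ^ 2 * W0 ^ 3 - 4 * g ^ 6 * e1 ^ 6 * e2 ^ 6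
      + 40 * g ^ 6 * e1 ^ 6 * e2 ^ 5 * W0 + 20 * g ^ 6 * e1 ^ 6 * e2 ^ 4 * W0 ^ 2 - 40 * g
      ^ 6 * e1 ^ 6 * e2 ^ 3 * W0 ^ 3 + 40 * g ^ 6 * e1 ^ 5 * e2 ^ 6 * W0 - 8 * g ^ 6 * e1
      ^ 5 * e2 ^ 5 * W0 ^ 2 - 112 * g ^ 6 * e1 ^ 5 * e2 ^ 4 * W0 ^ 3 + 2 * g ^ 6 * e1 ^ 4
      * e2 ^ 8 + 24 * g ^ 6 * e1 ^ 4 * e2 ^ 7 * W0 + 20 * g ^ 6 * e1 ^ 4 * e2 ^ 6 * W0 ^ 2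
      - 112 * g ^ 6 * e1 ^ 4 * e2 ^ 5 * W0 ^ 3 + 8 * g ^ 6 * e1 ^ 3 * e2 ^ 8 * W0 + 40 * g
      ^ 6 * e1 ^ 3 * e2 ^ 7 * W0 ^ 2 - 40 * g ^ 6 * e1 ^ 3 * e2 ^ 6 * W0 ^ 3 + 16 * g ^ 6
      * e1 ^ 2 * e2 ^ 8 * W0 ^ 2 + 4 * g ^ 6 * e1 ^ 2 * e2 ^ 7 * W0 ^ 3 + 4 * g ^ 6 * e1 *
      e2 ^ 8 * W0 ^ 3 - 4 * g ^ 5 * th * e1 ^ 8 * e2 ^ 3 * W0 - 8 * g ^ 5 * th * e1 ^ 8 *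
      e2 ^ 2 * W0 ^ 2 - 4 * g ^ 5 * th * e1 ^ 8 * e2 * W0 ^ 3 - 20 * g ^ 5 * th * e1 ^ 7 *
      e2 ^ 4 * W0 - 48 * g ^ 5 * th * e1 ^ 7 * e2 ^ 3 * W0 ^ 2 - 28 * g ^ 5 * th * e1 ^ 7
      * e2 ^ 2 * W0 ^ 3 - 16 * g ^ 5 * th * e1 ^ 6 * e2 ^ 5 * W0 - 72 * g ^ 5 * th * e1 ^
      6 * e2 ^ 4 * W0 ^ 2 - 60 * g ^ 5 * th * e1 ^ 6 * e2 ^ 3 * W0 ^ 3 + 16 * g ^ 5 * th *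
      e1 ^ 5 * e2 ^ 6 * W0 - 36 * g ^ 5 * th * e1 ^ 5 * e2 ^ 4 * W0 ^ 3 + 20 * g ^ 5 * th
      * e1 ^ 4 * e2 ^ 7 * W0 + 72 * g ^ 5 * th * e1 ^ 4 * e2 ^ 6 * W0 ^ 2 + 36 * g ^ 5 *
      th * e1 ^ 4 * e2 ^ 5 * W0 ^ 3 + 4 * g ^ 5 * th * e1 ^ 3 * e2 ^ 8 * W0 + 48 * g ^ 5 *
      th * e1 ^ 3 * e2 ^ 7 * W0 ^ 2 + 60 * g ^ 5 * th * e1 ^ 3 * e2 ^ 6 * W0 ^ 3 + 8 * g ^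
      5 * th * e1 ^ 2 * e2 ^ 8 * W0 ^ 2 + 28 * g ^ 5 * th * e1 ^ 2 * e2 ^ 7 * W0 ^ 3 + 4 *
      g ^ 5 * th * e1 * e2 ^ 8 * W0 ^ 3 - g ^ 4 * e1 ^ 8 * e2 ^ 4 - 8 * g ^ 4 * e1 ^ 8 *
      e2 ^ 3 * W0 - 16 * g ^ 4 * e1 ^ 8 * e2 ^ 2 * W0 ^ 2 - 16 * g ^ 4 * e1 ^ 8 * e2 * W0
      ^ 3 - 3 * g ^ 4 * e1 ^ 8 * W0 ^ 4 - 40 * g ^ 4 * e1 ^ 7 * e2 ^ 3 * W0 ^ 2 - 64 * g ^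
      4 * e1 ^ 7 * e2 ^ 2 * W0 ^ 3 - 12 * g ^ 4 * e1 ^ 7 * e2 * W0 ^ 4 + 2 * g ^ 4 * e1 ^
      6 * e2 ^ 6 + 44 * g ^ 4 * e1 ^ 6 * e2 ^ 5 * W0 - 20 * g ^ 4 * e1 ^ 6 * e2 ^ 4 * W0 ^
      2 - 104 * g ^ 4 * e1 ^ 6 * e2 ^ 3 * W0 ^ 3 - 12 * g ^ 4 * e1 ^ 6 * e2 ^ 2 * W0 ^ 4 +
      44 * g ^ 4 * e1 ^ 5 * e2 ^ 6 * W0 + 8 * g ^ 4 * e1 ^ 5 * e2 ^ 5 * W0 ^ 2 - 104 * g ^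
      4 * e1 ^ 5 * e2 ^ 4 * W0 ^ 3 + 12 * g ^ 4 * e1 ^ 5 * e2 ^ 3 * W0 ^ 4 - g ^ 4 * e1 ^
      4 * e2 ^ 8 - 20 * g ^ 4 * e1 ^ 4 * e2 ^ 6 * W0 ^ 2 - 104 * g ^ 4 * e1 ^ 4 * e2 ^ 5 *
      W0 ^ 3 + 30 * g ^ 4 * e1 ^ 4 * e2 ^ 4 * W0 ^ 4 - 8 * g ^ 4 * e1 ^ 3 * e2 ^ 8 * W0 -
      40 * g ^ 4 * e1 ^ 3 * e2 ^ 7 * W0 ^ 2 - 104 * g ^ 4 * e1 ^ 3 * e2 ^ 6 * W0 ^ 3 + 12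
      * g ^ 4 * e1 ^ 3 * e2 ^ 5 * W0 ^ 4 - 16 * g ^ 4 * e1 ^ 2 * e2 ^ 8 * W0 ^ 2 - 64 * g
      ^ 4 * e1 ^ 2 * e2 ^ 7 * W0 ^ 3 - 12 * g ^ 4 * e1 ^ 2 * e2 ^ 6 * W0 ^ 4 - 16 * g ^ 4
      * e1 * e2 ^ 8 * W0 ^ 3 - 12 * g ^ 4 * e1 * e2 ^ 7 * W0 ^ 4 - 3 * g ^ 4 * e2 ^ 8 * W0
      ^ 4 + 2 * g ^ 3 * th * e1 ^ 8 * e2 ^ 2 * W0 ^ 2 + 4 * g ^ 3 * th * e1 ^ 8 * e2 * W0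
      ^ 3 + 2 * g ^ 3 * th * e1 ^ 8 * W0 ^ 4 + 12 * g ^ 3 * th * e1 ^ 7 * e2 ^ 3 * W0 ^ 2
      + 28 * g ^ 3 * th * e1 ^ 7 * e2 ^ 2 * W0 ^ 3 + 16 * g ^ 3 * th * e1 ^ 7 * e2 * W0 ^
      4 + 18 * g ^ 3 * th * e1 ^ 6 * e2 ^ 4 * W0 ^ 2 + 60 * g ^ 3 * th * e1 ^ 6 * e2 ^ 3 *
      W0 ^ 3 + 44 * g ^ 3 * th * e1 ^ 6 * e2 ^ 2 * W0 ^ 4 + 36 * g ^ 3 * th * e1 ^ 5 * e2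
      ^ 4 * W0 ^ 3 + 48 * g ^ 3 * th * e1 ^ 5 * e2 ^ 3 * W0 ^ 4 - 18 * g ^ 3 * th * e1 ^ 4
      * e2 ^ 6 * W0 ^ 2 - 36 * g ^ 3 * th * e1 ^ 4 * e2 ^ 5 * W0 ^ 3 - 12 * g ^ 3 * th *
      e1 ^ 3 * e2 ^ 7 * W0 ^ 2 - 60 * g ^ 3 * th * e1 ^ 3 * e2 ^ 6 * W0 ^ 3 - 48 * g ^ 3 *
      th * e1 ^ 3 * e2 ^ 5 * W0 ^ 4 - 2 * g ^ 3 * th * e1 ^ 2 * e2 ^ 8 * W0 ^ 2 - 28 * g ^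
      3 * th * e1 ^ 2 * e2 ^ 7 * W0 ^ 3 - 44 * g ^ 3 * th * e1 ^ 2 * e2 ^ 6 * W0 ^ 4 - 4 *
      g ^ 3 * th * e1 * e2 ^ 8 * W0 ^ 3 - 16 * g ^ 3 * th * e1 * e2 ^ 7 * W0 ^ 4 - 2 * g ^
      3 * th * e2 ^ 8 * W0 ^ 4 + 2 * g ^ 2 * e1 ^ 8 * e2 ^ 2 * W0 ^ 2 + 4 * g ^ 2 * e1 ^ 8
      * e2 * W0 ^ 3 + 3 * g ^ 2 * e1 ^ 8 * W0 ^ 4 - 4 * g ^ 2 * e1 ^ 7 * e2 ^ 3 * W0 ^ 2 +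
      4 * g ^ 2 * e1 ^ 7 * e2 ^ 2 * W0 ^ 3 + 12 * g ^ 2 * e1 ^ 7 * e2 * W0 ^ 4 - 38 * g ^
      2 * e1 ^ 6 * e2 ^ 4 * W0 ^ 2 - 40 * g ^ 2 * e1 ^ 6 * e2 ^ 3 * W0 ^ 3 + 12 * g ^ 2 *
      e1 ^ 6 * e2 ^ 2 * W0 ^ 4 - 64 * g ^ 2 * e1 ^ 5 * e2 ^ 5 * W0 ^ 2 - 112 * g ^ 2 * e1
      ^ 5 * e2 ^ 4 * W0 ^ 3 - 12 * g ^ 2 * e1 ^ 5 * e2 ^ 3 * W0 ^ 4 - 38 * g ^ 2 * e1 ^ 4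
      * e2 ^ 6 * W0 ^ 2 - 112 * g ^ 2 * e1 ^ 4 * e2 ^ 5 * W0 ^ 3 - 30 * g ^ 2 * e1 ^ 4 *
      e2 ^ 4 * W0 ^ 4 - 4 * g ^ 2 * e1 ^ 3 * e2 ^ 7 * W0 ^ 2 - 40 * g ^ 2 * e1 ^ 3 * e2 ^
      6 * W0 ^ 3 - 12 * g ^ 2 * e1 ^ 3 * e2 ^ 5 * W0 ^ 4 + 2 * g ^ 2 * e1 ^ 2 * e2 ^ 8 *
      W0 ^ 2 + 4 * g ^ 2 * e1 ^ 2 * e2 ^ 7 * W0 ^ 3 + 12 * g ^ 2 * e1 ^ 2 * e2 ^ 6 * W0 ^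
      4 + 4 * g ^ 2 * e1 * e2 ^ 8 * W0 ^ 3 + 12 * g ^ 2 * e1 * e2 ^ 7 * W0 ^ 4 + 3 * g ^ 2
      * e2 ^ 8 * W0 ^ 4) * hth

end Pool.Agent.TH501.Hemi
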