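import Mathlib
import Pool.Agent.TH501.Hemi.Defs

/-! Job 3159 (Hemi A): a quadratic character sum over the field with `q ^ 3` elements. -/

set_option autoImplicit false
set_option linter.unusedSectionVars false

namespace Pool.Agent.TH501.Hemi

open Finset Classical

/-! ### a counting lemma -/

lemma nc_fib {α β : Type} (A : Finset α) (B : Finset β) (f : α → β) (d e : ℕ)
    (hf : ∀ x ∈ A, f x ∈ B) (hd : ∀ b ∈ B, (A.filter (fun x => f x = b)).card ≤ d)
    (hB : B.card ≤ e) (hA : d * e ≤ A.card) (hd0 : 0 < d) :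
    B.card = e ∧ ∀ b ∈ B, (A.filter (fun x => f x = b)).card = d := by
  have h1 : A.card = ∑ b ∈ B, (A.filter (fun x => f x = b)).card :=
    card_eq_sum_card_fiberwise hf
  have h2 : ∑ b ∈ B, (A.filter (fun x => f x = b)).card ≤ ∑ _b ∈ B, d := sum_le_sum hd
  rw [sum_const, smul_eq_mul] at h2
  have h3 : B.card = e := by
    apply le_antisymm hB
    have : d * e ≤ d * B.card := by rw [mul_comm d B.card]; omega
    exact Nat.le_of_mul_le_mul_left this hd0
  refine ⟨h3, ?_⟩
  by_contra hcon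
  push Not at hcon
  obtain ⟨b, hb, hne⟩ := hcon
  have h4 : ∑ b ∈ B, (A.filter (fun x => f x = b)).card < ∑ _b ∈ B, d :=
    sum_lt_sum hd ⟨b, hb, lt_of_le_of_ne (hd b hb) hne⟩
  rw [sum_const, smul_eq_mul, h3, mul_comm] at h4
  omega

variable {K : Type} [Field K] [Fintype K] {q : ℕ}

/-! ### arithmetic of the field -/

lemma nc_pow (h : Std K q) : ∃ p m : ℕ, p.Prime ∧ CharP K p ∧ q = p ^ m := by
  obtain ⟨p, hp, n, hpp, hn⟩ := FiniteField.card' K
  refine ⟨p, ?_⟩
  have h1 : q ∣ p ^ (n : ℕ) := by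
    rw [← hn, h.card]
    exact dvd_pow_self q (by norm_num)
  obtain ⟨m, -, hm⟩ := (Nat.dvd_prime_pow hpp).1 h1
  exact ⟨m, hpp, hp, hm⟩

lemma nc_q (h : Std K q) : 5 ≤ q := by
  have h1 := h.mod4
  have h2 : q ≠ 1 := by
    rintro rfl
    have h3 := h.card
    have := Fintype.one_lt_card (α := K)
    omega
  omega

lemma nc_add (h : Std K q) (j : ℕ) (x y : K) : (x + y) ^ q ^ j = x ^ q ^ j + y ^ q ^ j := by
  obtain ⟨p, m, hp, hc, hq⟩ := nc_pow h
  have := Fact.mk hp
  rw [hq, ← pow_mul]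
  exact add_pow_char_pow x y _ _

lemma nc_add1 (h : Std K q) (x y : K) : (x + y) ^ q = x ^ q + y ^ q := by
  have := nc_add h 1 x y
  simpa using this

lemma nc_card (h : Std K q) (x : K) : x ^ q ^ 6 = x := by
  rw [← h.card]
  exact FiniteField.pow_card x

lemma nc_two (h : Std K q) : (2 : K) ≠ 0 := by
  obtain ⟨p, m, hp, hc, hq⟩ := nc_pow h
  intro h2
  have h3 : ((2 : ℕ) : K) = 0 := by exact_mod_cast h2
  rw [CharP.cast_eq_zero_iff K p] at h3
  have h4 : p = 2 := (Nat.prime_dvd_prime_iff_eq hp Nat.prime_two).1 h3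
  have h5 := h.mod4
  have h6 := nc_q h
  rw [h4] at hq
  rcases m with _ | m
  · simp at hq; omega
  · rw [pow_succ] at hq; omega

lemma nc_neg (h : Std K q) (j : ℕ) (x : K) : (-x) ^ q ^ j = - x ^ q ^ j := by
  have h1 : Odd q := by
    rw [Nat.odd_iff]; have := h.mod4; omega
  exact Odd.neg_pow h1.pow x

lemma nc_sub (h : Std K q) (j : ℕ) (x y : K) : (x - y) ^ q ^ j = x ^ q ^ j - y ^ q ^ j := by
  rw [sub_eq_add_neg, nc_add h, nc_neg h, sub_eq_add_neg]

/-! ### roots -/

lemma nc_roots_le (d : ℕ) (hd : 0 < d) (m : K) :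
    (univ.filter (fun x : K => x ^ d = m)).card ≤ d := by
  have h1 : univ.filter (fun x : K => x ^ d = m) ⊆ (Polynomial.nthRoots d m).toFinset := by
    intro x hx
    rw [Multiset.mem_toFinset, Polynomial.mem_nthRoots hd]
    exact (mem_filter.1 hx).2
  exact (card_le_card h1).trans ((Multiset.toFinset_card_le _).trans (Polynomial.card_nthRoots d m))

lemma nc_roots (h : Std K q) (d e : ℕ) (hde : d * e = q ^ 6 - 1) :
    (univ.filter (fun x : K => x ^ e = 1)).card = e ∧
    ∀ m : K, m ^ e = 1 → (univ.filter (fun x : K => x ^ d = m)).card = d := by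
  have hq := nc_q h
  have hq6 : 1 < q ^ 6 := Nat.one_lt_pow (by norm_num) (by omega)
  have hd : 0 < d := by
    rcases Nat.eq_zero_or_pos d with h0 | h0
    · rw [h0, zero_mul] at hde; omega
    · exact h0
  have he : 0 < e := by
    rcases Nat.eq_zero_or_pos e with h0 | h0
    · rw [h0, mul_zero] at hde; omega
    · exact h0
  have hA : (univ.filter (fun x : K => x ≠ 0)).card = q ^ 6 - 1 := by
    rw [filter_ne', card_erase_of_mem (mem_univ _), card_univ, h.card]
  have hfil : ∀ m : K, m ^ e = 1 → (univ.filter (fun x : K => x ≠ 0)).filter (fun x => x ^ d = m) =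
      univ.filter (fun x : K => x ^ d = m) := by
    intro m hm
    ext x
    simp only [mem_filter, mem_univ, true_and, and_iff_right_iff_imp]
    rintro hx rfl
    rw [zero_pow hd.ne'] at hx
    rw [← hx, zero_pow he.ne'] at hm
    exact zero_ne_one hm
  obtain ⟨h1, h2⟩ := nc_fib (univ.filter (fun x : K => x ≠ 0)) (univ.filter (fun x : K => x ^ e = 1))
    (fun x => x ^ d) d e (by
      intro x hx
      rw [mem_filter] at hx ⊢
      refine ⟨mem_univ _, ?_⟩
      rw [← pow_mul, hde, ← h.card]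
      exact FiniteField.pow_card_sub_one_eq_one x hx.2) (by
      intro b hb
      rw [hfil b (mem_filter.1 hb).2]
      exact nc_roots_le d hd b) (nc_roots_le e he 1) (by rw [hA, hde]) hd
  refine ⟨h1, fun m hm => ?_⟩
  rw [← hfil m hm]
  exact h2 m (mem_filter.2 ⟨mem_univ _, hm⟩)

lemma nc_fix (j : ℕ) (hj : 1 < j) (x : K) (hx : x ≠ 0) : x ^ j = x ↔ x ^ (j - 1) = 1 := by
  have h1 : x ^ j = x ^ (j - 1) * x := by rw [← pow_succ]; congr 1; omega
  rw [h1]
  constructor
  · intro h2
    exact mul_right_cancel₀ hx (by rw [h2, one_mul])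
  · intro h2
    rw [h2, one_mul]

lemma nc_card_fix (h : Std K q) (j d : ℕ) (hj : 1 < j) (hd : d * (j - 1) = q ^ 6 - 1) :
    (univ.filter (fun x : K => x ^ j = x)).card = j := by
  have h1 : univ.filter (fun x : K => x ^ j = x) =
      insert 0 (univ.filter (fun x : K => x ^ (j - 1) = 1)) := by
    ext x
    simp only [mem_filter, mem_univ, true_and, mem_insert]
    by_cases hx : x = 0
    · simp [hx, show j ≠ 0 by omega]
    · simp [hx, nc_fix j hj x hx]
  rw [h1, card_insert_of_notMem, (nc_roots h d (j - 1) hd).1]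
  · omega
  · simp [show j - 1 ≠ 0 by omega]

lemma nc_card_k (h : Std K q) : (univ.filter (fun x : K => x ^ q = x)).card = q := by
  have hq := nc_q h
  apply nc_card_fix h q (1 + q + q ^ 2 + q ^ 3 + q ^ 4 + q ^ 5) (by omega)
  obtain ⟨r, rfl⟩ : ∃ r, q = r + 1 := ⟨q - 1, by omega⟩
  rw [Nat.add_sub_cancel]
  apply (Nat.sub_eq_of_eq_add _).symm
  ring

lemma nc_card_L (h : Std K q) : (univ.filter (fun x : K => x ^ q ^ 3 = x)).card = q ^ 3 := by
  have hq := nc_q h
  have h3 : 1 < q ^ 3 := Nat.one_lt_pow (by norm_num) (by omega)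
  apply nc_card_fix h (q ^ 3) (1 + q ^ 3) h3
  obtain ⟨r, hr⟩ : ∃ r, q ^ 3 = r + 1 := ⟨q ^ 3 - 1, by omega⟩
  have h6 : q ^ 6 = (q ^ 3) ^ 2 := by ring
  rw [h6, hr, Nat.add_sub_cancel]
  apply (Nat.sub_eq_of_eq_add _).symm
  ring

/-! ### quadratic equations over the field of `q` elements -/

lemma nc_sq (h : Std K q) (D : K) (hD : D ^ q = D) :
    ((univ.filter (fun r : K => r ^ q = r ∧ r ^ 2 = D)).card : ℤ) = 1 + eta q D := by
  have hq := nc_q h
  have hm := h.mod4
  have hq1 : q = 2 * ((q - 1) / 2) + 1 := by omega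
  unfold eta
  by_cases h0 : D = 0
  · subst h0
    have : univ.filter (fun r : K => r ^ q = r ∧ r ^ 2 = 0) = {0} := by
      ext r
      simp only [mem_filter, mem_univ, true_and, mem_singleton]
      constructor
      · rintro ⟨-, h2⟩
        exact pow_eq_zero_iff (two_ne_zero) |>.1 h2
      · rintro rfl
        exact ⟨zero_pow (by omega), zero_pow two_ne_zero⟩
    rw [this, card_singleton, if_pos rfl]
    norm_num
  rw [if_neg h0]
  by_cases h1 : D ^ ((q - 1) / 2) = 1
  · rw [if_pos h1]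
    have h6 : 1 ≤ q ^ 6 := Nat.one_le_pow _ _ (by omega)
    obtain ⟨t, ht⟩ : (q - 1) ∣ q ^ 6 - 1 := by
      have := Nat.sub_dvd_pow_sub_pow q 1 6
      simpa using this
    have hd : 2 * ((q - 1) / 2 * t) = q ^ 6 - 1 := by
      rw [ht, ← mul_assoc]
      congr 1
      omega
    have h2 := (nc_roots h 2 _ hd).2 D (by rw [pow_mul, h1, one_pow])
    have h3 : univ.filter (fun r : K => r ^ q = r ∧ r ^ 2 = D) =
        univ.filter (fun r : K => r ^ 2 = D) := by
      ext r
      simp only [mem_filter, mem_univ, true_and, and_iff_right_iff_imp]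
      intro hr
      rw [hq1, pow_succ, pow_mul, hr, h1, one_mul]
    rw [h3, h2]
    norm_num
  · rw [if_neg h1]
    have : univ.filter (fun r : K => r ^ q = r ∧ r ^ 2 = D) = ∅ := by
      ext r
      simp only [mem_filter, mem_univ, true_and, notMem_empty, iff_false, not_and]
      intro hr hr2
      apply h1
      have hr0 : r ≠ 0 := by
        rintro rfl
        apply h0
        rw [← hr2, zero_pow two_ne_zero]
      rw [nc_fix q (by omega) r hr0] at hr
      rw [← hr2, ← pow_mul]
      rw [← hr]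
      congr 1
      omega
    rw [this, card_empty]
    norm_num

lemma nc_mulk {x y : K} (hx : x ^ q = x) (hy : y ^ q = y) : (x * y) ^ q = x * y := by
  rw [mul_pow, hx, hy]

lemma nc_addk (h : Std K q) {x y : K} (hx : x ^ q = x) (hy : y ^ q = y) : (x + y) ^ q = x + y := by
  rw [nc_add1 h, hx, hy]

lemma nc_sub1 (h : Std K q) (x y : K) : (x - y) ^ q = x ^ q - y ^ q := by
  have := nc_sub h 1 x y
  simpa using this

lemma nc_subk (h : Std K q) {x y : K} (hx : x ^ q = x) (hy : y ^ q = y) : (x - y) ^ q = x - y := by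
  rw [nc_sub1 h, hx, hy]

lemma nc_twok (h : Std K q) : (2 : K) ^ q = 2 := by
  have := nc_add1 h (1 : K) 1
  rw [one_pow] at this
  norm_num at this
  exact this

lemma nc_quad (h : Std K q) {A B C : K} (hA : A ^ q = A) (hB : B ^ q = B) (hC : C ^ q = C)
    (hA0 : A ≠ 0) :
    ((univ.filter (fun v : K => v ^ q = v ∧ A * v ^ 2 + B * v + C = 0)).card : ℤ) =
      1 + eta q (B ^ 2 - 4 * A * C) := by
  have h2 := nc_two h
  have h2k := nc_twok h
  have h4k : (4 : K) ^ q = 4 := by
    have : (4 : K) = 2 * 2 := by norm_num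
    rw [this, mul_pow, h2k]
  rw [← nc_sq h (B ^ 2 - 4 * A * C) (by
    apply nc_subk h
    · rw [← pow_mul, mul_comm 2 q, pow_mul, hB]
    · exact nc_mulk (nc_mulk h4k hA) hC)]
  congr 1
  apply card_nbij' (fun v => 2 * A * v + B) (fun r => (r - B) / (2 * A))
  · intro v hv
    simp only [coe_filter, mem_univ, true_and, Set.mem_ofPred_eq] at hv ⊢
    refine ⟨nc_addk h (nc_mulk (nc_mulk h2k hA) hv.1) hB, ?_⟩
    linear_combination 4 * A * hv.2
  · intro r hr
    simp only [coe_filter, mem_univ, true_and, Set.mem_ofPred_eq] at hr ⊢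
    refine ⟨?_, ?_⟩
    · rw [div_pow, nc_subk h hr.1 hB, nc_mulk h2k hA]
    · field_simp
      linear_combination hr.2
  · intro v _
    field_simp
    ring
  · intro r _
    field_simp
    ring

/-! ### trace and norm -/

lemma nc_L4 {x : K} (hx : x ^ q ^ 3 = x) : x ^ q ^ 4 = x ^ q := by
  rw [show q ^ 4 = q ^ 3 * q by ring, pow_mul, hx]

lemma nc_Lq2 {x : K} (hx : x ^ q ^ 3 = x) : (x ^ q ^ 2) ^ q = x := by
  rw [← pow_mul, show q ^ 2 * q = q ^ 3 by ring, hx]

lemma nc_Lq1 {x : K} : (x ^ q) ^ q = x ^ q ^ 2 := by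
  rw [← pow_mul, ← sq]

lemma nc_T3k (h : Std K q) {x : K} (hx : x ^ q ^ 3 = x) : (T3 q x) ^ q = T3 q x := by
  unfold T3
  rw [nc_L4 hx, nc_add1 h, nc_add1 h, nc_Lq2 hx, nc_Lq1]
  ring

lemma nc_N3k {x : K} (hx : x ^ q ^ 3 = x) : (N3 q x) ^ q = N3 q x := by
  unfold N3
  rw [nc_L4 hx, mul_pow, mul_pow, nc_Lq2 hx, nc_Lq1]
  ring

lemma nc_E2k (h : Std K q) {x : K} (hx : x ^ q ^ 3 = x) :
    (x * x ^ q ^ 2 + x ^ q ^ 2 * x ^ q ^ 4 + x ^ q ^ 4 * x) ^ q =
      x * x ^ q ^ 2 + x ^ q ^ 2 * x ^ q ^ 4 + x ^ q ^ 4 * x := by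
  rw [nc_L4 hx, nc_add1 h, nc_add1 h, mul_pow, mul_pow, mul_pow, nc_Lq2 hx, nc_Lq1]
  ring

lemma nc_expand (h : Std K q) {x v : K} (hv : v ^ q = v) :
    N3 q (x + v) = N3 q x + (x * x ^ q ^ 2 + x ^ q ^ 2 * x ^ q ^ 4 + x ^ q ^ 4 * x) * v
      + T3 q x * v ^ 2 + v ^ 3 := by
  have h2 : v ^ q ^ 2 = v := by rw [sq, pow_mul, hv, hv]
  have h4 : v ^ q ^ 4 = v := by rw [show q ^ 4 = q ^ 2 * q ^ 2 by ring, pow_mul, h2, h2]
  unfold N3 T3
  rw [nc_add h, nc_add h, h2, h4]
  ring

lemma nc_Nzero (h : Std K q) {y : K} (hy : N3 q y = 0) : y = 0 := by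
  have hq := nc_q h
  unfold N3 at hy
  rcases mul_eq_zero.1 hy with h1 | h1
  · rcases mul_eq_zero.1 h1 with h2 | h2
    · exact h2
    · exact pow_eq_zero_iff (by positivity) |>.1 h2
  · exact pow_eq_zero_iff (by positivity) |>.1 h1

lemma nc_Npow {y : K} (hy : y ^ q ^ 3 = y) : N3 q y = y ^ (q ^ 2 + q + 1) := by
  unfold N3
  rw [nc_L4 hy, pow_succ, pow_add]
  ring

lemma nc_Ncount (h : Std K q) {c : K} (hc : c ^ q = c) (hc0 : c ≠ 0) :
    (univ.filter (fun y : K => y ^ q ^ 3 = y ∧ N3 q y = c)).card = q ^ 2 + q + 1 := by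
  have hq := nc_q h
  have hq3 : 1 < q ^ 3 := Nat.one_lt_pow (by norm_num) (by omega)
  have hc1 : c ^ (q - 1) = 1 := (nc_fix q (by omega) c hc0).1 hc
  have h1 : univ.filter (fun y : K => y ^ q ^ 3 = y ∧ N3 q y = c) =
      univ.filter (fun y : K => y ^ (q ^ 2 + q + 1) = c) := by
    ext y
    simp only [mem_filter, mem_univ, true_and]
    constructor
    · rintro ⟨h2, h3⟩
      rw [← nc_Npow h2, h3]
    · intro h2
      have hy0 : y ≠ 0 := by
        rintro rfl
        apply hc0
        rw [← h2, zero_pow (by omega)]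
      have h3 : y ^ q ^ 3 = y := by
        rw [nc_fix (q ^ 3) hq3 y hy0]
        have : q ^ 3 - 1 = (q ^ 2 + q + 1) * (q - 1) := by
          obtain ⟨r, rfl⟩ : ∃ r, q = r + 1 := ⟨q - 1, by omega⟩
          rw [Nat.add_sub_cancel]
          apply Nat.sub_eq_of_eq_add
          ring
        rw [this, pow_mul, h2, hc1]
      exact ⟨h3, by rw [nc_Npow h3, h2]⟩
  rw [h1]
  have hde : (q ^ 2 + q + 1) * ((q - 1) * (q ^ 3 + 1)) = q ^ 6 - 1 := by
    obtain ⟨r, rfl⟩ : ∃ r, q = r + 1 := ⟨q - 1, by omega⟩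
    rw [Nat.add_sub_cancel]
    apply (Nat.sub_eq_of_eq_add _).symm
    ring
  exact (nc_roots h _ _ hde).2 c (by rw [pow_mul, hc1, one_pow])

lemma nc_Tcount (h : Std K q) :
    (univ.filter (fun x : K => x ^ q ^ 3 = x ∧ T3 q x = 0)).card = q ^ 2 := by
  have hq := nc_q h
  have hq2 : q < q ^ 2 := by nlinarith
  have hdeg : ∀ c : K, (Polynomial.X ^ q ^ 2 + (Polynomial.X ^ q + Polynomial.X - Polynomial.C c) :
      Polynomial K).natDegree = q ^ 2 := by
    intro c
    have h2 : (Polynomial.X ^ q + Polynomial.X - Polynomial.C c : Polynomial K).natDegree ≤ q := by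
      refine (Polynomial.natDegree_sub_le _ _).trans ?_
      rw [Polynomial.natDegree_C, Nat.max_le]
      refine ⟨(Polynomial.natDegree_add_le _ _).trans ?_, Nat.zero_le _⟩
      rw [Polynomial.natDegree_X_pow, Polynomial.natDegree_X, Nat.max_le]
      omega
    rw [Polynomial.natDegree_add_eq_left_of_natDegree_lt, Polynomial.natDegree_X_pow]
    rw [Polynomial.natDegree_X_pow]
    omega
  obtain ⟨-, h2⟩ := nc_fib (univ.filter (fun x : K => x ^ q ^ 3 = x))
    (univ.filter (fun x : K => x ^ q = x)) (T3 q) (q ^ 2) q (by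
      intro x hx
      rw [mem_filter] at hx ⊢
      exact ⟨mem_univ _, nc_T3k h hx.2⟩) (by
      intro c hc
      set P : Polynomial K := Polynomial.X ^ q ^ 2 + (Polynomial.X ^ q + Polynomial.X -
        Polynomial.C c) with hP
      have hP0 : P ≠ 0 := by
        intro h0
        have := hdeg c
        rw [← hP, h0, Polynomial.natDegree_zero] at this
        nlinarith
      have h3 : (univ.filter (fun x : K => x ^ q ^ 3 = x)).filter (fun x => T3 q x = c) ⊆
          P.roots.toFinset := by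
        intro x hx
        rw [mem_filter, mem_filter] at hx
        rw [Multiset.mem_toFinset, Polynomial.mem_roots hP0, Polynomial.IsRoot.def, hP]
        have h4 := hx.2
        unfold T3 at h4
        rw [nc_L4 hx.1.2] at h4
        simp only [Polynomial.eval_add, Polynomial.eval_sub, Polynomial.eval_pow,
          Polynomial.eval_X, Polynomial.eval_C]
        linear_combination h4
      refine (card_le_card h3).trans ((Multiset.toFinset_card_le _).trans ?_)
      exact (Polynomial.card_roots' P).trans (hdeg c).le) (nc_card_k h).le (by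
      rw [nc_card_L h]
      exact (by ring : q ^ 2 * q = q ^ 3).le) (by positivity)
  have h3 := h2 0 (mem_filter.2 ⟨mem_univ _, zero_pow (by omega)⟩)
  rwa [filter_filter] at h3

/-- the second elementary symmetric function of the conjugates -/
def ncE2 (q : ℕ) (x : K) : K := x * x ^ q ^ 2 + x ^ q ^ 2 * x ^ q ^ 4 + x ^ q ^ 4 * x

lemma nc_pairs (h : Std K q) (a b : K) (ha : a ^ q = a) (hb : b ^ q = b)
    (hu : ∃! x : K, x ^ q = x ∧ x ^ 3 + a * x + b = 0) :
    ∑ x ∈ univ.filter (fun x : K => x ^ q ^ 3 = x),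
      (univ.filter (fun v : K => v ^ q = v ∧
        T3 q x * v ^ 2 + (ncE2 q x - a) * v + (N3 q x + b) = 0)).card = q ^ 3 := by
  have hq := nc_q h
  obtain ⟨r, ⟨hrk, hr⟩, hru⟩ := hu
  have h1 : ∀ x ∈ univ.filter (fun x : K => x ^ q ^ 3 = x),
      (univ.filter (fun v : K => v ^ q = v ∧
        T3 q x * v ^ 2 + (ncE2 q x - a) * v + (N3 q x + b) = 0)).card =
      ∑ v ∈ univ.filter (fun v : K => v ^ q = v),
        if N3 q (x + v) = v ^ 3 + a * v - b then 1 else 0 := by
    intro x _
    rw [← card_filter, filter_filter]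
    congr 1
    apply filter_congr
    intro v _
    apply and_congr_right
    intro hv
    rw [nc_expand h hv]
    unfold ncE2
    constructor
    · intro h2
      linear_combination h2
    · intro h2
      linear_combination h2
  rw [sum_congr rfl h1, sum_comm]
  have h2 : ∀ v ∈ univ.filter (fun v : K => v ^ q = v),
      (∑ x ∈ univ.filter (fun x : K => x ^ q ^ 3 = x),
        if N3 q (x + v) = v ^ 3 + a * v - b then 1 else 0) =
      if v = -r then 1 else q ^ 2 + q + 1 := by
    intro v hv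
    have hvk := (mem_filter.1 hv).2
    have hv3 : v ^ q ^ 3 = v := by
      rw [show q ^ 3 = q * q * q by ring, pow_mul, pow_mul, hvk, hvk, hvk]
    rw [← card_filter, filter_filter]
    have h3 : (univ.filter (fun x : K => x ^ q ^ 3 = x ∧
        N3 q (x + v) = v ^ 3 + a * v - b)).card =
        (univ.filter (fun y : K => y ^ q ^ 3 = y ∧ N3 q y = v ^ 3 + a * v - b)).card := by
      apply card_nbij' (fun x => x + v) (fun y => y - v)
      · intro x hx
        simp only [coe_filter, mem_univ, true_and, Set.mem_ofPred_eq] at hx ⊢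
        exact ⟨by rw [nc_add h, hx.1, hv3], hx.2⟩
      · intro y hy
        simp only [coe_filter, mem_univ, true_and, Set.mem_ofPred_eq] at hy ⊢
        exact ⟨by rw [nc_sub h, hy.1, hv3], by rw [sub_add_cancel]; exact hy.2⟩
      · intro x _
        ring
      · intro y _
        ring
    rw [h3]
    have hck : (v ^ 3 + a * v - b) ^ q = v ^ 3 + a * v - b :=
      nc_subk h (nc_addk h (by rw [← pow_mul, mul_comm 3 q, pow_mul, hvk]) (nc_mulk ha hvk)) hb
    by_cases hvr : v = -r
    · rw [if_pos hvr]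
      have hc : v ^ 3 + a * v - b = 0 := by
        rw [hvr]; linear_combination -hr
      rw [hc]
      have : univ.filter (fun y : K => y ^ q ^ 3 = y ∧ N3 q y = 0) = {0} := by
        ext y
        simp only [mem_filter, mem_univ, true_and, mem_singleton]
        constructor
        · rintro ⟨-, h4⟩
          exact nc_Nzero h h4
        · rintro rfl
          refine ⟨zero_pow (by positivity), ?_⟩
          unfold N3
          rw [zero_mul, zero_mul]
      rw [this, card_singleton]
    · rw [if_neg hvr]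
      apply nc_Ncount h hck
      intro hc
      apply hvr
      have := hru (-v) ⟨by
        have := nc_neg h 1 v
        rw [pow_one] at this
        rw [this, hvk], by linear_combination -hc⟩
      rw [← this, neg_neg]
  rw [sum_congr rfl h2]
  have hmem : -r ∈ univ.filter (fun v : K => v ^ q = v) := by
    refine mem_filter.2 ⟨mem_univ _, ?_⟩
    have := nc_neg h 1 r
    rw [pow_one] at this
    rw [this, hrk]
  rw [← add_sum_erase _ _ hmem, if_pos rfl]
  have h4 : ∑ v ∈ (univ.filter (fun v : K => v ^ q = v)).erase (-r),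
      (if v = -r then 1 else q ^ 2 + q + 1) =
      ∑ _v ∈ (univ.filter (fun v : K => v ^ q = v)).erase (-r), (q ^ 2 + q + 1) := by
    apply sum_congr rfl
    intro v hv
    rw [if_neg (mem_erase.1 hv).1]
  rw [h4, sum_const, card_erase_of_mem hmem, nc_card_k h, smul_eq_mul]
  obtain ⟨t, rfl⟩ : ∃ t, q = t + 1 := ⟨q - 1, by omega⟩
  rw [Nat.add_sub_cancel]
  ring

lemma nc_E2k' (h : Std K q) {x : K} (hx : x ^ q ^ 3 = x) : (ncE2 q x) ^ q = ncE2 q x :=
  nc_E2k h hx

/-- the pointwise identity -/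
lemma nc_point (h : Std K q) (a b : K) (ha : a ^ q = a) (hb : b ^ q = b) {x : K}
    (hx : x ^ q ^ 3 = x) :
    eta q ((ncE2 q x - a) ^ 2 - 4 * T3 q x * (N3 q x + b)) =
      ((univ.filter (fun v : K => v ^ q = v ∧
        T3 q x * v ^ 2 + (ncE2 q x - a) * v + (N3 q x + b) = 0)).card : ℤ) - 1 +
      (if T3 q x = 0 then 1 else 0) -
      q * (if T3 q x = 0 ∧ ncE2 q x = a ∧ N3 q x = -b then 1 else 0) := by
  have hq := nc_q h
  have h1k := nc_T3k h hx
  have h2k : (ncE2 q x - a) ^ q = ncE2 q x - a := nc_subk h (nc_E2k' h hx) ha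
  have h3k : (N3 q x + b) ^ q = N3 q x + b := nc_addk h (nc_N3k hx) hb
  by_cases h1 : T3 q x = 0
  · by_cases h2 : ncE2 q x = a
    · have hD : (ncE2 q x - a) ^ 2 - 4 * T3 q x * (N3 q x + b) = 0 := by
        rw [h1, h2]; ring
      rw [hD]
      have he : eta q (0 : K) = 0 := by unfold eta; rw [if_pos rfl]
      rw [he, if_pos h1]
      by_cases h3 : N3 q x = -b
      · rw [if_pos ⟨h1, h2, h3⟩]
        have : univ.filter (fun v : K => v ^ q = v ∧
            T3 q x * v ^ 2 + (ncE2 q x - a) * v + (N3 q x + b) = 0) =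
            univ.filter (fun v : K => v ^ q = v) := by
          apply filter_congr
          intro v _
          rw [h1, h2, h3]
          simp
        rw [this, nc_card_k h]
        ring
      · rw [if_neg (fun h' => h3 h'.2.2)]
        have : univ.filter (fun v : K => v ^ q = v ∧
            T3 q x * v ^ 2 + (ncE2 q x - a) * v + (N3 q x + b) = 0) = ∅ := by
          ext v
          simp only [mem_filter, mem_univ, true_and, notMem_empty, iff_false, not_and]
          intro _ h4
          apply h3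
          rw [h1, h2] at h4
          linear_combination h4
        rw [this, card_empty]
        norm_num
    · have h2' : ncE2 q x - a ≠ 0 := sub_ne_zero.2 h2
      rw [if_pos h1, if_neg (fun h' => h2 h'.2.1)]
      have he : eta q ((ncE2 q x - a) ^ 2 - 4 * T3 q x * (N3 q x + b)) = 1 := by
        have hD : (ncE2 q x - a) ^ 2 - 4 * T3 q x * (N3 q x + b) = (ncE2 q x - a) ^ 2 := by
          rw [h1]; ring
        rw [hD]
        unfold eta
        rw [if_neg (pow_ne_zero 2 h2'), if_pos]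
        rw [← pow_mul, show 2 * ((q - 1) / 2) = q - 1 by have := h.mod4; omega]
        exact (nc_fix q (by omega) _ h2').1 h2k
      rw [he]
      have : univ.filter (fun v : K => v ^ q = v ∧
          T3 q x * v ^ 2 + (ncE2 q x - a) * v + (N3 q x + b) = 0) =
          {-(N3 q x + b) / (ncE2 q x - a)} := by
        ext v
        simp only [mem_filter, mem_univ, true_and, mem_singleton]
        rw [h1]
        constructor
        · rintro ⟨-, h4⟩
          field_simp
          linear_combination h4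
        · rintro rfl
          refine ⟨?_, ?_⟩
          · have h5 := nc_neg h 1 (N3 q x + b)
            rw [pow_one] at h5
            rw [div_pow, h2k, h5, h3k]
          · field_simp
            ring
      rw [this, card_singleton]
      norm_num
  · rw [if_neg h1, if_neg (fun h' => h1 h'.1), nc_quad h h1k h2k h3k h1]
    ring

lemma nc_n3 (h : Std K q) (a b : K)
    (hu : ∃! x : K, x ^ q = x ∧ x ^ 3 + a * x + b = 0) :
    (univ.filter (fun x : K => x ^ q ^ 3 = x ∧
      (T3 q x = 0 ∧ ncE2 q x = a ∧ N3 q x = -b))).card ≤ 1 := by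
  obtain ⟨r, ⟨hrk, hr⟩, -⟩ := hu
  have h2 : r ^ q ^ 2 = r := by rw [sq, pow_mul, hrk, hrk]
  have h4 : r ^ q ^ 4 = r := by rw [show q ^ 4 = q ^ 2 * q ^ 2 by ring, pow_mul, h2, h2]
  have key : ∀ x ∈ univ.filter (fun x : K => x ^ q ^ 3 = x ∧
      (T3 q x = 0 ∧ ncE2 q x = a ∧ N3 q x = -b)), x = r := by
    intro x hx
    obtain ⟨-, hx3, hT, hE, hN⟩ := mem_filter.1 hx
    have h6 := nc_card h x
    have hprod : (r - x) * (r - x ^ q ^ 2) * (r - x ^ q ^ 4) = 0 := by
      unfold T3 at hT
      unfold ncE2 at hE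
      unfold N3 at hN
      linear_combination hr - r ^ 2 * hT + r * hE - hN
    rcases mul_eq_zero.1 hprod with h5 | h5
    · rcases mul_eq_zero.1 h5 with h7 | h7
      · exact (sub_eq_zero.1 h7).symm
      · have h8 := sub_eq_zero.1 h7
        have h9 : r ^ q ^ 4 = x := by
          rw [h8, ← pow_mul, ← pow_add]
          exact h6
        rw [← h9, h4]
    · have h8 := sub_eq_zero.1 h5
      have h9 : r ^ q ^ 2 = x := by
        rw [h8, ← pow_mul, ← pow_add]
        exact h6
      rw [← h9, h2]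
  rw [card_le_one]
  intro x hx y hy
  rw [key x hx, key y hy]

theorem norm_count (h : Std K q) (a b : K) (ha : a ^ q = a) (hb : b ^ q = b)
    (hu : ∃! x : K, x ^ q = x ∧ x ^ 3 + a * x + b = 0) :
    (∑ x ∈ univ.filter (fun x : K => x ^ q ^ 3 = x),
        eta q ((x * x ^ q ^ 2 + x ^ q ^ 2 * x ^ q ^ 4 + x ^ q ^ 4 * x - a) ^ 2
          - 4 * T3 q x * (N3 q x + b)) = (q : ℤ) ^ 2) ∨
    (∑ x ∈ univ.filter (fun x : K => x ^ q ^ 3 = x),
        eta q ((x * x ^ q ^ 2 + x ^ q ^ 2 * x ^ q ^ 4 + x ^ q ^ 4 * x - a) ^ 2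
          - 4 * T3 q x * (N3 q x + b)) = (q : ℤ) ^ 2 - q) := by
  have h1 : ∑ x ∈ univ.filter (fun x : K => x ^ q ^ 3 = x),
        eta q ((x * x ^ q ^ 2 + x ^ q ^ 2 * x ^ q ^ 4 + x ^ q ^ 4 * x - a) ^ 2
          - 4 * T3 q x * (N3 q x + b)) = (q : ℤ) ^ 2 - q *
        (univ.filter (fun x : K => x ^ q ^ 3 = x ∧
          (T3 q x = 0 ∧ ncE2 q x = a ∧ N3 q x = -b))).card := by
    have h2 : ∀ x ∈ univ.filter (fun x : K => x ^ q ^ 3 = x),
        eta q ((x * x ^ q ^ 2 + x ^ q ^ 2 * x ^ q ^ 4 + x ^ q ^ 4 * x - a) ^ 2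
          - 4 * T3 q x * (N3 q x + b)) =
        ((univ.filter (fun v : K => v ^ q = v ∧
          T3 q x * v ^ 2 + (ncE2 q x - a) * v + (N3 q x + b) = 0)).card : ℤ) - 1 +
        (if T3 q x = 0 then 1 else 0) -
        q * (if T3 q x = 0 ∧ ncE2 q x = a ∧ N3 q x = -b then 1 else 0) := by
      intro x hx
      exact nc_point h a b ha hb (mem_filter.1 hx).2
    rw [sum_congr rfl h2, sum_sub_distrib, sum_add_distrib, sum_sub_distrib, ← mul_sum,
      sum_const, nc_card_L h, ← Nat.cast_sum, nc_pairs h a b ha hb hu]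
    have h3 : ∑ x ∈ univ.filter (fun x : K => x ^ q ^ 3 = x), (if T3 q x = 0 then (1 : ℤ) else 0) =
        (q : ℤ) ^ 2 := by
      rw [← natCast_card_filter, filter_filter, nc_Tcount h]
      push_cast
      ring
    have h4 : ∑ x ∈ univ.filter (fun x : K => x ^ q ^ 3 = x),
        (if T3 q x = 0 ∧ ncE2 q x = a ∧ N3 q x = -b then (1 : ℤ) else 0) =
        (univ.filter (fun x : K => x ^ q ^ 3 = x ∧
          (T3 q x = 0 ∧ ncE2 q x = a ∧ N3 q x = -b))).card := by
      rw [← natCast_card_filter, filter_filter]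
    rw [h3, h4]
    push_cast
    ring
  have h5 := nc_n3 h a b hu
  rw [h1]
  rcases Nat.le_one_iff_eq_zero_or_eq_one.1 h5 with h6 | h6
  · left
    rw [h6]
    push_cast
    ring
  · right
    rw [h6]
    push_cast
    ring

end Pool.Agent.TH501.Hemi
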