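import Mathlib
import Pool.Agent.TH501.Hemi.Defs
import Pool.Agent.TH501.Hemi.Ops
import Pool.Agent.TH501.Hemi.Exist
import Pool.Agent.TH501.Hemi.Ids
import Pool.Agent.TH501.Hemi.Cubic

set_option autoImplicit false

namespace Pool.Agent.TH501.Hemi

open Finset Classical

/-- All facts on the parameters of a point of the conic `C_S`. -/
structure Par {K : Type} [Field K] [Fintype K] (q : ℕ) (φ : K →+* K)
    (th S lam e ε g e1 e2 : K) : Prop where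
  f1 : ∀ x : K, x ^ q = φ x
  f2 : ∀ x : K, x ^ q ^ 2 = φ (φ x)
  f3 : ∀ x : K, x ^ q ^ 3 = φ (φ (φ x))
  f4 : ∀ x : K, x ^ q ^ 4 = φ (φ (φ (φ x)))
  f6 : ∀ x : K, φ (φ (φ (φ (φ (φ x))))) = x
  th2 : th ^ 2 = 3
  thq : φ th = -th
  hS : S ∈ mu K q
  S0 : S ≠ 0
  S3 : φ (φ (φ S)) = S⁻¹
  gN : N3 q S = g
  g0 : g ≠ 0
  gq : φ g = g⁻¹
  k0 : 1 + g ^ 2 ≠ 0
  lam0 : lam ≠ 0
  lamq : φ lam = g ^ 3 * lam
  e00 : e ≠ 0
  e10 : e1 ≠ 0
  e20 : e2 ≠ 0
  ee : φ e = e2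
  ee1 : φ e1 = e
  ee2 : φ e2 = e1
  eT : e + e1 + e2 = 0
  eps0 : ε ≠ 0
  epsq : φ ε = -ε

variable {K : Type} [Field K] [Fintype K] {q : ℕ}

theorem pr_g (h : Std K q) {S : K} (hS : S ∈ mu K q) :
    N3 q S ≠ 0 ∧ (N3 q S) ^ q = (N3 q S)⁻¹ ∧ 1 + (N3 q S) ^ 2 ≠ 0 := by
  obtain ⟨φ, h1, h2, h3, h4, h6⟩ := ops_frob h
  obtain ⟨N, y0, y1, y2, z0, z1, z2, s0, hN0, hN, -, -, -, -, -, -, hNq, -⟩ :=
    ops_coord h hS h1 h3 h6 0
  have hNe : N3 q S = N := by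
    simp only [N3, h2, h4]; exact hN.symm
  rw [hNe, h1]
  refine ⟨hN0, hNq, ?_⟩
  intro h0
  have hsq : N ^ 2 = -1 := by linear_combination h0
  have h5 := cb_i h hsq
  rw [h1, hNq] at h5
  have h6 : N * N⁻¹ = 1 := mul_inv_cancel₀ hN0
  rw [h5, ← pow_two, hsq] at h6
  exact hd_neg_one_ne h h6

theorem par_exists (h : Std K q) {th : K} (hth : th ^ 2 = 3) (hth' : th ^ q = - th)
    {S x : K} (hS : S ∈ mu K q) (hx : InC q th S x) :
    ∃ (φ : K →+* K) (lam e ε g e1 e2 : K), Par q φ th S lam e ε g e1 e2 ∧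
      x = lam * g * Yp th g e e1 e2 / S := by
  obtain ⟨φ, h1, h2, h3, h4, h6⟩ := ops_frob h
  obtain ⟨lam, e, hl0, hlq, he0, he3, heT, hxe⟩ := hx
  obtain ⟨ε, hε0, hε⟩ := eps_exists h
  obtain ⟨hg0, hgq, hk⟩ := pr_g h hS
  obtain ⟨hS0, hS3⟩ := ops_mu hS
  have e3 : φ (φ (φ e)) = e := by rw [← h3]; exact he3
  refine ⟨φ, lam, e, ε, N3 q S, φ (φ e), φ e, ?_, ?_⟩
  · refine ⟨h1, h2, h3, h4, h6, hth, by rw [← h1]; exact hth', hS, hS0, by rw [← h3]; exact hS3,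
      rfl, hg0, by rw [← h1]; exact hgq, hk, hl0, by rw [← h1]; exact hlq, he0, ?_, ?_, rfl, e3,
      rfl, ?_, hε0, by rw [← h1]; exact hε⟩
    · simpa using he0
    · simpa using he0
    · simp only [T3, h2, h4, e3] at heT
      exact heT
  · rw [hxe]
    unfold uS
    rw [h2, h4, e3]

section par

variable {φ : K →+* K} {th S lam e ε g e1 e2 : K}

theorem Par.g2 (P : Par q φ th S lam e ε g e1 e2) : φ (φ g) = g := by
  rw [P.gq, map_inv₀, P.gq, inv_inv]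

theorem Par.g3 (P : Par q φ th S lam e ε g e1 e2) : φ (φ (φ g)) = g⁻¹ := by
  rw [P.g2, P.gq]

theorem Par.lam2 (P : Par q φ th S lam e ε g e1 e2) : φ (φ lam) = lam := by
  have := P.g0
  rw [P.lamq, map_mul, map_pow, P.gq, P.lamq]
  field_simp

theorem Par.eps2 (P : Par q φ th S lam e ε g e1 e2) : φ (φ ε) = ε := by
  rw [P.epsq, map_neg, P.epsq, neg_neg]

theorem Par.T0 (P : Par q φ th S lam e ε g e1 e2) : g + g⁻¹ ≠ 0 := by
  have h0 := P.g0
  have hk := P.k0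
  intro h
  apply hk
  field_simp at h
  linear_combination h

theorem Par.Tq (P : Par q φ th S lam e ε g e1 e2) : φ (g + g⁻¹) = g + g⁻¹ := by
  rw [map_add, map_inv₀, P.gq, inv_inv, add_comm]

/-- `d(w)`. -/
def dd (ε g e e1 e2 w : K) : K := e * (g * ε * w) - e1 * e2

/-- `n(w)`. -/
def nn (ε g e e1 e2 w : K) : K := e * (g * ε * w) + g ^ 2 * (e1 * e2)

theorem Par.dbar (P : Par q φ th S lam e ε g e1 e2) {w : K} (hw : φ (φ (φ w)) = w) :
    φ (φ (φ (dd ε g e e1 e2 w))) = - g⁻¹ ^ 2 * nn ε g e e1 e2 w := by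
  have h0 := P.g0
  unfold dd nn
  simp only [map_sub, map_mul, P.ee, P.ee1, P.ee2, P.gq, P.epsq, map_neg, map_inv₀, inv_inv, hw,
    neg_neg]
  field_simp
  ring

theorem Par.nbar (P : Par q φ th S lam e ε g e1 e2) {w : K} (hw : φ (φ (φ w)) = w) :
    φ (φ (φ (nn ε g e e1 e2 w))) = - g⁻¹ ^ 2 * dd ε g e e1 e2 w := by
  have h0 := P.g0
  unfold dd nn
  simp only [map_add, map_mul, map_pow, P.ee, P.ee1, P.ee2, P.gq, P.epsq, map_neg, map_inv₀,
    inv_inv, hw, neg_neg]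
  field_simp
  ring

theorem Par.d0 (P : Par q φ th S lam e ε g e1 e2) {w : K} (hw : φ (φ (φ w)) = w) :
    dd ε g e e1 e2 w ≠ 0 := by
  intro h
  have hb := P.dbar hw
  rw [h, map_zero, map_zero, map_zero] at hb
  have h0 := P.g0
  have hn : nn ε g e e1 e2 w = 0 := by
    have := hb.symm
    rcases mul_eq_zero.1 this with h1 | h1
    · exfalso
      have : g⁻¹ ^ 2 ≠ 0 := pow_ne_zero _ (inv_ne_zero h0)
      apply this
      linear_combination -h1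
    · exact h1
  have h2 : (1 + g ^ 2) * (e1 * e2) = 0 := by
    unfold dd at h
    unfold nn at hn
    linear_combination hn - h
  exact mul_ne_zero P.k0 (mul_ne_zero P.e10 P.e20) h2

theorem Par.n0 (P : Par q φ th S lam e ε g e1 e2) {w : K} (hw : φ (φ (φ w)) = w) :
    nn ε g e e1 e2 w ≠ 0 := by
  intro h
  have hb := P.dbar hw
  rw [h, mul_zero] at hb
  have := P.d0 hw
  apply this
  simpa using hb

/-- The point `s(w)` of `mu`. -/
def sw (ε g e e1 e2 S w : K) : K := nn ε g e e1 e2 w / dd ε g e e1 e2 w * (S / g)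

theorem Par.sw_mem (P : Par q φ th S lam e ε g e1 e2) {w : K} (hw : φ (φ (φ w)) = w) :
    sw ε g e e1 e2 S w ∈ mu K q := by
  simp only [mu, mem_filter, mem_univ, true_and]
  rw [pow_succ, P.f3]
  unfold sw
  simp only [map_mul, map_div₀, P.nbar hw, P.dbar hw, P.S3, P.g3]
  have h1 := P.d0 hw
  have h2 := P.n0 hw
  have h3 := P.g0
  have h4 := P.S0
  field_simp

theorem Par.sw_ne (P : Par q φ th S lam e ε g e1 e2) {w : K} (hw : φ (φ (φ w)) = w) :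
    sw ε g e e1 e2 S w ≠ S / g := by
  have h1 := P.d0 hw
  have h2 := P.n0 hw
  have h3 := P.g0
  have h4 := P.S0
  intro h
  have h5 : nn ε g e e1 e2 w / dd ε g e e1 e2 w = 1 := by
    unfold sw at h
    have : S / g ≠ 0 := div_ne_zero h4 h3
    exact mul_right_cancel₀ this (by rw [h, one_mul])
  rw [div_eq_one_iff_eq h1] at h5
  have h6 : (1 + g ^ 2) * (e1 * e2) = 0 := by
    unfold nn dd at h5
    linear_combination h5
  exact mul_ne_zero P.k0 (mul_ne_zero P.e10 P.e20) h6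

theorem Par.sw_inj (P : Par q φ th S lam e ε g e1 e2) {w w' : K} (hw : φ (φ (φ w)) = w)
    (hw' : φ (φ (φ w')) = w') (hs : sw ε g e e1 e2 S w = sw ε g e e1 e2 S w') : w = w' := by
  have h1 := P.d0 hw
  have h1' := P.d0 hw'
  have h3 := P.g0
  have h4 := P.S0
  have h5 : nn ε g e e1 e2 w / dd ε g e e1 e2 w = nn ε g e e1 e2 w' / dd ε g e e1 e2 w' := by
    unfold sw at hs
    have : S / g ≠ 0 := div_ne_zero h4 h3
    exact mul_right_cancel₀ this hs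
  rw [div_eq_div_iff h1 h1'] at h5
  have h6 : ((1 + g ^ 2) * (e1 * e2) * (e * g * ε)) * (w' - w) = 0 := by
    unfold nn dd at h5
    linear_combination h5
  have h7 : ((1 + g ^ 2) * (e1 * e2) * (e * g * ε)) ≠ 0 :=
    mul_ne_zero (mul_ne_zero P.k0 (mul_ne_zero P.e10 P.e20))
      (mul_ne_zero (mul_ne_zero P.e00 h3) P.eps0)
  rcases mul_eq_zero.1 h6 with h8 | h8
  · exact absurd h8 h7
  · exact (sub_eq_zero.1 h8).symm

/-- Quadratic character of `K` (on nonzero elements). -/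
noncomputable def eta6 (q : ℕ) (d : K) : ℤ := if d ^ ((q ^ 6 - 1) / 2) = 1 then 1 else -1

theorem pr_pm6 (h : Std K q) {d : K} (hd : d ≠ 0) :
    d ^ ((q ^ 6 - 1) / 2) = 1 ∨ d ^ ((q ^ 6 - 1) / 2) = -1 := by
  have h1 : d ^ (q ^ 6 - 1) = 1 := by
    rw [← h.card]
    exact FiniteField.pow_card_sub_one_eq_one d hd
  have h2 : q ^ 6 - 1 = (q ^ 6 - 1) / 2 * 2 := by
    have : q ^ 6 % 4 = 1 := by rw [Nat.pow_mod, h.mod4]
    omega
  rw [h2, pow_mul] at h1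
  exact sq_eq_one_iff.1 h1

theorem pr_half (h : Std K q) : (q ^ 6 - 1) / 2 = (q ^ 3 - 1) * ((q ^ 3 + 1) / 2) := by
  have h3 : q ^ 3 % 4 = 1 := by rw [Nat.pow_mod, h.mod4]
  obtain ⟨m, hm⟩ : ∃ m, q ^ 3 = 4 * m + 1 := ⟨q ^ 3 / 4, by omega⟩
  have h6 : q ^ 6 = q ^ 3 * q ^ 3 := by ring
  rw [h6, hm]
  have h1 : (4 * m + 1) * (4 * m + 1) - 1 = 2 * (4 * m * (2 * m + 1)) := by
    have : (4 * m + 1) * (4 * m + 1) = 2 * (4 * m * (2 * m + 1)) + 1 := by ring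
    omega
  have h2 : (4 * m + 1 + 1) / 2 = 2 * m + 1 := by omega
  rw [h1, h2, Nat.mul_div_cancel_left _ (by norm_num), Nat.add_sub_cancel]

theorem Par.chi2_sw (P : Par q φ th S lam e ε g e1 e2) (h : Std K q) {w : K}
    (hw : φ (φ (φ w)) = w) : chi2 q (sw ε g e e1 e2 S w) = - eta6 q (dd ε g e e1 e2 w) := by
  have h1 := P.d0 hw
  have h2 := P.n0 hw
  have h3 := P.g0
  have h4 := P.S0
  set d := dd ε g e e1 e2 w with hd
  obtain ⟨j, hj1, hj2⟩ := hd_half h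
  -- the ratio
  have hr : nn ε g e e1 e2 w / d = - g ^ 2 * d ^ (q ^ 3 - 1) := by
    have hq1 : q ^ 3 = (q ^ 3 - 1) + 1 := by
      have := pow_pos (show 0 < q by have := hd_q_ge h; omega) 3
      omega
    have h5 : d ^ (q ^ 3 - 1) = φ (φ (φ d)) / d := by
      rw [eq_div_iff h1, ← pow_succ, ← hq1, P.f3]
    rw [h5, hd, P.dbar hw]
    field_simp
  have hgmu : g ∈ mu K q := by
    simp only [mu, mem_filter, mem_univ, true_and]
    rw [pow_succ, P.f3, P.g3, inv_mul_cancel₀ h3]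
  have hS1 : (S / g) ^ ((q ^ 3 + 1) / 2) = 1 := by
    rw [← hd_chi2_eq_one h, ← P.gN]
    exact chi2_div_N3 h P.hS
  have hs : (sw ε g e e1 e2 S w) ^ ((q ^ 3 + 1) / 2) = - d ^ ((q ^ 6 - 1) / 2) := by
    unfold sw
    rw [← hd, mul_pow, hS1, mul_one, hr, mul_pow, pr_half h, pow_mul]
    have hg2 : (g ^ 2) ^ ((q ^ 3 + 1) / 2) = 1 := by
      rw [← pow_mul, hj1, ← hj2]
      simpa [mu] using hgmu
    have hodd : (-g ^ 2) ^ ((q ^ 3 + 1) / 2) = - 1 := by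
      rw [neg_pow, hg2, mul_one, hj1, pow_succ, pow_mul]
      norm_num
    rw [hodd]; ring
  unfold chi2 eta6
  rw [hs]
  have hne := hd_neg_one_ne h
  rcases pr_pm6 h h1 with h5 | h5
  · rw [h5]; simp [hne]
  · rw [h5]; simp [hne]

end par

end Pool.Agent.TH501.Hemi
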