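import Mathlib
import Pool.Agent.TH501.Hemi.Defs
import Pool.Agent.TH501.Hemi.Ops
import Pool.Agent.TH501.Hemi.Exist
import Pool.Agent.TH501.Hemi.Ids
import Pool.Agent.TH501.Hemi.Cubic
import Pool.Agent.TH501.Hemi.Param
import Pool.Agent.TH501.Hemi.NormCount
import Pool.Agent.TH501.Hemi.Binary

set_option autoImplicit false

namespace Pool.Agent.TH501.Hemi

open Finset Classical

variable {K : Type} [Field K] [Fintype K] {q : ℕ}

section par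

variable {φ : K →+* K} {th S lam e ε g e1 e2 : K}

/-- `eta (lam * lam^q) = chi2 S`. -/
theorem ev_lam (P : Par q φ th S lam e ε g e1 e2) (h : Std K q) :
    eta q (lam * φ lam) = chi2 q S := by
  obtain ⟨m, hm⟩ : ∃ m, q = 4 * m + 1 := ⟨q / 4, by have := h.mod4; omega⟩
  have hg0 := P.g0
  have hl0 := P.lam0
  have hne := hd_neg_one_ne h
  obtain ⟨a, ha⟩ : ∃ a, a = g ^ (2 * m + 1) := ⟨_, rfl⟩
  have hgq1 : g ^ (4 * m + 1 + 1) = 1 := by
    have : g ^ (q + 1) = 1 := by rw [pow_succ, P.f1, P.gq, inv_mul_cancel₀ hg0]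
    rw [hm] at this
    exact this
  have ha2 : a ^ 2 = 1 := by
    rw [ha, ← pow_mul, ← hgq1]; congr 1; ring
  have ha1 : a = 1 ∨ a = -1 := sq_eq_one_iff.1 ha2
  have hlq : lam ^ (4 * m) = g ^ 3 := by
    have h1 : lam ^ q = g ^ 3 * lam := by rw [P.f1, P.lamq]
    rw [hm, pow_succ] at h1
    exact mul_right_cancel₀ hl0 h1
  have hL : (lam * φ lam) ^ ((q - 1) / 2) = a := by
    have e1 : (q - 1) / 2 = 2 * m := by omega
    rw [e1, ← P.f1, ← pow_succ', hm, ← pow_mul]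
    have e2 : (4 * m + 1 + 1) * (2 * m) = (4 * m) * (2 * m + 1) := by ring
    rw [e2, pow_mul, hlq, ← pow_mul, mul_comm, pow_mul, ← ha, pow_succ, ha2, one_mul]
  have hq3 : (q ^ 3 + 1) / 2 = (2 * m + 1) * (2 * (8 * m ^ 2 + 2 * m) + 1) := by
    have : q ^ 3 + 1 = 2 * ((2 * m + 1) * (2 * (8 * m ^ 2 + 2 * m) + 1)) := by rw [hm]; ring
    rw [this, Nat.mul_div_cancel_left _ (by norm_num)]
  have hgS : g ^ ((q ^ 3 + 1) / 2) = a := by
    rw [hq3, pow_mul, ← ha, pow_succ, pow_mul, ha2, one_pow, one_mul]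
  have hS : a * S ^ ((q ^ 3 + 1) / 2) = 1 := by
    have h1 := chi2_N3_mul h P.hS
    rw [hd_chi2_eq_one h, mul_pow, P.gN, hgS] at h1
    exact h1
  unfold eta chi2
  have h0 : lam * φ lam ≠ 0 := mul_ne_zero hl0 (by simpa using hl0)
  rw [if_neg h0, hL]
  rcases ha1 with h1 | h1
  · rw [h1, one_mul] at hS
    rw [h1, hS]
  · have h2 : S ^ ((q ^ 3 + 1) / 2) = -1 := by rw [h1] at hS; linear_combination -hS
    rw [h1, h2]

/-- `eta (D * D^q) = eta6 d` for `D = N d`. -/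
theorem ev_D (P : Par q φ th S lam e ε g e1 e2) (h : Std K q) {d : K} (hd : d ≠ 0) :
    eta q ((d * φ (φ d) * φ (φ (φ (φ d)))) * φ (d * φ (φ d) * φ (φ (φ (φ d))))) = eta6 q d := by
  obtain ⟨m, hm⟩ : ∃ m, q = 4 * m + 1 := ⟨q / 4, by have := h.mod4; omega⟩
  have h0 : (d * φ (φ d) * φ (φ (φ (φ d)))) * φ (d * φ (φ d) * φ (φ (φ (φ d)))) ≠ 0 := by
    simp [hd]
  have h1 : d * φ (φ d) * φ (φ (φ (φ d))) = d ^ (1 + q ^ 2 + q ^ 4) := by
    rw [pow_add, pow_add, pow_one, P.f2, P.f4]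
  have h2 : ((d * φ (φ d) * φ (φ (φ (φ d)))) * φ (d * φ (φ d) * φ (φ (φ (φ d))))) ^ ((q - 1) / 2)
      = d ^ ((q ^ 6 - 1) / 2) := by
    rw [h1, ← P.f1, ← pow_succ', ← pow_mul, ← pow_mul]
    congr 1
    have e1 : (q - 1) / 2 = 2 * m := by omega
    rw [e1]
    have e2 : q ^ 6 = 2 * ((1 + q ^ 2 + q ^ 4) * (q + 1) * (2 * m)) + 1 := by rw [hm]; ring
    rw [e2, Nat.add_sub_cancel, Nat.mul_div_cancel_left _ (by norm_num), mul_assoc]
  unfold eta eta6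
  rw [if_neg h0, h2]

/-- `R(S/g, x) = 0`. -/
theorem ev_zero (P : Par q φ th S lam e ε g e1 e2) :
    Rf q th (S / g) (lam * g * Yp th g e e1 e2 / S) = 0 := by
  have hg0 := P.g0
  have hS0 := P.S0
  have hS0' : φ (φ S) ≠ 0 := by simpa using hS0
  have hS0'' : φ (φ (φ (φ S))) ≠ 0 := by simpa using hS0
  have hN : N3 q (S / g) = (g ^ 2)⁻¹ := by
    have h1 := P.gN
    unfold N3 at h1 ⊢
    rw [P.f2, P.f4] at h1 ⊢
    simp only [map_div₀, map_inv₀, P.gq, inv_inv]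
    field_simp
    rw [h1]
  have hy : S / g * (lam * g * Yp th g e e1 e2 / S) = lam * Yp th g e e1 e2 := by
    field_simp
  have hz : (lam * g * Yp th g e e1 e2 / S) ^ q ^ 3 / (S / g) = lam * g * Zp th g e e1 e2 := by
    rw [P.f3]
    unfold Yp Zp
    simp only [map_div₀, map_mul, map_sub, map_add, map_pow, P.lamq, P.gq, P.S3, P.ee, P.ee1, P.ee2,
      P.thq, map_inv₀, inv_inv, map_neg, neg_neg, map_ofNat]
    field_simp
    ring
  unfold Rf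
  rw [hN, hy, hz, P.f2, P.f4, P.f2, P.f4]
  unfold Rp Yp Zp
  simp only [map_mul, map_sub, map_add, map_pow, P.lamq, P.gq, P.ee, P.ee1, P.ee2,
      P.thq, map_inv₀, inv_inv, map_neg, neg_neg, map_ofNat]
  have h0 : e = -e1 - e2 := by linear_combination P.eT
  have hth := P.th2
  rw [h0]
  field_simp
  linear_combination lam ^ 2 * (3 * g ^ 4 * e1 ^ 4 + 6 * g ^ 4 * e1 ^ 3 * e2 + 9 * g ^ 4 * e1 ^ 2 * e2 ^ 2 + 6 * g ^ 4 * e1 * e2 ^ 3 + 3 * g ^ 4 * e2 ^ 4 + 3 * g ^ 2 * e1 ^ 4 + 6 * g ^ 2 * e1 ^ 3 * e2 + 9 * g ^ 2 * e1 ^ 2 * e2 ^ 2 + 6 * g ^ 2 * e1 * e2 ^ 3 + 3 * g ^ 2 * e2 ^ 4) * hth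

end par

end Pool.Agent.TH501.Hemi
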