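import Mathlib
import Pool.Agent.TH501.Hemi.EvalB0

set_option autoImplicit false

namespace Pool.Agent.TH501.Hemi

open Finset Classical

variable {K : Type} [Field K] [Fintype K] {q : ℕ}

section par

variable {φ : K →+* K} {th S lam e ε g e1 e2 : K}

theorem pr_four (h : Std K q) : (4 : K) ≠ 0 := by
  have : (4 : K) = 2 * 2 := by norm_num
  rw [this]
  exact mul_ne_zero (hd_two_ne h) (hd_two_ne h)

theorem pr_b (P : Par q φ th S lam e ε g e1 e2) {ka : K} (hka : φ ka = -ka) :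
    φ (B4 g e e1 e2 ka / (4 * (g * ε) ^ 3)) = B4 g e e1 e2 ka / (4 * (g * ε) ^ 3) := by
  have hg0 := P.g0
  have hε0 := P.eps0
  unfold B4
  simp only [map_div₀, map_mul, map_sub, map_add, map_pow, map_neg, map_one, P.gq, P.ee, P.ee1,
    P.ee2, P.epsq, hka, map_ofNat]
  by_cases h4 : (4 : K) = 0
  · simp [h4]
  field_simp
  ring

theorem ev_const (P : Par q φ th S lam e ε g e1 e2) (h : Std K q) :
    ∃ ka kp a b : K, KA th g e e1 e2 ka ((g * ε) ^ 2 * a) ∧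
      (((3 : K) ≠ 0 ∧ a = 0) ∨
        ((3 : K) = 0 ∧ a = -(e * e ^ q ^ 2 + e ^ q ^ 2 * e ^ q ^ 4 + e ^ q ^ 4 * e) / ε ^ 2)) ∧
      φ a = a ∧ φ b = b ∧ B4 g e e1 e2 ka = 4 * (g * ε) ^ 3 * b ∧ ka = ε * kp ∧ φ kp = kp := by
  have hg0 := P.g0
  have hε0 := P.eps0
  have h4 := pr_four h
  have hE1 : e ^ q ^ 2 = e1 := by rw [P.f2, P.ee, P.ee2]
  have hE2 : e ^ q ^ 4 = e2 := by rw [P.f4, P.ee, P.ee2, P.ee1, P.ee]
  by_cases h3 : (3 : K) = 0
  · refine ⟨0, 0, -(e * e1 + e1 * e2 + e2 * e) / ε ^ 2, B4 g e e1 e2 0 / (4 * (g * ε) ^ 3),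
      Or.inr ⟨h3, rfl, ?_⟩, Or.inr ⟨h3, ?_⟩, ?_, pr_b P (by simp), ?_, by simp, by simp⟩
    · field_simp
    · rw [hE1, hE2]
    · simp only [map_div₀, map_mul, map_add, map_pow, map_neg, P.ee, P.ee1, P.ee2, P.epsq]
      field_simp
      ring
    · field_simp
  · have hka : φ (th / 3) = - (th / 3) := by
      rw [map_div₀, P.thq, map_ofNat]; ring
    refine ⟨th / 3, th / 3 / ε, 0, B4 g e e1 e2 (th / 3) / (4 * (g * ε) ^ 3),
      Or.inl ⟨h3, ?_, by simp⟩, Or.inl ⟨h3, rfl⟩, by simp, pr_b P hka, ?_, ?_, ?_⟩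
    · field_simp
    · field_simp
    · field_simp
    · rw [map_div₀, hka, P.epsq, neg_div_neg_eq]

/-- The quartic form of a real element. -/
def Gf (a b x0 x1 x2 : K) : K :=
  (x0 * x1 + x1 * x2 + x2 * x0 - a) ^ 2 - 4 * (x0 + x1 + x2) * (x0 * x1 * x2 + b)

theorem ev_FW (P : Par q φ th S lam e ε g e1 e2) {ka kp a b w0 w1 w2 : K}
    (hKA : KA th g e e1 e2 ka ((g * ε) ^ 2 * a)) (hB : B4 g e e1 e2 ka = 4 * (g * ε) ^ 3 * b)
    (hka : ka = ε * kp) :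
    FW th g e e1 e2 (g * ε * w0) (g * ε * w1) (g * ε * w2)
      = (g * ε) ^ 4 * Gf a b (w0 + kp * (e1 - e2)) (w1 + kp * (e2 - e)) (w2 + kp * (e - e1)) := by
  rw [FW_nf P.th2 P.eT hKA, hB, hka]
  unfold Gf
  ring

end par

end Pool.Agent.TH501.Hemi
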