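import Mathlib
import Pool.Agent.TH501.Hemi.Defs
import Pool.Agent.TH501.Hemi.FWdef

/-!
# The main identity (job for helper501, by helper889)

Everything is compared coefficient by coefficient as polynomials in `d_j = e_j W_j - e_k e_l`.
-/

set_option autoImplicit false
set_option linter.unusedVariables false
set_option linter.unusedSimpArgs false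
set_option maxRecDepth 100000

namespace Pool.Agent.TH501.Hemi

section mainid

variable {K : Type} [Field K]

/-- the numerator of `R` -/
def miP (g th n0 n1 n2 d0 d1 d2 Y0 Y1 Y2 Z0 Z1 Z2 : K) : K :=
  g ^ 2 * (n0 ^ 2 * Y0 ^ 2 * d1 ^ 2 * d2 ^ 2) + g ^ 2 * (n1 ^ 2 * Y1 ^ 2 * d2 ^ 2 * d0 ^ 2) +
    g ^ 2 * (n2 ^ 2 * Y2 ^ 2 * d0 ^ 2 * d1 ^ 2) + Z0 ^ 2 * n1 ^ 2 * n2 ^ 2 * d0 ^ 2 + Z1 ^ 2 *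
    n2 ^ 2 * n0 ^ 2 * d1 ^ 2 + Z2 ^ 2 * n0 ^ 2 * n1 ^ 2 * d2 ^ 2 - th * g * Z0 * (Y1 * n1 ^ 2 *
    n2 * d2 * d0 ^ 2 - Y2 * n1 * d1 * n2 ^ 2 * d0 ^ 2) - th * g * Z1 * (Y2 * n2 ^ 2 * n0 * d0 *
    d1 ^ 2 - Y0 * n2 * d2 * n0 ^ 2 * d1 ^ 2) - th * g * Z2 * (Y0 * n0 ^ 2 * n1 * d1 * d2 ^ 2 -
    Y1 * n0 * d0 * n1 ^ 2 * d2 ^ 2) - 2 * g ^ 2 * (n0 * n1 * Y0 * Y1 * d0 * d1 * d2 ^ 2) - 2 *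
    Z0 * Z1 * n0 * n1 * n2 ^ 2 * d0 * d1 - n0 ^ 2 * n1 ^ 2 * n2 * d2 * Y0 * Y1 - g ^ 2 * Z0 * Z1
    * n2 * d2 * d0 ^ 2 * d1 ^ 2 - 2 * g ^ 2 * (n1 * n2 * Y1 * Y2 * d1 * d2 * d0 ^ 2) - 2 * Z1 *
    Z2 * n1 * n2 * n0 ^ 2 * d1 * d2 - n1 ^ 2 * n2 ^ 2 * n0 * d0 * Y1 * Y2 - g ^ 2 * Z1 * Z2 * n0
    * d0 * d1 ^ 2 * d2 ^ 2 - 2 * g ^ 2 * (n2 * n0 * Y2 * Y0 * d2 * d0 * d1 ^ 2) - 2 * Z2 * Z0 *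
    n2 * n0 * n1 ^ 2 * d2 * d0 - n2 ^ 2 * n0 ^ 2 * n1 * d1 * Y2 * Y0 - g ^ 2 * Z2 * Z0 * n1 * d1
    * d2 ^ 2 * d0 ^ 2

/-- the homogeneous form of `F(W)` -/
def miH (g th E e0 e1 e2 U0 U1 U2 : K) : K :=
  (U0 * U1 + U1 * U2 + U2 * U0 + g ^ 2 * E ^ 2 * (e0 * e1 + e1 * e2 + e2 * e0)) ^ 2
    - 4 * (U0 + U1 + U2) * (U0 * U1 * U2)
    + g ^ 2 * (1 - g ^ 2) * E ^ 4 * (U0 + U1 + U2)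
    - g ^ 2 * E ^ 2 * (e0 ^ 2 * U0 ^ 2 + e1 ^ 2 * U1 ^ 2 + e2 ^ 2 * U2 ^ 2)
    - 2 * g ^ 2 * E ^ 2 * ((e2 ^ 2 - (e0 * e1 + e1 * e2 + e2 * e0)) * (U0 * U1)
        + (e0 ^ 2 - (e0 * e1 + e1 * e2 + e2 * e0)) * (U1 * U2)
        + (e1 ^ 2 - (e0 * e1 + e1 * e2 + e2 * e0)) * (U2 * U0))
    + 4 * g ^ 2 * E ^ 2 * (U0 + U1 + U2) * (e0 ^ 2 * U0 + e1 ^ 2 * U1 + e2 ^ 2 * U2)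
    - 2 * g * th * E *
      (e0 * U0 ^ 2 * (U1 - U2) + e1 * U1 ^ 2 * (U2 - U0) + e2 * U2 ^ 2 * (U0 - U1))
    + 2 * g ^ 3 * th * E ^ 3 * (e0 ^ 2 * (e1 - e2) * U0 + e1 ^ 2 * (e2 - e0) * U1
        + e2 ^ 2 * (e0 - e1) * U2)

/-- coefficient 000 of the numerator -/
def miC000 (g th k c0 c1 c2 Y0 Y1 Y2 Z0 Z1 Z2 : K) : K :=
  0

/-- coefficient 000 of the form -/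
def miD000 (g th E e0 e1 e2 c0 c1 c2 : K) : K :=
  miH g th E e0 e1 e2 (c0 ^ 2) (c1 ^ 2) (c2 ^ 2)

/-- coefficient 001 of the numerator -/
def miC001 (g th k c0 c1 c2 Y0 Y1 Y2 Z0 Z1 Z2 : K) : K :=
  -Y0 * Y1 * c0 ^ 2 * c1 ^ 2 * c2 * k ^ 5

/-- coefficient 001 of the form -/
def miD001 (g th E e0 e1 e2 c0 c1 c2 : K) : K :=
  -4 * E * c0 ^ 2 * c2 ^ 3 * e2 * g * th + 2 * E * c0 ^ 4 * c2 * e0 * g * th + 4 * E * c1 ^ 2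
    * c2 ^ 3 * e2 * g * th - 2 * E * c1 ^ 4 * c2 * e1 * g * th + 4 * E ^ 2 * c0 ^ 2 * c2 * e0 *
    e1 * g ^ 2 + 4 * E ^ 2 * c0 ^ 2 * c2 * e0 * e2 * g ^ 2 + 4 * E ^ 2 * c0 ^ 2 * c2 * e0 ^ 2 *
    g ^ 2 + 4 * E ^ 2 * c0 ^ 2 * c2 * e1 * e2 * g ^ 2 - 2 * E ^ 2 * c0 ^ 2 * c2 * e1 ^ 2 * g ^ 2
    + 4 * E ^ 2 * c0 ^ 2 * c2 * e2 ^ 2 * g ^ 2 + 4 * E ^ 2 * c1 ^ 2 * c2 * e0 * e1 * g ^ 2 + 4 *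
    E ^ 2 * c1 ^ 2 * c2 * e0 * e2 * g ^ 2 - 2 * E ^ 2 * c1 ^ 2 * c2 * e0 ^ 2 * g ^ 2 + 4 * E ^ 2
    * c1 ^ 2 * c2 * e1 * e2 * g ^ 2 + 4 * E ^ 2 * c1 ^ 2 * c2 * e1 ^ 2 * g ^ 2 + 4 * E ^ 2 * c1
    ^ 2 * c2 * e2 ^ 2 * g ^ 2 + 6 * E ^ 2 * c2 ^ 3 * e2 ^ 2 * g ^ 2 + 2 * E ^ 3 * c2 * e0 * e2 ^
    2 * g ^ 3 * th - 2 * E ^ 3 * c2 * e1 * e2 ^ 2 * g ^ 3 * th + E ^ 4 * c2 * g ^ 2 - E ^ 4 * c2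
    * g ^ 4 - 4 * c0 ^ 2 * c1 ^ 2 * c2 ^ 3 - 2 * c0 ^ 2 * c1 ^ 4 * c2 - 2 * c0 ^ 4 * c1 ^ 2 * c2
    + 2 * c0 ^ 4 * c2 ^ 3 + 2 * c1 ^ 4 * c2 ^ 3

/-- coefficient 002 of the numerator -/
def miC002 (g th k c0 c1 c2 Y0 Y1 Y2 Z0 Z1 Z2 : K) : K :=
  -Y0 * Y1 * c0 ^ 2 * c1 ^ 2 * k ^ 4 + Z2 ^ 2 * c0 ^ 2 * c1 ^ 2 * k ^ 4

/-- coefficient 002 of the form -/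
def miD002 (g th E e0 e1 e2 c0 c1 c2 : K) : K :=
  -2 * E * c0 ^ 2 * c2 ^ 2 * e2 * g * th + 2 * E * c1 ^ 2 * c2 ^ 2 * e2 * g * th + 3 * E ^ 2 *
    c2 ^ 2 * e2 ^ 2 * g ^ 2 - 2 * c0 ^ 2 * c1 ^ 2 * c2 ^ 2 + c0 ^ 4 * c2 ^ 2 + c1 ^ 4 * c2 ^ 2

/-- coefficient 010 of the numerator -/
def miC010 (g th k c0 c1 c2 Y0 Y1 Y2 Z0 Z1 Z2 : K) : K :=
  -Y0 * Y2 * c0 ^ 2 * c1 * c2 ^ 2 * k ^ 5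

/-- coefficient 010 of the form -/
def miD010 (g th E e0 e1 e2 c0 c1 c2 : K) : K :=
  4 * E * c0 ^ 2 * c1 ^ 3 * e1 * g * th - 2 * E * c0 ^ 4 * c1 * e0 * g * th + 2 * E * c1 * c2
    ^ 4 * e2 * g * th - 4 * E * c1 ^ 3 * c2 ^ 2 * e1 * g * th + 4 * E ^ 2 * c0 ^ 2 * c1 * e0 *
    e1 * g ^ 2 + 4 * E ^ 2 * c0 ^ 2 * c1 * e0 * e2 * g ^ 2 + 4 * E ^ 2 * c0 ^ 2 * c1 * e0 ^ 2 *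
    g ^ 2 + 4 * E ^ 2 * c0 ^ 2 * c1 * e1 * e2 * g ^ 2 + 4 * E ^ 2 * c0 ^ 2 * c1 * e1 ^ 2 * g ^ 2
    - 2 * E ^ 2 * c0 ^ 2 * c1 * e2 ^ 2 * g ^ 2 + 4 * E ^ 2 * c1 * c2 ^ 2 * e0 * e1 * g ^ 2 + 4 *
    E ^ 2 * c1 * c2 ^ 2 * e0 * e2 * g ^ 2 - 2 * E ^ 2 * c1 * c2 ^ 2 * e0 ^ 2 * g ^ 2 + 4 * E ^ 2
    * c1 * c2 ^ 2 * e1 * e2 * g ^ 2 + 4 * E ^ 2 * c1 * c2 ^ 2 * e1 ^ 2 * g ^ 2 + 4 * E ^ 2 * c1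
    * c2 ^ 2 * e2 ^ 2 * g ^ 2 + 6 * E ^ 2 * c1 ^ 3 * e1 ^ 2 * g ^ 2 - 2 * E ^ 3 * c1 * e0 * e1 ^
    2 * g ^ 3 * th + 2 * E ^ 3 * c1 * e1 ^ 2 * e2 * g ^ 3 * th + E ^ 4 * c1 * g ^ 2 - E ^ 4 * c1
    * g ^ 4 - 2 * c0 ^ 2 * c1 * c2 ^ 4 - 4 * c0 ^ 2 * c1 ^ 3 * c2 ^ 2 - 2 * c0 ^ 4 * c1 * c2 ^ 2
    + 2 * c0 ^ 4 * c1 ^ 3 + 2 * c1 ^ 3 * c2 ^ 4

/-- coefficient 011 of the numerator -/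
def miC011 (g th k c0 c1 c2 Y0 Y1 Y2 Z0 Z1 Z2 : K) : K :=
  -2 * Y0 * Y1 * c0 ^ 2 * c1 * c2 * k ^ 4 - 2 * Y0 * Y2 * c0 ^ 2 * c1 * c2 * k ^ 4 - 2 * Z1 *
    Z2 * c0 ^ 2 * c1 * c2 * k ^ 4

/-- coefficient 011 of the form -/
def miD011 (g th E e0 e1 e2 c0 c1 c2 : K) : K :=
  4 * E * c1 * c2 ^ 3 * e2 * g * th - 4 * E * c1 ^ 3 * c2 * e1 * g * th + 4 * E ^ 2 * c1 * c2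
    * e0 * e1 * g ^ 2 + 4 * E ^ 2 * c1 * c2 * e0 * e2 * g ^ 2 - 2 * E ^ 2 * c1 * c2 * e0 ^ 2 * g
    ^ 2 + 4 * E ^ 2 * c1 * c2 * e1 * e2 * g ^ 2 + 4 * E ^ 2 * c1 * c2 * e1 ^ 2 * g ^ 2 + 4 * E ^
    2 * c1 * c2 * e2 ^ 2 * g ^ 2 - 4 * c0 ^ 2 * c1 * c2 ^ 3 - 4 * c0 ^ 2 * c1 ^ 3 * c2 - 2 * c0
    ^ 4 * c1 * c2 + 4 * c1 ^ 3 * c2 ^ 3

/-- coefficient 012 of the numerator -/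
def miC012 (g th k c0 c1 c2 Y0 Y1 Y2 Z0 Z1 Z2 : K) : K :=
  -2 * Y0 * Y1 * c0 ^ 2 * c1 * k ^ 3 - Y0 * Y2 * c0 ^ 2 * c1 * k ^ 3 - Y0 * Z2 * c0 ^ 2 * c1 *
    g * k ^ 3 * th - 2 * Z1 * Z2 * c0 ^ 2 * c1 * k ^ 3 + 2 * Z2 ^ 2 * c0 ^ 2 * c1 * k ^ 3

/-- coefficient 012 of the form -/
def miD012 (g th E e0 e1 e2 c0 c1 c2 : K) : K :=
  2 * E * c1 * c2 ^ 2 * e2 * g * th - 2 * c0 ^ 2 * c1 * c2 ^ 2 + 2 * c1 ^ 3 * c2 ^ 2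

/-- coefficient 020 of the numerator -/
def miC020 (g th k c0 c1 c2 Y0 Y1 Y2 Z0 Z1 Z2 : K) : K :=
  -Y0 * Y2 * c0 ^ 2 * c2 ^ 2 * k ^ 4 + Z1 ^ 2 * c0 ^ 2 * c2 ^ 2 * k ^ 4

/-- coefficient 020 of the form -/
def miD020 (g th E e0 e1 e2 c0 c1 c2 : K) : K :=
  2 * E * c0 ^ 2 * c1 ^ 2 * e1 * g * th - 2 * E * c1 ^ 2 * c2 ^ 2 * e1 * g * th + 3 * E ^ 2 *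
    c1 ^ 2 * e1 ^ 2 * g ^ 2 - 2 * c0 ^ 2 * c1 ^ 2 * c2 ^ 2 + c0 ^ 4 * c1 ^ 2 + c1 ^ 2 * c2 ^ 4

/-- coefficient 021 of the numerator -/
def miC021 (g th k c0 c1 c2 Y0 Y1 Y2 Z0 Z1 Z2 : K) : K :=
  -Y0 * Y1 * c0 ^ 2 * c2 * k ^ 3 - 2 * Y0 * Y2 * c0 ^ 2 * c2 * k ^ 3 + Y0 * Z1 * c0 ^ 2 * c2 *
    g * k ^ 3 * th - 2 * Z1 * Z2 * c0 ^ 2 * c2 * k ^ 3 + 2 * Z1 ^ 2 * c0 ^ 2 * c2 * k ^ 3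

/-- coefficient 021 of the form -/
def miD021 (g th E e0 e1 e2 c0 c1 c2 : K) : K :=
  -2 * E * c1 ^ 2 * c2 * e1 * g * th - 2 * c0 ^ 2 * c1 ^ 2 * c2 + 2 * c1 ^ 2 * c2 ^ 3

/-- coefficient 022 of the numerator -/
def miC022 (g th k c0 c1 c2 Y0 Y1 Y2 Z0 Z1 Z2 : K) : K :=
  -Y0 * Y1 * c0 ^ 2 * k ^ 2 - Y0 * Y2 * c0 ^ 2 * k ^ 2 + Y0 * Z1 * c0 ^ 2 * g * k ^ 2 * th -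
    Y0 * Z2 * c0 ^ 2 * g * k ^ 2 * th + Y0 ^ 2 * c0 ^ 2 * g ^ 2 * k ^ 2 - 2 * Z1 * Z2 * c0 ^ 2 *
    k ^ 2 + Z1 ^ 2 * c0 ^ 2 * k ^ 2 + Z2 ^ 2 * c0 ^ 2 * k ^ 2

/-- coefficient 022 of the form -/
def miD022 (g th E e0 e1 e2 c0 c1 c2 : K) : K :=
  c1 ^ 2 * c2 ^ 2

/-- coefficient 100 of the numerator -/
def miC100 (g th k c0 c1 c2 Y0 Y1 Y2 Z0 Z1 Z2 : K) : K :=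
  -Y1 * Y2 * c0 * c1 ^ 2 * c2 ^ 2 * k ^ 5

/-- coefficient 100 of the form -/
def miD100 (g th E e0 e1 e2 c0 c1 c2 : K) : K :=
  2 * E * c0 * c1 ^ 4 * e1 * g * th - 2 * E * c0 * c2 ^ 4 * e2 * g * th - 4 * E * c0 ^ 3 * c1
    ^ 2 * e0 * g * th + 4 * E * c0 ^ 3 * c2 ^ 2 * e0 * g * th + 4 * E ^ 2 * c0 * c1 ^ 2 * e0 *
    e1 * g ^ 2 + 4 * E ^ 2 * c0 * c1 ^ 2 * e0 * e2 * g ^ 2 + 4 * E ^ 2 * c0 * c1 ^ 2 * e0 ^ 2 *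
    g ^ 2 + 4 * E ^ 2 * c0 * c1 ^ 2 * e1 * e2 * g ^ 2 + 4 * E ^ 2 * c0 * c1 ^ 2 * e1 ^ 2 * g ^ 2
    - 2 * E ^ 2 * c0 * c1 ^ 2 * e2 ^ 2 * g ^ 2 + 4 * E ^ 2 * c0 * c2 ^ 2 * e0 * e1 * g ^ 2 + 4 *
    E ^ 2 * c0 * c2 ^ 2 * e0 * e2 * g ^ 2 + 4 * E ^ 2 * c0 * c2 ^ 2 * e0 ^ 2 * g ^ 2 + 4 * E ^ 2
    * c0 * c2 ^ 2 * e1 * e2 * g ^ 2 - 2 * E ^ 2 * c0 * c2 ^ 2 * e1 ^ 2 * g ^ 2 + 4 * E ^ 2 * c0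
    * c2 ^ 2 * e2 ^ 2 * g ^ 2 + 6 * E ^ 2 * c0 ^ 3 * e0 ^ 2 * g ^ 2 + 2 * E ^ 3 * c0 * e0 ^ 2 *
    e1 * g ^ 3 * th - 2 * E ^ 3 * c0 * e0 ^ 2 * e2 * g ^ 3 * th + E ^ 4 * c0 * g ^ 2 - E ^ 4 *
    c0 * g ^ 4 - 2 * c0 * c1 ^ 2 * c2 ^ 4 - 2 * c0 * c1 ^ 4 * c2 ^ 2 - 4 * c0 ^ 3 * c1 ^ 2 * c2
    ^ 2 + 2 * c0 ^ 3 * c1 ^ 4 + 2 * c0 ^ 3 * c2 ^ 4

/-- coefficient 101 of the numerator -/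
def miC101 (g th k c0 c1 c2 Y0 Y1 Y2 Z0 Z1 Z2 : K) : K :=
  -2 * Y0 * Y1 * c0 * c1 ^ 2 * c2 * k ^ 4 - 2 * Y1 * Y2 * c0 * c1 ^ 2 * c2 * k ^ 4 - 2 * Z0 *
    Z2 * c0 * c1 ^ 2 * c2 * k ^ 4

/-- coefficient 101 of the form -/
def miD101 (g th E e0 e1 e2 c0 c1 c2 : K) : K :=
  -4 * E * c0 * c2 ^ 3 * e2 * g * th + 4 * E * c0 ^ 3 * c2 * e0 * g * th + 4 * E ^ 2 * c0 * c2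
    * e0 * e1 * g ^ 2 + 4 * E ^ 2 * c0 * c2 * e0 * e2 * g ^ 2 + 4 * E ^ 2 * c0 * c2 * e0 ^ 2 * g
    ^ 2 + 4 * E ^ 2 * c0 * c2 * e1 * e2 * g ^ 2 - 2 * E ^ 2 * c0 * c2 * e1 ^ 2 * g ^ 2 + 4 * E ^
    2 * c0 * c2 * e2 ^ 2 * g ^ 2 - 4 * c0 * c1 ^ 2 * c2 ^ 3 - 2 * c0 * c1 ^ 4 * c2 - 4 * c0 ^ 3
    * c1 ^ 2 * c2 + 4 * c0 ^ 3 * c2 ^ 3

/-- coefficient 102 of the numerator -/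
def miC102 (g th k c0 c1 c2 Y0 Y1 Y2 Z0 Z1 Z2 : K) : K :=
  -2 * Y0 * Y1 * c0 * c1 ^ 2 * k ^ 3 - Y1 * Y2 * c0 * c1 ^ 2 * k ^ 3 + Y1 * Z2 * c0 * c1 ^ 2 *
    g * k ^ 3 * th - 2 * Z0 * Z2 * c0 * c1 ^ 2 * k ^ 3 + 2 * Z2 ^ 2 * c0 * c1 ^ 2 * k ^ 3

/-- coefficient 102 of the form -/
def miD102 (g th E e0 e1 e2 c0 c1 c2 : K) : K :=
  -2 * E * c0 * c2 ^ 2 * e2 * g * th - 2 * c0 * c1 ^ 2 * c2 ^ 2 + 2 * c0 ^ 3 * c2 ^ 2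

/-- coefficient 110 of the numerator -/
def miC110 (g th k c0 c1 c2 Y0 Y1 Y2 Z0 Z1 Z2 : K) : K :=
  -2 * Y0 * Y2 * c0 * c1 * c2 ^ 2 * k ^ 4 - 2 * Y1 * Y2 * c0 * c1 * c2 ^ 2 * k ^ 4 - 2 * Z0 *
    Z1 * c0 * c1 * c2 ^ 2 * k ^ 4

/-- coefficient 110 of the form -/
def miD110 (g th E e0 e1 e2 c0 c1 c2 : K) : K :=
  4 * E * c0 * c1 ^ 3 * e1 * g * th - 4 * E * c0 ^ 3 * c1 * e0 * g * th + 4 * E ^ 2 * c0 * c1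
    * e0 * e1 * g ^ 2 + 4 * E ^ 2 * c0 * c1 * e0 * e2 * g ^ 2 + 4 * E ^ 2 * c0 * c1 * e0 ^ 2 * g
    ^ 2 + 4 * E ^ 2 * c0 * c1 * e1 * e2 * g ^ 2 + 4 * E ^ 2 * c0 * c1 * e1 ^ 2 * g ^ 2 - 2 * E ^
    2 * c0 * c1 * e2 ^ 2 * g ^ 2 - 2 * c0 * c1 * c2 ^ 4 - 4 * c0 * c1 ^ 3 * c2 ^ 2 - 4 * c0 ^ 3
    * c1 * c2 ^ 2 + 4 * c0 ^ 3 * c1 ^ 3

/-- coefficient 111 of the numerator -/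
def miC111 (g th k c0 c1 c2 Y0 Y1 Y2 Z0 Z1 Z2 : K) : K :=
  -4 * Y0 * Y1 * c0 * c1 * c2 * k ^ 3 - 4 * Y0 * Y2 * c0 * c1 * c2 * k ^ 3 - 4 * Y1 * Y2 * c0
    * c1 * c2 * k ^ 3 - 4 * Z0 * Z1 * c0 * c1 * c2 * k ^ 3 - 4 * Z0 * Z2 * c0 * c1 * c2 * k ^ 3
    - 4 * Z1 * Z2 * c0 * c1 * c2 * k ^ 3

/-- coefficient 111 of the form -/
def miD111 (g th E e0 e1 e2 c0 c1 c2 : K) : K :=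
  -4 * c0 * c1 * c2 ^ 3 - 4 * c0 * c1 ^ 3 * c2 - 4 * c0 ^ 3 * c1 * c2

/-- coefficient 112 of the numerator -/
def miC112 (g th k c0 c1 c2 Y0 Y1 Y2 Z0 Z1 Z2 : K) : K :=
  -2 * Y0 * Y1 * c0 * c1 * g ^ 2 * k ^ 2 - 4 * Y0 * Y1 * c0 * c1 * k ^ 2 - 2 * Y0 * Y2 * c0 *
    c1 * k ^ 2 - 2 * Y0 * Z2 * c0 * c1 * g * k ^ 2 * th - 2 * Y1 * Y2 * c0 * c1 * k ^ 2 + 2 * Y1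
    * Z2 * c0 * c1 * g * k ^ 2 * th - 2 * Z0 * Z1 * c0 * c1 * k ^ 2 - 4 * Z0 * Z2 * c0 * c1 * k
    ^ 2 - 4 * Z1 * Z2 * c0 * c1 * k ^ 2 + 4 * Z2 ^ 2 * c0 * c1 * k ^ 2

/-- coefficient 112 of the form -/
def miD112 (g th E e0 e1 e2 c0 c1 c2 : K) : K :=
  -2 * c0 * c1 * c2 ^ 2

/-- coefficient 120 of the numerator -/
def miC120 (g th k c0 c1 c2 Y0 Y1 Y2 Z0 Z1 Z2 : K) : K :=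
  -2 * Y0 * Y2 * c0 * c2 ^ 2 * k ^ 3 - Y1 * Y2 * c0 * c2 ^ 2 * k ^ 3 - Y2 * Z1 * c0 * c2 ^ 2 *
    g * k ^ 3 * th - 2 * Z0 * Z1 * c0 * c2 ^ 2 * k ^ 3 + 2 * Z1 ^ 2 * c0 * c2 ^ 2 * k ^ 3

/-- coefficient 120 of the form -/
def miD120 (g th E e0 e1 e2 c0 c1 c2 : K) : K :=
  2 * E * c0 * c1 ^ 2 * e1 * g * th - 2 * c0 * c1 ^ 2 * c2 ^ 2 + 2 * c0 ^ 3 * c1 ^ 2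

/-- coefficient 121 of the numerator -/
def miC121 (g th k c0 c1 c2 Y0 Y1 Y2 Z0 Z1 Z2 : K) : K :=
  -2 * Y0 * Y1 * c0 * c2 * k ^ 2 - 2 * Y0 * Y2 * c0 * c2 * g ^ 2 * k ^ 2 - 4 * Y0 * Y2 * c0 *
    c2 * k ^ 2 + 2 * Y0 * Z1 * c0 * c2 * g * k ^ 2 * th - 2 * Y1 * Y2 * c0 * c2 * k ^ 2 - 2 * Y2
    * Z1 * c0 * c2 * g * k ^ 2 * th - 4 * Z0 * Z1 * c0 * c2 * k ^ 2 - 2 * Z0 * Z2 * c0 * c2 * k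
    ^ 2 - 4 * Z1 * Z2 * c0 * c2 * k ^ 2 + 4 * Z1 ^ 2 * c0 * c2 * k ^ 2

/-- coefficient 121 of the form -/
def miD121 (g th E e0 e1 e2 c0 c1 c2 : K) : K :=
  -2 * c0 * c1 ^ 2 * c2

/-- coefficient 122 of the numerator -/
def miC122 (g th k c0 c1 c2 Y0 Y1 Y2 Z0 Z1 Z2 : K) : K :=
  -2 * Y0 * Y1 * c0 * g ^ 2 * k - 2 * Y0 * Y1 * c0 * k - 2 * Y0 * Y2 * c0 * g ^ 2 * k - 2 * Y0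
    * Y2 * c0 * k + 2 * Y0 * Z1 * c0 * g * k * th - 2 * Y0 * Z2 * c0 * g * k * th + 2 * Y0 ^ 2 *
    c0 * g ^ 2 * k - Y1 * Y2 * c0 * k + Y1 * Z2 * c0 * g * k * th - Y2 * Z1 * c0 * g * k * th -
    2 * Z0 * Z1 * c0 * k - 2 * Z0 * Z2 * c0 * k - Z1 * Z2 * c0 * g ^ 2 * k - 4 * Z1 * Z2 * c0 *
    k + 2 * Z1 ^ 2 * c0 * k + 2 * Z2 ^ 2 * c0 * k

/-- coefficient 122 of the form -/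
def miD122 (g th E e0 e1 e2 c0 c1 c2 : K) : K :=
  0

/-- coefficient 200 of the numerator -/
def miC200 (g th k c0 c1 c2 Y0 Y1 Y2 Z0 Z1 Z2 : K) : K :=
  -Y1 * Y2 * c1 ^ 2 * c2 ^ 2 * k ^ 4 + Z0 ^ 2 * c1 ^ 2 * c2 ^ 2 * k ^ 4

/-- coefficient 200 of the form -/
def miD200 (g th E e0 e1 e2 c0 c1 c2 : K) : K :=
  -2 * E * c0 ^ 2 * c1 ^ 2 * e0 * g * th + 2 * E * c0 ^ 2 * c2 ^ 2 * e0 * g * th + 3 * E ^ 2 *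
    c0 ^ 2 * e0 ^ 2 * g ^ 2 - 2 * c0 ^ 2 * c1 ^ 2 * c2 ^ 2 + c0 ^ 2 * c1 ^ 4 + c0 ^ 2 * c2 ^ 4

/-- coefficient 201 of the numerator -/
def miC201 (g th k c0 c1 c2 Y0 Y1 Y2 Z0 Z1 Z2 : K) : K :=
  -Y0 * Y1 * c1 ^ 2 * c2 * k ^ 3 - 2 * Y1 * Y2 * c1 ^ 2 * c2 * k ^ 3 - Y1 * Z0 * c1 ^ 2 * c2 *
    g * k ^ 3 * th - 2 * Z0 * Z2 * c1 ^ 2 * c2 * k ^ 3 + 2 * Z0 ^ 2 * c1 ^ 2 * c2 * k ^ 3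

/-- coefficient 201 of the form -/
def miD201 (g th E e0 e1 e2 c0 c1 c2 : K) : K :=
  2 * E * c0 ^ 2 * c2 * e0 * g * th - 2 * c0 ^ 2 * c1 ^ 2 * c2 + 2 * c0 ^ 2 * c2 ^ 3

/-- coefficient 202 of the numerator -/
def miC202 (g th k c0 c1 c2 Y0 Y1 Y2 Z0 Z1 Z2 : K) : K :=
  -Y0 * Y1 * c1 ^ 2 * k ^ 2 - Y1 * Y2 * c1 ^ 2 * k ^ 2 - Y1 * Z0 * c1 ^ 2 * g * k ^ 2 * th +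
    Y1 * Z2 * c1 ^ 2 * g * k ^ 2 * th + Y1 ^ 2 * c1 ^ 2 * g ^ 2 * k ^ 2 - 2 * Z0 * Z2 * c1 ^ 2 *
    k ^ 2 + Z0 ^ 2 * c1 ^ 2 * k ^ 2 + Z2 ^ 2 * c1 ^ 2 * k ^ 2

/-- coefficient 202 of the form -/
def miD202 (g th E e0 e1 e2 c0 c1 c2 : K) : K :=
  c0 ^ 2 * c2 ^ 2

/-- coefficient 210 of the numerator -/
def miC210 (g th k c0 c1 c2 Y0 Y1 Y2 Z0 Z1 Z2 : K) : K :=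
  -Y0 * Y2 * c1 * c2 ^ 2 * k ^ 3 - 2 * Y1 * Y2 * c1 * c2 ^ 2 * k ^ 3 + Y2 * Z0 * c1 * c2 ^ 2 *
    g * k ^ 3 * th - 2 * Z0 * Z1 * c1 * c2 ^ 2 * k ^ 3 + 2 * Z0 ^ 2 * c1 * c2 ^ 2 * k ^ 3

/-- coefficient 210 of the form -/
def miD210 (g th E e0 e1 e2 c0 c1 c2 : K) : K :=
  -2 * E * c0 ^ 2 * c1 * e0 * g * th - 2 * c0 ^ 2 * c1 * c2 ^ 2 + 2 * c0 ^ 2 * c1 ^ 3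

/-- coefficient 211 of the numerator -/
def miC211 (g th k c0 c1 c2 Y0 Y1 Y2 Z0 Z1 Z2 : K) : K :=
  -2 * Y0 * Y1 * c1 * c2 * k ^ 2 - 2 * Y0 * Y2 * c1 * c2 * k ^ 2 - 2 * Y1 * Y2 * c1 * c2 * g ^
    2 * k ^ 2 - 4 * Y1 * Y2 * c1 * c2 * k ^ 2 - 2 * Y1 * Z0 * c1 * c2 * g * k ^ 2 * th + 2 * Y2
    * Z0 * c1 * c2 * g * k ^ 2 * th - 4 * Z0 * Z1 * c1 * c2 * k ^ 2 - 4 * Z0 * Z2 * c1 * c2 * k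
    ^ 2 + 4 * Z0 ^ 2 * c1 * c2 * k ^ 2 - 2 * Z1 * Z2 * c1 * c2 * k ^ 2

/-- coefficient 211 of the form -/
def miD211 (g th E e0 e1 e2 c0 c1 c2 : K) : K :=
  -2 * c0 ^ 2 * c1 * c2

/-- coefficient 212 of the numerator -/
def miC212 (g th k c0 c1 c2 Y0 Y1 Y2 Z0 Z1 Z2 : K) : K :=
  -2 * Y0 * Y1 * c1 * g ^ 2 * k - 2 * Y0 * Y1 * c1 * k - Y0 * Y2 * c1 * k - Y0 * Z2 * c1 * g *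
    k * th - 2 * Y1 * Y2 * c1 * g ^ 2 * k - 2 * Y1 * Y2 * c1 * k - 2 * Y1 * Z0 * c1 * g * k * th
    + 2 * Y1 * Z2 * c1 * g * k * th + 2 * Y1 ^ 2 * c1 * g ^ 2 * k + Y2 * Z0 * c1 * g * k * th -
    2 * Z0 * Z1 * c1 * k - Z0 * Z2 * c1 * g ^ 2 * k - 4 * Z0 * Z2 * c1 * k + 2 * Z0 ^ 2 * c1 * k
    - 2 * Z1 * Z2 * c1 * k + 2 * Z2 ^ 2 * c1 * k

/-- coefficient 212 of the form -/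
def miD212 (g th E e0 e1 e2 c0 c1 c2 : K) : K :=
  0

/-- coefficient 220 of the numerator -/
def miC220 (g th k c0 c1 c2 Y0 Y1 Y2 Z0 Z1 Z2 : K) : K :=
  -Y0 * Y2 * c2 ^ 2 * k ^ 2 - Y1 * Y2 * c2 ^ 2 * k ^ 2 + Y2 * Z0 * c2 ^ 2 * g * k ^ 2 * th -
    Y2 * Z1 * c2 ^ 2 * g * k ^ 2 * th + Y2 ^ 2 * c2 ^ 2 * g ^ 2 * k ^ 2 - 2 * Z0 * Z1 * c2 ^ 2 *
    k ^ 2 + Z0 ^ 2 * c2 ^ 2 * k ^ 2 + Z1 ^ 2 * c2 ^ 2 * k ^ 2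

/-- coefficient 220 of the form -/
def miD220 (g th E e0 e1 e2 c0 c1 c2 : K) : K :=
  c0 ^ 2 * c1 ^ 2

/-- coefficient 221 of the numerator -/
def miC221 (g th k c0 c1 c2 Y0 Y1 Y2 Z0 Z1 Z2 : K) : K :=
  -Y0 * Y1 * c2 * k - 2 * Y0 * Y2 * c2 * g ^ 2 * k - 2 * Y0 * Y2 * c2 * k + Y0 * Z1 * c2 * g *
    k * th - 2 * Y1 * Y2 * c2 * g ^ 2 * k - 2 * Y1 * Y2 * c2 * k - Y1 * Z0 * c2 * g * k * th + 2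
    * Y2 * Z0 * c2 * g * k * th - 2 * Y2 * Z1 * c2 * g * k * th + 2 * Y2 ^ 2 * c2 * g ^ 2 * k -
    Z0 * Z1 * c2 * g ^ 2 * k - 4 * Z0 * Z1 * c2 * k - 2 * Z0 * Z2 * c2 * k + 2 * Z0 ^ 2 * c2 * k
    - 2 * Z1 * Z2 * c2 * k + 2 * Z1 ^ 2 * c2 * k

/-- coefficient 221 of the form -/
def miD221 (g th E e0 e1 e2 c0 c1 c2 : K) : K :=
  0

/-- coefficient 222 of the numerator -/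
def miC222 (g th k c0 c1 c2 Y0 Y1 Y2 Z0 Z1 Z2 : K) : K :=
  -Y0 * Y1 - 2 * Y0 * Y1 * g ^ 2 - Y0 * Y2 - 2 * Y0 * Y2 * g ^ 2 + Y0 * Z1 * g * th - Y0 * Z2
    * g * th + Y0 ^ 2 * g ^ 2 - Y1 * Y2 - 2 * Y1 * Y2 * g ^ 2 - Y1 * Z0 * g * th + Y1 * Z2 * g *
    th + Y1 ^ 2 * g ^ 2 + Y2 * Z0 * g * th - Y2 * Z1 * g * th + Y2 ^ 2 * g ^ 2 - 2 * Z0 * Z1 -
    Z0 * Z1 * g ^ 2 - 2 * Z0 * Z2 - Z0 * Z2 * g ^ 2 + Z0 ^ 2 - 2 * Z1 * Z2 - Z1 * Z2 * g ^ 2 +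
    Z1 ^ 2 + Z2 ^ 2

/-- coefficient 222 of the form -/
def miD222 (g th E e0 e1 e2 c0 c1 c2 : K) : K :=
  0

theorem miP_eq (g th k c0 c1 c2 d0 d1 d2 Y0 Y1 Y2 Z0 Z1 Z2 : K) :
    miP g th (d0 + k * c0) (d1 + k * c1) (d2 + k * c2) d0 d1 d2 Y0 Y1 Y2 Z0 Z1 Z2 =
      miC000 g th k c0 c1 c2 Y0 Y1 Y2 Z0 Z1 Z2 + miC001 g th k c0 c1 c2 Y0 Y1 Y2 Z0 Z1 Z2 * (d2)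
      + miC002 g th k c0 c1 c2 Y0 Y1 Y2 Z0 Z1 Z2 * (d2 ^ 2) + miC010 g th k c0 c1 c2 Y0 Y1 Y2 Z0
      Z1 Z2 * (d1) + miC011 g th k c0 c1 c2 Y0 Y1 Y2 Z0 Z1 Z2 * (d1 * d2) + miC012 g th k c0 c1
      c2 Y0 Y1 Y2 Z0 Z1 Z2 * (d1 * d2 ^ 2) + miC020 g th k c0 c1 c2 Y0 Y1 Y2 Z0 Z1 Z2 * (d1 ^ 2)
      + miC021 g th k c0 c1 c2 Y0 Y1 Y2 Z0 Z1 Z2 * (d1 ^ 2 * d2) + miC022 g th k c0 c1 c2 Y0 Y1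
      Y2 Z0 Z1 Z2 * (d1 ^ 2 * d2 ^ 2) + miC100 g th k c0 c1 c2 Y0 Y1 Y2 Z0 Z1 Z2 * (d0) + miC101
      g th k c0 c1 c2 Y0 Y1 Y2 Z0 Z1 Z2 * (d0 * d2) + miC102 g th k c0 c1 c2 Y0 Y1 Y2 Z0 Z1 Z2 *
      (d0 * d2 ^ 2) + miC110 g th k c0 c1 c2 Y0 Y1 Y2 Z0 Z1 Z2 * (d0 * d1) + miC111 g th k c0 c1
      c2 Y0 Y1 Y2 Z0 Z1 Z2 * (d0 * d1 * d2) + miC112 g th k c0 c1 c2 Y0 Y1 Y2 Z0 Z1 Z2 * (d0 *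
      d1 * d2 ^ 2) + miC120 g th k c0 c1 c2 Y0 Y1 Y2 Z0 Z1 Z2 * (d0 * d1 ^ 2) + miC121 g th k c0
      c1 c2 Y0 Y1 Y2 Z0 Z1 Z2 * (d0 * d1 ^ 2 * d2) + miC122 g th k c0 c1 c2 Y0 Y1 Y2 Z0 Z1 Z2 *
      (d0 * d1 ^ 2 * d2 ^ 2) + miC200 g th k c0 c1 c2 Y0 Y1 Y2 Z0 Z1 Z2 * (d0 ^ 2) + miC201 g th
      k c0 c1 c2 Y0 Y1 Y2 Z0 Z1 Z2 * (d0 ^ 2 * d2) + miC202 g th k c0 c1 c2 Y0 Y1 Y2 Z0 Z1 Z2 *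
      (d0 ^ 2 * d2 ^ 2) + miC210 g th k c0 c1 c2 Y0 Y1 Y2 Z0 Z1 Z2 * (d0 ^ 2 * d1) + miC211 g th
      k c0 c1 c2 Y0 Y1 Y2 Z0 Z1 Z2 * (d0 ^ 2 * d1 * d2) + miC212 g th k c0 c1 c2 Y0 Y1 Y2 Z0 Z1
      Z2 * (d0 ^ 2 * d1 * d2 ^ 2) + miC220 g th k c0 c1 c2 Y0 Y1 Y2 Z0 Z1 Z2 * (d0 ^ 2 * d1 ^ 2)
      + miC221 g th k c0 c1 c2 Y0 Y1 Y2 Z0 Z1 Z2 * (d0 ^ 2 * d1 ^ 2 * d2) + miC222 g th k c0 c1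
      c2 Y0 Y1 Y2 Z0 Z1 Z2 * (d0 ^ 2 * d1 ^ 2 * d2 ^ 2) := by
  simp only [miP, miC000, miC001, miC002, miC010, miC011, miC012, miC020, miC021, miC022, miC100, miC101,
    miC102, miC110, miC111, miC112, miC120, miC121, miC122, miC200, miC201, miC202, miC210,
    miC211, miC212, miC220, miC221, miC222]
  ring

theorem miH_eq (g th E e0 e1 e2 c0 c1 c2 d0 d1 d2 : K) :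
    miH g th E e0 e1 e2 (c0 * (d0 + c0)) (c1 * (d1 + c1)) (c2 * (d2 + c2)) =
      miD000 g th E e0 e1 e2 c0 c1 c2 + miD001 g th E e0 e1 e2 c0 c1 c2 * (d2) + miD002 g th E
      e0 e1 e2 c0 c1 c2 * (d2 ^ 2) + miD010 g th E e0 e1 e2 c0 c1 c2 * (d1) + miD011 g th E e0
      e1 e2 c0 c1 c2 * (d1 * d2) + miD012 g th E e0 e1 e2 c0 c1 c2 * (d1 * d2 ^ 2) + miD020 g th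
      E e0 e1 e2 c0 c1 c2 * (d1 ^ 2) + miD021 g th E e0 e1 e2 c0 c1 c2 * (d1 ^ 2 * d2) + miD022
      g th E e0 e1 e2 c0 c1 c2 * (d1 ^ 2 * d2 ^ 2) + miD100 g th E e0 e1 e2 c0 c1 c2 * (d0) +
      miD101 g th E e0 e1 e2 c0 c1 c2 * (d0 * d2) + miD102 g th E e0 e1 e2 c0 c1 c2 * (d0 * d2 ^
      2) + miD110 g th E e0 e1 e2 c0 c1 c2 * (d0 * d1) + miD111 g th E e0 e1 e2 c0 c1 c2 * (d0 *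
      d1 * d2) + miD112 g th E e0 e1 e2 c0 c1 c2 * (d0 * d1 * d2 ^ 2) + miD120 g th E e0 e1 e2
      c0 c1 c2 * (d0 * d1 ^ 2) + miD121 g th E e0 e1 e2 c0 c1 c2 * (d0 * d1 ^ 2 * d2) + miD122 g
      th E e0 e1 e2 c0 c1 c2 * (d0 * d1 ^ 2 * d2 ^ 2) + miD200 g th E e0 e1 e2 c0 c1 c2 * (d0 ^
      2) + miD201 g th E e0 e1 e2 c0 c1 c2 * (d0 ^ 2 * d2) + miD202 g th E e0 e1 e2 c0 c1 c2 *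
      (d0 ^ 2 * d2 ^ 2) + miD210 g th E e0 e1 e2 c0 c1 c2 * (d0 ^ 2 * d1) + miD211 g th E e0 e1
      e2 c0 c1 c2 * (d0 ^ 2 * d1 * d2) + miD212 g th E e0 e1 e2 c0 c1 c2 * (d0 ^ 2 * d1 * d2 ^
      2) + miD220 g th E e0 e1 e2 c0 c1 c2 * (d0 ^ 2 * d1 ^ 2) + miD221 g th E e0 e1 e2 c0 c1 c2
      * (d0 ^ 2 * d1 ^ 2 * d2) + miD222 g th E e0 e1 e2 c0 c1 c2 * (d0 ^ 2 * d1 ^ 2 * d2 ^ 2) := by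
  simp only [miH, miD000, miD001, miD002, miD010, miD011, miD012, miD020, miD021, miD022, miD100, miD101,
    miD102, miD110, miD111, miD112, miD120, miD121, miD122, miD200, miD201, miD202, miD210,
    miD211, miD212, miD220, miD221, miD222]
  ring

theorem mi_coef000 {g th e1 e2 : K} (hth : th ^ 2 = 3) :
    miC000 g th (1 + g ^ 2) (e1 * e2) (e2 * (-(e1 + e2))) ((-(e1 + e2)) * e1) (Yp th g (-(e1 + e2))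
      e1 e2) (Yp th g e1 e2 (-(e1 + e2))) (Yp th g e2 (-(e1 + e2)) e1) (Zp th g (-(e1 + e2)) e1
      e2) (Zp th g e1 e2 (-(e1 + e2))) (Zp th g e2 (-(e1 + e2)) e1) =
      (1 + g ^ 2) ^ 5 * miD000 g th ((-(e1 + e2)) * e1 * e2) (-(e1 + e2)) e1 e2 (e1 * e2) (e2 * (-(e1 + e2))) ((-(e1 +
      e2)) * e1) := by
  simp only [miC000, miD000, miH, Yp, Zp]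
  linear_combination (0) * hth

theorem mi_coef001 {g th e1 e2 : K} (hth : th ^ 2 = 3) :
    miC001 g th (1 + g ^ 2) (e1 * e2) (e2 * (-(e1 + e2))) ((-(e1 + e2)) * e1) (Yp th g (-(e1 + e2))
      e1 e2) (Yp th g e1 e2 (-(e1 + e2))) (Yp th g e2 (-(e1 + e2)) e1) (Zp th g (-(e1 + e2)) e1
      e2) (Zp th g e1 e2 (-(e1 + e2))) (Zp th g e2 (-(e1 + e2)) e1) =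
      (1 + g ^ 2) ^ 5 * miD001 g th ((-(e1 + e2)) * e1 * e2) (-(e1 + e2)) e1 e2 (e1 * e2) (e2 * (-(e1 + e2))) ((-(e1 +
      e2)) * e1) := by
  simp only [miC001, miD001, miH, Yp, Zp]
  linear_combination (-5 * e1 ^ 10 * e2 ^ 4 * g ^ 10 - e1 ^ 10 * e2 ^ 4 * g ^ 12 - e1 ^ 10 * e2 ^ 4 * g ^ 2 - 5 *
    e1 ^ 10 * e2 ^ 4 * g ^ 4 - 10 * e1 ^ 10 * e2 ^ 4 * g ^ 6 - 10 * e1 ^ 10 * e2 ^ 4 * g ^ 8 +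
    10 * e1 ^ 4 * e2 ^ 10 * g ^ 10 + 2 * e1 ^ 4 * e2 ^ 10 * g ^ 12 + 2 * e1 ^ 4 * e2 ^ 10 * g ^
    2 + 10 * e1 ^ 4 * e2 ^ 10 * g ^ 4 + 20 * e1 ^ 4 * e2 ^ 10 * g ^ 6 + 20 * e1 ^ 4 * e2 ^ 10 *
    g ^ 8 + 35 * e1 ^ 5 * e2 ^ 9 * g ^ 10 + 7 * e1 ^ 5 * e2 ^ 9 * g ^ 12 + 7 * e1 ^ 5 * e2 ^ 9 *
    g ^ 2 + 35 * e1 ^ 5 * e2 ^ 9 * g ^ 4 + 70 * e1 ^ 5 * e2 ^ 9 * g ^ 6 + 70 * e1 ^ 5 * e2 ^ 9 *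
    g ^ 8 + 35 * e1 ^ 6 * e2 ^ 8 * g ^ 10 + 7 * e1 ^ 6 * e2 ^ 8 * g ^ 12 + 7 * e1 ^ 6 * e2 ^ 8 *
    g ^ 2 + 35 * e1 ^ 6 * e2 ^ 8 * g ^ 4 + 70 * e1 ^ 6 * e2 ^ 8 * g ^ 6 + 70 * e1 ^ 6 * e2 ^ 8 *
    g ^ 8 - 10 * e1 ^ 7 * e2 ^ 7 * g ^ 10 - 2 * e1 ^ 7 * e2 ^ 7 * g ^ 12 - 2 * e1 ^ 7 * e2 ^ 7 *
    g ^ 2 - 10 * e1 ^ 7 * e2 ^ 7 * g ^ 4 - 20 * e1 ^ 7 * e2 ^ 7 * g ^ 6 - 20 * e1 ^ 7 * e2 ^ 7 *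
    g ^ 8 - 40 * e1 ^ 8 * e2 ^ 6 * g ^ 10 - 8 * e1 ^ 8 * e2 ^ 6 * g ^ 12 - 8 * e1 ^ 8 * e2 ^ 6 *
    g ^ 2 - 40 * e1 ^ 8 * e2 ^ 6 * g ^ 4 - 80 * e1 ^ 8 * e2 ^ 6 * g ^ 6 - 80 * e1 ^ 8 * e2 ^ 6 *
    g ^ 8 - 25 * e1 ^ 9 * e2 ^ 5 * g ^ 10 - 5 * e1 ^ 9 * e2 ^ 5 * g ^ 12 - 5 * e1 ^ 9 * e2 ^ 5 *
    g ^ 2 - 25 * e1 ^ 9 * e2 ^ 5 * g ^ 4 - 50 * e1 ^ 9 * e2 ^ 5 * g ^ 6 - 50 * e1 ^ 9 * e2 ^ 5 *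
    g ^ 8) * hth

theorem mi_coef002 {g th e1 e2 : K} (hth : th ^ 2 = 3) :
    miC002 g th (1 + g ^ 2) (e1 * e2) (e2 * (-(e1 + e2))) ((-(e1 + e2)) * e1) (Yp th g (-(e1 + e2))
      e1 e2) (Yp th g e1 e2 (-(e1 + e2))) (Yp th g e2 (-(e1 + e2)) e1) (Zp th g (-(e1 + e2)) e1
      e2) (Zp th g e1 e2 (-(e1 + e2))) (Zp th g e2 (-(e1 + e2)) e1) =
      (1 + g ^ 2) ^ 5 * miD002 g th ((-(e1 + e2)) * e1 * e2) (-(e1 + e2)) e1 e2 (e1 * e2) (e2 * (-(e1 + e2))) ((-(e1 +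
      e2)) * e1) := by
  simp only [miC002, miD002, miH, Yp, Zp]
  linear_combination (e1 ^ 2 * e2 ^ 10 * g ^ 10 + e1 ^ 2 * e2 ^ 10 * g ^ 2 + 4 * e1 ^ 2 * e2 ^ 10 * g ^ 4 + 6 * e1
    ^ 2 * e2 ^ 10 * g ^ 6 + 4 * e1 ^ 2 * e2 ^ 10 * g ^ 8 + 4 * e1 ^ 3 * e2 ^ 9 * g ^ 10 + 4 * e1
    ^ 3 * e2 ^ 9 * g ^ 2 + 16 * e1 ^ 3 * e2 ^ 9 * g ^ 4 + 24 * e1 ^ 3 * e2 ^ 9 * g ^ 6 + 16 * e1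
    ^ 3 * e2 ^ 9 * g ^ 8 + 8 * e1 ^ 4 * e2 ^ 8 * g ^ 10 + 8 * e1 ^ 4 * e2 ^ 8 * g ^ 2 + 32 * e1
    ^ 4 * e2 ^ 8 * g ^ 4 + 48 * e1 ^ 4 * e2 ^ 8 * g ^ 6 + 32 * e1 ^ 4 * e2 ^ 8 * g ^ 8 + 10 * e1
    ^ 5 * e2 ^ 7 * g ^ 10 + 10 * e1 ^ 5 * e2 ^ 7 * g ^ 2 + 40 * e1 ^ 5 * e2 ^ 7 * g ^ 4 + 60 *
    e1 ^ 5 * e2 ^ 7 * g ^ 6 + 40 * e1 ^ 5 * e2 ^ 7 * g ^ 8 + 8 * e1 ^ 6 * e2 ^ 6 * g ^ 10 + 8 *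
    e1 ^ 6 * e2 ^ 6 * g ^ 2 + 32 * e1 ^ 6 * e2 ^ 6 * g ^ 4 + 48 * e1 ^ 6 * e2 ^ 6 * g ^ 6 + 32 *
    e1 ^ 6 * e2 ^ 6 * g ^ 8 + 4 * e1 ^ 7 * e2 ^ 5 * g ^ 10 + 4 * e1 ^ 7 * e2 ^ 5 * g ^ 2 + 16 *
    e1 ^ 7 * e2 ^ 5 * g ^ 4 + 24 * e1 ^ 7 * e2 ^ 5 * g ^ 6 + 16 * e1 ^ 7 * e2 ^ 5 * g ^ 8 + e1 ^
    8 * e2 ^ 4 * g ^ 10 + e1 ^ 8 * e2 ^ 4 * g ^ 2 + 4 * e1 ^ 8 * e2 ^ 4 * g ^ 4 + 6 * e1 ^ 8 *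
    e2 ^ 4 * g ^ 6 + 4 * e1 ^ 8 * e2 ^ 4 * g ^ 8) * hth

theorem mi_coef010 {g th e1 e2 : K} (hth : th ^ 2 = 3) :
    miC010 g th (1 + g ^ 2) (e1 * e2) (e2 * (-(e1 + e2))) ((-(e1 + e2)) * e1) (Yp th g (-(e1 + e2))
      e1 e2) (Yp th g e1 e2 (-(e1 + e2))) (Yp th g e2 (-(e1 + e2)) e1) (Zp th g (-(e1 + e2)) e1
      e2) (Zp th g e1 e2 (-(e1 + e2))) (Zp th g e2 (-(e1 + e2)) e1) =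
      (1 + g ^ 2) ^ 5 * miD010 g th ((-(e1 + e2)) * e1 * e2) (-(e1 + e2)) e1 e2 (e1 * e2) (e2 * (-(e1 + e2))) ((-(e1 +
      e2)) * e1) := by
  simp only [miC010, miD010, miH, Yp, Zp]
  linear_combination (10 * e1 ^ 10 * e2 ^ 4 * g ^ 10 + 2 * e1 ^ 10 * e2 ^ 4 * g ^ 12 + 2 * e1 ^ 10 * e2 ^ 4 * g ^
    2 + 10 * e1 ^ 10 * e2 ^ 4 * g ^ 4 + 20 * e1 ^ 10 * e2 ^ 4 * g ^ 6 + 20 * e1 ^ 10 * e2 ^ 4 *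
    g ^ 8 - 5 * e1 ^ 4 * e2 ^ 10 * g ^ 10 - e1 ^ 4 * e2 ^ 10 * g ^ 12 - e1 ^ 4 * e2 ^ 10 * g ^ 2
    - 5 * e1 ^ 4 * e2 ^ 10 * g ^ 4 - 10 * e1 ^ 4 * e2 ^ 10 * g ^ 6 - 10 * e1 ^ 4 * e2 ^ 10 * g ^
    8 - 25 * e1 ^ 5 * e2 ^ 9 * g ^ 10 - 5 * e1 ^ 5 * e2 ^ 9 * g ^ 12 - 5 * e1 ^ 5 * e2 ^ 9 * g ^
    2 - 25 * e1 ^ 5 * e2 ^ 9 * g ^ 4 - 50 * e1 ^ 5 * e2 ^ 9 * g ^ 6 - 50 * e1 ^ 5 * e2 ^ 9 * g ^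
    8 - 40 * e1 ^ 6 * e2 ^ 8 * g ^ 10 - 8 * e1 ^ 6 * e2 ^ 8 * g ^ 12 - 8 * e1 ^ 6 * e2 ^ 8 * g ^
    2 - 40 * e1 ^ 6 * e2 ^ 8 * g ^ 4 - 80 * e1 ^ 6 * e2 ^ 8 * g ^ 6 - 80 * e1 ^ 6 * e2 ^ 8 * g ^
    8 - 10 * e1 ^ 7 * e2 ^ 7 * g ^ 10 - 2 * e1 ^ 7 * e2 ^ 7 * g ^ 12 - 2 * e1 ^ 7 * e2 ^ 7 * g ^
    2 - 10 * e1 ^ 7 * e2 ^ 7 * g ^ 4 - 20 * e1 ^ 7 * e2 ^ 7 * g ^ 6 - 20 * e1 ^ 7 * e2 ^ 7 * g ^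
    8 + 35 * e1 ^ 8 * e2 ^ 6 * g ^ 10 + 7 * e1 ^ 8 * e2 ^ 6 * g ^ 12 + 7 * e1 ^ 8 * e2 ^ 6 * g ^
    2 + 35 * e1 ^ 8 * e2 ^ 6 * g ^ 4 + 70 * e1 ^ 8 * e2 ^ 6 * g ^ 6 + 70 * e1 ^ 8 * e2 ^ 6 * g ^
    8 + 35 * e1 ^ 9 * e2 ^ 5 * g ^ 10 + 7 * e1 ^ 9 * e2 ^ 5 * g ^ 12 + 7 * e1 ^ 9 * e2 ^ 5 * g ^
    2 + 35 * e1 ^ 9 * e2 ^ 5 * g ^ 4 + 70 * e1 ^ 9 * e2 ^ 5 * g ^ 6 + 70 * e1 ^ 9 * e2 ^ 5 * g ^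
    8) * hth

theorem mi_coef011 {g th e1 e2 : K} (hth : th ^ 2 = 3) :
    miC011 g th (1 + g ^ 2) (e1 * e2) (e2 * (-(e1 + e2))) ((-(e1 + e2)) * e1) (Yp th g (-(e1 + e2))
      e1 e2) (Yp th g e1 e2 (-(e1 + e2))) (Yp th g e2 (-(e1 + e2)) e1) (Zp th g (-(e1 + e2)) e1
      e2) (Zp th g e1 e2 (-(e1 + e2))) (Zp th g e2 (-(e1 + e2)) e1) =
      (1 + g ^ 2) ^ 5 * miD011 g th ((-(e1 + e2)) * e1 * e2) (-(e1 + e2)) e1 e2 (e1 * e2) (e2 * (-(e1 + e2))) ((-(e1 +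
      e2)) * e1) := by
  simp only [miC011, miD011, miH, Yp, Zp]
  linear_combination (2 * e1 ^ 3 * e2 ^ 9 * g ^ 10 + 2 * e1 ^ 3 * e2 ^ 9 * g ^ 2 + 8 * e1 ^ 3 * e2 ^ 9 * g ^ 4 +
    12 * e1 ^ 3 * e2 ^ 9 * g ^ 6 + 8 * e1 ^ 3 * e2 ^ 9 * g ^ 8 + 8 * e1 ^ 4 * e2 ^ 8 * g ^ 10 +
    8 * e1 ^ 4 * e2 ^ 8 * g ^ 2 + 32 * e1 ^ 4 * e2 ^ 8 * g ^ 4 + 48 * e1 ^ 4 * e2 ^ 8 * g ^ 6 +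
    32 * e1 ^ 4 * e2 ^ 8 * g ^ 8 + 16 * e1 ^ 5 * e2 ^ 7 * g ^ 10 + 16 * e1 ^ 5 * e2 ^ 7 * g ^ 2
    + 64 * e1 ^ 5 * e2 ^ 7 * g ^ 4 + 96 * e1 ^ 5 * e2 ^ 7 * g ^ 6 + 64 * e1 ^ 5 * e2 ^ 7 * g ^ 8
    + 20 * e1 ^ 6 * e2 ^ 6 * g ^ 10 + 20 * e1 ^ 6 * e2 ^ 6 * g ^ 2 + 80 * e1 ^ 6 * e2 ^ 6 * g ^
    4 + 120 * e1 ^ 6 * e2 ^ 6 * g ^ 6 + 80 * e1 ^ 6 * e2 ^ 6 * g ^ 8 + 16 * e1 ^ 7 * e2 ^ 5 * g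
    ^ 10 + 16 * e1 ^ 7 * e2 ^ 5 * g ^ 2 + 64 * e1 ^ 7 * e2 ^ 5 * g ^ 4 + 96 * e1 ^ 7 * e2 ^ 5 *
    g ^ 6 + 64 * e1 ^ 7 * e2 ^ 5 * g ^ 8 + 8 * e1 ^ 8 * e2 ^ 4 * g ^ 10 + 8 * e1 ^ 8 * e2 ^ 4 *
    g ^ 2 + 32 * e1 ^ 8 * e2 ^ 4 * g ^ 4 + 48 * e1 ^ 8 * e2 ^ 4 * g ^ 6 + 32 * e1 ^ 8 * e2 ^ 4 *
    g ^ 8 + 2 * e1 ^ 9 * e2 ^ 3 * g ^ 10 + 2 * e1 ^ 9 * e2 ^ 3 * g ^ 2 + 8 * e1 ^ 9 * e2 ^ 3 * g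
    ^ 4 + 12 * e1 ^ 9 * e2 ^ 3 * g ^ 6 + 8 * e1 ^ 9 * e2 ^ 3 * g ^ 8) * hth

theorem mi_coef012 {g th e1 e2 : K} (hth : th ^ 2 = 3) :
    miC012 g th (1 + g ^ 2) (e1 * e2) (e2 * (-(e1 + e2))) ((-(e1 + e2)) * e1) (Yp th g (-(e1 + e2))
      e1 e2) (Yp th g e1 e2 (-(e1 + e2))) (Yp th g e2 (-(e1 + e2)) e1) (Zp th g (-(e1 + e2)) e1
      e2) (Zp th g e1 e2 (-(e1 + e2))) (Zp th g e2 (-(e1 + e2)) e1) =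
      (1 + g ^ 2) ^ 5 * miD012 g th ((-(e1 + e2)) * e1 * e2) (-(e1 + e2)) e1 e2 (e1 * e2) (e2 * (-(e1 + e2))) ((-(e1 +
      e2)) * e1) := by
  simp only [miC012, miD012, miH, Yp, Zp]
  linear_combination (-e1 ^ 2 * e2 ^ 8 * g ^ 10 - 4 * e1 ^ 2 * e2 ^ 8 * g ^ 2 + e1 ^ 2 * e2 ^ 8 * g ^ 3 * th - 13
    * e1 ^ 2 * e2 ^ 8 * g ^ 4 + 3 * e1 ^ 2 * e2 ^ 8 * g ^ 5 * th - 15 * e1 ^ 2 * e2 ^ 8 * g ^ 6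
    + 3 * e1 ^ 2 * e2 ^ 8 * g ^ 7 * th - 7 * e1 ^ 2 * e2 ^ 8 * g ^ 8 + e1 ^ 2 * e2 ^ 8 * g ^ 9 *
    th - 7 * e1 ^ 3 * e2 ^ 7 * g ^ 10 - 12 * e1 ^ 3 * e2 ^ 7 * g ^ 2 + 3 * e1 ^ 3 * e2 ^ 7 * g ^
    3 * th - 43 * e1 ^ 3 * e2 ^ 7 * g ^ 4 + 9 * e1 ^ 3 * e2 ^ 7 * g ^ 5 * th - 57 * e1 ^ 3 * e2
    ^ 7 * g ^ 6 + 9 * e1 ^ 3 * e2 ^ 7 * g ^ 7 * th - 33 * e1 ^ 3 * e2 ^ 7 * g ^ 8 + 3 * e1 ^ 3 *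
    e2 ^ 7 * g ^ 9 * th - 13 * e1 ^ 4 * e2 ^ 6 * g ^ 10 - 18 * e1 ^ 4 * e2 ^ 6 * g ^ 2 + e1 ^ 4
    * e2 ^ 6 * g ^ 3 * th - 67 * e1 ^ 4 * e2 ^ 6 * g ^ 4 + 3 * e1 ^ 4 * e2 ^ 6 * g ^ 5 * th - 93
    * e1 ^ 4 * e2 ^ 6 * g ^ 6 + 3 * e1 ^ 4 * e2 ^ 6 * g ^ 7 * th - 57 * e1 ^ 4 * e2 ^ 6 * g ^ 8
    + e1 ^ 4 * e2 ^ 6 * g ^ 9 * th - 7 * e1 ^ 5 * e2 ^ 5 * g ^ 10 - 16 * e1 ^ 5 * e2 ^ 5 * g ^ 2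
    - 3 * e1 ^ 5 * e2 ^ 5 * g ^ 3 * th - 55 * e1 ^ 5 * e2 ^ 5 * g ^ 4 - 9 * e1 ^ 5 * e2 ^ 5 * g
    ^ 5 * th - 69 * e1 ^ 5 * e2 ^ 5 * g ^ 6 - 9 * e1 ^ 5 * e2 ^ 5 * g ^ 7 * th - 37 * e1 ^ 5 *
    e2 ^ 5 * g ^ 8 - 3 * e1 ^ 5 * e2 ^ 5 * g ^ 9 * th + 2 * e1 ^ 6 * e2 ^ 4 * g ^ 10 - 8 * e1 ^
    6 * e2 ^ 4 * g ^ 2 - 2 * e1 ^ 6 * e2 ^ 4 * g ^ 3 * th - 22 * e1 ^ 6 * e2 ^ 4 * g ^ 4 - 6 *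
    e1 ^ 6 * e2 ^ 4 * g ^ 5 * th - 18 * e1 ^ 6 * e2 ^ 4 * g ^ 6 - 6 * e1 ^ 6 * e2 ^ 4 * g ^ 7 *
    th - 2 * e1 ^ 6 * e2 ^ 4 * g ^ 8 - 2 * e1 ^ 6 * e2 ^ 4 * g ^ 9 * th + 2 * e1 ^ 7 * e2 ^ 3 *
    g ^ 10 - 2 * e1 ^ 7 * e2 ^ 3 * g ^ 2 - 4 * e1 ^ 7 * e2 ^ 3 * g ^ 4 + 4 * e1 ^ 7 * e2 ^ 3 * g
    ^ 8) * hth

theorem mi_coef020 {g th e1 e2 : K} (hth : th ^ 2 = 3) :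
    miC020 g th (1 + g ^ 2) (e1 * e2) (e2 * (-(e1 + e2))) ((-(e1 + e2)) * e1) (Yp th g (-(e1 + e2))
      e1 e2) (Yp th g e1 e2 (-(e1 + e2))) (Yp th g e2 (-(e1 + e2)) e1) (Zp th g (-(e1 + e2)) e1
      e2) (Zp th g e1 e2 (-(e1 + e2))) (Zp th g e2 (-(e1 + e2)) e1) =
      (1 + g ^ 2) ^ 5 * miD020 g th ((-(e1 + e2)) * e1 * e2) (-(e1 + e2)) e1 e2 (e1 * e2) (e2 * (-(e1 + e2))) ((-(e1 +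
      e2)) * e1) := by
  simp only [miC020, miD020, miH, Yp, Zp]
  linear_combination (e1 ^ 10 * e2 ^ 2 * g ^ 10 + e1 ^ 10 * e2 ^ 2 * g ^ 2 + 4 * e1 ^ 10 * e2 ^ 2 * g ^ 4 + 6 * e1
    ^ 10 * e2 ^ 2 * g ^ 6 + 4 * e1 ^ 10 * e2 ^ 2 * g ^ 8 + e1 ^ 4 * e2 ^ 8 * g ^ 10 + e1 ^ 4 *
    e2 ^ 8 * g ^ 2 + 4 * e1 ^ 4 * e2 ^ 8 * g ^ 4 + 6 * e1 ^ 4 * e2 ^ 8 * g ^ 6 + 4 * e1 ^ 4 * e2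
    ^ 8 * g ^ 8 + 4 * e1 ^ 5 * e2 ^ 7 * g ^ 10 + 4 * e1 ^ 5 * e2 ^ 7 * g ^ 2 + 16 * e1 ^ 5 * e2
    ^ 7 * g ^ 4 + 24 * e1 ^ 5 * e2 ^ 7 * g ^ 6 + 16 * e1 ^ 5 * e2 ^ 7 * g ^ 8 + 8 * e1 ^ 6 * e2
    ^ 6 * g ^ 10 + 8 * e1 ^ 6 * e2 ^ 6 * g ^ 2 + 32 * e1 ^ 6 * e2 ^ 6 * g ^ 4 + 48 * e1 ^ 6 * e2
    ^ 6 * g ^ 6 + 32 * e1 ^ 6 * e2 ^ 6 * g ^ 8 + 10 * e1 ^ 7 * e2 ^ 5 * g ^ 10 + 10 * e1 ^ 7 *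
    e2 ^ 5 * g ^ 2 + 40 * e1 ^ 7 * e2 ^ 5 * g ^ 4 + 60 * e1 ^ 7 * e2 ^ 5 * g ^ 6 + 40 * e1 ^ 7 *
    e2 ^ 5 * g ^ 8 + 8 * e1 ^ 8 * e2 ^ 4 * g ^ 10 + 8 * e1 ^ 8 * e2 ^ 4 * g ^ 2 + 32 * e1 ^ 8 *
    e2 ^ 4 * g ^ 4 + 48 * e1 ^ 8 * e2 ^ 4 * g ^ 6 + 32 * e1 ^ 8 * e2 ^ 4 * g ^ 8 + 4 * e1 ^ 9 *
    e2 ^ 3 * g ^ 10 + 4 * e1 ^ 9 * e2 ^ 3 * g ^ 2 + 16 * e1 ^ 9 * e2 ^ 3 * g ^ 4 + 24 * e1 ^ 9 *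
    e2 ^ 3 * g ^ 6 + 16 * e1 ^ 9 * e2 ^ 3 * g ^ 8) * hth

theorem mi_coef021 {g th e1 e2 : K} (hth : th ^ 2 = 3) :
    miC021 g th (1 + g ^ 2) (e1 * e2) (e2 * (-(e1 + e2))) ((-(e1 + e2)) * e1) (Yp th g (-(e1 + e2))
      e1 e2) (Yp th g e1 e2 (-(e1 + e2))) (Yp th g e2 (-(e1 + e2)) e1) (Zp th g (-(e1 + e2)) e1
      e2) (Zp th g e1 e2 (-(e1 + e2))) (Zp th g e2 (-(e1 + e2)) e1) =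
      (1 + g ^ 2) ^ 5 * miD021 g th ((-(e1 + e2)) * e1 * e2) (-(e1 + e2)) e1 e2 (e1 * e2) (e2 * (-(e1 + e2))) ((-(e1 +
      e2)) * e1) := by
  simp only [miC021, miD021, miH, Yp, Zp]
  linear_combination (2 * e1 ^ 3 * e2 ^ 7 * g ^ 10 - 2 * e1 ^ 3 * e2 ^ 7 * g ^ 2 - 4 * e1 ^ 3 * e2 ^ 7 * g ^ 4 + 4
    * e1 ^ 3 * e2 ^ 7 * g ^ 8 + 2 * e1 ^ 4 * e2 ^ 6 * g ^ 10 - 8 * e1 ^ 4 * e2 ^ 6 * g ^ 2 + 2 *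
    e1 ^ 4 * e2 ^ 6 * g ^ 3 * th - 22 * e1 ^ 4 * e2 ^ 6 * g ^ 4 + 6 * e1 ^ 4 * e2 ^ 6 * g ^ 5 *
    th - 18 * e1 ^ 4 * e2 ^ 6 * g ^ 6 + 6 * e1 ^ 4 * e2 ^ 6 * g ^ 7 * th - 2 * e1 ^ 4 * e2 ^ 6 *
    g ^ 8 + 2 * e1 ^ 4 * e2 ^ 6 * g ^ 9 * th - 7 * e1 ^ 5 * e2 ^ 5 * g ^ 10 - 16 * e1 ^ 5 * e2 ^
    5 * g ^ 2 + 3 * e1 ^ 5 * e2 ^ 5 * g ^ 3 * th - 55 * e1 ^ 5 * e2 ^ 5 * g ^ 4 + 9 * e1 ^ 5 *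
    e2 ^ 5 * g ^ 5 * th - 69 * e1 ^ 5 * e2 ^ 5 * g ^ 6 + 9 * e1 ^ 5 * e2 ^ 5 * g ^ 7 * th - 37 *
    e1 ^ 5 * e2 ^ 5 * g ^ 8 + 3 * e1 ^ 5 * e2 ^ 5 * g ^ 9 * th - 13 * e1 ^ 6 * e2 ^ 4 * g ^ 10 -
    18 * e1 ^ 6 * e2 ^ 4 * g ^ 2 - e1 ^ 6 * e2 ^ 4 * g ^ 3 * th - 67 * e1 ^ 6 * e2 ^ 4 * g ^ 4 -
    3 * e1 ^ 6 * e2 ^ 4 * g ^ 5 * th - 93 * e1 ^ 6 * e2 ^ 4 * g ^ 6 - 3 * e1 ^ 6 * e2 ^ 4 * g ^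
    7 * th - 57 * e1 ^ 6 * e2 ^ 4 * g ^ 8 - e1 ^ 6 * e2 ^ 4 * g ^ 9 * th - 7 * e1 ^ 7 * e2 ^ 3 *
    g ^ 10 - 12 * e1 ^ 7 * e2 ^ 3 * g ^ 2 - 3 * e1 ^ 7 * e2 ^ 3 * g ^ 3 * th - 43 * e1 ^ 7 * e2
    ^ 3 * g ^ 4 - 9 * e1 ^ 7 * e2 ^ 3 * g ^ 5 * th - 57 * e1 ^ 7 * e2 ^ 3 * g ^ 6 - 9 * e1 ^ 7 *
    e2 ^ 3 * g ^ 7 * th - 33 * e1 ^ 7 * e2 ^ 3 * g ^ 8 - 3 * e1 ^ 7 * e2 ^ 3 * g ^ 9 * th - e1 ^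
    8 * e2 ^ 2 * g ^ 10 - 4 * e1 ^ 8 * e2 ^ 2 * g ^ 2 - e1 ^ 8 * e2 ^ 2 * g ^ 3 * th - 13 * e1 ^
    8 * e2 ^ 2 * g ^ 4 - 3 * e1 ^ 8 * e2 ^ 2 * g ^ 5 * th - 15 * e1 ^ 8 * e2 ^ 2 * g ^ 6 - 3 *
    e1 ^ 8 * e2 ^ 2 * g ^ 7 * th - 7 * e1 ^ 8 * e2 ^ 2 * g ^ 8 - e1 ^ 8 * e2 ^ 2 * g ^ 9 * th) * hth

theorem mi_coef022 {g th e1 e2 : K} (hth : th ^ 2 = 3) :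
    miC022 g th (1 + g ^ 2) (e1 * e2) (e2 * (-(e1 + e2))) ((-(e1 + e2)) * e1) (Yp th g (-(e1 + e2))
      e1 e2) (Yp th g e1 e2 (-(e1 + e2))) (Yp th g e2 (-(e1 + e2)) e1) (Zp th g (-(e1 + e2)) e1
      e2) (Zp th g e1 e2 (-(e1 + e2))) (Zp th g e2 (-(e1 + e2)) e1) =
      (1 + g ^ 2) ^ 5 * miD022 g th ((-(e1 + e2)) * e1 * e2) (-(e1 + e2)) e1 e2 (e1 * e2) (e2 * (-(e1 + e2))) ((-(e1 +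
      e2)) * e1) := by
  simp only [miC022, miD022, miH, Yp, Zp]
  linear_combination (3 * e1 ^ 2 * e2 ^ 6 * g ^ 2 - e1 ^ 2 * e2 ^ 6 * g ^ 3 * th + 6 * e1 ^ 2 * e2 ^ 6 * g ^ 4 - 2
    * e1 ^ 2 * e2 ^ 6 * g ^ 5 * th + 3 * e1 ^ 2 * e2 ^ 6 * g ^ 6 - e1 ^ 2 * e2 ^ 6 * g ^ 7 * th
    + 6 * e1 ^ 3 * e2 ^ 5 * g ^ 2 - 4 * e1 ^ 3 * e2 ^ 5 * g ^ 3 * th + 18 * e1 ^ 3 * e2 ^ 5 * g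
    ^ 4 - 8 * e1 ^ 3 * e2 ^ 5 * g ^ 5 * th + 18 * e1 ^ 3 * e2 ^ 5 * g ^ 6 - 4 * e1 ^ 3 * e2 ^ 5
    * g ^ 7 * th + 6 * e1 ^ 3 * e2 ^ 5 * g ^ 8 + 6 * e1 ^ 4 * e2 ^ 4 * g ^ 2 + 24 * e1 ^ 4 * e2
    ^ 4 * g ^ 4 + 30 * e1 ^ 4 * e2 ^ 4 * g ^ 6 + 12 * e1 ^ 4 * e2 ^ 4 * g ^ 8 + 6 * e1 ^ 5 * e2
    ^ 3 * g ^ 2 + 4 * e1 ^ 5 * e2 ^ 3 * g ^ 3 * th + 18 * e1 ^ 5 * e2 ^ 3 * g ^ 4 + 8 * e1 ^ 5 *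
    e2 ^ 3 * g ^ 5 * th + 18 * e1 ^ 5 * e2 ^ 3 * g ^ 6 + 4 * e1 ^ 5 * e2 ^ 3 * g ^ 7 * th + 6 *
    e1 ^ 5 * e2 ^ 3 * g ^ 8 + 3 * e1 ^ 6 * e2 ^ 2 * g ^ 2 + e1 ^ 6 * e2 ^ 2 * g ^ 3 * th + 6 *
    e1 ^ 6 * e2 ^ 2 * g ^ 4 + 2 * e1 ^ 6 * e2 ^ 2 * g ^ 5 * th + 3 * e1 ^ 6 * e2 ^ 2 * g ^ 6 +
    e1 ^ 6 * e2 ^ 2 * g ^ 7 * th) * hth

theorem mi_coef100 {g th e1 e2 : K} (hth : th ^ 2 = 3) :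
    miC100 g th (1 + g ^ 2) (e1 * e2) (e2 * (-(e1 + e2))) ((-(e1 + e2)) * e1) (Yp th g (-(e1 + e2))
      e1 e2) (Yp th g e1 e2 (-(e1 + e2))) (Yp th g e2 (-(e1 + e2)) e1) (Zp th g (-(e1 + e2)) e1
      e2) (Zp th g e1 e2 (-(e1 + e2))) (Zp th g e2 (-(e1 + e2)) e1) =
      (1 + g ^ 2) ^ 5 * miD100 g th ((-(e1 + e2)) * e1 * e2) (-(e1 + e2)) e1 e2 (e1 * e2) (e2 * (-(e1 + e2))) ((-(e1 +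
      e2)) * e1) := by
  simp only [miC100, miD100, miH, Yp, Zp]
  linear_combination (10 * e1 ^ 10 * e2 ^ 4 * g ^ 10 + 2 * e1 ^ 10 * e2 ^ 4 * g ^ 12 + 2 * e1 ^ 10 * e2 ^ 4 * g ^
    2 + 10 * e1 ^ 10 * e2 ^ 4 * g ^ 4 + 20 * e1 ^ 10 * e2 ^ 4 * g ^ 6 + 20 * e1 ^ 10 * e2 ^ 4 *
    g ^ 8 + 10 * e1 ^ 4 * e2 ^ 10 * g ^ 10 + 2 * e1 ^ 4 * e2 ^ 10 * g ^ 12 + 2 * e1 ^ 4 * e2 ^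
    10 * g ^ 2 + 10 * e1 ^ 4 * e2 ^ 10 * g ^ 4 + 20 * e1 ^ 4 * e2 ^ 10 * g ^ 6 + 20 * e1 ^ 4 *
    e2 ^ 10 * g ^ 8 + 65 * e1 ^ 5 * e2 ^ 9 * g ^ 10 + 13 * e1 ^ 5 * e2 ^ 9 * g ^ 12 + 13 * e1 ^
    5 * e2 ^ 9 * g ^ 2 + 65 * e1 ^ 5 * e2 ^ 9 * g ^ 4 + 130 * e1 ^ 5 * e2 ^ 9 * g ^ 6 + 130 * e1
    ^ 5 * e2 ^ 9 * g ^ 8 + 170 * e1 ^ 6 * e2 ^ 8 * g ^ 10 + 34 * e1 ^ 6 * e2 ^ 8 * g ^ 12 + 34 *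
    e1 ^ 6 * e2 ^ 8 * g ^ 2 + 170 * e1 ^ 6 * e2 ^ 8 * g ^ 4 + 340 * e1 ^ 6 * e2 ^ 8 * g ^ 6 +
    340 * e1 ^ 6 * e2 ^ 8 * g ^ 8 + 230 * e1 ^ 7 * e2 ^ 7 * g ^ 10 + 46 * e1 ^ 7 * e2 ^ 7 * g ^
    12 + 46 * e1 ^ 7 * e2 ^ 7 * g ^ 2 + 230 * e1 ^ 7 * e2 ^ 7 * g ^ 4 + 460 * e1 ^ 7 * e2 ^ 7 *
    g ^ 6 + 460 * e1 ^ 7 * e2 ^ 7 * g ^ 8 + 170 * e1 ^ 8 * e2 ^ 6 * g ^ 10 + 34 * e1 ^ 8 * e2 ^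
    6 * g ^ 12 + 34 * e1 ^ 8 * e2 ^ 6 * g ^ 2 + 170 * e1 ^ 8 * e2 ^ 6 * g ^ 4 + 340 * e1 ^ 8 *
    e2 ^ 6 * g ^ 6 + 340 * e1 ^ 8 * e2 ^ 6 * g ^ 8 + 65 * e1 ^ 9 * e2 ^ 5 * g ^ 10 + 13 * e1 ^ 9
    * e2 ^ 5 * g ^ 12 + 13 * e1 ^ 9 * e2 ^ 5 * g ^ 2 + 65 * e1 ^ 9 * e2 ^ 5 * g ^ 4 + 130 * e1 ^
    9 * e2 ^ 5 * g ^ 6 + 130 * e1 ^ 9 * e2 ^ 5 * g ^ 8) * hth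

theorem mi_coef101 {g th e1 e2 : K} (hth : th ^ 2 = 3) :
    miC101 g th (1 + g ^ 2) (e1 * e2) (e2 * (-(e1 + e2))) ((-(e1 + e2)) * e1) (Yp th g (-(e1 + e2))
      e1 e2) (Yp th g e1 e2 (-(e1 + e2))) (Yp th g e2 (-(e1 + e2)) e1) (Zp th g (-(e1 + e2)) e1
      e2) (Zp th g e1 e2 (-(e1 + e2))) (Zp th g e2 (-(e1 + e2)) e1) =
      (1 + g ^ 2) ^ 5 * miD101 g th ((-(e1 + e2)) * e1 * e2) (-(e1 + e2)) e1 e2 (e1 * e2) (e2 * (-(e1 + e2))) ((-(e1 +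
      e2)) * e1) := by
  simp only [miC101, miD101, miH, Yp, Zp]
  linear_combination (-2 * e1 ^ 2 * e2 ^ 10 * g ^ 10 - 2 * e1 ^ 2 * e2 ^ 10 * g ^ 2 - 8 * e1 ^ 2 * e2 ^ 10 * g ^ 4
    - 12 * e1 ^ 2 * e2 ^ 10 * g ^ 6 - 8 * e1 ^ 2 * e2 ^ 10 * g ^ 8 - 10 * e1 ^ 3 * e2 ^ 9 * g ^
    10 - 10 * e1 ^ 3 * e2 ^ 9 * g ^ 2 - 40 * e1 ^ 3 * e2 ^ 9 * g ^ 4 - 60 * e1 ^ 3 * e2 ^ 9 * g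
    ^ 6 - 40 * e1 ^ 3 * e2 ^ 9 * g ^ 8 - 24 * e1 ^ 4 * e2 ^ 8 * g ^ 10 - 24 * e1 ^ 4 * e2 ^ 8 *
    g ^ 2 - 96 * e1 ^ 4 * e2 ^ 8 * g ^ 4 - 144 * e1 ^ 4 * e2 ^ 8 * g ^ 6 - 96 * e1 ^ 4 * e2 ^ 8
    * g ^ 8 - 36 * e1 ^ 5 * e2 ^ 7 * g ^ 10 - 36 * e1 ^ 5 * e2 ^ 7 * g ^ 2 - 144 * e1 ^ 5 * e2 ^
    7 * g ^ 4 - 216 * e1 ^ 5 * e2 ^ 7 * g ^ 6 - 144 * e1 ^ 5 * e2 ^ 7 * g ^ 8 - 36 * e1 ^ 6 * e2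
    ^ 6 * g ^ 10 - 36 * e1 ^ 6 * e2 ^ 6 * g ^ 2 - 144 * e1 ^ 6 * e2 ^ 6 * g ^ 4 - 216 * e1 ^ 6 *
    e2 ^ 6 * g ^ 6 - 144 * e1 ^ 6 * e2 ^ 6 * g ^ 8 - 24 * e1 ^ 7 * e2 ^ 5 * g ^ 10 - 24 * e1 ^ 7
    * e2 ^ 5 * g ^ 2 - 96 * e1 ^ 7 * e2 ^ 5 * g ^ 4 - 144 * e1 ^ 7 * e2 ^ 5 * g ^ 6 - 96 * e1 ^
    7 * e2 ^ 5 * g ^ 8 - 10 * e1 ^ 8 * e2 ^ 4 * g ^ 10 - 10 * e1 ^ 8 * e2 ^ 4 * g ^ 2 - 40 * e1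
    ^ 8 * e2 ^ 4 * g ^ 4 - 60 * e1 ^ 8 * e2 ^ 4 * g ^ 6 - 40 * e1 ^ 8 * e2 ^ 4 * g ^ 8 - 2 * e1
    ^ 9 * e2 ^ 3 * g ^ 10 - 2 * e1 ^ 9 * e2 ^ 3 * g ^ 2 - 8 * e1 ^ 9 * e2 ^ 3 * g ^ 4 - 12 * e1
    ^ 9 * e2 ^ 3 * g ^ 6 - 8 * e1 ^ 9 * e2 ^ 3 * g ^ 8) * hth

theorem mi_coef102 {g th e1 e2 : K} (hth : th ^ 2 = 3) :
    miC102 g th (1 + g ^ 2) (e1 * e2) (e2 * (-(e1 + e2))) ((-(e1 + e2)) * e1) (Yp th g (-(e1 + e2))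
      e1 e2) (Yp th g e1 e2 (-(e1 + e2))) (Yp th g e2 (-(e1 + e2)) e1) (Zp th g (-(e1 + e2)) e1
      e2) (Zp th g e1 e2 (-(e1 + e2))) (Zp th g e2 (-(e1 + e2)) e1) =
      (1 + g ^ 2) ^ 5 * miD102 g th ((-(e1 + e2)) * e1 * e2) (-(e1 + e2)) e1 e2 (e1 * e2) (e2 * (-(e1 + e2))) ((-(e1 +
      e2)) * e1) := by
  simp only [miC102, miD102, miH, Yp, Zp]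
  linear_combination (2 * e1 * e2 ^ 9 * g ^ 2 + 6 * e1 * e2 ^ 9 * g ^ 4 + 6 * e1 * e2 ^ 9 * g ^ 6 + 2 * e1 * e2 ^
    9 * g ^ 8 + 6 * e1 ^ 2 * e2 ^ 8 * g ^ 2 + 2 * e1 ^ 2 * e2 ^ 8 * g ^ 3 * th + 18 * e1 ^ 2 *
    e2 ^ 8 * g ^ 4 + 6 * e1 ^ 2 * e2 ^ 8 * g ^ 5 * th + 18 * e1 ^ 2 * e2 ^ 8 * g ^ 6 + 6 * e1 ^
    2 * e2 ^ 8 * g ^ 7 * th + 6 * e1 ^ 2 * e2 ^ 8 * g ^ 8 + 2 * e1 ^ 2 * e2 ^ 8 * g ^ 9 * th - 5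
    * e1 ^ 3 * e2 ^ 7 * g ^ 10 + 10 * e1 ^ 3 * e2 ^ 7 * g ^ 2 + 9 * e1 ^ 3 * e2 ^ 7 * g ^ 3 * th
    + 25 * e1 ^ 3 * e2 ^ 7 * g ^ 4 + 27 * e1 ^ 3 * e2 ^ 7 * g ^ 5 * th + 15 * e1 ^ 3 * e2 ^ 7 *
    g ^ 6 + 27 * e1 ^ 3 * e2 ^ 7 * g ^ 7 * th - 5 * e1 ^ 3 * e2 ^ 7 * g ^ 8 + 9 * e1 ^ 3 * e2 ^
    7 * g ^ 9 * th - 18 * e1 ^ 4 * e2 ^ 6 * g ^ 10 + 12 * e1 ^ 4 * e2 ^ 6 * g ^ 2 + 14 * e1 ^ 4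
    * e2 ^ 6 * g ^ 3 * th + 18 * e1 ^ 4 * e2 ^ 6 * g ^ 4 + 42 * e1 ^ 4 * e2 ^ 6 * g ^ 5 * th -
    18 * e1 ^ 4 * e2 ^ 6 * g ^ 6 + 42 * e1 ^ 4 * e2 ^ 6 * g ^ 7 * th - 42 * e1 ^ 4 * e2 ^ 6 * g
    ^ 8 + 14 * e1 ^ 4 * e2 ^ 6 * g ^ 9 * th - 23 * e1 ^ 5 * e2 ^ 5 * g ^ 10 + 10 * e1 ^ 5 * e2 ^
    5 * g ^ 2 + 9 * e1 ^ 5 * e2 ^ 5 * g ^ 3 * th + 7 * e1 ^ 5 * e2 ^ 5 * g ^ 4 + 27 * e1 ^ 5 *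
    e2 ^ 5 * g ^ 5 * th - 39 * e1 ^ 5 * e2 ^ 5 * g ^ 6 + 27 * e1 ^ 5 * e2 ^ 5 * g ^ 7 * th - 59
    * e1 ^ 5 * e2 ^ 5 * g ^ 8 + 9 * e1 ^ 5 * e2 ^ 5 * g ^ 9 * th - 12 * e1 ^ 6 * e2 ^ 4 * g ^ 10
    + 6 * e1 ^ 6 * e2 ^ 4 * g ^ 2 + 2 * e1 ^ 6 * e2 ^ 4 * g ^ 3 * th + 6 * e1 ^ 6 * e2 ^ 4 * g ^
    4 + 6 * e1 ^ 6 * e2 ^ 4 * g ^ 5 * th - 18 * e1 ^ 6 * e2 ^ 4 * g ^ 6 + 6 * e1 ^ 6 * e2 ^ 4 *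
    g ^ 7 * th - 30 * e1 ^ 6 * e2 ^ 4 * g ^ 8 + 2 * e1 ^ 6 * e2 ^ 4 * g ^ 9 * th - 2 * e1 ^ 7 *
    e2 ^ 3 * g ^ 10 + 2 * e1 ^ 7 * e2 ^ 3 * g ^ 2 + 4 * e1 ^ 7 * e2 ^ 3 * g ^ 4 - 4 * e1 ^ 7 *
    e2 ^ 3 * g ^ 8) * hth

theorem mi_coef110 {g th e1 e2 : K} (hth : th ^ 2 = 3) :
    miC110 g th (1 + g ^ 2) (e1 * e2) (e2 * (-(e1 + e2))) ((-(e1 + e2)) * e1) (Yp th g (-(e1 + e2))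
      e1 e2) (Yp th g e1 e2 (-(e1 + e2))) (Yp th g e2 (-(e1 + e2)) e1) (Zp th g (-(e1 + e2)) e1
      e2) (Zp th g e1 e2 (-(e1 + e2))) (Zp th g e2 (-(e1 + e2)) e1) =
      (1 + g ^ 2) ^ 5 * miD110 g th ((-(e1 + e2)) * e1 * e2) (-(e1 + e2)) e1 e2 (e1 * e2) (e2 * (-(e1 + e2))) ((-(e1 +
      e2)) * e1) := by
  simp only [miC110, miD110, miH, Yp, Zp]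
  linear_combination (-2 * e1 ^ 10 * e2 ^ 2 * g ^ 10 - 2 * e1 ^ 10 * e2 ^ 2 * g ^ 2 - 8 * e1 ^ 10 * e2 ^ 2 * g ^ 4
    - 12 * e1 ^ 10 * e2 ^ 2 * g ^ 6 - 8 * e1 ^ 10 * e2 ^ 2 * g ^ 8 - 2 * e1 ^ 3 * e2 ^ 9 * g ^
    10 - 2 * e1 ^ 3 * e2 ^ 9 * g ^ 2 - 8 * e1 ^ 3 * e2 ^ 9 * g ^ 4 - 12 * e1 ^ 3 * e2 ^ 9 * g ^
    6 - 8 * e1 ^ 3 * e2 ^ 9 * g ^ 8 - 10 * e1 ^ 4 * e2 ^ 8 * g ^ 10 - 10 * e1 ^ 4 * e2 ^ 8 * g ^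
    2 - 40 * e1 ^ 4 * e2 ^ 8 * g ^ 4 - 60 * e1 ^ 4 * e2 ^ 8 * g ^ 6 - 40 * e1 ^ 4 * e2 ^ 8 * g ^
    8 - 24 * e1 ^ 5 * e2 ^ 7 * g ^ 10 - 24 * e1 ^ 5 * e2 ^ 7 * g ^ 2 - 96 * e1 ^ 5 * e2 ^ 7 * g
    ^ 4 - 144 * e1 ^ 5 * e2 ^ 7 * g ^ 6 - 96 * e1 ^ 5 * e2 ^ 7 * g ^ 8 - 36 * e1 ^ 6 * e2 ^ 6 *
    g ^ 10 - 36 * e1 ^ 6 * e2 ^ 6 * g ^ 2 - 144 * e1 ^ 6 * e2 ^ 6 * g ^ 4 - 216 * e1 ^ 6 * e2 ^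
    6 * g ^ 6 - 144 * e1 ^ 6 * e2 ^ 6 * g ^ 8 - 36 * e1 ^ 7 * e2 ^ 5 * g ^ 10 - 36 * e1 ^ 7 * e2
    ^ 5 * g ^ 2 - 144 * e1 ^ 7 * e2 ^ 5 * g ^ 4 - 216 * e1 ^ 7 * e2 ^ 5 * g ^ 6 - 144 * e1 ^ 7 *
    e2 ^ 5 * g ^ 8 - 24 * e1 ^ 8 * e2 ^ 4 * g ^ 10 - 24 * e1 ^ 8 * e2 ^ 4 * g ^ 2 - 96 * e1 ^ 8
    * e2 ^ 4 * g ^ 4 - 144 * e1 ^ 8 * e2 ^ 4 * g ^ 6 - 96 * e1 ^ 8 * e2 ^ 4 * g ^ 8 - 10 * e1 ^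
    9 * e2 ^ 3 * g ^ 10 - 10 * e1 ^ 9 * e2 ^ 3 * g ^ 2 - 40 * e1 ^ 9 * e2 ^ 3 * g ^ 4 - 60 * e1
    ^ 9 * e2 ^ 3 * g ^ 6 - 40 * e1 ^ 9 * e2 ^ 3 * g ^ 8) * hth

theorem mi_coef111 {g th e1 e2 : K} (hth : th ^ 2 = 3) :
    miC111 g th (1 + g ^ 2) (e1 * e2) (e2 * (-(e1 + e2))) ((-(e1 + e2)) * e1) (Yp th g (-(e1 + e2))
      e1 e2) (Yp th g e1 e2 (-(e1 + e2))) (Yp th g e2 (-(e1 + e2)) e1) (Zp th g (-(e1 + e2)) e1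
      e2) (Zp th g e1 e2 (-(e1 + e2))) (Zp th g e2 (-(e1 + e2)) e1) =
      (1 + g ^ 2) ^ 5 * miD111 g th ((-(e1 + e2)) * e1 * e2) (-(e1 + e2)) e1 e2 (e1 * e2) (e2 * (-(e1 + e2))) ((-(e1 +
      e2)) * e1) := by
  simp only [miC111, miD111, miH, Yp, Zp]
  linear_combination (8 * e1 ^ 2 * e2 ^ 8 * g ^ 2 + 24 * e1 ^ 2 * e2 ^ 8 * g ^ 4 + 24 * e1 ^ 2 * e2 ^ 8 * g ^ 6 +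
    8 * e1 ^ 2 * e2 ^ 8 * g ^ 8 + 32 * e1 ^ 3 * e2 ^ 7 * g ^ 2 + 96 * e1 ^ 3 * e2 ^ 7 * g ^ 4 +
    96 * e1 ^ 3 * e2 ^ 7 * g ^ 6 + 32 * e1 ^ 3 * e2 ^ 7 * g ^ 8 + 64 * e1 ^ 4 * e2 ^ 6 * g ^ 2 +
    192 * e1 ^ 4 * e2 ^ 6 * g ^ 4 + 192 * e1 ^ 4 * e2 ^ 6 * g ^ 6 + 64 * e1 ^ 4 * e2 ^ 6 * g ^ 8
    + 80 * e1 ^ 5 * e2 ^ 5 * g ^ 2 + 240 * e1 ^ 5 * e2 ^ 5 * g ^ 4 + 240 * e1 ^ 5 * e2 ^ 5 * g ^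
    6 + 80 * e1 ^ 5 * e2 ^ 5 * g ^ 8 + 64 * e1 ^ 6 * e2 ^ 4 * g ^ 2 + 192 * e1 ^ 6 * e2 ^ 4 * g
    ^ 4 + 192 * e1 ^ 6 * e2 ^ 4 * g ^ 6 + 64 * e1 ^ 6 * e2 ^ 4 * g ^ 8 + 32 * e1 ^ 7 * e2 ^ 3 *
    g ^ 2 + 96 * e1 ^ 7 * e2 ^ 3 * g ^ 4 + 96 * e1 ^ 7 * e2 ^ 3 * g ^ 6 + 32 * e1 ^ 7 * e2 ^ 3 *
    g ^ 8 + 8 * e1 ^ 8 * e2 ^ 2 * g ^ 2 + 24 * e1 ^ 8 * e2 ^ 2 * g ^ 4 + 24 * e1 ^ 8 * e2 ^ 2 *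
    g ^ 6 + 8 * e1 ^ 8 * e2 ^ 2 * g ^ 8) * hth

theorem mi_coef112 {g th e1 e2 : K} (hth : th ^ 2 = 3) :
    miC112 g th (1 + g ^ 2) (e1 * e2) (e2 * (-(e1 + e2))) ((-(e1 + e2)) * e1) (Yp th g (-(e1 + e2))
      e1 e2) (Yp th g e1 e2 (-(e1 + e2))) (Yp th g e2 (-(e1 + e2)) e1) (Zp th g (-(e1 + e2)) e1
      e2) (Zp th g e1 e2 (-(e1 + e2))) (Zp th g e2 (-(e1 + e2)) e1) =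
      (1 + g ^ 2) ^ 5 * miD112 g th ((-(e1 + e2)) * e1 * e2) (-(e1 + e2)) e1 e2 (e1 * e2) (e2 * (-(e1 + e2))) ((-(e1 +
      e2)) * e1) := by
  simp only [miC112, miD112, miH, Yp, Zp]
  linear_combination (-8 * e1 * e2 ^ 7 * g ^ 2 + 2 * e1 * e2 ^ 7 * g ^ 3 * th - 18 * e1 * e2 ^ 7 * g ^ 4 + 4 * e1
    * e2 ^ 7 * g ^ 5 * th - 12 * e1 * e2 ^ 7 * g ^ 6 + 2 * e1 * e2 ^ 7 * g ^ 7 * th - 2 * e1 *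
    e2 ^ 7 * g ^ 8 - 16 * e1 ^ 2 * e2 ^ 6 * g ^ 2 + 2 * e1 ^ 2 * e2 ^ 6 * g ^ 3 * th - 42 * e1 ^
    2 * e2 ^ 6 * g ^ 4 + 4 * e1 ^ 2 * e2 ^ 6 * g ^ 5 * th - 36 * e1 ^ 2 * e2 ^ 6 * g ^ 6 + 2 *
    e1 ^ 2 * e2 ^ 6 * g ^ 7 * th - 10 * e1 ^ 2 * e2 ^ 6 * g ^ 8 - 22 * e1 ^ 3 * e2 ^ 5 * g ^ 2 -
    12 * e1 ^ 3 * e2 ^ 5 * g ^ 3 * th - 54 * e1 ^ 3 * e2 ^ 5 * g ^ 4 - 24 * e1 ^ 3 * e2 ^ 5 * g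
    ^ 5 * th - 42 * e1 ^ 3 * e2 ^ 5 * g ^ 6 - 12 * e1 ^ 3 * e2 ^ 5 * g ^ 7 * th - 10 * e1 ^ 3 *
    e2 ^ 5 * g ^ 8 - 26 * e1 ^ 4 * e2 ^ 4 * g ^ 2 - 20 * e1 ^ 4 * e2 ^ 4 * g ^ 3 * th - 42 * e1
    ^ 4 * e2 ^ 4 * g ^ 4 - 40 * e1 ^ 4 * e2 ^ 4 * g ^ 5 * th - 6 * e1 ^ 4 * e2 ^ 4 * g ^ 6 - 20
    * e1 ^ 4 * e2 ^ 4 * g ^ 7 * th + 10 * e1 ^ 4 * e2 ^ 4 * g ^ 8 - 18 * e1 ^ 5 * e2 ^ 3 * g ^ 2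
    - 8 * e1 ^ 5 * e2 ^ 3 * g ^ 3 * th - 18 * e1 ^ 5 * e2 ^ 3 * g ^ 4 - 16 * e1 ^ 5 * e2 ^ 3 * g
    ^ 5 * th + 18 * e1 ^ 5 * e2 ^ 3 * g ^ 6 - 8 * e1 ^ 5 * e2 ^ 3 * g ^ 7 * th + 18 * e1 ^ 5 *
    e2 ^ 3 * g ^ 8 - 6 * e1 ^ 6 * e2 ^ 2 * g ^ 2 - 6 * e1 ^ 6 * e2 ^ 2 * g ^ 4 + 6 * e1 ^ 6 * e2
    ^ 2 * g ^ 6 + 6 * e1 ^ 6 * e2 ^ 2 * g ^ 8) * hth

theorem mi_coef120 {g th e1 e2 : K} (hth : th ^ 2 = 3) :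
    miC120 g th (1 + g ^ 2) (e1 * e2) (e2 * (-(e1 + e2))) ((-(e1 + e2)) * e1) (Yp th g (-(e1 + e2))
      e1 e2) (Yp th g e1 e2 (-(e1 + e2))) (Yp th g e2 (-(e1 + e2)) e1) (Zp th g (-(e1 + e2)) e1
      e2) (Zp th g e1 e2 (-(e1 + e2))) (Zp th g e2 (-(e1 + e2)) e1) =
      (1 + g ^ 2) ^ 5 * miD120 g th ((-(e1 + e2)) * e1 * e2) (-(e1 + e2)) e1 e2 (e1 * e2) (e2 * (-(e1 + e2))) ((-(e1 +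
      e2)) * e1) := by
  simp only [miC120, miD120, miH, Yp, Zp]
  linear_combination (-2 * e1 ^ 3 * e2 ^ 7 * g ^ 10 + 2 * e1 ^ 3 * e2 ^ 7 * g ^ 2 + 4 * e1 ^ 3 * e2 ^ 7 * g ^ 4 -
    4 * e1 ^ 3 * e2 ^ 7 * g ^ 8 - 12 * e1 ^ 4 * e2 ^ 6 * g ^ 10 + 6 * e1 ^ 4 * e2 ^ 6 * g ^ 2 -
    2 * e1 ^ 4 * e2 ^ 6 * g ^ 3 * th + 6 * e1 ^ 4 * e2 ^ 6 * g ^ 4 - 6 * e1 ^ 4 * e2 ^ 6 * g ^ 5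
    * th - 18 * e1 ^ 4 * e2 ^ 6 * g ^ 6 - 6 * e1 ^ 4 * e2 ^ 6 * g ^ 7 * th - 30 * e1 ^ 4 * e2 ^
    6 * g ^ 8 - 2 * e1 ^ 4 * e2 ^ 6 * g ^ 9 * th - 23 * e1 ^ 5 * e2 ^ 5 * g ^ 10 + 10 * e1 ^ 5 *
    e2 ^ 5 * g ^ 2 - 9 * e1 ^ 5 * e2 ^ 5 * g ^ 3 * th + 7 * e1 ^ 5 * e2 ^ 5 * g ^ 4 - 27 * e1 ^
    5 * e2 ^ 5 * g ^ 5 * th - 39 * e1 ^ 5 * e2 ^ 5 * g ^ 6 - 27 * e1 ^ 5 * e2 ^ 5 * g ^ 7 * th -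
    59 * e1 ^ 5 * e2 ^ 5 * g ^ 8 - 9 * e1 ^ 5 * e2 ^ 5 * g ^ 9 * th - 18 * e1 ^ 6 * e2 ^ 4 * g ^
    10 + 12 * e1 ^ 6 * e2 ^ 4 * g ^ 2 - 14 * e1 ^ 6 * e2 ^ 4 * g ^ 3 * th + 18 * e1 ^ 6 * e2 ^ 4
    * g ^ 4 - 42 * e1 ^ 6 * e2 ^ 4 * g ^ 5 * th - 18 * e1 ^ 6 * e2 ^ 4 * g ^ 6 - 42 * e1 ^ 6 *
    e2 ^ 4 * g ^ 7 * th - 42 * e1 ^ 6 * e2 ^ 4 * g ^ 8 - 14 * e1 ^ 6 * e2 ^ 4 * g ^ 9 * th - 5 *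
    e1 ^ 7 * e2 ^ 3 * g ^ 10 + 10 * e1 ^ 7 * e2 ^ 3 * g ^ 2 - 9 * e1 ^ 7 * e2 ^ 3 * g ^ 3 * th +
    25 * e1 ^ 7 * e2 ^ 3 * g ^ 4 - 27 * e1 ^ 7 * e2 ^ 3 * g ^ 5 * th + 15 * e1 ^ 7 * e2 ^ 3 * g
    ^ 6 - 27 * e1 ^ 7 * e2 ^ 3 * g ^ 7 * th - 5 * e1 ^ 7 * e2 ^ 3 * g ^ 8 - 9 * e1 ^ 7 * e2 ^ 3
    * g ^ 9 * th + 6 * e1 ^ 8 * e2 ^ 2 * g ^ 2 - 2 * e1 ^ 8 * e2 ^ 2 * g ^ 3 * th + 18 * e1 ^ 8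
    * e2 ^ 2 * g ^ 4 - 6 * e1 ^ 8 * e2 ^ 2 * g ^ 5 * th + 18 * e1 ^ 8 * e2 ^ 2 * g ^ 6 - 6 * e1
    ^ 8 * e2 ^ 2 * g ^ 7 * th + 6 * e1 ^ 8 * e2 ^ 2 * g ^ 8 - 2 * e1 ^ 8 * e2 ^ 2 * g ^ 9 * th +
    2 * e1 ^ 9 * e2 * g ^ 2 + 6 * e1 ^ 9 * e2 * g ^ 4 + 6 * e1 ^ 9 * e2 * g ^ 6 + 2 * e1 ^ 9 *
    e2 * g ^ 8) * hth

theorem mi_coef121 {g th e1 e2 : K} (hth : th ^ 2 = 3) :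
    miC121 g th (1 + g ^ 2) (e1 * e2) (e2 * (-(e1 + e2))) ((-(e1 + e2)) * e1) (Yp th g (-(e1 + e2))
      e1 e2) (Yp th g e1 e2 (-(e1 + e2))) (Yp th g e2 (-(e1 + e2)) e1) (Zp th g (-(e1 + e2)) e1
      e2) (Zp th g e1 e2 (-(e1 + e2))) (Zp th g e2 (-(e1 + e2)) e1) =
      (1 + g ^ 2) ^ 5 * miD121 g th ((-(e1 + e2)) * e1 * e2) (-(e1 + e2)) e1 e2 (e1 * e2) (e2 * (-(e1 + e2))) ((-(e1 +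
      e2)) * e1) := by
  simp only [miC121, miD121, miH, Yp, Zp]
  linear_combination (-6 * e1 ^ 2 * e2 ^ 6 * g ^ 2 - 6 * e1 ^ 2 * e2 ^ 6 * g ^ 4 + 6 * e1 ^ 2 * e2 ^ 6 * g ^ 6 + 6
    * e1 ^ 2 * e2 ^ 6 * g ^ 8 - 18 * e1 ^ 3 * e2 ^ 5 * g ^ 2 + 8 * e1 ^ 3 * e2 ^ 5 * g ^ 3 * th
    - 18 * e1 ^ 3 * e2 ^ 5 * g ^ 4 + 16 * e1 ^ 3 * e2 ^ 5 * g ^ 5 * th + 18 * e1 ^ 3 * e2 ^ 5 *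
    g ^ 6 + 8 * e1 ^ 3 * e2 ^ 5 * g ^ 7 * th + 18 * e1 ^ 3 * e2 ^ 5 * g ^ 8 - 26 * e1 ^ 4 * e2 ^
    4 * g ^ 2 + 20 * e1 ^ 4 * e2 ^ 4 * g ^ 3 * th - 42 * e1 ^ 4 * e2 ^ 4 * g ^ 4 + 40 * e1 ^ 4 *
    e2 ^ 4 * g ^ 5 * th - 6 * e1 ^ 4 * e2 ^ 4 * g ^ 6 + 20 * e1 ^ 4 * e2 ^ 4 * g ^ 7 * th + 10 *
    e1 ^ 4 * e2 ^ 4 * g ^ 8 - 22 * e1 ^ 5 * e2 ^ 3 * g ^ 2 + 12 * e1 ^ 5 * e2 ^ 3 * g ^ 3 * th -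
    54 * e1 ^ 5 * e2 ^ 3 * g ^ 4 + 24 * e1 ^ 5 * e2 ^ 3 * g ^ 5 * th - 42 * e1 ^ 5 * e2 ^ 3 * g
    ^ 6 + 12 * e1 ^ 5 * e2 ^ 3 * g ^ 7 * th - 10 * e1 ^ 5 * e2 ^ 3 * g ^ 8 - 16 * e1 ^ 6 * e2 ^
    2 * g ^ 2 - 2 * e1 ^ 6 * e2 ^ 2 * g ^ 3 * th - 42 * e1 ^ 6 * e2 ^ 2 * g ^ 4 - 4 * e1 ^ 6 *
    e2 ^ 2 * g ^ 5 * th - 36 * e1 ^ 6 * e2 ^ 2 * g ^ 6 - 2 * e1 ^ 6 * e2 ^ 2 * g ^ 7 * th - 10 *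
    e1 ^ 6 * e2 ^ 2 * g ^ 8 - 8 * e1 ^ 7 * e2 * g ^ 2 - 2 * e1 ^ 7 * e2 * g ^ 3 * th - 18 * e1 ^
    7 * e2 * g ^ 4 - 4 * e1 ^ 7 * e2 * g ^ 5 * th - 12 * e1 ^ 7 * e2 * g ^ 6 - 2 * e1 ^ 7 * e2 *
    g ^ 7 * th - 2 * e1 ^ 7 * e2 * g ^ 8) * hth

theorem mi_coef122 {g th e1 e2 : K} (hth : th ^ 2 = 3) :
    miC122 g th (1 + g ^ 2) (e1 * e2) (e2 * (-(e1 + e2))) ((-(e1 + e2)) * e1) (Yp th g (-(e1 + e2))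
      e1 e2) (Yp th g e1 e2 (-(e1 + e2))) (Yp th g e2 (-(e1 + e2)) e1) (Zp th g (-(e1 + e2)) e1
      e2) (Zp th g e1 e2 (-(e1 + e2))) (Zp th g e2 (-(e1 + e2)) e1) =
      (1 + g ^ 2) ^ 5 * miD122 g th ((-(e1 + e2)) * e1 * e2) (-(e1 + e2)) e1 e2 (e1 * e2) (e2 * (-(e1 + e2))) ((-(e1 +
      e2)) * e1) := by
  simp only [miC122, miD122, miH, Yp, Zp]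
  linear_combination (6 * e1 * e2 ^ 5 * g ^ 2 - 2 * e1 * e2 ^ 5 * g ^ 3 * th + 6 * e1 * e2 ^ 5 * g ^ 4 - 2 * e1 *
    e2 ^ 5 * g ^ 5 * th + 6 * e1 ^ 2 * e2 ^ 4 * g ^ 2 - 8 * e1 ^ 2 * e2 ^ 4 * g ^ 3 * th + 12 *
    e1 ^ 2 * e2 ^ 4 * g ^ 4 - 8 * e1 ^ 2 * e2 ^ 4 * g ^ 5 * th + 6 * e1 ^ 2 * e2 ^ 4 * g ^ 6 + 3
    * e1 ^ 3 * e2 ^ 3 * g ^ 2 + 18 * e1 ^ 3 * e2 ^ 3 * g ^ 4 + 15 * e1 ^ 3 * e2 ^ 3 * g ^ 6 + 6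
    * e1 ^ 4 * e2 ^ 2 * g ^ 2 + 8 * e1 ^ 4 * e2 ^ 2 * g ^ 3 * th + 12 * e1 ^ 4 * e2 ^ 2 * g ^ 4
    + 8 * e1 ^ 4 * e2 ^ 2 * g ^ 5 * th + 6 * e1 ^ 4 * e2 ^ 2 * g ^ 6 + 6 * e1 ^ 5 * e2 * g ^ 2 +
    2 * e1 ^ 5 * e2 * g ^ 3 * th + 6 * e1 ^ 5 * e2 * g ^ 4 + 2 * e1 ^ 5 * e2 * g ^ 5 * th) * hth

theorem mi_coef200 {g th e1 e2 : K} (hth : th ^ 2 = 3) :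
    miC200 g th (1 + g ^ 2) (e1 * e2) (e2 * (-(e1 + e2))) ((-(e1 + e2)) * e1) (Yp th g (-(e1 + e2))
      e1 e2) (Yp th g e1 e2 (-(e1 + e2))) (Yp th g e2 (-(e1 + e2)) e1) (Zp th g (-(e1 + e2)) e1
      e2) (Zp th g e1 e2 (-(e1 + e2))) (Zp th g e2 (-(e1 + e2)) e1) =
      (1 + g ^ 2) ^ 5 * miD200 g th ((-(e1 + e2)) * e1 * e2) (-(e1 + e2)) e1 e2 (e1 * e2) (e2 * (-(e1 + e2))) ((-(e1 +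
      e2)) * e1) := by
  simp only [miC200, miD200, miH, Yp, Zp]
  linear_combination (e1 ^ 10 * e2 ^ 2 * g ^ 10 + e1 ^ 10 * e2 ^ 2 * g ^ 2 + 4 * e1 ^ 10 * e2 ^ 2 * g ^ 4 + 6 * e1
    ^ 10 * e2 ^ 2 * g ^ 6 + 4 * e1 ^ 10 * e2 ^ 2 * g ^ 8 + e1 ^ 2 * e2 ^ 10 * g ^ 10 + e1 ^ 2 *
    e2 ^ 10 * g ^ 2 + 4 * e1 ^ 2 * e2 ^ 10 * g ^ 4 + 6 * e1 ^ 2 * e2 ^ 10 * g ^ 6 + 4 * e1 ^ 2 *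
    e2 ^ 10 * g ^ 8 + 6 * e1 ^ 3 * e2 ^ 9 * g ^ 10 + 6 * e1 ^ 3 * e2 ^ 9 * g ^ 2 + 24 * e1 ^ 3 *
    e2 ^ 9 * g ^ 4 + 36 * e1 ^ 3 * e2 ^ 9 * g ^ 6 + 24 * e1 ^ 3 * e2 ^ 9 * g ^ 8 + 17 * e1 ^ 4 *
    e2 ^ 8 * g ^ 10 + 17 * e1 ^ 4 * e2 ^ 8 * g ^ 2 + 68 * e1 ^ 4 * e2 ^ 8 * g ^ 4 + 102 * e1 ^ 4
    * e2 ^ 8 * g ^ 6 + 68 * e1 ^ 4 * e2 ^ 8 * g ^ 8 + 30 * e1 ^ 5 * e2 ^ 7 * g ^ 10 + 30 * e1 ^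
    5 * e2 ^ 7 * g ^ 2 + 120 * e1 ^ 5 * e2 ^ 7 * g ^ 4 + 180 * e1 ^ 5 * e2 ^ 7 * g ^ 6 + 120 *
    e1 ^ 5 * e2 ^ 7 * g ^ 8 + 36 * e1 ^ 6 * e2 ^ 6 * g ^ 10 + 36 * e1 ^ 6 * e2 ^ 6 * g ^ 2 + 144
    * e1 ^ 6 * e2 ^ 6 * g ^ 4 + 216 * e1 ^ 6 * e2 ^ 6 * g ^ 6 + 144 * e1 ^ 6 * e2 ^ 6 * g ^ 8 +
    30 * e1 ^ 7 * e2 ^ 5 * g ^ 10 + 30 * e1 ^ 7 * e2 ^ 5 * g ^ 2 + 120 * e1 ^ 7 * e2 ^ 5 * g ^ 4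
    + 180 * e1 ^ 7 * e2 ^ 5 * g ^ 6 + 120 * e1 ^ 7 * e2 ^ 5 * g ^ 8 + 17 * e1 ^ 8 * e2 ^ 4 * g ^
    10 + 17 * e1 ^ 8 * e2 ^ 4 * g ^ 2 + 68 * e1 ^ 8 * e2 ^ 4 * g ^ 4 + 102 * e1 ^ 8 * e2 ^ 4 * g
    ^ 6 + 68 * e1 ^ 8 * e2 ^ 4 * g ^ 8 + 6 * e1 ^ 9 * e2 ^ 3 * g ^ 10 + 6 * e1 ^ 9 * e2 ^ 3 * g
    ^ 2 + 24 * e1 ^ 9 * e2 ^ 3 * g ^ 4 + 36 * e1 ^ 9 * e2 ^ 3 * g ^ 6 + 24 * e1 ^ 9 * e2 ^ 3 * g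
    ^ 8) * hth

theorem mi_coef201 {g th e1 e2 : K} (hth : th ^ 2 = 3) :
    miC201 g th (1 + g ^ 2) (e1 * e2) (e2 * (-(e1 + e2))) ((-(e1 + e2)) * e1) (Yp th g (-(e1 + e2))
      e1 e2) (Yp th g e1 e2 (-(e1 + e2))) (Yp th g e2 (-(e1 + e2)) e1) (Zp th g (-(e1 + e2)) e1
      e2) (Zp th g e1 e2 (-(e1 + e2))) (Zp th g e2 (-(e1 + e2)) e1) =
      (1 + g ^ 2) ^ 5 * miD201 g th ((-(e1 + e2)) * e1 * e2) (-(e1 + e2)) e1 e2 (e1 * e2) (e2 * (-(e1 + e2))) ((-(e1 +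
      e2)) * e1) := by
  simp only [miC201, miD201, miH, Yp, Zp]
  linear_combination (-2 * e1 * e2 ^ 9 * g ^ 2 - 6 * e1 * e2 ^ 9 * g ^ 4 - 6 * e1 * e2 ^ 9 * g ^ 6 - 2 * e1 * e2 ^
    9 * g ^ 8 - 12 * e1 ^ 2 * e2 ^ 8 * g ^ 2 - 2 * e1 ^ 2 * e2 ^ 8 * g ^ 3 * th - 36 * e1 ^ 2 *
    e2 ^ 8 * g ^ 4 - 6 * e1 ^ 2 * e2 ^ 8 * g ^ 5 * th - 36 * e1 ^ 2 * e2 ^ 8 * g ^ 6 - 6 * e1 ^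
    2 * e2 ^ 8 * g ^ 7 * th - 12 * e1 ^ 2 * e2 ^ 8 * g ^ 8 - 2 * e1 ^ 2 * e2 ^ 8 * g ^ 9 * th +
    5 * e1 ^ 3 * e2 ^ 7 * g ^ 10 - 34 * e1 ^ 3 * e2 ^ 7 * g ^ 2 - 7 * e1 ^ 3 * e2 ^ 7 * g ^ 3 *
    th - 97 * e1 ^ 3 * e2 ^ 7 * g ^ 4 - 21 * e1 ^ 3 * e2 ^ 7 * g ^ 5 * th - 87 * e1 ^ 3 * e2 ^ 7
    * g ^ 6 - 21 * e1 ^ 3 * e2 ^ 7 * g ^ 7 * th - 19 * e1 ^ 3 * e2 ^ 7 * g ^ 8 - 7 * e1 ^ 3 * e2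
    ^ 7 * g ^ 9 * th + 17 * e1 ^ 4 * e2 ^ 6 * g ^ 10 - 58 * e1 ^ 4 * e2 ^ 6 * g ^ 2 - 7 * e1 ^ 4
    * e2 ^ 6 * g ^ 3 * th - 157 * e1 ^ 4 * e2 ^ 6 * g ^ 4 - 21 * e1 ^ 4 * e2 ^ 6 * g ^ 5 * th -
    123 * e1 ^ 4 * e2 ^ 6 * g ^ 6 - 21 * e1 ^ 4 * e2 ^ 6 * g ^ 7 * th - 7 * e1 ^ 4 * e2 ^ 6 * g
    ^ 8 - 7 * e1 ^ 4 * e2 ^ 6 * g ^ 9 * th + 20 * e1 ^ 5 * e2 ^ 5 * g ^ 10 - 64 * e1 ^ 5 * e2 ^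
    5 * g ^ 2 + 2 * e1 ^ 5 * e2 ^ 5 * g ^ 3 * th - 172 * e1 ^ 5 * e2 ^ 5 * g ^ 4 + 6 * e1 ^ 5 *
    e2 ^ 5 * g ^ 5 * th - 132 * e1 ^ 5 * e2 ^ 5 * g ^ 6 + 6 * e1 ^ 5 * e2 ^ 5 * g ^ 7 * th - 4 *
    e1 ^ 5 * e2 ^ 5 * g ^ 8 + 2 * e1 ^ 5 * e2 ^ 5 * g ^ 9 * th + 8 * e1 ^ 6 * e2 ^ 4 * g ^ 10 -
    46 * e1 ^ 6 * e2 ^ 4 * g ^ 2 + 8 * e1 ^ 6 * e2 ^ 4 * g ^ 3 * th - 130 * e1 ^ 6 * e2 ^ 4 * g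
    ^ 4 + 24 * e1 ^ 6 * e2 ^ 4 * g ^ 5 * th - 114 * e1 ^ 6 * e2 ^ 4 * g ^ 6 + 24 * e1 ^ 6 * e2 ^
    4 * g ^ 7 * th - 22 * e1 ^ 6 * e2 ^ 4 * g ^ 8 + 8 * e1 ^ 6 * e2 ^ 4 * g ^ 9 * th - e1 ^ 7 *
    e2 ^ 3 * g ^ 10 - 20 * e1 ^ 7 * e2 ^ 3 * g ^ 2 + 5 * e1 ^ 7 * e2 ^ 3 * g ^ 3 * th - 61 * e1
    ^ 7 * e2 ^ 3 * g ^ 4 + 15 * e1 ^ 7 * e2 ^ 3 * g ^ 5 * th - 63 * e1 ^ 7 * e2 ^ 3 * g ^ 6 + 15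
    * e1 ^ 7 * e2 ^ 3 * g ^ 7 * th - 23 * e1 ^ 7 * e2 ^ 3 * g ^ 8 + 5 * e1 ^ 7 * e2 ^ 3 * g ^ 9
    * th - e1 ^ 8 * e2 ^ 2 * g ^ 10 - 4 * e1 ^ 8 * e2 ^ 2 * g ^ 2 + e1 ^ 8 * e2 ^ 2 * g ^ 3 * th
    - 13 * e1 ^ 8 * e2 ^ 2 * g ^ 4 + 3 * e1 ^ 8 * e2 ^ 2 * g ^ 5 * th - 15 * e1 ^ 8 * e2 ^ 2 * g
    ^ 6 + 3 * e1 ^ 8 * e2 ^ 2 * g ^ 7 * th - 7 * e1 ^ 8 * e2 ^ 2 * g ^ 8 + e1 ^ 8 * e2 ^ 2 * g ^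
    9 * th) * hth

theorem mi_coef202 {g th e1 e2 : K} (hth : th ^ 2 = 3) :
    miC202 g th (1 + g ^ 2) (e1 * e2) (e2 * (-(e1 + e2))) ((-(e1 + e2)) * e1) (Yp th g (-(e1 + e2))
      e1 e2) (Yp th g e1 e2 (-(e1 + e2))) (Yp th g e2 (-(e1 + e2)) e1) (Zp th g (-(e1 + e2)) e1
      e2) (Zp th g e1 e2 (-(e1 + e2))) (Zp th g e2 (-(e1 + e2)) e1) =
      (1 + g ^ 2) ^ 5 * miD202 g th ((-(e1 + e2)) * e1 * e2) (-(e1 + e2)) e1 e2 (e1 * e2) (e2 * (-(e1 + e2))) ((-(e1 +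
      e2)) * e1) := by
  simp only [miC202, miD202, miH, Yp, Zp]
  linear_combination (4 * e1 * e2 ^ 7 * g ^ 3 * th + 8 * e1 * e2 ^ 7 * g ^ 5 * th + 4 * e1 * e2 ^ 7 * g ^ 7 * th +
    6 * e1 ^ 2 * e2 ^ 6 * g ^ 2 + 14 * e1 ^ 2 * e2 ^ 6 * g ^ 3 * th + 6 * e1 ^ 2 * e2 ^ 6 * g ^
    4 + 28 * e1 ^ 2 * e2 ^ 6 * g ^ 5 * th - 6 * e1 ^ 2 * e2 ^ 6 * g ^ 6 + 14 * e1 ^ 2 * e2 ^ 6 *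
    g ^ 7 * th - 6 * e1 ^ 2 * e2 ^ 6 * g ^ 8 + 18 * e1 ^ 3 * e2 ^ 5 * g ^ 2 + 16 * e1 ^ 3 * e2 ^
    5 * g ^ 3 * th + 18 * e1 ^ 3 * e2 ^ 5 * g ^ 4 + 32 * e1 ^ 3 * e2 ^ 5 * g ^ 5 * th - 18 * e1
    ^ 3 * e2 ^ 5 * g ^ 6 + 16 * e1 ^ 3 * e2 ^ 5 * g ^ 7 * th - 18 * e1 ^ 3 * e2 ^ 5 * g ^ 8 + 21
    * e1 ^ 4 * e2 ^ 4 * g ^ 2 + 5 * e1 ^ 4 * e2 ^ 4 * g ^ 3 * th + 24 * e1 ^ 4 * e2 ^ 4 * g ^ 4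
    + 10 * e1 ^ 4 * e2 ^ 4 * g ^ 5 * th - 15 * e1 ^ 4 * e2 ^ 4 * g ^ 6 + 5 * e1 ^ 4 * e2 ^ 4 * g
    ^ 7 * th - 18 * e1 ^ 4 * e2 ^ 4 * g ^ 8 + 12 * e1 ^ 5 * e2 ^ 3 * g ^ 2 - 2 * e1 ^ 5 * e2 ^ 3
    * g ^ 3 * th + 18 * e1 ^ 5 * e2 ^ 3 * g ^ 4 - 4 * e1 ^ 5 * e2 ^ 3 * g ^ 5 * th - 2 * e1 ^ 5
    * e2 ^ 3 * g ^ 7 * th - 6 * e1 ^ 5 * e2 ^ 3 * g ^ 8 + 3 * e1 ^ 6 * e2 ^ 2 * g ^ 2 - e1 ^ 6 *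
    e2 ^ 2 * g ^ 3 * th + 6 * e1 ^ 6 * e2 ^ 2 * g ^ 4 - 2 * e1 ^ 6 * e2 ^ 2 * g ^ 5 * th + 3 *
    e1 ^ 6 * e2 ^ 2 * g ^ 6 - e1 ^ 6 * e2 ^ 2 * g ^ 7 * th) * hth

theorem mi_coef210 {g th e1 e2 : K} (hth : th ^ 2 = 3) :
    miC210 g th (1 + g ^ 2) (e1 * e2) (e2 * (-(e1 + e2))) ((-(e1 + e2)) * e1) (Yp th g (-(e1 + e2))
      e1 e2) (Yp th g e1 e2 (-(e1 + e2))) (Yp th g e2 (-(e1 + e2)) e1) (Zp th g (-(e1 + e2)) e1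
      e2) (Zp th g e1 e2 (-(e1 + e2))) (Zp th g e2 (-(e1 + e2)) e1) =
      (1 + g ^ 2) ^ 5 * miD210 g th ((-(e1 + e2)) * e1 * e2) (-(e1 + e2)) e1 e2 (e1 * e2) (e2 * (-(e1 + e2))) ((-(e1 +
      e2)) * e1) := by
  simp only [miC210, miD210, miH, Yp, Zp]
  linear_combination (-e1 ^ 2 * e2 ^ 8 * g ^ 10 - 4 * e1 ^ 2 * e2 ^ 8 * g ^ 2 - e1 ^ 2 * e2 ^ 8 * g ^ 3 * th - 13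
    * e1 ^ 2 * e2 ^ 8 * g ^ 4 - 3 * e1 ^ 2 * e2 ^ 8 * g ^ 5 * th - 15 * e1 ^ 2 * e2 ^ 8 * g ^ 6
    - 3 * e1 ^ 2 * e2 ^ 8 * g ^ 7 * th - 7 * e1 ^ 2 * e2 ^ 8 * g ^ 8 - e1 ^ 2 * e2 ^ 8 * g ^ 9 *
    th - e1 ^ 3 * e2 ^ 7 * g ^ 10 - 20 * e1 ^ 3 * e2 ^ 7 * g ^ 2 - 5 * e1 ^ 3 * e2 ^ 7 * g ^ 3 *
    th - 61 * e1 ^ 3 * e2 ^ 7 * g ^ 4 - 15 * e1 ^ 3 * e2 ^ 7 * g ^ 5 * th - 63 * e1 ^ 3 * e2 ^ 7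
    * g ^ 6 - 15 * e1 ^ 3 * e2 ^ 7 * g ^ 7 * th - 23 * e1 ^ 3 * e2 ^ 7 * g ^ 8 - 5 * e1 ^ 3 * e2
    ^ 7 * g ^ 9 * th + 8 * e1 ^ 4 * e2 ^ 6 * g ^ 10 - 46 * e1 ^ 4 * e2 ^ 6 * g ^ 2 - 8 * e1 ^ 4
    * e2 ^ 6 * g ^ 3 * th - 130 * e1 ^ 4 * e2 ^ 6 * g ^ 4 - 24 * e1 ^ 4 * e2 ^ 6 * g ^ 5 * th -
    114 * e1 ^ 4 * e2 ^ 6 * g ^ 6 - 24 * e1 ^ 4 * e2 ^ 6 * g ^ 7 * th - 22 * e1 ^ 4 * e2 ^ 6 * g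
    ^ 8 - 8 * e1 ^ 4 * e2 ^ 6 * g ^ 9 * th + 20 * e1 ^ 5 * e2 ^ 5 * g ^ 10 - 64 * e1 ^ 5 * e2 ^
    5 * g ^ 2 - 2 * e1 ^ 5 * e2 ^ 5 * g ^ 3 * th - 172 * e1 ^ 5 * e2 ^ 5 * g ^ 4 - 6 * e1 ^ 5 *
    e2 ^ 5 * g ^ 5 * th - 132 * e1 ^ 5 * e2 ^ 5 * g ^ 6 - 6 * e1 ^ 5 * e2 ^ 5 * g ^ 7 * th - 4 *
    e1 ^ 5 * e2 ^ 5 * g ^ 8 - 2 * e1 ^ 5 * e2 ^ 5 * g ^ 9 * th + 17 * e1 ^ 6 * e2 ^ 4 * g ^ 10 -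
    58 * e1 ^ 6 * e2 ^ 4 * g ^ 2 + 7 * e1 ^ 6 * e2 ^ 4 * g ^ 3 * th - 157 * e1 ^ 6 * e2 ^ 4 * g
    ^ 4 + 21 * e1 ^ 6 * e2 ^ 4 * g ^ 5 * th - 123 * e1 ^ 6 * e2 ^ 4 * g ^ 6 + 21 * e1 ^ 6 * e2 ^
    4 * g ^ 7 * th - 7 * e1 ^ 6 * e2 ^ 4 * g ^ 8 + 7 * e1 ^ 6 * e2 ^ 4 * g ^ 9 * th + 5 * e1 ^ 7
    * e2 ^ 3 * g ^ 10 - 34 * e1 ^ 7 * e2 ^ 3 * g ^ 2 + 7 * e1 ^ 7 * e2 ^ 3 * g ^ 3 * th - 97 *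
    e1 ^ 7 * e2 ^ 3 * g ^ 4 + 21 * e1 ^ 7 * e2 ^ 3 * g ^ 5 * th - 87 * e1 ^ 7 * e2 ^ 3 * g ^ 6 +
    21 * e1 ^ 7 * e2 ^ 3 * g ^ 7 * th - 19 * e1 ^ 7 * e2 ^ 3 * g ^ 8 + 7 * e1 ^ 7 * e2 ^ 3 * g ^
    9 * th - 12 * e1 ^ 8 * e2 ^ 2 * g ^ 2 + 2 * e1 ^ 8 * e2 ^ 2 * g ^ 3 * th - 36 * e1 ^ 8 * e2
    ^ 2 * g ^ 4 + 6 * e1 ^ 8 * e2 ^ 2 * g ^ 5 * th - 36 * e1 ^ 8 * e2 ^ 2 * g ^ 6 + 6 * e1 ^ 8 *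
    e2 ^ 2 * g ^ 7 * th - 12 * e1 ^ 8 * e2 ^ 2 * g ^ 8 + 2 * e1 ^ 8 * e2 ^ 2 * g ^ 9 * th - 2 *
    e1 ^ 9 * e2 * g ^ 2 - 6 * e1 ^ 9 * e2 * g ^ 4 - 6 * e1 ^ 9 * e2 * g ^ 6 - 2 * e1 ^ 9 * e2 *
    g ^ 8) * hth

theorem mi_coef211 {g th e1 e2 : K} (hth : th ^ 2 = 3) :
    miC211 g th (1 + g ^ 2) (e1 * e2) (e2 * (-(e1 + e2))) ((-(e1 + e2)) * e1) (Yp th g (-(e1 + e2))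
      e1 e2) (Yp th g e1 e2 (-(e1 + e2))) (Yp th g e2 (-(e1 + e2)) e1) (Zp th g (-(e1 + e2)) e1
      e2) (Zp th g e1 e2 (-(e1 + e2))) (Zp th g e2 (-(e1 + e2)) e1) =
      (1 + g ^ 2) ^ 5 * miD211 g th ((-(e1 + e2)) * e1 * e2) (-(e1 + e2)) e1 e2 (e1 * e2) (e2 * (-(e1 + e2))) ((-(e1 +
      e2)) * e1) := by
  simp only [miC211, miD211, miH, Yp, Zp]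
  linear_combination (8 * e1 * e2 ^ 7 * g ^ 2 + 2 * e1 * e2 ^ 7 * g ^ 3 * th + 18 * e1 * e2 ^ 7 * g ^ 4 + 4 * e1 *
    e2 ^ 7 * g ^ 5 * th + 12 * e1 * e2 ^ 7 * g ^ 6 + 2 * e1 * e2 ^ 7 * g ^ 7 * th + 2 * e1 * e2
    ^ 7 * g ^ 8 + 40 * e1 ^ 2 * e2 ^ 6 * g ^ 2 + 12 * e1 ^ 2 * e2 ^ 6 * g ^ 3 * th + 84 * e1 ^ 2
    * e2 ^ 6 * g ^ 4 + 24 * e1 ^ 2 * e2 ^ 6 * g ^ 5 * th + 48 * e1 ^ 2 * e2 ^ 6 * g ^ 6 + 12 *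
    e1 ^ 2 * e2 ^ 6 * g ^ 7 * th + 4 * e1 ^ 2 * e2 ^ 6 * g ^ 8 + 94 * e1 ^ 3 * e2 ^ 5 * g ^ 2 +
    18 * e1 ^ 3 * e2 ^ 5 * g ^ 3 * th + 180 * e1 ^ 3 * e2 ^ 5 * g ^ 4 + 36 * e1 ^ 3 * e2 ^ 5 * g
    ^ 5 * th + 78 * e1 ^ 3 * e2 ^ 5 * g ^ 6 + 18 * e1 ^ 3 * e2 ^ 5 * g ^ 7 * th - 8 * e1 ^ 3 *
    e2 ^ 5 * g ^ 8 + 124 * e1 ^ 4 * e2 ^ 4 * g ^ 2 + 228 * e1 ^ 4 * e2 ^ 4 * g ^ 4 + 84 * e1 ^ 4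
    * e2 ^ 4 * g ^ 6 - 20 * e1 ^ 4 * e2 ^ 4 * g ^ 8 + 94 * e1 ^ 5 * e2 ^ 3 * g ^ 2 - 18 * e1 ^ 5
    * e2 ^ 3 * g ^ 3 * th + 180 * e1 ^ 5 * e2 ^ 3 * g ^ 4 - 36 * e1 ^ 5 * e2 ^ 3 * g ^ 5 * th +
    78 * e1 ^ 5 * e2 ^ 3 * g ^ 6 - 18 * e1 ^ 5 * e2 ^ 3 * g ^ 7 * th - 8 * e1 ^ 5 * e2 ^ 3 * g ^
    8 + 40 * e1 ^ 6 * e2 ^ 2 * g ^ 2 - 12 * e1 ^ 6 * e2 ^ 2 * g ^ 3 * th + 84 * e1 ^ 6 * e2 ^ 2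
    * g ^ 4 - 24 * e1 ^ 6 * e2 ^ 2 * g ^ 5 * th + 48 * e1 ^ 6 * e2 ^ 2 * g ^ 6 - 12 * e1 ^ 6 *
    e2 ^ 2 * g ^ 7 * th + 4 * e1 ^ 6 * e2 ^ 2 * g ^ 8 + 8 * e1 ^ 7 * e2 * g ^ 2 - 2 * e1 ^ 7 *
    e2 * g ^ 3 * th + 18 * e1 ^ 7 * e2 * g ^ 4 - 4 * e1 ^ 7 * e2 * g ^ 5 * th + 12 * e1 ^ 7 * e2
    * g ^ 6 - 2 * e1 ^ 7 * e2 * g ^ 7 * th + 2 * e1 ^ 7 * e2 * g ^ 8) * hth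

theorem mi_coef212 {g th e1 e2 : K} (hth : th ^ 2 = 3) :
    miC212 g th (1 + g ^ 2) (e1 * e2) (e2 * (-(e1 + e2))) ((-(e1 + e2)) * e1) (Yp th g (-(e1 + e2))
      e1 e2) (Yp th g e1 e2 (-(e1 + e2))) (Yp th g e2 (-(e1 + e2)) e1) (Zp th g (-(e1 + e2)) e1
      e2) (Zp th g e1 e2 (-(e1 + e2))) (Zp th g e2 (-(e1 + e2)) e1) =
      (1 + g ^ 2) ^ 5 * miD212 g th ((-(e1 + e2)) * e1 * e2) (-(e1 + e2)) e1 e2 (e1 * e2) (e2 * (-(e1 + e2))) ((-(e1 +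
      e2)) * e1) := by
  simp only [miC212, miD212, miH, Yp, Zp]
  linear_combination (-9 * e1 * e2 ^ 5 * g ^ 2 - 8 * e1 * e2 ^ 5 * g ^ 3 * th - 18 * e1 * e2 ^ 5 * g ^ 4 - 8 * e1
    * e2 ^ 5 * g ^ 5 * th - 9 * e1 * e2 ^ 5 * g ^ 6 - 27 * e1 ^ 2 * e2 ^ 4 * g ^ 2 - 20 * e1 ^ 2
    * e2 ^ 4 * g ^ 3 * th - 30 * e1 ^ 2 * e2 ^ 4 * g ^ 4 - 20 * e1 ^ 2 * e2 ^ 4 * g ^ 5 * th - 3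
    * e1 ^ 2 * e2 ^ 4 * g ^ 6 - 39 * e1 ^ 3 * e2 ^ 3 * g ^ 2 - 12 * e1 ^ 3 * e2 ^ 3 * g ^ 3 * th
    - 30 * e1 ^ 3 * e2 ^ 3 * g ^ 4 - 12 * e1 ^ 3 * e2 ^ 3 * g ^ 5 * th + 9 * e1 ^ 3 * e2 ^ 3 * g
    ^ 6 - 24 * e1 ^ 4 * e2 ^ 2 * g ^ 2 + 2 * e1 ^ 4 * e2 ^ 2 * g ^ 3 * th - 18 * e1 ^ 4 * e2 ^ 2
    * g ^ 4 + 2 * e1 ^ 4 * e2 ^ 2 * g ^ 5 * th + 6 * e1 ^ 4 * e2 ^ 2 * g ^ 6 - 6 * e1 ^ 5 * e2 *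
    g ^ 2 + 2 * e1 ^ 5 * e2 * g ^ 3 * th - 6 * e1 ^ 5 * e2 * g ^ 4 + 2 * e1 ^ 5 * e2 * g ^ 5 *
    th - 3 * e2 ^ 6 * g ^ 2 - 6 * e2 ^ 6 * g ^ 4 - 3 * e2 ^ 6 * g ^ 6) * hth

theorem mi_coef220 {g th e1 e2 : K} (hth : th ^ 2 = 3) :
    miC220 g th (1 + g ^ 2) (e1 * e2) (e2 * (-(e1 + e2))) ((-(e1 + e2)) * e1) (Yp th g (-(e1 + e2))
      e1 e2) (Yp th g e1 e2 (-(e1 + e2))) (Yp th g e2 (-(e1 + e2)) e1) (Zp th g (-(e1 + e2)) e1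
      e2) (Zp th g e1 e2 (-(e1 + e2))) (Zp th g e2 (-(e1 + e2)) e1) =
      (1 + g ^ 2) ^ 5 * miD220 g th ((-(e1 + e2)) * e1 * e2) (-(e1 + e2)) e1 e2 (e1 * e2) (e2 * (-(e1 + e2))) ((-(e1 +
      e2)) * e1) := by
  simp only [miC220, miD220, miH, Yp, Zp]
  linear_combination (3 * e1 ^ 2 * e2 ^ 6 * g ^ 2 + e1 ^ 2 * e2 ^ 6 * g ^ 3 * th + 6 * e1 ^ 2 * e2 ^ 6 * g ^ 4 + 2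
    * e1 ^ 2 * e2 ^ 6 * g ^ 5 * th + 3 * e1 ^ 2 * e2 ^ 6 * g ^ 6 + e1 ^ 2 * e2 ^ 6 * g ^ 7 * th
    + 12 * e1 ^ 3 * e2 ^ 5 * g ^ 2 + 2 * e1 ^ 3 * e2 ^ 5 * g ^ 3 * th + 18 * e1 ^ 3 * e2 ^ 5 * g
    ^ 4 + 4 * e1 ^ 3 * e2 ^ 5 * g ^ 5 * th + 2 * e1 ^ 3 * e2 ^ 5 * g ^ 7 * th - 6 * e1 ^ 3 * e2
    ^ 5 * g ^ 8 + 21 * e1 ^ 4 * e2 ^ 4 * g ^ 2 - 5 * e1 ^ 4 * e2 ^ 4 * g ^ 3 * th + 24 * e1 ^ 4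
    * e2 ^ 4 * g ^ 4 - 10 * e1 ^ 4 * e2 ^ 4 * g ^ 5 * th - 15 * e1 ^ 4 * e2 ^ 4 * g ^ 6 - 5 * e1
    ^ 4 * e2 ^ 4 * g ^ 7 * th - 18 * e1 ^ 4 * e2 ^ 4 * g ^ 8 + 18 * e1 ^ 5 * e2 ^ 3 * g ^ 2 - 16
    * e1 ^ 5 * e2 ^ 3 * g ^ 3 * th + 18 * e1 ^ 5 * e2 ^ 3 * g ^ 4 - 32 * e1 ^ 5 * e2 ^ 3 * g ^ 5
    * th - 18 * e1 ^ 5 * e2 ^ 3 * g ^ 6 - 16 * e1 ^ 5 * e2 ^ 3 * g ^ 7 * th - 18 * e1 ^ 5 * e2 ^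
    3 * g ^ 8 + 6 * e1 ^ 6 * e2 ^ 2 * g ^ 2 - 14 * e1 ^ 6 * e2 ^ 2 * g ^ 3 * th + 6 * e1 ^ 6 *
    e2 ^ 2 * g ^ 4 - 28 * e1 ^ 6 * e2 ^ 2 * g ^ 5 * th - 6 * e1 ^ 6 * e2 ^ 2 * g ^ 6 - 14 * e1 ^
    6 * e2 ^ 2 * g ^ 7 * th - 6 * e1 ^ 6 * e2 ^ 2 * g ^ 8 - 4 * e1 ^ 7 * e2 * g ^ 3 * th - 8 *
    e1 ^ 7 * e2 * g ^ 5 * th - 4 * e1 ^ 7 * e2 * g ^ 7 * th) * hth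

theorem mi_coef221 {g th e1 e2 : K} (hth : th ^ 2 = 3) :
    miC221 g th (1 + g ^ 2) (e1 * e2) (e2 * (-(e1 + e2))) ((-(e1 + e2)) * e1) (Yp th g (-(e1 + e2))
      e1 e2) (Yp th g e1 e2 (-(e1 + e2))) (Yp th g e2 (-(e1 + e2)) e1) (Zp th g (-(e1 + e2)) e1
      e2) (Zp th g e1 e2 (-(e1 + e2))) (Zp th g e2 (-(e1 + e2)) e1) =
      (1 + g ^ 2) ^ 5 * miD221 g th ((-(e1 + e2)) * e1 * e2) (-(e1 + e2)) e1 e2 (e1 * e2) (e2 * (-(e1 + e2))) ((-(e1 +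
      e2)) * e1) := by
  simp only [miC221, miD221, miH, Yp, Zp]
  linear_combination (-6 * e1 * e2 ^ 5 * g ^ 2 - 2 * e1 * e2 ^ 5 * g ^ 3 * th - 6 * e1 * e2 ^ 5 * g ^ 4 - 2 * e1 *
    e2 ^ 5 * g ^ 5 * th - 24 * e1 ^ 2 * e2 ^ 4 * g ^ 2 - 2 * e1 ^ 2 * e2 ^ 4 * g ^ 3 * th - 18 *
    e1 ^ 2 * e2 ^ 4 * g ^ 4 - 2 * e1 ^ 2 * e2 ^ 4 * g ^ 5 * th + 6 * e1 ^ 2 * e2 ^ 4 * g ^ 6 -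
    39 * e1 ^ 3 * e2 ^ 3 * g ^ 2 + 12 * e1 ^ 3 * e2 ^ 3 * g ^ 3 * th - 30 * e1 ^ 3 * e2 ^ 3 * g
    ^ 4 + 12 * e1 ^ 3 * e2 ^ 3 * g ^ 5 * th + 9 * e1 ^ 3 * e2 ^ 3 * g ^ 6 - 27 * e1 ^ 4 * e2 ^ 2
    * g ^ 2 + 20 * e1 ^ 4 * e2 ^ 2 * g ^ 3 * th - 30 * e1 ^ 4 * e2 ^ 2 * g ^ 4 + 20 * e1 ^ 4 *
    e2 ^ 2 * g ^ 5 * th - 3 * e1 ^ 4 * e2 ^ 2 * g ^ 6 - 9 * e1 ^ 5 * e2 * g ^ 2 + 8 * e1 ^ 5 *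
    e2 * g ^ 3 * th - 18 * e1 ^ 5 * e2 * g ^ 4 + 8 * e1 ^ 5 * e2 * g ^ 5 * th - 9 * e1 ^ 5 * e2
    * g ^ 6 - 3 * e1 ^ 6 * g ^ 2 - 6 * e1 ^ 6 * g ^ 4 - 3 * e1 ^ 6 * g ^ 6) * hth

theorem mi_coef222 {g th e1 e2 : K} (hth : th ^ 2 = 3) :
    miC222 g th (1 + g ^ 2) (e1 * e2) (e2 * (-(e1 + e2))) ((-(e1 + e2)) * e1) (Yp th g (-(e1 + e2))
      e1 e2) (Yp th g e1 e2 (-(e1 + e2))) (Yp th g e2 (-(e1 + e2)) e1) (Zp th g (-(e1 + e2)) e1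
      e2) (Zp th g e1 e2 (-(e1 + e2))) (Zp th g e2 (-(e1 + e2)) e1) =
      (1 + g ^ 2) ^ 5 * miD222 g th ((-(e1 + e2)) * e1 * e2) (-(e1 + e2)) e1 e2 (e1 * e2) (e2 * (-(e1 + e2))) ((-(e1 +
      e2)) * e1) := by
  simp only [miC222, miD222, miH, Yp, Zp]
  linear_combination (6 * e1 * e2 ^ 3 * g ^ 2 + 6 * e1 * e2 ^ 3 * g ^ 4 + 9 * e1 ^ 2 * e2 ^ 2 * g ^ 2 + 9 * e1 ^ 2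
    * e2 ^ 2 * g ^ 4 + 6 * e1 ^ 3 * e2 * g ^ 2 + 6 * e1 ^ 3 * e2 * g ^ 4 + 3 * e1 ^ 4 * g ^ 2 +
    3 * e1 ^ 4 * g ^ 4 + 3 * e2 ^ 4 * g ^ 2 + 3 * e2 ^ 4 * g ^ 4) * hth

theorem mi_frac {th g lam D0 D1 D2 N0 N1 N2 Y0 Y1 Y2 Z0 Z1 Z2 : K} (hg : g ≠ 0)
    (hd0 : D0 ≠ 0) (hd1 : D1 ≠ 0) (hd2 : D2 ≠ 0) (hn0 : N0 ≠ 0) (hn1 : N1 ≠ 0) (hn2 : N2 ≠ 0) :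
    Rp th ((N0 / D0) * (N1 / D1) * (N2 / D2) / g ^ 2)
      (lam * (N0 / D0) * Y0) (lam * (N1 / D1) * Y1) (lam * (N2 / D2) * Y2)
      (lam * g * Z0 / (N0 / D0)) (lam * g * Z1 / (N1 / D1)) (lam * g * Z2 / (N2 / D2)) =
    lam ^ 2 * miP g th N0 N1 N2 D0 D1 D2 Y0 Y1 Y2 Z0 Z1 Z2 / (D0 * D1 * D2 * (N0 * N1 * N2)) := by
  unfold Rp miP
  field_simp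
  ring

theorem mi_FW (th g e0 e1 e2 W0 W1 W2 : K) :
    (e0 * e1 * e2) ^ 4 * FW th g e0 e1 e2 W0 W1 W2 =
      miH g th (e0 * e1 * e2) e0 e1 e2 (e1 * e2 * (e0 * W0 - e1 * e2 + e1 * e2))
        (e2 * e0 * (e1 * W1 - e2 * e0 + e2 * e0)) (e0 * e1 * (e2 * W2 - e0 * e1 + e0 * e1)) := by
  unfold FW miH
  ring

/-- the numerator identity -/
theorem mi_main {th g e0 e1 e2 d0 d1 d2 : K} (hth : th ^ 2 = 3) (he : e0 + e1 + e2 = 0) :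
    miP g th (d0 + (1 + g ^ 2) * (e1 * e2)) (d1 + (1 + g ^ 2) * (e2 * e0))
      (d2 + (1 + g ^ 2) * (e0 * e1)) d0 d1 d2 (Yp th g e0 e1 e2) (Yp th g e1 e2 e0)
      (Yp th g e2 e0 e1) (Zp th g e0 e1 e2) (Zp th g e1 e2 e0) (Zp th g e2 e0 e1) =
    (1 + g ^ 2) ^ 5 * miH g th (e0 * e1 * e2) e0 e1 e2 (e1 * e2 * (d0 + e1 * e2))
      (e2 * e0 * (d1 + e2 * e0)) (e0 * e1 * (d2 + e0 * e1)) := by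
  have h0 : e0 = -(e1 + e2) := by linear_combination he
  subst h0
  rw [miP_eq, miH_eq, mi_coef000 hth, mi_coef001 hth, mi_coef002 hth, mi_coef010 hth, mi_coef011 hth, mi_coef012
    hth, mi_coef020 hth, mi_coef021 hth, mi_coef022 hth, mi_coef100 hth, mi_coef101 hth,
    mi_coef102 hth, mi_coef110 hth, mi_coef111 hth, mi_coef112 hth, mi_coef120 hth, mi_coef121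
    hth, mi_coef122 hth, mi_coef200 hth, mi_coef201 hth, mi_coef202 hth, mi_coef210 hth,
    mi_coef211 hth, mi_coef212 hth, mi_coef220 hth, mi_coef221 hth, mi_coef222 hth]
  ring

end mainid

/-- The main identity. -/
theorem main_identity {K : Type} [Field K] {th g e0 e1 e2 W0 W1 W2 lam : K}
    (hth : th ^ 2 = 3) (he : e0 + e1 + e2 = 0) (hg : g ≠ 0)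
    (hd0 : e0 * W0 - e1 * e2 ≠ 0) (hd1 : e1 * W1 - e2 * e0 ≠ 0) (hd2 : e2 * W2 - e0 * e1 ≠ 0)
    (hn0 : e0 * W0 + g ^ 2 * (e1 * e2) ≠ 0) (hn1 : e1 * W1 + g ^ 2 * (e2 * e0) ≠ 0)
    (hn2 : e2 * W2 + g ^ 2 * (e0 * e1) ≠ 0) {t0 t1 t2 : K}
    (ht0 : t0 = (e0 * W0 + g ^ 2 * (e1 * e2)) / (e0 * W0 - e1 * e2))
    (ht1 : t1 = (e1 * W1 + g ^ 2 * (e2 * e0)) / (e1 * W1 - e2 * e0))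
    (ht2 : t2 = (e2 * W2 + g ^ 2 * (e0 * e1)) / (e2 * W2 - e0 * e1)) :
    Rp th (t0 * t1 * t2 / g ^ 2)
      (lam * t0 * Yp th g e0 e1 e2) (lam * t1 * Yp th g e1 e2 e0) (lam * t2 * Yp th g e2 e0 e1)
      (lam * g * Zp th g e0 e1 e2 / t0) (lam * g * Zp th g e1 e2 e0 / t1)
      (lam * g * Zp th g e2 e0 e1 / t2)
    = lam ^ 2 * (1 + g ^ 2) ^ 5 * (e0 * e1 * e2) ^ 4 * FW th g e0 e1 e2 W0 W1 W2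
      / ((e0 * W0 - e1 * e2) * (e1 * W1 - e2 * e0) * (e2 * W2 - e0 * e1)
        * ((e0 * W0 + g ^ 2 * (e1 * e2)) * (e1 * W1 + g ^ 2 * (e2 * e0))
          * (e2 * W2 + g ^ 2 * (e0 * e1)))) := by
  rw [ht0, ht1, ht2, mi_frac hg hd0 hd1 hd2 hn0 hn1 hn2]
  have e0' : e0 * W0 + g ^ 2 * (e1 * e2) = (e0 * W0 - e1 * e2) + (1 + g ^ 2) * (e1 * e2) := by ring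
  have e1' : e1 * W1 + g ^ 2 * (e2 * e0) = (e1 * W1 - e2 * e0) + (1 + g ^ 2) * (e2 * e0) := by ring
  have e2' : e2 * W2 + g ^ 2 * (e0 * e1) = (e2 * W2 - e0 * e1) + (1 + g ^ 2) * (e0 * e1) := by ring
  have key : miP g th (e0 * W0 + g ^ 2 * (e1 * e2)) (e1 * W1 + g ^ 2 * (e2 * e0))
      (e2 * W2 + g ^ 2 * (e0 * e1)) (e0 * W0 - e1 * e2) (e1 * W1 - e2 * e0) (e2 * W2 - e0 * e1)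
      (Yp th g e0 e1 e2) (Yp th g e1 e2 e0) (Yp th g e2 e0 e1)
      (Zp th g e0 e1 e2) (Zp th g e1 e2 e0) (Zp th g e2 e0 e1) =
      (1 + g ^ 2) ^ 5 * ((e0 * e1 * e2) ^ 4 * FW th g e0 e1 e2 W0 W1 W2) := by
    rw [e0', e1', e2', mi_main hth he, mi_FW]
  rw [key]
  congr 1
  ring

end Pool.Agent.TH501.Hemi
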