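import Mathlib
import Pool.Agent.TH501.Hemi.EvalB1
import Pool.Agent.TH501.Hemi.MainId

set_option autoImplicit false

namespace Pool.Agent.TH501.Hemi

open Finset Classical

variable {K : Type} [Field K] [Fintype K] {q : ℕ}

section par

variable {φ : K →+* K} {th S lam e ε g e1 e2 : K}

theorem ev_n (P : Par q φ th S lam e ε g e1 e2) {w : K} (hw : φ (φ (φ w)) = w) :
    nn ε g e e1 e2 w = - g ^ 2 * φ (φ (φ (dd ε g e e1 e2 w))) := by
  have hg0 := P.g0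
  rw [P.dbar hw]
  field_simp

/-- Coordinates of `s(w)` and of the point. -/
theorem ev_R (P : Par q φ th S lam e ε g e1 e2) {w : K} (hw : φ (φ (φ w)) = w) :
    Rf q th (sw ε g e e1 e2 S w) (lam * g * Yp th g e e1 e2 / S)
      = lam ^ 2 * (1 + g ^ 2) ^ 5 * (e * e1 * e2) ^ 4
          * FW th g e e1 e2 (g * ε * w) (g * ε * φ (φ w)) (g * ε * φ w)
        / ((dd ε g e e1 e2 w * φ (φ (dd ε g e e1 e2 w)) * φ (φ (φ (φ (dd ε g e e1 e2 w)))))
          * (nn ε g e e1 e2 w * φ (φ (nn ε g e e1 e2 w)) * φ (φ (φ (φ (nn ε g e e1 e2 w)))))) := by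
  have hg0 := P.g0
  have hS0 := P.S0
  have hS0' : φ (φ S) ≠ 0 := by simpa using hS0
  have hS0'' : φ (φ (φ (φ S))) ≠ 0 := by simpa using hS0
  have hd0 := P.d0 hw
  have hn0 := P.n0 hw
  have hd0' : φ (φ (dd ε g e e1 e2 w)) ≠ 0 := by simpa using hd0
  have hd0'' : φ (φ (φ (φ (dd ε g e e1 e2 w)))) ≠ 0 := by simpa using hd0
  have hn0' : φ (φ (nn ε g e e1 e2 w)) ≠ 0 := by simpa using hn0
  have hn0'' : φ (φ (φ (φ (nn ε g e e1 e2 w)))) ≠ 0 := by simpa using hn0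
  have hd1 : φ (φ (dd ε g e e1 e2 w)) = e1 * (g * ε * φ (φ w)) - e2 * e := by
    unfold dd
    simp only [map_sub, map_mul, P.ee, P.ee1, P.ee2, P.gq, map_inv₀, inv_inv, P.epsq, map_neg,
      neg_neg]
  have hd2 : φ (φ (φ (φ (dd ε g e e1 e2 w)))) = e2 * (g * ε * φ w) - e * e1 := by
    rw [hd1]
    simp only [map_sub, map_mul, P.ee, P.ee1, P.ee2, P.gq, map_inv₀, inv_inv, P.epsq, map_neg,
      neg_neg, hw]
  have hn1 : φ (φ (nn ε g e e1 e2 w)) = e1 * (g * ε * φ (φ w)) + g ^ 2 * (e2 * e) := by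
    unfold nn
    simp only [map_add, map_mul, map_pow, P.ee, P.ee1, P.ee2, P.gq, map_inv₀, inv_inv, P.epsq,
      map_neg, neg_neg]
  have hn2 : φ (φ (φ (φ (nn ε g e e1 e2 w)))) = e2 * (g * ε * φ w) + g ^ 2 * (e * e1) := by
    rw [hn1]
    simp only [map_add, map_mul, map_pow, P.ee, P.ee1, P.ee2, P.gq, map_inv₀, inv_inv, P.epsq,
      map_neg, neg_neg, hw]
  obtain ⟨t0, ht0⟩ : ∃ t0, t0 = nn ε g e e1 e2 w / dd ε g e e1 e2 w := ⟨_, rfl⟩
  have ht1 : φ (φ t0) = φ (φ (nn ε g e e1 e2 w)) / φ (φ (dd ε g e e1 e2 w)) := by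
    rw [ht0, map_div₀, map_div₀]
  have ht2 : φ (φ (φ (φ t0)))
      = φ (φ (φ (φ (nn ε g e e1 e2 w)))) / φ (φ (φ (φ (dd ε g e e1 e2 w)))) := by
    rw [ht1, map_div₀, map_div₀]
  have ht00 : t0 ≠ 0 := by rw [ht0]; exact div_ne_zero hn0 hd0
  have ht10 : φ (φ t0) ≠ 0 := by simpa using ht00
  have ht20 : φ (φ (φ (φ t0))) ≠ 0 := by simpa using ht00
  have ht3 : φ (φ (φ t0)) = t0⁻¹ := by
    rw [ht0]
    simp only [map_div₀, P.nbar hw, P.dbar hw]
    field_simp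
  have hsw : sw ε g e e1 e2 S w = t0 * (S / g) := by rw [ht0]; rfl
  have hN : N3 q (t0 * (S / g)) = t0 * φ (φ t0) * φ (φ (φ (φ t0))) / g ^ 2 := by
    have h1 := P.gN
    unfold N3 at h1 ⊢
    rw [P.f2, P.f4] at h1 ⊢
    simp only [map_mul, map_div₀, P.gq, map_inv₀, inv_inv]
    rw [eq_div_iff (pow_ne_zero 2 hg0)]
    field_simp
    linear_combination h1
  have hy : t0 * (S / g) * (lam * g * Yp th g e e1 e2 / S) = lam * t0 * Yp th g e e1 e2 := by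
    field_simp
  have hz : (lam * g * Yp th g e e1 e2 / S) ^ q ^ 3 / (t0 * (S / g))
      = lam * g * Zp th g e e1 e2 / t0 := by
    rw [P.f3]
    unfold Yp Zp
    simp only [map_div₀, map_mul, map_sub, map_add, map_pow, P.lamq, P.gq, P.S3, P.ee, P.ee1, P.ee2,
      P.thq, map_inv₀, inv_inv, map_neg, neg_neg, map_ofNat]
    field_simp
    ring
  have hY1 : φ (φ (Yp th g e e1 e2)) = Yp th g e1 e2 e := by
    unfold Yp
    simp only [map_mul, map_sub, map_add, map_pow, P.gq, P.ee, P.ee1, P.ee2,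
      P.thq, map_inv₀, inv_inv, map_neg, neg_neg, map_ofNat]
  have hY2 : φ (φ (Yp th g e1 e2 e)) = Yp th g e2 e e1 := by
    unfold Yp
    simp only [map_mul, map_sub, map_add, map_pow, P.gq, P.ee, P.ee1, P.ee2,
      P.thq, map_inv₀, inv_inv, map_neg, neg_neg, map_ofNat]
  have hZ1 : φ (φ (Zp th g e e1 e2)) = Zp th g e1 e2 e := by
    unfold Zp
    simp only [map_mul, map_sub, map_add, map_pow, P.gq, P.ee, P.ee1, P.ee2,
      P.thq, map_inv₀, inv_inv, map_neg, neg_neg, map_ofNat]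
  have hZ2 : φ (φ (Zp th g e1 e2 e)) = Zp th g e2 e e1 := by
    unfold Zp
    simp only [map_mul, map_sub, map_add, map_pow, P.gq, P.ee, P.ee1, P.ee2,
      P.thq, map_inv₀, inv_inv, map_neg, neg_neg, map_ofNat]
  have hmain := main_identity (K := K) (th := th) (g := g) (e0 := e) (e1 := e1) (e2 := e2)
    (W0 := g * ε * w) (W1 := g * ε * φ (φ w)) (W2 := g * ε * φ w) (lam := lam) P.th2 P.eT hg0
    hd0 (by rw [← hd1]; exact hd0') (by rw [← hd2]; exact hd0'')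
    hn0 (by rw [← hn1]; exact hn0') (by rw [← hn2]; exact hn0'')
    (t0 := t0) (t1 := φ (φ t0)) (t2 := φ (φ (φ (φ t0)))) ht0 (by rw [ht1, hn1, hd1])
    (by rw [ht2, hn2, hd2])
  rw [hsw]
  unfold Rf
  rw [hN, hy, hz]
  simp only [P.f2, P.f4]
  simp only [map_mul, map_div₀, P.lam2, hY1, hY2, hZ1, hZ2, P.g2]
  rw [hmain, hd2, hd1, hn2, hn1]
  rfl

/-- The sign of one term. -/
theorem ev_term (P : Par q φ th S lam e ε g e1 e2) (h : Std K q) {w : K}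
    (hw : φ (φ (φ w)) = w) {ka kp a b : K}
    (hKA : KA th g e e1 e2 ka ((g * ε) ^ 2 * a)) (ha : φ a = a) (hb : φ b = b)
    (hB : B4 g e e1 e2 ka = 4 * (g * ε) ^ 3 * b)
    (hka : ka = ε * kp) (hkp : φ kp = kp) :
    chi2 q (sw ε g e e1 e2 S w)
        * eta q (Rf q th (sw ε g e e1 e2 S w) (lam * g * Yp th g e e1 e2 / S))
      = Fs q S * eta q (Gf a b (w + kp * (e1 - e2)) (φ (φ w) + kp * (e2 - e))
          (φ w + kp * (e - e1))) := by
  have hg0 := P.g0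
  have hε0 := P.eps0
  have hT0 := P.T0
  have hTq := P.Tq
  have hd0 := P.d0 hw
  obtain ⟨d, hd⟩ : ∃ d, d = dd ε g e e1 e2 w := ⟨_, rfl⟩
  rw [← hd] at hd0
  obtain ⟨D, hD⟩ : ∃ D, D = d * φ (φ d) * φ (φ (φ (φ d))) := ⟨_, rfl⟩
  have hD0 : D ≠ 0 := by rw [hD]; simp [hd0]
  have hD2 : φ (φ D) = D := by
    rw [hD]
    simp only [map_mul, P.f6]
    ring
  obtain ⟨G, hG⟩ : ∃ G, G = Gf a b (w + kp * (e1 - e2)) (φ (φ w) + kp * (e2 - e))
          (φ w + kp * (e - e1)) := ⟨_, rfl⟩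
  have hGq : φ G = G := by
    rw [hG]
    unfold Gf
    simp only [map_mul, map_sub, map_add, map_pow, P.ee, P.ee1, P.ee2, ha, hb, hkp, hw, map_ofNat]
    ring
  have hn : nn ε g e e1 e2 w = - g ^ 2 * φ (φ (φ d)) := by rw [hd]; exact ev_n P hw
  have hn1 : φ (φ (nn ε g e e1 e2 w)) = - g ^ 2 * φ (φ (φ (φ (φ d)))) := by
    rw [hn]
    simp only [map_mul, map_neg, map_pow, P.gq, map_inv₀, inv_inv]
  have hn2 : φ (φ (φ (φ (nn ε g e e1 e2 w)))) = - g ^ 2 * φ d := by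
    rw [hn1]
    simp only [map_mul, map_neg, map_pow, P.gq, map_inv₀, inv_inv, P.f6]
  have hR : Rf q th (sw ε g e e1 e2 S w) (lam * g * Yp th g e e1 e2 / S) * (D * φ D) ^ 2
      = (-1) * ((lam * φ lam) * ((g + g⁻¹) * (((g + g⁻¹) ^ 2 * (e * e1 * e2) ^ 2 * ε ^ 2) ^ 2
        * (G * (D * φ D))))) := by
    rw [ev_R P hw, ev_FW P hKA hB hka, ← hG, ← hd, hn2, hn1, hn, ← hD, P.lamq]
    have h1 : φ D = φ d * φ (φ (φ d)) * φ (φ (φ (φ (φ d)))) := by
      rw [hD]; simp only [map_mul]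
    have h2 : φ D ≠ 0 := by simpa using hD0
    have h3 : (-g ^ 2 * φ (φ (φ d)) * (-g ^ 2 * φ (φ (φ (φ (φ d))))) * (-g ^ 2 * φ d))
        = - g ^ 6 * φ D := by rw [h1]; ring
    rw [h3]
    field_simp
    ring
  have hDq : φ (D * φ D) = D * φ D := by rw [map_mul, hD2, mul_comm]
  have hDD0 : D * φ D ≠ 0 := mul_ne_zero hD0 (by simpa using hD0)
  have hlq : φ (lam * φ lam) = lam * φ lam := by rw [map_mul, P.lam2, mul_comm]
  obtain ⟨c, hc⟩ : ∃ c, c = (g + g⁻¹) ^ 2 * (e * e1 * e2) ^ 2 * ε ^ 2 := ⟨_, rfl⟩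
  have hcq : φ c = c := by
    rw [hc]
    simp only [map_mul, map_pow, P.ee, P.ee1, P.ee2, P.epsq, hTq]
    ring
  have hc0 : c ≠ 0 := by
    rw [hc]
    have := P.e00
    have := P.e10
    have := P.e20
    simp [*]
  rw [← hc] at hR
  have hRq : (Rf q th (sw ε g e e1 e2 S w) (lam * g * Yp th g e e1 e2 / S)) ^ q
      = Rf q th (sw ε g e e1 e2 S w) (lam * g * Yp th g e e1 e2 / S) :=
    Rf_real h (by rw [P.f1]; exact P.thq) (P.sw_mem hw) _
  -- take characters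
  have e1' := eta_mul h (a := Rf q th (sw ε g e e1 e2 S w) (lam * g * Yp th g e e1 e2 / S))
    (b := (D * φ D) ^ 2) hRq (by rw [P.f1, map_pow, hDq])
  rw [eta_sq h (by rw [P.f1, hDq]) hDD0, mul_one, hR] at e1'
  have hDG : φ (G * (D * φ D)) = G * (D * φ D) := by rw [map_mul, hGq, hDq]
  have hcG : φ (c ^ 2 * (G * (D * φ D))) = c ^ 2 * (G * (D * φ D)) := by
    rw [map_mul, hDG, map_pow, hcq]
  have hTG : φ ((g + g⁻¹) * (c ^ 2 * (G * (D * φ D)))) = (g + g⁻¹) * (c ^ 2 * (G * (D * φ D))) := by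
    rw [map_mul, hcG, hTq]
  have hLG : φ ((lam * φ lam) * ((g + g⁻¹) * (c ^ 2 * (G * (D * φ D)))))
      = (lam * φ lam) * ((g + g⁻¹) * (c ^ 2 * (G * (D * φ D)))) := by
    rw [map_mul, hTG, hlq]
  have m0 := eta_mul h (a := (-1 : K)) (b := (lam * φ lam) * ((g + g⁻¹) * (c ^ 2 * (G * (D * φ D)))))
    (by rw [P.f1, map_neg, map_one]) (by rw [P.f1, hLG])
  have m1 := eta_mul h (a := lam * φ lam) (b := (g + g⁻¹) * (c ^ 2 * (G * (D * φ D))))
    (by rw [P.f1, hlq]) (by rw [P.f1, hTG])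
  have m2 := eta_mul h (a := g + g⁻¹) (b := c ^ 2 * (G * (D * φ D)))
    (by rw [P.f1, hTq]) (by rw [P.f1, hcG])
  have m3 := eta_mul h (a := c ^ 2) (b := G * (D * φ D))
    (by rw [P.f1, map_pow, hcq]) (by rw [P.f1, hDG])
  have m4 := eta_mul h (a := G) (b := D * φ D) (by rw [P.f1, hGq]) (by rw [P.f1, hDq])
  rw [m0, m1, m2, m3, m4, eta_neg_one h, one_mul, eta_sq h (by rw [P.f1, hcq]) hc0, one_mul,
    ev_lam P h] at e1'
  have hev := ev_D P h hd0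
  rw [← hD] at hev
  rw [hev] at e1'
  rw [P.chi2_sw h hw, ← hd, ← hG, ← e1']
  unfold Fs
  rw [P.gN]
  have h66 : eta6 q d * eta6 q d = 1 := by
    unfold eta6
    split_ifs <;> norm_num
  linear_combination (- chi2 q S * eta q (g + g⁻¹) * eta q G) * h66

end par

end Pool.Agent.TH501.Hemi
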