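import Mathlib
import Pool.Agent.TH501.Hemi.EvalB2
import Pool.Agent.TH501.Hemi.NormCount

set_option autoImplicit false

namespace Pool.Agent.TH501.Hemi

open Finset Classical

variable {K : Type} [Field K] [Fintype K] {q : ℕ}

section par

variable {φ : K →+* K} {th S lam e ε g e1 e2 : K}

theorem ev_mu (P : Par q φ th S lam e ε g e1 e2) (h : Std K q) (f : K → ℤ) :
    ∑ s ∈ mu K q, f s = f (S / g)
      + ∑ w ∈ univ.filter (fun x : K => x ^ q ^ 3 = x), f (sw ε g e e1 e2 S w) := by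
  have hg0 := P.g0
  have hL : ∀ w ∈ univ.filter (fun x : K => x ^ q ^ 3 = x), φ (φ (φ w)) = w := by
    intro w hw
    rw [mem_filter, P.f3] at hw
    exact hw.2
  have hinj : Set.InjOn (sw ε g e e1 e2 S) (univ.filter (fun x : K => x ^ q ^ 3 = x) : Finset K) := by
    intro w hw w' hw' hww
    exact P.sw_inj (hL w hw) (hL w' hw') hww
  have hnot : S / g ∉ (univ.filter (fun x : K => x ^ q ^ 3 = x)).image (sw ε g e e1 e2 S) := by
    intro hm
    rw [mem_image] at hm
    obtain ⟨w, hw, hws⟩ := hm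
    exact P.sw_ne (hL w hw) hws
  have hsub : insert (S / g) ((univ.filter (fun x : K => x ^ q ^ 3 = x)).image (sw ε g e e1 e2 S))
      ⊆ mu K q := by
    intro s hs
    rw [mem_insert] at hs
    rcases hs with rfl | hs
    · rw [← P.gN, hd_rho h P.hS, div_eq_mul_inv]
      exact hd_mul_mem (hd_pow_mem P.hS _) (hd_inv_mem (hd_pow_mem P.hS _))
    · rw [mem_image] at hs
      obtain ⟨w, hw, hws⟩ := hs
      rw [← hws]
      exact P.sw_mem (hL w hw)
  have hcard : (mu K q).card ≤
      (insert (S / g) ((univ.filter (fun x : K => x ^ q ^ 3 = x)).image (sw ε g e e1 e2 S))).card := by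
    rw [card_insert_of_notMem hnot, card_image_of_injOn hinj, nc_card_L h, card_mu h]
  rw [← eq_of_subset_of_card_le hsub hcard, sum_insert hnot, sum_image hinj]

end par

/-- The evaluation of the character sum at a point of the conic `C_S`. -/
theorem evalB (h : Std K q) {th : K} (hth : th ^ 2 = 3) (hth' : th ^ q = - th)
    {S x : K} (hS : S ∈ mu K q) (hx : InC q th S x) :
    (∑ s ∈ mu K q, chi2 q s * eta q (Rf q th s x) = Fs q S * (q : ℤ) ^ 2) ∨
    (∑ s ∈ mu K q, chi2 q s * eta q (Rf q th s x) = Fs q S * ((q : ℤ) ^ 2 - q)) := by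
  obtain ⟨φ, lam, e, ε, g, e1, e2, P, hxe⟩ := par_exists h hth hth' hS hx
  obtain ⟨ka, kp, a, b, hKA, hacond, ha, hb, hB, hka, hkp⟩ := ev_const P h
  have he3 : φ (φ (φ e)) = e := by rw [P.ee, P.ee2, P.ee1]
  have heT : T3 q e = 0 := by
    unfold T3
    rw [P.f2, P.f4, he3, P.ee, P.ee2]
    linear_combination P.eT
  have hroot := cubic_root h (a := a) (b := b) P.eps0 (by rw [P.f1]; exact P.epsq)
    (by rw [P.f3]; exact he3) heT hacond (by rw [P.f1]; exact ha) (by rw [P.f1]; exact hb)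
  have hcount := norm_count h a b (by rw [P.f1]; exact ha) (by rw [P.f1]; exact hb) hroot
  have hLmem : ∀ w ∈ univ.filter (fun x : K => x ^ q ^ 3 = x), φ (φ (φ w)) = w := by
    intro w hw
    rw [mem_filter, P.f3] at hw
    exact hw.2
  -- the shift
  have hshift : ∑ w ∈ univ.filter (fun x : K => x ^ q ^ 3 = x),
        eta q (Gf a b (w + kp * (e1 - e2)) (φ (φ w) + kp * (e2 - e)) (φ w + kp * (e - e1)))
      = ∑ x ∈ univ.filter (fun x : K => x ^ q ^ 3 = x),
        eta q ((x * x ^ q ^ 2 + x ^ q ^ 2 * x ^ q ^ 4 + x ^ q ^ 4 * x - a) ^ 2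
          - 4 * T3 q x * (N3 q x + b)) := by
    have hsh : φ (φ (φ (kp * (e1 - e2)))) = kp * (e1 - e2) := by
      simp only [map_mul, map_sub, P.ee, P.ee1, P.ee2, hkp]
    refine sum_bij (fun w _ => w + kp * (e1 - e2)) ?_ ?_ ?_ ?_
    · intro w hw
      rw [mem_filter]
      refine ⟨mem_univ _, ?_⟩
      rw [P.f3, map_add, map_add, map_add, hsh, hLmem w hw]
    · intro w _ w' _ hww
      exact add_right_cancel hww
    · intro y hy
      refine ⟨y - kp * (e1 - e2), ?_, by ring⟩
      rw [mem_filter]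
      refine ⟨mem_univ _, ?_⟩
      rw [P.f3, map_sub, map_sub, map_sub, hsh, hLmem y hy]
    · intro w hw
      congr 1
      unfold Gf T3 N3
      simp only [P.f2, P.f4]
      have h1 : φ (φ (w + kp * (e1 - e2))) = φ (φ w) + kp * (e2 - e) := by
        simp only [map_add, map_mul, map_sub, P.ee, P.ee1, P.ee2, hkp]
      have h2 : φ (φ (φ (φ (w + kp * (e1 - e2))))) = φ w + kp * (e - e1) := by
        rw [h1]
        simp only [map_add, map_mul, map_sub, P.ee, P.ee1, P.ee2, hkp, hLmem w hw]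
      rw [h2, h1]
  have hsum : ∑ s ∈ mu K q, chi2 q s * eta q (Rf q th s x)
      = Fs q S * ∑ x ∈ univ.filter (fun x : K => x ^ q ^ 3 = x),
        eta q ((x * x ^ q ^ 2 + x ^ q ^ 2 * x ^ q ^ 4 + x ^ q ^ 4 * x - a) ^ 2
          - 4 * T3 q x * (N3 q x + b)) := by
    rw [ev_mu P h, hxe, ev_zero P, ← hshift, mul_sum]
    have h0 : eta q (0 : K) = 0 := by unfold eta; simp
    rw [h0, mul_zero, zero_add]
    refine sum_congr rfl ?_
    intro w hw
    exact ev_term P h (hLmem w hw) hKA ha hb hB hka hkp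
  rw [hsum]
  rcases hcount with hc | hc
  · left; rw [hc]
  · right; rw [hc]

end Pool.Agent.TH501.Hemi
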