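import Mathlib
import Pool.Agent.TH501.Hemi.Defs
import Pool.Agent.TH501.Hemi.NormCount
import Pool.Agent.TH501.Hemi.Exist
import Pool.Agent.TH501.Hemi.Ops

set_option autoImplicit false

namespace Pool.Agent.TH501.Hemi

open Finset Classical

variable {K : Type} [Field K] [Fintype K] {q : ℕ}

/-! ### the conjugates of `uS` -/

lemma pt_g (h : Std K q) {S : K} (hS : S ∈ mu K q) : N3 q S ≠ 0 ∧ N3 q S ^ q = (N3 q S)⁻¹ := by
  obtain ⟨φ, f1, f2, f3, f4, f6⟩ := ops_frob h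
  obtain ⟨s0, s3⟩ := ops_mu hS
  rw [f3] at s3
  have hg : N3 q S = S * φ (φ S) * φ (φ (φ (φ S))) := by unfold N3; rw [f2, f4]
  have h1 : φ S ≠ 0 := by simpa using s0
  have h2 : φ (φ S) ≠ 0 := by simpa using s0
  have h3 : φ (φ (φ (φ S))) ≠ 0 := by simpa using s0
  refine ⟨by rw [hg]; exact mul_ne_zero (mul_ne_zero s0 h2) h3, ?_⟩
  rw [f1, hg, map_mul, map_mul, s3]
  simp only [map_inv₀]
  field_simp

lemma pt_conj (h : Std K q) {th : K} (hth' : th ^ q = - th) {S lam e : K} (hS : S ∈ mu K q)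
    (hlam : lam ^ q = N3 q S ^ 3 * lam) (he : e ^ q ^ 3 = e) {φ : K →+* K}
    (f1 : ∀ x, x ^ q = φ x) (f2 : ∀ x, x ^ q ^ 2 = φ (φ x)) (f3 : ∀ x, x ^ q ^ 3 = φ (φ (φ x)))
    (f4 : ∀ x, x ^ q ^ 4 = φ (φ (φ (φ x)))) (f6 : ∀ x, φ (φ (φ (φ (φ (φ x))))) = x) :
    uS q th S lam e = lam * N3 q S * Yp th (N3 q S) e (φ (φ e)) (φ e) / S ∧
    φ (φ (uS q th S lam e)) = lam * N3 q S * Yp th (N3 q S) (φ (φ e)) (φ e) e / φ (φ S) ∧
    φ (φ (φ (φ (uS q th S lam e)))) =
      lam * N3 q S * Yp th (N3 q S) (φ e) e (φ (φ e)) / φ (φ (φ (φ S))) ∧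
    φ (φ (φ (uS q th S lam e))) = lam * Zp th (N3 q S) e (φ (φ e)) (φ e) * S ∧
    φ (φ (φ (φ (φ (uS q th S lam e))))) = lam * Zp th (N3 q S) (φ (φ e)) (φ e) e * φ (φ S) ∧
    φ (uS q th S lam e) = lam * Zp th (N3 q S) (φ e) e (φ (φ e)) * φ (φ (φ (φ S))) := by
  obtain ⟨g0, gq⟩ := pt_g h hS
  obtain ⟨s0, s3⟩ := ops_mu hS
  rw [f3] at s3 he
  rw [f1] at hlam hth' gq
  have hu : uS q th S lam e = lam * N3 q S * Yp th (N3 q S) e (φ (φ e)) (φ e) / S := by
    unfold uS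
    rw [f2, f4, he]
  have h1 : φ S ≠ 0 := by simpa using s0
  have h2 : φ (φ S) ≠ 0 := by simpa using s0
  have h3 : φ (φ (φ (φ S))) = (φ S)⁻¹ := by rw [s3, map_inv₀]
  have h5 : φ (φ (φ (φ (φ S)))) = (φ (φ S))⁻¹ := by rw [h3, map_inv₀]
  have k1 : φ (uS q th S lam e) = lam * Zp th (N3 q S) (φ e) e (φ (φ e)) * φ (φ (φ (φ S))) := by
    rw [hu, h3]
    unfold Yp Zp
    simp only [map_mul, map_div₀, map_add, map_sub, map_pow, map_ofNat, hlam, hth', gq, he]
    field_simp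
    ring
  have k2 : φ (φ (uS q th S lam e)) =
      lam * N3 q S * Yp th (N3 q S) (φ (φ e)) (φ e) e / φ (φ S) := by
    rw [k1, h3]
    unfold Yp Zp
    simp only [map_mul, map_add, map_sub, map_pow, map_ofNat, map_inv₀, hlam, hth', gq, he]
    field_simp
    ring
  have k3 : φ (φ (φ (uS q th S lam e))) = lam * Zp th (N3 q S) e (φ (φ e)) (φ e) * S := by
    rw [k2]
    unfold Yp Zp
    simp only [map_mul, map_div₀, map_add, map_sub, map_pow, map_ofNat, map_inv₀, hlam, hth', gq,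
      he, s3]
    field_simp
    ring
  have k4 : φ (φ (φ (φ (uS q th S lam e)))) =
      lam * N3 q S * Yp th (N3 q S) (φ e) e (φ (φ e)) / φ (φ (φ (φ S))) := by
    rw [k3, h3]
    unfold Yp Zp
    simp only [map_mul, map_add, map_sub, map_pow, map_ofNat, map_inv₀, hlam, hth', gq, he]
    field_simp
    ring
  have k5 : φ (φ (φ (φ (φ (uS q th S lam e))))) =
      lam * Zp th (N3 q S) (φ (φ e)) (φ e) e * φ (φ S) := by
    rw [k4, h3]
    unfold Yp Zp
    simp only [map_mul, map_div₀, map_add, map_sub, map_pow, map_ofNat, map_inv₀, hlam, hth', gq,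
      he]
    field_simp
    ring
  exact ⟨hu, k2, k4, k3, k5, k1⟩

lemma pt_Bf (h : Std K q) {th : K} (hth : th ^ 2 = 3) (hth' : th ^ q = - th)
    {S lam e e' : K} (hS : S ∈ mu K q) (hlam : lam ^ q = N3 q S ^ 3 * lam)
    (he : e ^ q ^ 3 = e) (heT : T3 q e = 0) (he' : e' ^ q ^ 3 = e') (heT' : T3 q e' = 0) :
    Bf q (uS q th S lam e) (uS q th S lam e')
      = 4 * lam ^ (q + 1) * (N3 q S + (N3 q S)⁻¹) ^ 2
        * (e ^ q ^ 2 * e' ^ q ^ 4 - e ^ q ^ 4 * e' ^ q ^ 2) ^ 2 := by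
  obtain ⟨φ, f1, f2, f3, f4, f6⟩ := ops_frob h
  obtain ⟨g0, gq⟩ := pt_g h hS
  obtain ⟨s0, s3⟩ := ops_mu hS
  obtain ⟨u0, u1, u2, v0, v1, v2⟩ := pt_conj h hth' hS hlam he f1 f2 f3 f4 f6
  obtain ⟨w0, w1, w2, x0, x1, x2⟩ := pt_conj h hth' hS hlam he' f1 f2 f3 f4 f6
  have h2 : φ (φ S) ≠ 0 := by simpa using s0
  have h4 : φ (φ (φ (φ S))) ≠ 0 := by simpa using s0
  have e4 : φ (φ (φ (φ e))) = φ e := by rw [← f3 e, he]
  have e4' : φ (φ (φ (φ e'))) = φ e' := by rw [← f3 e', he']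
  have hs : φ (φ e) = - e - φ e := by
    unfold T3 at heT
    rw [f2, f4, e4] at heT
    linear_combination heT
  have hs' : φ (φ e') = - e' - φ e' := by
    unfold T3 at heT'
    rw [f2, f4, e4'] at heT'
    linear_combination heT'
  have key : Bf q (uS q th S lam e) (uS q th S lam e') =
      (uS q th S lam e * φ (φ (φ (uS q th S lam e'))) +
        φ (φ (φ (uS q th S lam e))) * uS q th S lam e') +
      (φ (φ (uS q th S lam e)) * φ (φ (φ (φ (φ (uS q th S lam e'))))) +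
        φ (φ (φ (φ (φ (uS q th S lam e))))) * φ (φ (uS q th S lam e'))) +
      (φ (φ (φ (φ (uS q th S lam e)))) * φ (uS q th S lam e') +
        φ (uS q th S lam e) * φ (φ (φ (φ (uS q th S lam e'))))) := by
    unfold Bf T3
    simp only [f2, f3, f4, map_add, map_mul, f6]
  rw [key, v1, x1, u2, w2, v0, x0, u1, w1, v2, x2, u0, w0, f2, f2, f4, f4, e4, e4']
  have m0 : ∀ a b : K, (a / S) * (b * S) = a * b := fun a b => by field_simp
  have m0' : ∀ a b : K, (b * S) * (a / S) = b * a := fun a b => by field_simp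
  have m1 : ∀ a b : K, (a / φ (φ S)) * (b * φ (φ S)) = a * b := fun a b => by field_simp
  have m1' : ∀ a b : K, (b * φ (φ S)) * (a / φ (φ S)) = b * a := fun a b => by field_simp
  have m2 : ∀ a b : K, (a / φ (φ (φ (φ S)))) * (b * φ (φ (φ (φ S)))) = a * b :=
    fun a b => by field_simp
  have m2' : ∀ a b : K, (b * φ (φ (φ (φ S)))) * (a / φ (φ (φ (φ S)))) = b * a :=
    fun a b => by field_simp
  rw [m0, m0', m1, m1', m2, m2', hs, hs']
  have hr : lam ^ (q + 1) * (N3 q S + (N3 q S)⁻¹) ^ 2 =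
      N3 q S * lam ^ 2 * (1 + N3 q S ^ 2) ^ 2 := by
    rw [pow_succ, hlam]
    field_simp
    ring
  have hr' : 4 * lam ^ (q + 1) * (N3 q S + (N3 q S)⁻¹) ^ 2 =
      4 * (N3 q S * lam ^ 2 * (1 + N3 q S ^ 2) ^ 2) := by
    rw [← hr]
    ring
  rw [hr']
  generalize N3 q S = g
  generalize φ e = f
  generalize φ e' = f'
  unfold Yp Zp
  linear_combination (-2 * lam ^ 2 * g ^ 3 * ((e * (-e - 2 * f)) * (e' * (-e' - 2 * f')) +
    ((-e - f) * (f - e)) * ((-e' - f') * (f' - e')) + (f * (2 * e + f)) * (f' * (2 * e' + f')))) * hth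

lemma pt_self (h : Std K q) {x : K} (hx : Bf q x x = 0) : Qf q x = 0 := by
  have h1 : Bf q x x = 2 * Qf q x := by
    unfold Bf Qf T3
    have e1 : x * x ^ q ^ 3 + x ^ q ^ 3 * x = x * x ^ q ^ 3 + x * x ^ q ^ 3 := by ring
    rw [e1, nc_add h, nc_add h]
    ring
  rw [h1] at hx
  exact (mul_eq_zero.1 hx).resolve_left (nc_two h)

lemma pt_T (h : Std K q) {S : K} (hS : S ∈ mu K q) : N3 q S + (N3 q S)⁻¹ ≠ 0 := by
  obtain ⟨g0, gq⟩ := pt_g h hS
  intro h0
  have h1 : N3 q S ^ 2 = -1 := by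
    have h2 : N3 q S * (N3 q S + (N3 q S)⁻¹) = 0 := by rw [h0, mul_zero]
    rw [mul_add, mul_inv_cancel₀ g0] at h2
    linear_combination h2
  have h3 : N3 q S ^ (q + 1) = 1 := by rw [pow_succ, gq, inv_mul_cancel₀ g0]
  have hm := h.mod4
  obtain ⟨j, hj⟩ : ∃ j, q + 1 = 2 * (2 * j + 1) := ⟨(q - 1) / 4, by omega⟩
  rw [hj, pow_mul, h1, Odd.neg_one_pow ⟨j, rfl⟩] at h3
  exact hd_neg_one_ne h h3

lemma pt_ratio (h : Std K q) {e e' : K} (he : e ^ q ^ 3 = e) (he' : e' ^ q ^ 3 = e')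
    (h0 : e' ≠ 0) (hr : e ^ q ^ 2 * e' ^ q ^ 4 - e ^ q ^ 4 * e' ^ q ^ 2 = 0) :
    (e / e') ^ q = e / e' := by
  obtain ⟨φ, f1, f2, f3, f4, f6⟩ := ops_frob h
  rw [f3] at he he'
  rw [f2, f4, f4, f2, he, he'] at hr
  rw [f1]
  have h1 : φ e' ≠ 0 := by simpa using h0
  have h2 : φ (φ e') ≠ 0 := by simpa using h1
  have h3 : φ (φ e / φ e') = φ e / φ e' := by
    rw [map_div₀, div_eq_div_iff h2 h1]
    linear_combination hr
  have h4 : φ (φ (φ e / φ e')) = e / e' := by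
    rw [map_div₀, map_div₀, he, he']
  rw [h3, h3] at h4
  rw [map_div₀, h4]

/-- the nonzero elements of trace zero -/
noncomputable def ptE (K : Type) [Field K] [Fintype K] (q : ℕ) : Finset K :=
  univ.filter (fun e : K => e ≠ 0 ∧ e ^ q ^ 3 = e ∧ T3 q e = 0)

lemma pt_mem_E {e : K} : e ∈ ptE K q ↔ e ≠ 0 ∧ e ^ q ^ 3 = e ∧ T3 q e = 0 := by
  unfold ptE
  rw [mem_filter]
  exact ⟨fun h => h.2, fun h => ⟨mem_univ _, h⟩⟩

lemma pt_card_E (h : Std K q) : (ptE K q).card = q ^ 2 - 1 := by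
  have hq := nc_q h
  have h1 : univ.filter (fun x : K => x ^ q ^ 3 = x ∧ T3 q x = 0) = insert 0 (ptE K q) := by
    ext x
    rw [mem_insert, pt_mem_E, mem_filter]
    constructor
    · rintro ⟨-, h1, h2⟩
      by_cases hx : x = 0
      · exact Or.inl hx
      · exact Or.inr ⟨hx, h1, h2⟩
    · rintro (rfl | ⟨-, h1, h2⟩)
      · refine ⟨mem_univ _, zero_pow (by positivity), ?_⟩
        unfold T3
        rw [zero_pow (by positivity), zero_pow (by positivity)]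
        simp
      · exact ⟨mem_univ _, h1, h2⟩
  have h2 := nc_Tcount h
  rw [h1, card_insert_of_notMem (fun h0 => (pt_mem_E.1 h0).1 rfl)] at h2
  omega

/-- the nonzero elements of the field with `q` elements -/
noncomputable def ptK (K : Type) [Field K] [Fintype K] (q : ℕ) : Finset K :=
  univ.filter (fun b : K => b ≠ 0 ∧ b ^ q = b)

lemma pt_mem_K {b : K} : b ∈ ptK K q ↔ b ≠ 0 ∧ b ^ q = b := by
  unfold ptK
  rw [mem_filter]
  exact ⟨fun h => h.2, fun h => ⟨mem_univ _, h⟩⟩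

lemma pt_card_K (h : Std K q) : (ptK K q).card = q - 1 := by
  have hq := nc_q h
  have h1 : univ.filter (fun x : K => x ^ q = x) = insert 0 (ptK K q) := by
    ext x
    rw [mem_insert, pt_mem_K, mem_filter]
    constructor
    · rintro ⟨-, h1⟩
      by_cases hx : x = 0
      · exact Or.inl hx
      · exact Or.inr ⟨hx, h1⟩
    · rintro (rfl | ⟨-, h1⟩)
      · exact ⟨mem_univ _, zero_pow (by omega)⟩
      · exact ⟨mem_univ _, h1⟩
  have h2 := nc_card_k h
  rw [h1, card_insert_of_notMem (fun h0 => (pt_mem_K.1 h0).1 rfl)] at h2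
  omega

/-- the possible `lam` -/
noncomputable def ptL (K : Type) [Field K] [Fintype K] (q : ℕ) (g : K) : Finset K :=
  univ.filter (fun lam : K => lam ≠ 0 ∧ lam ^ q = g ^ 3 * lam)

lemma pt_mem_L {g lam : K} : lam ∈ ptL K q g ↔ lam ≠ 0 ∧ lam ^ q = g ^ 3 * lam := by
  unfold ptL
  rw [mem_filter]
  exact ⟨fun h => h.2, fun h => ⟨mem_univ _, h⟩⟩

lemma pt_card_L (h : Std K q) {S : K} (hS : S ∈ mu K q) :
    (ptL K q (N3 q S)).card = q - 1 := by
  have hq := nc_q h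
  obtain ⟨g0, gq⟩ := pt_g h hS
  have h3 : N3 q S ^ (q + 1) = 1 := by rw [pow_succ, gq, inv_mul_cancel₀ g0]
  have h1 : ptL K q (N3 q S) = univ.filter (fun x : K => x ^ (q - 1) = N3 q S ^ 3) := by
    ext x
    rw [pt_mem_L, mem_filter]
    have e : q = (q - 1) + 1 := by omega
    constructor
    · rintro ⟨h1, h2⟩
      refine ⟨mem_univ _, ?_⟩
      rw [e, pow_succ] at h2
      rw [← e] at h2
      exact mul_right_cancel₀ h1 h2
    · rintro ⟨-, h2⟩
      have hx : x ≠ 0 := by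
        rintro rfl
        rw [zero_pow (by omega)] at h2
        exact pow_ne_zero 3 g0 h2.symm
      refine ⟨hx, ?_⟩
      calc x ^ q = x ^ (q - 1) * x := by rw [← pow_succ, ← e]
        _ = _ := by rw [h2]
  rw [h1]
  refine (nc_roots h (q - 1) ((q + 1) * (q ^ 4 + q ^ 2 + 1)) ?_).2 _ ?_
  · obtain ⟨r, rfl⟩ : ∃ r, q = r + 1 := ⟨q - 1, by omega⟩
    rw [Nat.add_sub_cancel]
    apply (Nat.sub_eq_of_eq_add _).symm
    ring
  · rw [pow_mul, ← pow_mul (N3 q S) 3 (q + 1), mul_comm 3 (q + 1), pow_mul, h3, one_pow, one_pow]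

/-- equal points up to a scalar: the ratio of the parameters is in the small field -/
lemma pt_prop (h : Std K q) {th : K} (hth : th ^ 2 = 3) (hth' : th ^ q = - th)
    {S lam e e' : K} (hS : S ∈ mu K q) (hlam0 : lam ≠ 0) (hlam : lam ^ q = N3 q S ^ 3 * lam)
    (he : e ∈ ptE K q) (he' : e' ∈ ptE K q)
    (hB : Bf q (uS q th S lam e) (uS q th S lam e') = 0) : (e / e') ^ q = e / e' := by
  rw [pt_mem_E] at he he'
  rw [pt_Bf h hth hth' hS hlam he.2.1 he.2.2 he'.2.1 he'.2.2] at hB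
  have h2 := nc_two h
  have h4 : (4 : K) ≠ 0 := by
    have : (4 : K) = 2 * 2 := by norm_num
    rw [this]
    exact mul_ne_zero h2 h2
  have hT := pt_T h hS
  have h5 : 4 * lam ^ (q + 1) * (N3 q S + (N3 q S)⁻¹) ^ 2 ≠ 0 :=
    mul_ne_zero (mul_ne_zero h4 (pow_ne_zero _ hlam0)) (pow_ne_zero _ hT)
  have h6 := (mul_eq_zero.1 hB).resolve_left h5
  exact pt_ratio h he.2.1 he'.2.1 he'.1 (pow_eq_zero_iff (two_ne_zero)|>.1 h6)

lemma pt_ne (h : Std K q) {th : K} (hth : th ^ 2 = 3) (hth' : th ^ q = - th)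
    {S lam e : K} (hS : S ∈ mu K q) (hlam0 : lam ≠ 0) (hlam : lam ^ q = N3 q S ^ 3 * lam)
    (he : e ∈ ptE K q) : uS q th S lam e ≠ 0 := by
  intro h0
  have hq := nc_q h
  have h1 : ∀ e' ∈ ptE K q, (e' / e) ∈ ptK K q := by
    intro e' he'
    have h2 : Bf q (uS q th S lam e') (uS q th S lam e) = 0 := by
      rw [h0]
      unfold Bf T3
      have h3 : (0 : K) ^ q ^ 3 = 0 := zero_pow (by positivity)
      have h4 : (0 : K) ^ q ^ 2 = 0 := zero_pow (by positivity)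
      have h5 : (0 : K) ^ q ^ 4 = 0 := zero_pow (by positivity)
      rw [h3, mul_zero, mul_zero, add_zero, h4, h5]
      ring
    exact pt_mem_K.2 ⟨div_ne_zero (pt_mem_E.1 he').1 (pt_mem_E.1 he).1,
      pt_prop h hth hth' hS hlam0 hlam he' he h2⟩
  have h2 : (ptE K q).card ≤ (ptK K q).card := by
    refine card_le_card_of_injOn (fun e' => e' / e) (fun e' he' => h1 e' he') ?_
    intro x _ y _ hxy
    exact (div_left_inj' (pt_mem_E.1 he).1).1 hxy
  rw [pt_card_E h, pt_card_K h] at h2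
  have h3 : q < q ^ 2 := by nlinarith
  omega

lemma pt_sing (h : Std K q) {th : K} (hth : th ^ 2 = 3) (hth' : th ^ q = - th)
    {S lam e : K} (hS : S ∈ mu K q) (hlam : lam ^ q = N3 q S ^ 3 * lam)
    (he : e ∈ ptE K q) : Qf q (uS q th S lam e) = 0 := by
  apply pt_self h
  rw [pt_mem_E] at he
  rw [pt_Bf h hth hth' hS hlam he.2.1 he.2.2 he.2.1 he.2.2]
  ring

lemma pt_mem_C {th S x : K} : InC q th S x ↔ ∃ lam ∈ ptL K q (N3 q S), ∃ e ∈ ptE K q,
    x = uS q th S lam e := by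
  unfold InC
  constructor
  · rintro ⟨lam, e, h1, h2, h3, h4, h5, h6⟩
    exact ⟨lam, pt_mem_L.2 ⟨h1, h2⟩, e, pt_mem_E.2 ⟨h3, h4, h5⟩, h6⟩
  · rintro ⟨lam, h1, e, h2, h3⟩
    obtain ⟨h1, h1'⟩ := pt_mem_L.1 h1
    obtain ⟨h4, h5, h6⟩ := pt_mem_E.1 h2
    exact ⟨lam, e, h1, h1', h4, h5, h6, h3⟩

lemma pt_fix {b : K} (hb : b ^ q = b) (j : ℕ) : b ^ q ^ j = b := by
  induction j with
  | zero => simp
  | succ j ih => rw [pow_succ, pow_mul, ih, hb]

lemma pt_scale {th S lam e b : K} (hb : b ^ q = b) :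
    uS q th S lam (b * e) = b ^ 2 * uS q th S lam e := by
  unfold uS Yp
  rw [mul_pow, mul_pow, pt_fix hb, pt_fix hb]
  ring

lemma pt_scale' {th S lam e c : K} : uS q th S (c * lam) e = c * uS q th S lam e := by
  unfold uS
  ring

lemma pt_scaleL {g lam c : K} (hc0 : c ≠ 0) (hc : c ^ q = c) (hlam : lam ∈ ptL K q g) :
    c * lam ∈ ptL K q g := by
  rw [pt_mem_L] at hlam ⊢
  refine ⟨mul_ne_zero hc0 hlam.1, ?_⟩
  rw [mul_pow, hc, hlam.2]
  ring

lemma pt_scaleE (h : Std K q) {e b : K} (hb0 : b ≠ 0) (hb : b ^ q = b) (he : e ∈ ptE K q) :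
    b * e ∈ ptE K q := by
  rw [pt_mem_E] at he ⊢
  refine ⟨mul_ne_zero hb0 he.1, by rw [mul_pow, pt_fix hb, he.2.1], ?_⟩
  have h1 := he.2.2
  unfold T3 at h1 ⊢
  rw [mul_pow, mul_pow, pt_fix hb, pt_fix hb]
  linear_combination b * h1

lemma pt_fibre (h : Std K q) {th : K} (hth : th ^ 2 = 3) (hth' : th ^ q = - th)
    {S lam e : K} (hS : S ∈ mu K q) (hlam : lam ∈ ptL K q (N3 q S)) (he : e ∈ ptE K q) :
    (((ptL K q (N3 q S)) ×ˢ (ptE K q)).filter
      (fun p => uS q th S p.1 p.2 = uS q th S lam e)).card = q - 1 := by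
  have hlam' := pt_mem_L.1 hlam
  have he' := pt_mem_E.1 he
  have hu0 := pt_ne h hth hth' hS hlam'.1 hlam'.2 he
  have h1 : ((ptL K q (N3 q S)) ×ˢ (ptE K q)).filter
      (fun p => uS q th S p.1 p.2 = uS q th S lam e) =
      (ptK K q).image (fun b => ((b ^ 2)⁻¹ * lam, b * e)) := by
    ext ⟨l, f⟩
    simp only [mem_filter, mem_product, mem_image, Prod.mk.injEq]
    constructor
    · rintro ⟨⟨hl, hf⟩, hu⟩
      have hl' := pt_mem_L.1 hl
      have hf' := pt_mem_E.1 hf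
      -- `l = c lam`
      have hc0 : l / lam ≠ 0 := div_ne_zero hl'.1 hlam'.1
      have hc : (l / lam) ^ q = l / lam := by
        obtain ⟨g0, gq⟩ := pt_g h hS
        rw [div_pow, hl'.2, hlam'.2]
        have := pow_ne_zero 3 g0
        have := hlam'.1
        field_simp
      have hlc : l = (l / lam) * lam := by
        rw [div_mul_cancel₀ _ hlam'.1]
      have hu2 : uS q th S lam f = (l / lam)⁻¹ * uS q th S lam e := by
        rw [← hu]
        conv_rhs => rw [hlc, pt_scale']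
        have := hlam'.1
        have := hl'.1
        field_simp
      have hc' : ((l / lam)⁻¹) ^ q = (l / lam)⁻¹ := by rw [inv_pow, hc]
      have hB : Bf q (uS q th S lam f) (uS q th S lam e) = 0 := by
        rw [hu2]
        have hQ := pt_sing h hth hth' hS hlam'.2 he
        have e1 : Bf q ((l / lam)⁻¹ * uS q th S lam e) (uS q th S lam e) =
            2 * (l / lam)⁻¹ * Qf q (uS q th S lam e) := by
          unfold Bf Qf T3
          rw [mul_pow, pt_fix hc']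
          have e2 : (l / lam)⁻¹ * uS q th S lam e * uS q th S lam e ^ q ^ 3 +
              (l / lam)⁻¹ * uS q th S lam e ^ q ^ 3 * uS q th S lam e =
              (2 * (l / lam)⁻¹) * (uS q th S lam e * uS q th S lam e ^ q ^ 3) := by ring
          have h2f : (2 * (l / lam)⁻¹) ^ q = 2 * (l / lam)⁻¹ := by
            rw [mul_pow, hc', nc_twok h]
          rw [e2, mul_pow (2 * (l / lam)⁻¹), mul_pow (2 * (l / lam)⁻¹), pt_fix h2f, pt_fix h2f]
          ring
        rw [e1, hQ, mul_zero]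
      have hb := pt_prop h hth hth' hS hlam'.1 hlam'.2 hf he hB
      have hb0 : f / e ≠ 0 := div_ne_zero hf'.1 he'.1
      have hfe : (f / e) * e = f := by rw [div_mul_cancel₀ _ he'.1]
      refine ⟨f / e, pt_mem_K.2 ⟨hb0, hb⟩, ?_, hfe⟩
      -- the scalar
      have h3 : uS q th S lam f = (f / e) ^ 2 * uS q th S lam e := by
        conv_lhs => rw [← hfe]
        exact pt_scale hb
      rw [h3] at hu2
      have h4 := mul_right_cancel₀ hu0 hu2
      rw [h4, inv_inv, ← hlc]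
    · rintro ⟨b, hb, rfl, rfl⟩
      obtain ⟨hb0, hbq⟩ := pt_mem_K.1 hb
      have hc : ((b ^ 2)⁻¹) ^ q = (b ^ 2)⁻¹ := by
        rw [inv_pow, ← pow_mul, mul_comm, pow_mul, hbq]
      have hc0 : (b ^ 2)⁻¹ ≠ 0 := inv_ne_zero (pow_ne_zero 2 hb0)
      refine ⟨⟨pt_scaleL hc0 hc hlam, pt_scaleE h hb0 hbq he⟩, ?_⟩
      rw [pt_scale', pt_scale hbq]
      field_simp
  rw [h1, card_image_of_injOn, pt_card_K h]
  intro b _ b' _ hbb
  simp only [Prod.mk.injEq] at hbb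
  exact mul_right_cancel₀ he'.1 hbb.2

theorem card_InC (h : Std K q) {th : K} (hth : th ^ 2 = 3) (hth' : th ^ q = - th)
    {S : K} (hS : S ∈ mu K q) :
    (univ.filter (fun x : K => InC q th S x)).card = q ^ 2 - 1 := by
  have hq := nc_q h
  have hcard := card_eq_sum_card_fiberwise (s := (ptL K q (N3 q S)) ×ˢ (ptE K q))
    (t := univ.filter (fun x : K => InC q th S x)) (f := fun p => uS q th S p.1 p.2) (by
      rintro ⟨l, e⟩ hp
      rw [mem_coe, mem_product] at hp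
      rw [mem_coe, mem_filter]
      exact ⟨mem_univ _, pt_mem_C.2 ⟨l, hp.1, e, hp.2, rfl⟩⟩)
  have hsum : ∀ x ∈ univ.filter (fun x : K => InC q th S x),
      (((ptL K q (N3 q S)) ×ˢ (ptE K q)).filter (fun p => uS q th S p.1 p.2 = x)).card =
      q - 1 := by
    intro x hx
    rw [mem_filter] at hx
    obtain ⟨l, hl, e, he, rfl⟩ := pt_mem_C.1 hx.2
    exact pt_fibre h hth hth' hS hl he
  rw [sum_congr rfl hsum, sum_const, smul_eq_mul, card_product, pt_card_L h hS, pt_card_E h,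
    mul_comm] at hcard
  exact (Nat.eq_of_mul_eq_mul_right (by omega) hcard).symm

theorem card_sing (h : Std K q) :
    (univ.filter (fun x : K => x ≠ 0 ∧ Qf q x = 0)).card = (q ^ 3 + 1) * (q ^ 2 - 1) := by
  have hq := nc_q h
  have hq3 : 1 < q ^ 3 := Nat.one_lt_pow (by norm_num) (by omega)
  have hQ : ∀ x : K, Qf q x = T3 q (x ^ (q ^ 3 + 1)) := fun x => by
    unfold Qf
    rw [pow_succ' x (q ^ 3)]
  have hL : ∀ x : K, (x ^ (q ^ 3 + 1)) ^ q ^ 3 = x ^ (q ^ 3 + 1) := fun x => by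
    have h1 : (x ^ q ^ 3) ^ q ^ 3 = x := by
      rw [← pow_mul, ← pow_add]
      exact nc_card h x
    rw [pow_succ, mul_pow, h1]
    ring
  have hcard := card_eq_sum_card_fiberwise (s := univ.filter (fun x : K => x ≠ 0 ∧ Qf q x = 0))
    (t := ptE K q) (f := fun x => x ^ (q ^ 3 + 1)) (by
      intro x hx
      rw [mem_coe, mem_filter] at hx
      rw [mem_coe, pt_mem_E]
      exact ⟨pow_ne_zero _ hx.2.1, hL x, by rw [← hQ]; exact hx.2.2⟩)
  have hsum : ∀ y ∈ ptE K q, ((univ.filter (fun x : K => x ≠ 0 ∧ Qf q x = 0)).filter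
      (fun x => x ^ (q ^ 3 + 1) = y)).card = q ^ 3 + 1 := by
    intro y hy
    obtain ⟨hy0, hy3, hyT⟩ := pt_mem_E.1 hy
    have h1 : (univ.filter (fun x : K => x ≠ 0 ∧ Qf q x = 0)).filter
        (fun x => x ^ (q ^ 3 + 1) = y) = univ.filter (fun x : K => x ^ (q ^ 3 + 1) = y) := by
      ext x
      simp only [mem_filter, mem_univ, true_and]
      constructor
      · exact fun h => h.2
      · intro h2
        refine ⟨⟨?_, by rw [hQ, h2]; exact hyT⟩, h2⟩
        rintro rfl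
        rw [zero_pow (by omega)] at h2
        exact hy0 h2.symm
    rw [h1]
    refine (nc_roots h (q ^ 3 + 1) (q ^ 3 - 1) ?_).2 y ((nc_fix (q ^ 3) hq3 y hy0).1 hy3)
    obtain ⟨r, hr⟩ : ∃ r, q ^ 3 = r + 1 := ⟨q ^ 3 - 1, by omega⟩
    have h6 : q ^ 6 = (q ^ 3) ^ 2 := by ring
    rw [h6, hr, Nat.add_sub_cancel]
    apply (Nat.sub_eq_of_eq_add _).symm
    ring
  rw [hcard, sum_congr rfl hsum, sum_const, smul_eq_mul, pt_card_E h, mul_comm]

/-- given `InC_disjoint` (helper501) -/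
theorem partition (h : Std K q) {th : K} (hth : th ^ 2 = 3) (hth' : th ^ q = - th)
    (hdis : ∀ S S' x : K, S ∈ mu K q → S' ∈ mu K q → InC q th S x → InC q th S' x → S = S')
    {x : K} (hx0 : x ≠ 0) (hx : Qf q x = 0) : ∃! S : K, S ∈ mu K q ∧ InC q th S x := by
  have h1 : (mu K q).biUnion (fun S => univ.filter (fun x : K => InC q th S x)) ⊆
      univ.filter (fun x : K => x ≠ 0 ∧ Qf q x = 0) := by
    intro y hy
    obtain ⟨S, hS, hy⟩ := mem_biUnion.1 hy
    rw [mem_filter] at hy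
    obtain ⟨l, hl, e, he, rfl⟩ := pt_mem_C.1 hy.2
    have hl' := pt_mem_L.1 hl
    exact mem_filter.2 ⟨mem_univ _, pt_ne h hth hth' hS hl'.1 hl'.2 he,
      pt_sing h hth hth' hS hl'.2 he⟩
  have h2 : ((mu K q).biUnion (fun S => univ.filter (fun x : K => InC q th S x))).card =
      (q ^ 3 + 1) * (q ^ 2 - 1) := by
    rw [card_biUnion]
    · rw [sum_congr rfl (fun S hS => card_InC h hth hth' hS), sum_const, smul_eq_mul, card_mu h]
    · intro S hS S' hS' hne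
      refine disjoint_left.2 fun y hy hy' => ?_
      rw [mem_filter] at hy hy'
      exact hne (hdis S S' y hS hS' hy.2 hy'.2)
  have h3 := eq_of_subset_of_card_le h1 (by rw [h2, card_sing h])
  have h4 : x ∈ univ.filter (fun x : K => x ≠ 0 ∧ Qf q x = 0) :=
    mem_filter.2 ⟨mem_univ _, hx0, hx⟩
  rw [← h3] at h4
  obtain ⟨S, hS, hxS⟩ := mem_biUnion.1 h4
  rw [mem_filter] at hxS
  exact ⟨S, ⟨hS, hxS.2⟩, fun S' hS' => hdis S' S x hS'.1 hS hS'.2 hxS.2⟩

end Pool.Agent.TH501.Hemi
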