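import Mathlib
import Pool.Agent.TH501.Hemi.EvalB
import Pool.Agent.TH501.Hemi.Part

set_option autoImplicit false

namespace Pool.Agent.TH501.Hemi

open Finset Classical

variable {K : Type} [Field K] [Fintype K] {q : ℕ}

theorem Fs_eq (h : Std K q) {S : K} (hS : S ∈ mu K q) : Fs q S = 1 ∨ Fs q S = -1 := by
  obtain ⟨hg0, hgq, hk⟩ := pr_g h hS
  have hT : N3 q S + (N3 q S)⁻¹ ≠ 0 := by
    intro h0
    apply hk
    field_simp at h0
    linear_combination h0
  unfold Fs chi2 eta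
  rw [if_neg hT]
  split_ifs <;> simp

/-- The quartic form `Φ_s`. -/
def Phip (th N y0 y1 y2 z0 z1 z2 : K) : K :=
  y0 ^ 2 - 4 * N * z1 * z2 - 2 * th * (y1 * z1 - y2 * z2) + 4 * N⁻¹ * y1 * y2 - z0 ^ 2

/-- `Φ_s(u)`. -/
def Phi (q : ℕ) (th s u : K) : K :=
  Phip th (N3 q s) (s * u) ((s * u) ^ q ^ 2) ((s * u) ^ q ^ 4)
    (u ^ q ^ 3 / s) ((u ^ q ^ 3 / s) ^ q ^ 2) ((u ^ q ^ 3 / s) ^ q ^ 4)

section par

variable {φ : K →+* K} {th S lam e ε g e1 e2 : K}

theorem dj_N (P : Par q φ th S lam e ε g e1 e2) : N3 q (S / g) = (g ^ 2)⁻¹ := by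
  have hg0 := P.g0
  have hS0 := P.S0
  have hS0' : φ (φ S) ≠ 0 := by simpa using hS0
  have hS0'' : φ (φ (φ (φ S))) ≠ 0 := by simpa using hS0
  have h1 := P.gN
  unfold N3 at h1 ⊢
  rw [P.f2, P.f4] at h1 ⊢
  simp only [map_div₀, map_inv₀, P.gq, inv_inv]
  field_simp
  rw [h1]

theorem dj_y (P : Par q φ th S lam e ε g e1 e2) :
    S / g * (lam * g * Yp th g e e1 e2 / S) = lam * Yp th g e e1 e2 := by
  have hg0 := P.g0
  have hS0 := P.S0
  field_simp

theorem dj_z (P : Par q φ th S lam e ε g e1 e2) :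
    (lam * g * Yp th g e e1 e2 / S) ^ q ^ 3 / (S / g) = lam * g * Zp th g e e1 e2 := by
  have hg0 := P.g0
  have hS0 := P.S0
  rw [P.f3]
  unfold Yp Zp
  simp only [map_div₀, map_mul, map_sub, map_add, map_pow, P.lamq, P.gq, P.S3, P.ee, P.ee1, P.ee2,
    P.thq, map_inv₀, inv_inv, map_neg, neg_neg, map_ofNat]
  field_simp
  ring

theorem dj_Y1 (P : Par q φ th S lam e ε g e1 e2) :
    φ (φ (Yp th g e e1 e2)) = Yp th g e1 e2 e := by
  unfold Yp
  simp only [map_mul, map_sub, map_pow, P.gq, P.ee, P.ee1, P.ee2,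
    P.thq, map_inv₀, inv_inv, map_neg, neg_neg, map_ofNat, map_add]

theorem dj_Y2 (P : Par q φ th S lam e ε g e1 e2) :
    φ (φ (Yp th g e1 e2 e)) = Yp th g e2 e e1 := by
  unfold Yp
  simp only [map_mul, map_sub, map_add, map_pow, P.gq, P.ee, P.ee1, P.ee2,
    P.thq, map_inv₀, inv_inv, map_neg, neg_neg, map_ofNat]

theorem dj_Z1 (P : Par q φ th S lam e ε g e1 e2) :
    φ (φ (Zp th g e e1 e2)) = Zp th g e1 e2 e := by
  unfold Zp
  simp only [map_mul, map_sub, map_add, map_pow, P.gq, P.ee, P.ee1, P.ee2,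
    P.thq, map_inv₀, inv_inv, map_neg, neg_neg, map_ofNat]

theorem dj_Z2 (P : Par q φ th S lam e ε g e1 e2) :
    φ (φ (Zp th g e1 e2 e)) = Zp th g e2 e e1 := by
  unfold Zp
  simp only [map_mul, map_sub, map_add, map_pow, P.gq, P.ee, P.ee1, P.ee2,
    P.thq, map_inv₀, inv_inv, map_neg, neg_neg, map_ofNat]

/-- The point is an eigenvector. -/
theorem dj_eigen (P : Par q φ th S lam e ε g e1 e2) :
    Af q th (S / g) (lam * g * Yp th g e e1 e2 / S)
      = - 2 * (g + g⁻¹) * (lam * g * Yp th g e e1 e2 / S) := by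
  have hg0 := P.g0
  have hS0 := P.S0
  unfold Af
  rw [dj_N P, dj_y P, dj_z P]
  simp only [P.f2, P.f4, map_mul, P.lam2, P.g2, dj_Y1 P, dj_Y2 P, dj_Z1 P, dj_Z2 P]
  unfold Ap
  have h0 : e = -e1 - e2 := by linear_combination P.eT
  have hth := P.th2
  have hid : 2 * Zp th g e e1 e2 - (2 + g ^ 2) * (Zp th g e1 e2 e + Zp th g e2 e e1)
      - th * g * (Yp th g e1 e2 e - Yp th g e2 e e1) + 2 * (g ^ 2 + 1) * Yp th g e e1 e2 = 0 := by
    unfold Yp Zp
    rw [h0]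
    linear_combination (-g ^ 2 * e1 ^ 2 - 4 * g ^ 2 * e1 * e2 - g ^ 2 * e2 ^ 2) * hth
  field_simp
  linear_combination lam * hid

/-- `Φ` vanishes at `s = S/g`. -/
theorem dj_phi0 (P : Par q φ th S lam e ε g e1 e2) :
    Phi q th (S / g) (lam * g * Yp th g e e1 e2 / S) = 0 := by
  have hg0 := P.g0
  have hS0 := P.S0
  unfold Phi
  rw [dj_N P, dj_y P, dj_z P]
  simp only [P.f2, P.f4, map_mul, P.lam2, P.g2, dj_Y1 P, dj_Y2 P, dj_Z1 P, dj_Z2 P]
  have hid := phi_zero (th := th) (g := g) (e0 := e) (e1 := e1) (e2 := e2) P.th2 P.eT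
  unfold Phip
  field_simp
  linear_combination lam ^ 2 * hid

/-- `Φ` at `s = s(w)`. -/
theorem dj_phi (P : Par q φ th S lam e ε g e1 e2) {w : K} (hw : φ (φ (φ w)) = w)
    (h0 : Phi q th (sw ε g e e1 e2 S w) (lam * g * Yp th g e e1 e2 / S) = 0) :
    CW th g e e1 e2 (g * ε * w) = 0 := by
  have hg0 := P.g0
  have hS0 := P.S0
  have hl0 := P.lam0
  have hS0' : φ (φ S) ≠ 0 := by simpa using hS0
  have hS0'' : φ (φ (φ (φ S))) ≠ 0 := by simpa using hS0
  have hd0 := P.d0 hw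
  have hn0 := P.n0 hw
  obtain ⟨t0, ht0⟩ : ∃ t0, t0 = nn ε g e e1 e2 w / dd ε g e e1 e2 w := ⟨_, rfl⟩
  have ht00 : t0 ≠ 0 := by rw [ht0]; exact div_ne_zero hn0 hd0
  have ht10 : φ (φ t0) ≠ 0 := by simpa using ht00
  have ht20 : φ (φ (φ (φ t0))) ≠ 0 := by simpa using ht00
  have ht3 : φ (φ (φ t0)) = t0⁻¹ := by
    rw [ht0]
    simp only [map_div₀, P.nbar hw, P.dbar hw]
    field_simp
  have hsw : sw ε g e e1 e2 S w = t0 * (S / g) := by rw [ht0]; rfl
  have hN : N3 q (t0 * (S / g)) = t0 * φ (φ t0) * φ (φ (φ (φ t0))) / g ^ 2 := by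
    have h1 := P.gN
    unfold N3 at h1 ⊢
    rw [P.f2, P.f4] at h1 ⊢
    simp only [map_mul, map_div₀, P.gq, map_inv₀, inv_inv]
    rw [eq_div_iff (pow_ne_zero 2 hg0)]
    field_simp
    linear_combination h1
  have hy : t0 * (S / g) * (lam * g * Yp th g e e1 e2 / S) = lam * t0 * Yp th g e e1 e2 := by
    field_simp
  have hz : (lam * g * Yp th g e e1 e2 / S) ^ q ^ 3 / (t0 * (S / g))
      = lam * g * Zp th g e e1 e2 / t0 := by
    rw [mul_comm t0, ← div_div, dj_z P]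
  rw [hsw] at h0
  unfold Phi at h0
  rw [hN, hy, hz] at h0
  simp only [P.f2, P.f4] at h0
  simp only [map_mul, map_div₀, P.lam2, dj_Y1 P, dj_Y2 P, dj_Z1 P, dj_Z2 P, P.g2] at h0
  have hid := phi_identity (th := th) (g := g) (e0 := e) (e1 := e1) (e2 := e2)
    (W0 := g * ε * w) P.th2 P.eT
  have hd : e * (g * ε * w) - e1 * e2 = dd ε g e e1 e2 w := rfl
  have hn : e * (g * ε * w) + g ^ 2 * (e1 * e2) = nn ε g e e1 e2 w := rfl
  rw [hd, hn] at hid
  -- multiply by n^2 d^2 / lam^2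
  have hnt : nn ε g e e1 e2 w = t0 * dd ε g e e1 e2 w := by
    rw [ht0]; field_simp
  rw [hnt] at hid
  have hmul : Phip th (t0 * φ (φ t0) * φ (φ (φ (φ t0))) / g ^ 2) (lam * t0 * Yp th g e e1 e2)
      (lam * φ (φ t0) * Yp th g e1 e2 e) (lam * φ (φ (φ (φ t0))) * Yp th g e2 e e1)
      (lam * g * Zp th g e e1 e2 / t0) (lam * g * Zp th g e1 e2 e / φ (φ t0))
      (lam * g * Zp th g e2 e e1 / φ (φ (φ (φ t0)))) * (t0 ^ 2 * dd ε g e e1 e2 w ^ 4)
      = lam ^ 2 * ((1 + g ^ 2) ^ 4 * (e * e1 * e2) ^ 3 * CW th g e e1 e2 (g * ε * w)) := by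
    rw [← hid]
    unfold Phip
    field_simp
  rw [h0, zero_mul] at hmul
  have h5 : lam ^ 2 * ((1 + g ^ 2) ^ 4 * (e * e1 * e2) ^ 3) ≠ 0 :=
    mul_ne_zero (pow_ne_zero _ hl0) (mul_ne_zero (pow_ne_zero _ P.k0)
      (pow_ne_zero _ (mul_ne_zero (mul_ne_zero P.e00 P.e10) P.e20)))
  have h6 : lam ^ 2 * ((1 + g ^ 2) ^ 4 * (e * e1 * e2) ^ 3) * CW th g e e1 e2 (g * ε * w) = 0 := by
    rw [hmul]; ring
  rcases mul_eq_zero.1 h6 with h7 | h7
  · exact absurd h7 h5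
  · exact h7

theorem dj_surj (P : Par q φ th S lam e ε g e1 e2) (h : Std K q) {s : K} (hs : s ∈ mu K q)
    (hne : s ≠ S / g) : ∃ w : K, φ (φ (φ w)) = w ∧ s = sw ε g e e1 e2 S w := by
  by_contra hcon
  push Not at hcon
  have h1 := ev_mu P h (fun t => if t = s then (1 : ℤ) else 0)
  rw [sum_ite_eq' (mu K q) s, if_pos hs, if_neg (Ne.symm hne)] at h1
  have h2 : ∑ w ∈ univ.filter (fun x : K => x ^ q ^ 3 = x),
      (if sw ε g e e1 e2 S w = s then (1 : ℤ) else 0) = 0 := by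
    apply sum_eq_zero
    intro w hw
    rw [mem_filter, P.f3] at hw
    rw [if_neg]
    exact fun h3 => hcon w hw.2 h3.symm
  rw [h2] at h1
  norm_num at h1

/-- If `s(w)` is a zero of `Φ` then it is a non-square. -/
theorem dj_chi (P : Par q φ th S lam e ε g e1 e2) (h : Std K q) {w : K} (hw : φ (φ (φ w)) = w)
    (h0 : CW th g e e1 e2 (g * ε * w) = 0) : chi2 q (sw ε g e e1 e2 S w) = -1 := by
  obtain ⟨ka, kp, a, b, hKA, hacond, ha, hb, hB, hka, hkp⟩ := ev_const P h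
  have hg0 := P.g0
  have hε0 := P.eps0
  have h4 := pr_four h
  have he3 : φ (φ (φ e)) = e := by rw [P.ee, P.ee2, P.ee1]
  have heT : T3 q e = 0 := by
    unfold T3
    rw [P.f2, P.f4, he3, P.ee, P.ee2]
    linear_combination P.eT
  obtain ⟨r, ⟨hr1, hr2⟩, -⟩ := cubic_root h (a := a) (b := b) P.eps0 (by rw [P.f1]; exact P.epsq)
    (by rw [P.f3]; exact he3) heT hacond (by rw [P.f1]; exact ha) (by rw [P.f1]; exact hb)
  rw [P.f1] at hr1
  obtain ⟨x0, hx0⟩ : ∃ x0, x0 = w + kp * (e1 - e2) := ⟨_, rfl⟩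
  have hx3 : φ (φ (φ x0)) = x0 := by
    rw [hx0]
    simp only [map_add, map_mul, map_sub, P.ee, P.ee1, P.ee2, hkp, hw]
  have hcub : x0 ^ 3 + a * x0 + b = 0 := by
    rw [CW_nf P.th2 P.eT hKA, hB, hka] at h0
    have h5 : (4 * (g * ε) ^ 3) * (x0 ^ 3 + a * x0 + b) = 0 := by
      rw [← h0, hx0]; ring
    rcases mul_eq_zero.1 h5 with h6 | h6
    · exfalso
      exact mul_ne_zero h4 (pow_ne_zero 3 (mul_ne_zero hg0 hε0)) h6
    · exact h6
  have hxr : x0 = r := by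
    apply cubic_inj h (a := a) P.eps0 (by rw [P.f1]; exact P.epsq)
      (by rw [P.f3]; exact he3) heT hacond (by rw [P.f3]; exact hx3)
      (by rw [P.f3, hr1, hr1, hr1])
    linear_combination hcub - hr2
  have hxk : φ x0 = x0 := by rw [hxr]; exact hr1
  have hd0 := P.d0 hw
  obtain ⟨d, hd⟩ : ∃ d, d = dd ε g e e1 e2 w := ⟨_, rfl⟩
  rw [← hd] at hd0
  have hdw : d = e * (g * ε * x0 - g * ka * (e1 - e2)) - e1 * e2 := by
    rw [hd, hx0, hka]; unfold dd; ring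
  have hd1 : φ (φ d) = e1 * (g * ε * x0 - g * ka * (e2 - e)) - e2 * e := by
    rw [hdw, hka]
    simp only [map_sub, map_mul, P.ee, P.ee1, P.ee2, P.gq, map_inv₀, inv_inv, P.epsq, map_neg,
      neg_neg, hxk, hkp]
  have hd2 : φ (φ (φ (φ d))) = e2 * (g * ε * x0 - g * ka * (e - e1)) - e * e1 := by
    rw [hd1, hka]
    simp only [map_sub, map_mul, P.ee, P.ee1, P.ee2, P.gq, map_inv₀, inv_inv, P.epsq, map_neg,
      neg_neg, hxk, hkp]
  have hprod := prod_nf (X := g * ε * x0) P.th2 P.eT hKA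
  rw [← hdw, ← hd2, ← hd1, hB] at hprod
  obtain ⟨D, hD⟩ : ∃ D, D = d * φ (φ d) * φ (φ (φ (φ d))) := ⟨_, rfl⟩
  rw [← hD] at hprod
  have hD0 : D ≠ 0 := by rw [hD]; simp [hd0]
  obtain ⟨V, hV⟩ : ∃ V, V = 2 * (e * e1 + e1 * e2 + e2 * e) * (g * ε * x0)
      + ((2 - g ^ 2) * (e * e1 * e2) - g * ka * ((e1 - e2) * (e2 - e) * (e - e1))) := ⟨_, rfl⟩
  rw [← hV] at hprod
  have hDV : 4 * D = - V ^ 2 := by
    have : (e * e1 * e2) * (4 * ((g * ε * x0) ^ 3 + (g * ε) ^ 2 * a * (g * ε * x0))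
        + 4 * (g * ε) ^ 3 * b) = 0 := by
      have : (e * e1 * e2) * (4 * ((g * ε * x0) ^ 3 + (g * ε) ^ 2 * a * (g * ε * x0))
        + 4 * (g * ε) ^ 3 * b) = (e * e1 * e2) * (4 * (g * ε) ^ 3) * (x0 ^ 3 + a * x0 + b) := by
        ring
      rw [this, hcub, mul_zero]
    rw [this] at hprod
    linear_combination hprod
  have hV0 : V ≠ 0 := by
    intro hV0
    rw [hV0] at hDV
    have : 4 * D = 0 := by rw [hDV]; ring
    exact mul_ne_zero h4 hD0 this
  have hV2 : φ (φ V) = V := by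
    rw [hV, hka]
    simp only [map_add, map_sub, map_mul, map_pow, P.ee, P.ee1, P.ee2, P.gq, map_inv₀, inv_inv,
      P.epsq, map_neg, neg_neg, hxk, hkp, map_ofNat]
    ring
  have hDD : D * φ D = ((V / 2) * (φ V / 2)) ^ 2 := by
    have h2 := hd_two_ne h
    have e1 : D = - V ^ 2 / 4 := by field_simp; linear_combination hDV
    rw [e1]
    simp only [map_div₀, map_neg, map_pow, map_ofNat]
    field_simp
    norm_num
    ring
  have hW : φ ((V / 2) * (φ V / 2)) = (V / 2) * (φ V / 2) := by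
    simp only [map_mul, map_div₀, hV2, map_ofNat]
    ring
  have hW0 : (V / 2) * (φ V / 2) ≠ 0 := by
    have h2 := hd_two_ne h
    have : φ V ≠ 0 := by simpa using hV0
    exact mul_ne_zero (div_ne_zero hV0 h2) (div_ne_zero this h2)
  have hev := ev_D P h hd0
  rw [← hD, hDD, eta_sq h (by rw [P.f1, hW]) hW0] at hev
  rw [P.chi2_sw h hw, ← hd, ← hev]

end par

/-- The conics are pairwise disjoint. -/
theorem InC_disjoint (h : Std K q) {th : K} (hth : th ^ 2 = 3) (hth' : th ^ q = - th)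
    {S S' x : K} (hS : S ∈ mu K q) (hS' : S' ∈ mu K q)
    (hx : InC q th S x) (hx' : InC q th S' x) : S = S' := by
  obtain ⟨φ, lam, e, ε, g, e1, e2, P, hxe⟩ := par_exists h hth hth' hS hx
  obtain ⟨φ', lam', e', ε', g', e1', e2', P', hxe'⟩ := par_exists h hth hth' hS' hx'
  have hΦ : Phi q th (S' / g') x = 0 := by rw [hxe']; exact dj_phi0 P'
  have hchi : chi2 q (S' / g') = 1 := by rw [← P'.gN]; exact chi2_div_N3 h hS'
  have hmem : S' / g' ∈ mu K q := by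
    rw [← P'.gN, hd_rho h P'.hS, div_eq_mul_inv]
    exact hd_mul_mem (hd_pow_mem P'.hS _) (hd_inv_mem (hd_pow_mem P'.hS _))
  by_cases heq : S' / g' = S / g
  · have e1 := hd_psi_rho h hS
    have e2 := hd_psi_rho h hS'
    rw [P.gN] at e1
    rw [P'.gN, heq, e1] at e2
    rcases sq_eq_sq_iff_eq_or_eq_neg.1 e2 with h3 | h3
    · exact h3
    · exfalso
      -- S = - S', so g = - g'
      have hgg : g' = - g := by
        have h5 : S' = - S := by rw [h3, neg_neg]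
        have hS0 := P.S0
        have hg0 := P.g0
        have hg0' := P'.g0
        rw [h5, div_eq_div_iff hg0' hg0] at heq
        have : S * (g' + g) = 0 := by linear_combination -heq
        rcases mul_eq_zero.1 this with h6 | h6
        · exact absurd h6 hS0
        · linear_combination h6
      have a1 := dj_eigen P
      have a2 := dj_eigen P'
      rw [← hxe] at a1
      rw [← hxe', heq, a1, hgg] at a2
      have hx0 : x ≠ 0 := by
        obtain ⟨l, hl, u, hu, hxu⟩ := pt_mem_C.1 hx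
        have hl' := pt_mem_L.1 hl
        rw [hxu]
        exact pt_ne h hth hth' hS hl'.1 hl'.2 hu
      have hT := P.T0
      have h7 : 4 * ((g + g⁻¹) * x) = 0 := by
        rw [inv_neg] at a2
        linear_combination -a2
      exact mul_ne_zero (pr_four h) (mul_ne_zero hT hx0) h7
  · exfalso
    obtain ⟨w, hw, hsw⟩ := dj_surj P h hmem heq
    rw [hsw] at hΦ hchi
    rw [hxe] at hΦ
    have h1 := dj_phi P hw hΦ
    have h2 := dj_chi P h hw h1
    rw [h2] at hchi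
    norm_num at hchi

/-- Every singular point lies on exactly one conic. -/
theorem partition' (h : Std K q) {th : K} (hth : th ^ 2 = 3) (hth' : th ^ q = - th)
    {x : K} (hx0 : x ≠ 0) (hx : Qf q x = 0) : ∃! S : K, S ∈ mu K q ∧ InC q th S x :=
  partition h hth hth' (fun _ _ _ hS hS' hx hx' => InC_disjoint h hth hth' hS hS' hx hx') hx0 hx

end Pool.Agent.TH501.Hemi
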