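import Mathlib
import Pool.Agent.TH501.Hemi.Defs
import Pool.Agent.TH501.Hemi.Exist

set_option autoImplicit false

namespace Pool.Agent.TH501.Hemi

open Finset Classical

variable {K : Type} [Field K] [Fintype K] {q : ℕ}

theorem hb_card_roots {n : ℕ} (hn : 0 < n) (hd : n ∣ Fintype.card K - 1) :
    (univ.filter (fun s : K => s ^ n = 1)).card = n := by
  have hgcd : (Nat.card Kˣ).gcd n = n := by
    apply Nat.gcd_eq_right
    rw [Nat.card_eq_fintype_card, Fintype.card_units]
    exact hd
  conv_rhs => rw [← hgcd, ← IsCyclic.card_powMonoidHom_ker (G := Kˣ) n, Nat.card_eq_fintype_card]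
  rw [← Fintype.card_coe]
  apply Fintype.card_congr
  refine ⟨fun s => ⟨Units.mk0 s.1 ?_, ?_⟩, fun u => ⟨((u : Kˣ) : K), ?_⟩, ?_, ?_⟩
  · rintro h0
    have := s.2
    simp only [mem_filter, mem_univ, true_and] at this
    rw [h0, zero_pow hn.ne'] at this
    simp at this
  · have := s.2
    simp only [mem_filter, mem_univ, true_and] at this
    rw [MonoidHom.mem_ker]
    ext
    simpa using this
  · have := u.2
    rw [MonoidHom.mem_ker] at this
    have h2 := congrArg (fun u : Kˣ => (u : K)) this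
    simp only [mem_filter, mem_univ, true_and]
    simpa using h2
  · intro s
    rfl
  · intro u
    ext
    rfl

/-- The subfield with `q` elements. -/
noncomputable def hb_k (h : Std K q) : Subfield K where
  carrier := {a | a ^ q = a}
  mul_mem' := by
    intro a b ha hb
    simp only [Set.mem_ofPred_eq] at *
    rw [mul_pow, ha, hb]
  one_mem' := by simp
  add_mem' := by
    intro a b ha hb
    simp only [Set.mem_ofPred_eq] at *
    rw [hd_frob_add h, ha, hb]
  zero_mem' := by
    have h5 := hd_q_ge h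
    simp only [Set.mem_ofPred_eq]
    rw [zero_pow (by omega)]
  neg_mem' := by
    intro a ha
    simp only [Set.mem_ofPred_eq] at *
    rw [(hd_odd h).neg_pow, ha]
  inv_mem' := by
    intro a ha
    simp only [Set.mem_ofPred_eq] at *
    rw [inv_pow, ha]

theorem hb_mem_k (h : Std K q) {a : K} : a ∈ hb_k h ↔ a ^ q = a := Iff.rfl

theorem hb_card_Fq (h : Std K q) : (Fq K q).card = q := by
  have h5 := hd_q_ge h
  have hP := hb_card_roots (K := K) (n := q - 1) (by omega) (by
    rw [h.card]
    have := Nat.sub_dvd_pow_sub_pow q 1 6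
    simpa using this)
  have hins : Fq K q = insert 0 (univ.filter (fun s : K => s ^ (q - 1) = 1)) := by
    ext a
    simp only [Fq, mem_filter, mem_univ, true_and, mem_insert]
    obtain ⟨r, hr⟩ : ∃ r, q = r + 1 := ⟨q - 1, by omega⟩
    rw [hr, Nat.add_sub_cancel, pow_succ]
    constructor
    · intro ha
      by_cases h0 : a = 0
      · exact Or.inl h0
      · right
        exact mul_right_cancel₀ h0 (by rw [ha, one_mul])
    · rintro (ha | ha)
      · rw [ha]; simp
      · rw [ha, one_mul]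
  rw [hins, card_insert_of_notMem, hP]
  · omega
  · simp only [mem_filter, mem_univ, true_and]
    rw [zero_pow (by omega)]
    simp

theorem hb_card_k (h : Std K q) : Nat.card (hb_k h) = q := by
  refine Eq.trans ?_ (hb_card_Fq h)
  rw [Nat.card_eq_fintype_card, ← Fintype.card_coe]
  apply Fintype.card_congr
  refine Equiv.subtypeEquivRight ?_
  intro a
  simp only [Fq, mem_filter, mem_univ, true_and]
  exact hb_mem_k h

theorem hb_finrank (h : Std K q) : Module.finrank (hb_k h) K = 6 := by
  have h5 := hd_q_ge h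
  have h1 := Module.card_eq_pow_finrank (K := hb_k h) (V := K)
  rw [h.card, ← Nat.card_eq_fintype_card, hb_card_k h] at h1
  exact (Nat.pow_right_injective (by omega : 2 ≤ q) h1).symm

theorem hb_trace (h : Std K q) (z : K) :
    ((Algebra.trace (hb_k h) K z : hb_k h) : K) =
      z + z ^ q + z ^ q ^ 2 + z ^ q ^ 3 + z ^ q ^ 4 + z ^ q ^ 5 := by
  have h1 := FiniteField.algebraMap_trace_eq_sum_pow (hb_k h) K z
  rw [hb_finrank h, hb_card_k h] at h1
  have h2 : ((Algebra.trace (hb_k h) K z : hb_k h) : K) =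
    algebraMap (hb_k h) K (Algebra.trace (hb_k h) K z) := rfl
  rw [h2, h1]
  simp only [Finset.sum_range_succ, Finset.sum_range_zero, pow_zero, pow_one, zero_add]

theorem hb_frob_pow (h : Std K q) (n : ℕ) (x y : K) :
    (x + y) ^ q ^ n = x ^ q ^ n + y ^ q ^ n := by
  induction n with
  | zero => simp
  | succ n ih => rw [pow_succ, pow_mul, ih, hd_frob_add h, ← pow_mul, ← pow_mul]

theorem hb_bar (h : Std K q) (x : K) : (x ^ q ^ 3) ^ q ^ 3 = x := by
  rw [← pow_mul, ← pow_add, show 3 + 3 = 6 by norm_num, hd_frob_full h]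

theorem hb_Bf_trace (h : Std K q) (x y : K) :
    Bf q x y = ((Algebra.trace (hb_k h) K (x * y ^ q ^ 3) : hb_k h) : K) := by
  have hbar : x ^ q ^ 3 * y = (x * y ^ q ^ 3) ^ q ^ 3 := by
    rw [mul_pow, hb_bar h]
  rw [hb_trace, Bf, hbar]
  set z : K := x * y ^ q ^ 3 with hz
  unfold T3
  have e5 : (z ^ q ^ 3) ^ q ^ 2 = z ^ q ^ 5 := by
    rw [← pow_mul, ← pow_add]
  have e7 : (z ^ q ^ 3) ^ q ^ 4 = z ^ q := by
    rw [← pow_mul, ← pow_add, show q ^ (3 + 4) = q ^ 6 * q by ring, pow_mul, hd_frob_full h]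
  rw [hb_frob_pow h 2, hb_frob_pow h 4, e5, e7]
  ring

theorem hb_Qf_mem (h : Std K q) (x : K) : (Qf q x) ^ q = Qf q x := by
  have hz : (x * x ^ q ^ 3) ^ q ^ 3 = x * x ^ q ^ 3 := by
    rw [mul_pow, hb_bar h]
    ring
  have h1 : ∀ w : K, w ^ q = w ^ q ^ 1 := by intro w; rw [pow_one]
  unfold Qf T3
  set z : K := x * x ^ q ^ 3 with hz0
  have h5 : z ^ q ^ 5 = z ^ q ^ 2 := by
    rw [show q ^ 5 = q ^ 3 * q ^ 2 by ring, pow_mul, hz]
  have h4 : z ^ q ^ 4 = z ^ q := by
    rw [show q ^ 4 = q ^ 3 * q by ring, pow_mul, hz]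
  rw [hd_frob_add h, hd_frob_add h, ← pow_mul, ← pow_mul,
    show q ^ 2 * q = q ^ 3 by ring, show q ^ 4 * q = q ^ 5 by ring, hz, h5, h4]
  ring

theorem hb_Qf_add (h : Std K q) (x y : K) : Qf q (x + y) = Qf q x + Qf q y + Bf q x y := by
  unfold Qf Bf T3
  have e : (x + y) * (x + y) ^ q ^ 3 =
      x * x ^ q ^ 3 + y * y ^ q ^ 3 + (x * y ^ q ^ 3 + x ^ q ^ 3 * y) := by
    rw [hb_frob_pow h 3]; ring
  rw [e, hb_frob_pow h 2, hb_frob_pow h 2, hb_frob_pow h 4, hb_frob_pow h 4]
  ring

theorem hb_Qf_smul (_h : Std K q) {a : K} (ha : a ^ q = a) (x : K) :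
    Qf q (a * x) = a ^ 2 * Qf q x := by
  have hn : ∀ n : ℕ, a ^ q ^ n = a := by
    intro n
    induction n with
    | zero => simp
    | succ n ih => rw [pow_succ, pow_mul, ih, ha]
  unfold Qf T3
  have e : (a * x) * (a * x) ^ q ^ 3 = a ^ 2 * (x * x ^ q ^ 3) := by
    rw [mul_pow, hn]; ring
  have e2 : ∀ n : ℕ, (a ^ 2) ^ q ^ n = a ^ 2 := by
    intro n
    rw [← pow_mul, mul_comm, pow_mul, hn]
  rw [e, mul_pow _ _ (q ^ 2), mul_pow _ _ (q ^ 4), e2, e2]
  ring

/-- The polar form as a bilinear form over the subfield. -/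
noncomputable def hb_B (h : Std K q) : LinearMap.BilinForm (hb_k h) K :=
  LinearMap.mk₂ (hb_k h) (fun x y => Algebra.trace (hb_k h) K (x * y ^ q ^ 3))
    (by intro x x' y; rw [add_mul, map_add])
    (by intro c x y; rw [smul_mul_assoc, map_smul])
    (by intro x y y'; rw [hb_frob_pow h, mul_add, map_add])
    (by
      intro c x y
      have hn : ∀ n : ℕ, (c : K) ^ q ^ n = c := by
        intro n
        induction n with
        | zero => simp
        | succ n ih => rw [pow_succ, pow_mul, ih]; exact (hb_mem_k h).1 c.2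
      rw [← map_smul]
      congr 1
      rw [Subfield.smul_def, Subfield.smul_def, smul_eq_mul, smul_eq_mul, mul_pow, hn]
      ring)

theorem hb_B_apply (h : Std K q) (x y : K) : ((hb_B h x y : hb_k h) : K) = Bf q x y := by
  rw [hb_Bf_trace h]
  rfl

theorem hb_B_ker (h : Std K q) : LinearMap.ker (hb_B h) = ⊥ := by
  rw [LinearMap.ker_eq_bot']
  intro x hx
  have htr := (traceForm_nondegenerate (hb_k h) K).1 x
  apply htr
  intro y
  rw [Algebra.traceForm_apply]
  have h1 : hb_B h x (y ^ q ^ 3) = 0 := by rw [hx]; rfl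
  have h2 : hb_B h x (y ^ q ^ 3) = Algebra.trace (hb_k h) K (x * (y ^ q ^ 3) ^ q ^ 3) := rfl
  rw [h2, ← pow_mul, ← pow_add, show 3 + 3 = 6 by norm_num, hd_frob_full h] at h1
  exact h1

theorem hb_dvd (h : Std K q) :
    q ^ 3 + 1 ∣ (univ.filter (fun x : K => x ≠ 0 ∧ Qf q x = 0)).card := by
  rw [Finset.card_eq_sum_card_image (fun x : K => x ^ (q ^ 3 + 1))]
  apply Finset.dvd_sum
  intro y hy
  obtain ⟨x0, hx0, rfl⟩ := mem_image.1 hy
  rw [mem_filter] at hx0
  obtain ⟨-, hx00, hx0Q⟩ := hx0
  have hset : ((univ.filter (fun x : K => x ≠ 0 ∧ Qf q x = 0)).filter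
      (fun x => x ^ (q ^ 3 + 1) = x0 ^ (q ^ 3 + 1))) = (mu K q).image (fun s => s * x0) := by
    ext x
    simp only [mem_filter, mem_univ, true_and, mem_image, mu]
    constructor
    · rintro ⟨⟨hx, -⟩, hxe⟩
      refine ⟨x / x0, ?_, ?_⟩
      · rw [div_pow, hxe]
        exact div_self (pow_ne_zero _ hx00)
      · field_simp
    · rintro ⟨s, hs, rfl⟩
      have hs0 : s ≠ 0 := by
        rintro rfl
        simp at hs
      refine ⟨⟨mul_ne_zero hs0 hx00, ?_⟩, ?_⟩
      · have e : (s * x0) * (s * x0) ^ q ^ 3 = x0 * x0 ^ q ^ 3 := by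
          have : (s * x0) * (s * x0) ^ q ^ 3 = (s ^ (q ^ 3 + 1)) * (x0 * x0 ^ q ^ 3) := by ring
          rw [this, hs, one_mul]
        unfold Qf at *
        rw [e, hx0Q]
      · rw [mul_pow, hs, one_mul]
  rw [hset, card_image_of_injective _ (mul_left_injective₀ hx00), card_mu h]

theorem hb_card_ker_gen {k U : Type} [Field k] [Fintype k] [AddCommGroup U] [Module k U]
    [Fintype U] (hU : Module.finrank k U = 3) (l : U →ₗ[k] k) (hl : l ≠ 0) (c : k) :
    (univ.filter (fun u : U => l u = c)).card = Nat.card k ^ 2 := by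
  have hsurj : Function.Surjective l := LinearMap.surjective hl
  obtain ⟨u0, hu0⟩ := hsurj c
  have h1 := LinearMap.finrank_range_add_finrank_ker l
  rw [LinearMap.range_eq_top.2 hsurj, finrank_top, Module.finrank_self, hU] at h1
  have h2 : Module.finrank k (LinearMap.ker l) = 2 := by omega
  have h3 : Nat.card (LinearMap.ker l) = Nat.card k ^ 2 := by
    rw [Module.natCard_eq_pow_finrank (K := k), h2]
  rw [← h3, Nat.card_eq_fintype_card, ← Fintype.card_coe]
  apply Fintype.card_congr
  refine ⟨fun u => ⟨u.1 - u0, ?_⟩, fun v => ⟨v.1 + u0, ?_⟩, ?_, ?_⟩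
  · have := u.2
    simp only [mem_filter, mem_univ, true_and] at this
    rw [LinearMap.mem_ker, map_sub, this, hu0, sub_self]
  · have := v.2
    rw [LinearMap.mem_ker] at this
    simp only [mem_filter, mem_univ, true_and]
    rw [map_add, this, hu0, zero_add]
  · intro u
    ext
    simp
  · intro v
    ext
    simp

theorem hb_card_ker (h : Std K q) (U : Submodule (hb_k h) K)
    (hU : Module.finrank (hb_k h) U = 3) (l : U →ₗ[hb_k h] hb_k h) (hl : l ≠ 0) (c : hb_k h) :
    (univ.filter (fun u : U => l u = c)).card = q ^ 2 := by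
  have h1 := hb_card_ker_gen hU l hl c
  rw [hb_card_k h] at h1
  convert h1

theorem hb_count (h : Std K q) (U : Submodule (hb_k h) K)
    (hU : Module.finrank (hb_k h) U = 3) (hQ : ∀ x ∈ U, Qf q x = 0) :
    (univ.filter (fun x : K => Qf q x = 0)).card + q ^ 2 = q ^ 5 + q ^ 3 := by
  have h5 := hd_q_ge h
  have hcardU : Fintype.card U = q ^ 3 := by
    rw [← Nat.card_eq_fintype_card, Module.natCard_eq_pow_finrank (K := hb_k h), hU, hb_card_k h]
  have hB : ∀ x ∈ U, ∀ y ∈ U, Bf q x y = 0 := by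
    intro x hx y hy
    have e := hb_Qf_add h x y
    rw [hQ _ (U.add_mem hx hy), hQ x hx, hQ y hy] at e
    linear_combination -e
  have hBsymm : ∀ x y : K, Bf q x y = Bf q y x := by
    intro x y
    unfold Bf
    congr 1
    ring
  have hle : U ≤ (hb_B h).orthogonal U := by
    intro y hy
    rw [LinearMap.BilinForm.mem_orthogonal_iff]
    intro x hx
    apply Subtype.ext
    exact (hb_B_apply h x y).trans (hB x hx y hy)
  have hor : U = (hb_B h).orthogonal U := by
    apply Submodule.eq_of_le_of_finrank_eq hle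
    have h1 := LinearMap.BilinForm.finrank_add_finrank_orthogonal' (B := hb_B h) U
    have h2 : (U ⊓ LinearMap.ker (hb_B h)) = ⊥ := by rw [hb_B_ker h, inf_bot_eq]
    rw [h2, finrank_bot, hb_finrank h, hU] at h1
    omega
  have hfib : ∀ w : K, (univ.filter (fun u : U => Qf q (w + u) = 0)).card =
      if w ∈ U then q ^ 3 else q ^ 2 := by
    intro w
    split_ifs with hw
    · rw [← hcardU, ← Finset.card_univ]
      congr 1
      apply Finset.filter_true_of_mem
      intro u _
      exact hQ _ (U.add_mem hw u.2)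
    · have hl : (hb_B h w).comp U.subtype ≠ 0 := by
        intro h0
        apply hw
        rw [hor, LinearMap.BilinForm.mem_orthogonal_iff]
        intro x hx
        apply Subtype.ext
        have h1 : hb_B h w x = 0 := by
          have := LinearMap.congr_fun h0 ⟨x, hx⟩
          exact this
        refine (hb_B_apply h x w).trans ?_
        rw [hBsymm, ← hb_B_apply h, h1]
      rw [← hb_card_ker h U hU _ hl (-⟨Qf q w, hb_Qf_mem h w⟩)]
      congr 1
      apply Finset.filter_congr
      intro u _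
      rw [hb_Qf_add h, hQ u u.2, add_zero]
      constructor
      · intro h1
        apply Subtype.ext
        refine (hb_B_apply h w u).trans ?_
        have : ((-⟨Qf q w, hb_Qf_mem h w⟩ : hb_k h) : K) = - Qf q w := rfl
        rw [this]
        linear_combination h1
      · intro h1
        have h2 := congrArg (fun z : hb_k h => (z : K)) h1
        have h3 : ((((hb_B h w).comp U.subtype) u : hb_k h) : K) = Bf q w u := hb_B_apply h w u
        have h4 : ((-⟨Qf q w, hb_Qf_mem h w⟩ : hb_k h) : K) = - Qf q w := rfl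
        rw [h3, h4] at h2
        linear_combination h2
  have key : ∑ w : K, (univ.filter (fun u : U => Qf q (w + u) = 0)).card =
      q ^ 3 * (univ.filter (fun x : K => Qf q x = 0)).card := by
    simp_rw [Finset.card_filter]
    rw [Finset.sum_comm]
    have h1 : ∀ u : U, ∑ w : K, (if Qf q (w + u) = 0 then 1 else 0) =
        ∑ w : K, (if Qf q w = 0 then 1 else 0) := by
      intro u
      exact Fintype.sum_equiv (Equiv.addRight (u : K)) _ _ (fun w => rfl)
    rw [Finset.sum_congr rfl (fun u _ => h1 u), Finset.sum_const, Finset.card_univ, hcardU,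
      smul_eq_mul]
  have key2 : ∑ w : K, (univ.filter (fun u : U => Qf q (w + u) = 0)).card =
      q ^ 3 * q ^ 3 + (q ^ 6 - q ^ 3) * q ^ 2 := by
    rw [Finset.sum_congr rfl (fun w _ => hfib w), Finset.sum_ite, Finset.sum_const,
      Finset.sum_const, smul_eq_mul, smul_eq_mul]
    have c1 : (univ.filter (fun w : K => w ∈ U)).card = q ^ 3 := by
      rw [← hcardU, ← Fintype.card_subtype]
    have c2 : (univ.filter (fun w : K => w ∉ U)).card = q ^ 6 - q ^ 3 := by
      have := Finset.card_filter_add_card_filter_not (s := (univ : Finset K)) (fun w => w ∈ U)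
      rw [c1, Finset.card_univ, h.card] at this
      omega
    rw [c1, c2]
  rw [key] at key2
  set z : ℕ := (univ.filter (fun x : K => Qf q x = 0)).card with hz
  have hq3 : 0 < q ^ 3 := by positivity
  have hle3 : q ^ 3 ≤ q ^ 6 := Nat.pow_le_pow_right (by omega) (by norm_num)
  have e1 : (q ^ 6 - q ^ 3) + q ^ 3 = q ^ 6 := by omega
  apply Nat.eq_of_mul_eq_mul_left hq3
  have e2 : q ^ 3 * z + q ^ 3 * q ^ 2 = q ^ 3 * q ^ 3 + ((q ^ 6 - q ^ 3) + q ^ 3) * q ^ 2 := by
    rw [key2]; ring
  rw [mul_add, e2, e1]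
  ring

theorem witt (h : Std K q) {u v : K} (hl : IsLine q u v) {x : K} (hx : Qf q x = 0)
    (hux : Bf q u x = 0) (hvx : Bf q v x = 0) :
    ∃ a b : K, a ^ q = a ∧ b ^ q = b ∧ x = a * u + b * v := by
  by_contra hno
  push Not at hno
  have h5 := hd_q_ge h
  let f : (hb_k h × hb_k h × hb_k h) →ₗ[hb_k h] K :=
    (LinearMap.toSpanSingleton (hb_k h) K u).coprod
      ((LinearMap.toSpanSingleton (hb_k h) K v).coprod (LinearMap.toSpanSingleton (hb_k h) K x))
  have hf : ∀ a b c : hb_k h, f (a, b, c) = (a : K) * u + ((b : K) * v + (c : K) * x) := by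
    intro a b c
    rfl
  have hinj : LinearMap.ker f = ⊥ := by
    rw [LinearMap.ker_eq_bot']
    rintro ⟨a, b, c⟩ h0
    rw [hf] at h0
    by_cases hc : (c : K) = 0
    · rw [hc, zero_mul, add_zero] at h0
      obtain ⟨ha, hb⟩ := hl.ind a b ((hb_mem_k h).1 a.2) ((hb_mem_k h).1 b.2) h0
      ext
      · exact ha
      · exact hb
      · exact hc
    · exfalso
      refine hno (-a / c) (-b / c) ?_ ?_ ?_
      · rw [div_pow, (hd_odd h).neg_pow, (hb_mem_k h).1 a.2, (hb_mem_k h).1 c.2]
      · rw [div_pow, (hd_odd h).neg_pow, (hb_mem_k h).1 b.2, (hb_mem_k h).1 c.2]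
      · field_simp
        linear_combination h0
  have hfin : Module.finrank (hb_k h) (LinearMap.range f) = 3 := by
    rw [LinearMap.finrank_range_of_inj (LinearMap.ker_eq_bot.1 hinj)]
    simp
  have hQ : ∀ y ∈ LinearMap.range f, Qf q y = 0 := by
    rintro y ⟨⟨a, b, c⟩, rfl⟩
    rw [hf]
    have ha := (hb_mem_k h).1 a.2
    have hb := (hb_mem_k h).1 b.2
    have hc := (hb_mem_k h).1 c.2
    have e1 : hb_B h u v = 0 := Subtype.ext ((hb_B_apply h u v).trans hl.b)
    have e2 : hb_B h u x = 0 := Subtype.ext ((hb_B_apply h u x).trans hux)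
    have e3 : hb_B h v x = 0 := Subtype.ext ((hb_B_apply h v x).trans hvx)
    have e4 : hb_B h ((a : K) * u) ((b : K) * v + (c : K) * x) = 0 := by
      have : hb_B h (a • u) (b • v + c • x) = 0 := by
        rw [map_smul (hb_B h) a u, LinearMap.smul_apply, map_add, map_smul, map_smul, e1, e2]
        simp
      exact this
    have e5 : hb_B h ((b : K) * v) ((c : K) * x) = 0 := by
      have : hb_B h (b • v) (c • x) = 0 := by
        rw [map_smul, map_smul, LinearMap.smul_apply, e3]
        simp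
      exact this
    have e6 := hb_B_apply h ((a : K) * u) ((b : K) * v + (c : K) * x)
    have e7 := hb_B_apply h ((b : K) * v) ((c : K) * x)
    rw [e4] at e6
    rw [e5] at e7
    rw [hb_Qf_add h, hb_Qf_add h, ← e6, ← e7, hb_Qf_smul h ha, hb_Qf_smul h hb, hb_Qf_smul h hc,
      hl.qu, hl.qv, hx]
    simp
  have hcount := hb_count h _ hfin hQ
  have hdvd := hb_dvd h
  have hz : (univ.filter (fun x : K => Qf q x = 0)).card =
      (univ.filter (fun x : K => x ≠ 0 ∧ Qf q x = 0)).card + 1 := by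
    have : (univ.filter (fun x : K => Qf q x = 0)) =
        insert 0 (univ.filter (fun x : K => x ≠ 0 ∧ Qf q x = 0)) := by
      ext y
      simp only [mem_filter, mem_univ, true_and, mem_insert]
      constructor
      · intro hy
        by_cases h0 : y = 0
        · exact Or.inl h0
        · exact Or.inr ⟨h0, hy⟩
      · rintro (rfl | ⟨-, hy⟩)
        · unfold Qf T3
          have e1 : q ^ 2 ≠ 0 := by positivity
          have e2 : q ^ 4 ≠ 0 := by positivity
          rw [zero_mul, zero_pow e1, zero_pow e2]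
          simp
        · exact hy
    rw [this, card_insert_of_notMem]
    simp
  obtain ⟨t, ht⟩ := hdvd
  rw [hz, ht] at hcount
  -- (q^3+1) t + 1 + q^2 = q^5 + q^3
  have h7 : (q ^ 3 + 1) * t + 2 * q ^ 2 + 2 = (q ^ 3 + 1) * (q ^ 2 + 1) := by
    have : (q ^ 3 + 1) * (q ^ 2 + 1) = q ^ 5 + q ^ 3 + q ^ 2 + 1 := by ring
    rw [this]
    omega
  have h8 : 2 * q ^ 2 + 2 < q ^ 3 + 1 := by nlinarith
  have h9 : 0 < 2 * q ^ 2 + 2 := by positivity
  have h10 : t < q ^ 2 + 1 := by
    by_contra hge
    push Not at hge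
    have := Nat.mul_le_mul_left (q ^ 3 + 1) hge
    omega
  have h11 := Nat.mul_le_mul_left (q ^ 3 + 1) (show t + 1 ≤ q ^ 2 + 1 by omega)
  rw [← h7, mul_add] at h11
  omega

end Pool.Agent.TH501.Hemi
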