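import Mathlib
import Pool.Agent.TH501.Hemi.Defs
import Pool.Agent.TH501.Hemi.Witt
import Pool.Agent.TH501.Hemi.Binary
import Pool.Agent.TH501.Hemi.Ops

set_option autoImplicit false

namespace Pool.Agent.TH501.Hemi

open Finset Classical

variable {K : Type} [Field K] [Fintype K] {q : ℕ}

namespace SigmaAux

theorem two_ne (h : Std K q) : (2 : K) ≠ 0 := by
  intro h2
  have hc : ((Fintype.card K : ℕ) : K) = 0 := Nat.cast_card_eq_zero K
  rw [h.card] at hc
  have hq : q = 4 * (q / 4) + 1 := by have := h.mod4; omega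
  have h1 : (q : K) = 1 := by
    rw [hq]
    push_cast
    have : (4 : K) = 0 := by
      have : (4 : K) = 2 * 2 := by norm_num
      rw [this, h2, zero_mul]
    rw [this]; ring
  push_cast at hc
  rw [h1] at hc
  simp at hc

theorem frob_add (h : Std K q) (x y : K) : (x + y) ^ q = x ^ q + y ^ q := by
  obtain ⟨p, hp⟩ := CharP.exists K
  have := hp
  have hpp : p.Prime := by
    rcases CharP.char_is_prime_or_zero K p with h1 | h1
    · exact h1
    · subst h1
      exact absurd rfl (CharP.char_ne_zero_of_finite K 0)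
  have : Fact p.Prime := ⟨hpp⟩
  obtain ⟨n, -, hn⟩ := FiniteField.card K p
  have hq : q ∣ p ^ (n : ℕ) := by
    rw [← hn, h.card]
    exact dvd_pow_self q (by norm_num)
  obtain ⟨m, -, rfl⟩ := (Nat.dvd_prime_pow hpp).1 hq
  exact add_pow_char_pow x y p m

theorem q_pos (h : Std K q) : 0 < q := by
  have := h.mod4; omega

theorem mu_ne_zero {s : K} (hs : s ∈ mu K q) : s ≠ 0 := by
  rintro rfl
  simp [mu] at hs

theorem mu_pow {s : K} (hs : s ∈ mu K q) : s ^ (q ^ 3 + 1) = 1 := by
  simpa [mu] using hs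

theorem mu_q3 {s : K} (hs : s ∈ mu K q) : s ^ q ^ 3 = s⁻¹ := by
  have h1 := mu_pow hs
  rw [pow_succ] at h1
  exact eq_inv_of_mul_eq_one_left h1

theorem N3_ne {s : K} (hs : s ∈ mu K q) : N3 q s ≠ 0 := by
  unfold N3
  have := mu_ne_zero hs
  positivity

theorem N3_q {s : K} (hs : s ∈ mu K q) : N3 q s ^ q = (N3 q s)⁻¹ := by
  have h0 := mu_ne_zero hs
  have h3 := mu_q3 hs
  have h4 : s ^ q ^ 4 = (s ^ q)⁻¹ := by
    rw [show q ^ 4 = q ^ 3 * q by ring, pow_mul, h3, inv_pow]
  have h5 : s ^ (q ^ 4 * q) = (s ^ q ^ 2)⁻¹ := by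
    rw [show q ^ 4 * q = q ^ 3 * q ^ 2 by ring, pow_mul, h3, inv_pow]
  unfold N3
  rw [mul_pow, mul_pow, ← pow_mul, ← pow_mul, h5, h4, show q ^ 2 * q = q ^ 3 by ring, h3]
  have h1 : s ^ q ≠ 0 := pow_ne_zero _ h0
  have h2 : s ^ q ^ 2 ≠ 0 := pow_ne_zero _ h0
  field_simp

/-- the eigenvalue `tau` of the square of `A_s` -/
def tau (q : ℕ) (s : K) : K := 4 * (1 + N3 q s) ^ 2 / N3 q s

theorem nat_pow (h : Std K q) (n : ℕ) : (n : K) ^ q = n := by
  induction n with
  | zero => simp [(q_pos h).ne']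
  | succ n ih => push_cast; rw [frob_add h, ih, one_pow]

theorem tau_real (h : Std K q) {s : K} (hs : s ∈ mu K q) : tau q s ^ q = tau q s := by
  have hN := N3_ne hs
  have h4 : (4 : K) ^ q = 4 := by exact_mod_cast nat_pow h 4
  unfold tau
  rw [div_pow, mul_pow, ← pow_mul, mul_comm 2 q, pow_mul, frob_add h, one_pow, N3_q hs, h4]
  field_simp
  ring

theorem Bf_smul_right (h : Std K q) {a : K} (ha : a ^ q = a) (u v : K) :
    Bf q u (a * v) = a * Bf q u v := by
  rw [Bf_symm h, Bf_smul h ha, Bf_symm h]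

theorem Bf_add_right (h : Std K q) (u v w : K) : Bf q u (v + w) = Bf q u v + Bf q u w := by
  rw [Bf_symm h, Bf_add h, Bf_symm h v, Bf_symm h w]

theorem neg_real (h : Std K q) {a : K} (ha : a ^ q = a) : (-a) ^ q = -a := by
  have : Odd q := by
    have := h.mod4
    exact ⟨q / 2, by omega⟩
  rw [this.neg_pow, ha]

theorem Rf_zero_of (h : Std K q) {th s : K} (hth' : th ^ q = - th) (hs : s ∈ mu K q) {x : K}
    (hx : Bf q (Af q th s x) x = 0) : Rf q th s x = 0 := by
  have h1 := Rf_eq h hth' hs x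
  rw [hx] at h1
  rcases mul_eq_zero.1 h1 with h2 | h2
  · exact absurd h2 (two_ne h)
  · exact h2

/-- the main dichotomy for a radical point `x` of the restriction of `R_s` to a line -/
theorem core (h : Std K q) {th s : K} (hth : th ^ 2 = 3) (hth' : th ^ q = - th)
    (hs : s ∈ mu K q) {x y : K} (hl : IsLine q x y) (hxx : Bf q (Af q th s x) x = 0)
    (hxy : Bf q (Af q th s x) y = 0) :
    (Rf q th s x = 0 ∧ Rf q th s y = 0) ∨
      ∃ m : K, m ^ q = m ∧ Af q th s x = m * x ∧ m ^ 2 = tau q s := by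
  set w := Af q th s x with hw
  have h2 := two_ne h
  have hA2 : Af q th s w = tau q s * x := Af_sq h hth hth' hs x
  have hxx0 : Bf q x x = 0 := by rw [Bf_self h, hl.qu, mul_zero]
  have hyy0 : Bf q y y = 0 := by rw [Bf_self h, hl.qv, mul_zero]
  have hyx0 : Bf q y x = 0 := by rw [Bf_symm h, hl.b]
  have hww : Bf q w w = 0 := by
    have h1 : Bf q w w = Bf q x (Af q th s w) := by
      conv_lhs => rw [hw]
      exact Af_adj h hth' hs x w
    rw [h1, hA2, Bf_smul_right h (tau_real h hs), hxx0, mul_zero]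
  have hQw : Qf q w = 0 := by
    rw [Bf_self h] at hww
    rcases mul_eq_zero.1 hww with h3 | h3
    · exact absurd h3 h2
    · exact h3
  obtain ⟨a, b, ha, hb, hab⟩ := witt h hl hQw (by rw [Bf_symm h]; exact hxx)
    (by rw [Bf_symm h]; exact hxy)
  have hRx : Rf q th s x = 0 := Rf_zero_of h hth' hs hxx
  by_cases hb0 : b = 0
  · right
    refine ⟨a, ha, by rw [hab, hb0]; ring, ?_⟩
    have hx0 : x ≠ 0 := by
      intro hx0
      have h3 := hl.ind 1 0 (by simp) (by simp [(q_pos h).ne']) (by rw [hx0]; ring)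
      exact one_ne_zero h3.1
    have h3 : w = a * x := by rw [hab, hb0]; ring
    have h4 : Af q th s w = a * (a * x) := by
      rw [h3, Af_smul h th s ha, ← hw, h3]
    rw [hA2] at h4
    have h5 : (a ^ 2 - tau q s) * x = 0 := by linear_combination -h4
    rcases mul_eq_zero.1 h5 with h6 | h6
    · exact sub_eq_zero.1 h6
    · exact absurd h6 hx0
  · left
    refine ⟨hRx, ?_⟩
    -- `b * y = w - a * x`
    have h3 : b * y = w + (-a) * x := by rw [hab]; ring
    have hRw : Rf q th s w = 0 := by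
      apply Rf_zero_of h hth' hs
      rw [hA2, Bf_smul h (tau_real h hs), Bf_symm h, hxx, mul_zero]
    have h4 : Rf q th s (b * y) = 0 := by
      rw [h3, Rf_add h hth' hs, hRw, Rf_smul h th s (neg_real h ha), hRx, hA2,
        Bf_smul h (tau_real h hs), Bf_smul_right h (neg_real h ha), hxx0]
      ring
    rw [Rf_smul h th s hb] at h4
    rcases mul_eq_zero.1 h4 with h5 | h5
    · exact absurd (pow_eq_zero_iff (by norm_num)|>.1 h5) hb0
    · exact h5

theorem mem_Fq {b : K} : b ∈ Fq K q ↔ b ^ q = b := by simp [Fq]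

theorem lsum_eq (h : Std K q) {th : K} (hth' : th ^ q = - th) {s : K} (hs : s ∈ mu K q)
    (u v : K) :
    lsum q (fun x => eta q (Rf q th s x)) u v =
      eta q (Rf q th s v) + ∑ b ∈ Fq K q, eta q (Rf q th s u + b * Bf q (Af q th s u) v
        + b ^ 2 * Rf q th s v) := by
  unfold lsum
  congr 1
  refine Finset.sum_congr rfl fun b hb => ?_
  rw [mem_Fq] at hb
  beta_reduce
  rw [Rf_add h hth' hs, Rf_smul h th s hb, Bf_smul_right h hb]
  congr 1
  ring

/-- points of the line -/
def Pt (q : ℕ) (u v x : K) : Prop := x = v ∨ ∃ b : K, b ^ q = b ∧ x = u + b * v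

theorem dich (h : Std K q) {th s : K} (hth : th ^ 2 = 3) (hth' : th ^ q = - th)
    (hs : s ∈ mu K q) {u v : K} (hl : IsLine q u v) :
    lsum q (fun x => eta q (Rf q th s x)) u v = 0 ∨
      ((∃ x m : K, Pt q u v x ∧ m ^ q = m ∧ Af q th s x = m * x ∧ m ^ 2 = tau q s) ∧
        |lsum q (fun x => eta q (Rf q th s x)) u v| ≤ q) := by
  set α := Rf q th s u with hα
  set γ := Rf q th s v with hγ
  set β := Bf q (Af q th s u) v with hβ
  have h2 := two_ne h
  have hαr : α ^ q = α := Rf_real h hth' hs u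
  have hγr : γ ^ q = γ := Rf_real h hth' hs v
  have hβr : β ^ q = β := Bf_real h _ _
  rw [lsum_eq h hth' hs, ← hα, ← hβ, ← hγ]
  by_cases hd : β ^ 2 - 4 * α * γ = 0
  swap
  · left
    exact binary_sum_nondeg h hαr hβr hγr hd
  rw [binary_sum_deg h hαr hβr hγr hd]
  have habs : |(q : ℤ) * (if α = 0 then eta q γ else eta q α)| ≤ q := by
    have he : ∀ a : K, |eta q a| ≤ 1 := by
      intro a
      unfold eta
      split_ifs <;> simp
    have h3 : |if α = 0 then eta q γ else eta q α| ≤ 1 := by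
      split_ifs
      · exact he _
      · exact he _
    rw [abs_mul, abs_of_nonneg (by positivity : (0 : ℤ) ≤ q)]
    nlinarith [(by positivity : (0 : ℤ) ≤ q)]
  have huu : Bf q (Af q th s u) u = 2 * α := by rw [hα, Rf_eq h hth' hs]
  have hvv : Bf q (Af q th s v) v = 2 * γ := by rw [hγ, Rf_eq h hth' hs]
  have hvu : Bf q (Af q th s v) u = β := by
    rw [Af_adj h hth' hs, Bf_symm h]
  have hz : ∀ a : K, eta q (0 : K) = 0 := fun _ => by simp [eta]
  by_cases hγ0 : γ = 0
  · have hβ0 : β = 0 := by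
      rw [hγ0, mul_zero, sub_zero] at hd
      exact (pow_eq_zero_iff (by norm_num)).1 hd
    -- radical point `v`
    have hl' : IsLine q v u := by
      refine ⟨fun a b ha hb hab => ?_, hl.qv, hl.qu, by rw [Bf_symm h, hl.b]⟩
      have := hl.ind b a hb ha (by rw [← hab]; ring)
      exact ⟨this.2, this.1⟩
    rcases core h hth hth' hs hl' (by rw [hvv, hγ0, mul_zero]) (by rw [hvu, hβ0]) with
      ⟨-, h3⟩ | ⟨m, hm, hm1, hm2⟩
    · left
      have h4 : α = 0 := h3
      rw [if_pos h4, hγ0, hz 0, mul_zero]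
    · right
      exact ⟨⟨v, m, Or.inl rfl, hm, hm1, hm2⟩, habs⟩
  · -- radical point `u + c v`, `c = - β / (2 γ)`
    set c : K := -(β / (2 * γ)) with hc
    have hcr : c ^ q = c := by
      rw [hc]
      apply neg_real h
      have h22 : (2 : K) ^ q = 2 := by exact_mod_cast nat_pow h 2
      rw [div_pow, mul_pow, hβr, hγr, h22]
    have h2g : 2 * γ ≠ 0 := mul_ne_zero h2 hγ0
    have hcb : 2 * γ * c = - β := by
      rw [hc]; field_simp
    have hl' : IsLine q (u + c * v) v := by
      refine ⟨fun a b ha hb hab => ?_, ?_, hl.qv, ?_⟩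
      · have hacb : (a * c + b) ^ q = a * c + b := by
          rw [frob_add h, mul_pow, ha, hb, hcr]
        have h3 := hl.ind a (a * c + b) ha hacb (by rw [← hab]; ring)
        refine ⟨h3.1, ?_⟩
        have h4 := h3.2
        rw [h3.1, zero_mul, zero_add] at h4
        exact h4
      · rw [Qf_add h, Qf_smul h hcr, hl.qu, hl.qv, Bf_smul_right h hcr, hl.b]
        ring
      · rw [Bf_add h, Bf_smul h hcr, hl.b, Bf_self h, hl.qv]
        ring
    have e1 : Bf q (Af q th s (u + c * v)) v = 0 := by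
      rw [Af_add h, Af_smul h th s hcr, Bf_add h, Bf_smul h hcr, hvv]
      linear_combination hcb
    have e2 : Bf q (Af q th s (u + c * v)) u = 0 := by
      rw [Af_add h, Af_smul h th s hcr, Bf_add h, Bf_smul h hcr, hvu, huu]
      have : 2 * γ * (2 * α + c * β) = 0 := by
        linear_combination -hd + β * hcb
      rcases mul_eq_zero.1 this with h3 | h3
      · exact absurd h3 h2g
      · exact h3
    rcases core h hth hth' hs hl' (by rw [Bf_add_right h, Bf_smul_right h hcr, e1, e2]; ring) e1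
      with ⟨-, h3⟩ | ⟨m, hm, hm1, hm2⟩
    · exact absurd h3 hγ0
    · right
      exact ⟨⟨u + c * v, m, Or.inr ⟨c, hcr, rfl⟩, hm, hm1, hm2⟩, habs⟩

end SigmaAux

open SigmaAux

theorem sigma_zero (h : Std K q) {th : K} (hth : th ^ 2 = 3) (hth' : th ^ q = - th)
    {u v : K} (hl : IsLine q u v) {s : K} (hs : s ∈ mu K q) (hN : N3 q s = -1) :
    |lsum q (fun x => eta q (Rf q th s x)) u v|
      ≤ q * lsum q (fun x => if Af q th s x = 0 then 1 else 0) u v := by
  have hnn : ∀ x : K, (0 : ℤ) ≤ (if Af q th s x = 0 then 1 else 0) := by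
    intro x; split_ifs <;> norm_num
  have hnn' : (0 : ℤ) ≤ lsum q (fun x => if Af q th s x = 0 then 1 else 0) u v := by
    unfold lsum
    exact add_nonneg (hnn v) (Finset.sum_nonneg fun b _ => hnn _)
  rcases dich h hth hth' hs hl with h1 | ⟨⟨x, m, hx, hm, hm1, hm2⟩, h2⟩
  · rw [h1]
    simp only [abs_zero]
    positivity
  · have hm0 : m = 0 := by
      have h3 : tau q s = 0 := by
        unfold tau; rw [hN]; ring
      rw [h3] at hm2
      exact (pow_eq_zero_iff (by norm_num)).1 hm2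
    rw [hm0, zero_mul] at hm1
    have h4 : (1 : ℤ) ≤ lsum q (fun x => if Af q th s x = 0 then 1 else 0) u v := by
      unfold lsum
      rcases hx with hx | ⟨b, hb, hx⟩
      · rw [hx] at hm1
        have h5 := Finset.sum_nonneg (s := Fq K q) fun b _ => hnn (u + b * v)
        simp only [hm1, if_true]
        linarith
      · rw [hx] at hm1
        have h5 := hnn v
        have h6 := Finset.single_le_sum (f := fun b : K => (if Af q th s (u + b * v) = 0
          then (1 : ℤ) else 0)) (s := Fq K q) (fun b _ => hnn (u + b * v)) (mem_Fq.2 hb)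
        simp only [hm1, if_true] at h6
        linarith
    calc _ ≤ (q : ℤ) := h2
      _ = q * 1 := by ring
      _ ≤ _ := by gcongr

theorem sigma_minus (h : Std K q) {th : K} (hth : th ^ 2 = 3) (hth' : th ^ q = - th)
    {u v : K} (hl : IsLine q u v) {s : K} (hs : s ∈ mu K q) (hc : chi2 q s = -1)
    (hN : N3 q s ≠ -1) :
    lsum q (fun x => eta q (Rf q th s x)) u v = 0 := by
  rcases dich h hth hth' hs hl with h1 | ⟨⟨x, m, hx, hm, hm1, hm2⟩, h2⟩
  · exact h1
  exfalso
  have hN0 := N3_ne hs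
  have h22 := two_ne h
  have h4 : (4 : K) ≠ 0 := by
    have : (4 : K) = 2 * 2 := by norm_num
    rw [this]; exact mul_ne_zero h22 h22
  have hN1 : 1 + N3 q s ≠ 0 := by
    intro h3
    exact hN (by linear_combination h3)
  have htau : tau q s ≠ 0 := by
    unfold tau
    exact div_ne_zero (mul_ne_zero h4 (pow_ne_zero _ hN1)) hN0
  have hm0 : m ≠ 0 := by
    rintro rfl
    apply htau
    rw [← hm2]; ring
  set g : K := 2 * (1 + N3 q s) / m with hg
  have hg2 : g ^ 2 = N3 q s := by
    have h5 : m ^ 2 * N3 q s = 4 * (1 + N3 q s) ^ 2 := by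
      rw [hm2]; unfold tau; field_simp
    rw [hg, div_pow, div_eq_iff (pow_ne_zero _ hm0)]
    linear_combination -h5
  have hgq : g ^ q = g / N3 q s := by
    have h22q : (2 : K) ^ q = 2 := by exact_mod_cast nat_pow h 2
    rw [hg, div_pow, mul_pow, frob_add h, one_pow, N3_q hs, hm, h22q]
    field_simp
    ring
  have hgq1 : g ^ (q + 1) = 1 := by
    rw [pow_succ, hgq]
    field_simp
    exact hg2
  have hq := h.mod4
  have hNp : N3 q s ^ ((q + 1) / 2) = 1 := by
    rw [← hg2, ← pow_mul, show 2 * ((q + 1) / 2) = q + 1 by omega, hgq1]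
  -- the other value
  have hs1 : s ^ ((q ^ 3 + 1) / 2) = -1 := by
    have h5 : s ^ ((q ^ 3 + 1) / 2) ≠ 1 := by
      intro h6
      unfold chi2 at hc
      rw [if_pos h6] at hc
      norm_num at hc
    have hq3 : (q ^ 3) % 2 = 1 := by
      rw [Nat.pow_mod, show q % 2 = 1 by omega]
    have h6 : (s ^ ((q ^ 3 + 1) / 2)) ^ 2 = 1 := by
      rw [← pow_mul, show (q ^ 3 + 1) / 2 * 2 = q ^ 3 + 1 by omega, mu_pow hs]
    rcases (sq_eq_sq_iff_eq_or_eq_neg.1 (h6.trans (one_pow 2).symm)) with h7 | h7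
    · exact absurd h7 h5
    · exact h7
  have hexp : (1 + q ^ 2 + q ^ 4) * ((q + 1) / 2) = (q ^ 3 + 1) / 2 * (q ^ 2 + q + 1) := by
    have hq3 : (q ^ 3) % 2 = 1 := by
      rw [Nat.pow_mod, show q % 2 = 1 by omega]
    have e1 : 2 * ((q + 1) / 2) = q + 1 := by omega
    have e2 : 2 * ((q ^ 3 + 1) / 2) = q ^ 3 + 1 := by omega
    have e3 : 2 * ((1 + q ^ 2 + q ^ 4) * ((q + 1) / 2)) =
        2 * ((q ^ 3 + 1) / 2 * (q ^ 2 + q + 1)) := by
      calc 2 * ((1 + q ^ 2 + q ^ 4) * ((q + 1) / 2))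
          = (1 + q ^ 2 + q ^ 4) * (2 * ((q + 1) / 2)) := by ring
        _ = (1 + q ^ 2 + q ^ 4) * (q + 1) := by rw [e1]
        _ = (q ^ 3 + 1) * (q ^ 2 + q + 1) := by ring
        _ = 2 * ((q ^ 3 + 1) / 2) * (q ^ 2 + q + 1) := by rw [e2]
        _ = _ := by ring
    omega
  have hNs : N3 q s ^ ((q + 1) / 2) = -1 := by
    have e1 : N3 q s = s ^ (1 + q ^ 2 + q ^ 4) := by
      unfold N3
      rw [pow_add, pow_add, pow_one]
    have hodd : Odd (q ^ 2 + q + 1) := by
      have e2 : q ^ 2 + q = q * (q + 1) := by ring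
      have e3 : Even (q * (q + 1)) := Nat.even_mul_succ_self q
      rw [e2]
      exact e3.add_one
    rw [e1, ← pow_mul, hexp, pow_mul, hs1, hodd.neg_one_pow]
  rw [hNp] at hNs
  apply h22
  linear_combination hNs

end Pool.Agent.TH501.Hemi
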