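import Mathlib
import Pool.Agent.TH501.Hemi.Defs

/-!
Conic algebra, part 1 (helper411): Frobenius as a ring homomorphism, the linear
parametrisation of the eigenspace of `A_{S/N(S)}`.
-/

set_option autoImplicit false
set_option linter.unusedSectionVars false
set_option linter.style.haveILetI false
set_option linter.unusedSimpArgs false

namespace Pool.Agent.TH501.Hemi

open Finset Classical

variable {K : Type} [Field K] [Fintype K] {q : ℕ}

theorem sp_phi (h : Std K q) : ∃ φ : K →+* K, (∀ x, x ^ q = φ x) ∧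
    (∀ x, φ (φ (φ (φ (φ (φ x))))) = x) := by
  obtain ⟨p, hp⟩ := CharP.exists K
  haveI := hp
  obtain ⟨n, hpr, hc⟩ := FiniteField.card K p
  haveI : Fact p.Prime := ⟨hpr⟩
  have hq : q ∣ p ^ (n : ℕ) := by
    rw [← hc, h.card]; exact dvd_pow_self q (by norm_num)
  obtain ⟨m, -, hm⟩ := (Nat.dvd_prime_pow hpr).1 hq
  have h1 : ∀ x : K, x ^ q = iterateFrobenius K p m x := by
    intro x; rw [iterateFrobenius_def, hm]
  refine ⟨iterateFrobenius K p m, h1, fun x => ?_⟩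
  simp only [← h1, ← pow_mul]
  have : q * q * q * q * q * q = q ^ 6 := by ring
  rw [this, ← h.card]
  exact FiniteField.pow_card x

theorem sp_two (h : Std K q) : (2 : K) ≠ 0 := by
  intro h2
  obtain ⟨p, hp⟩ := CharP.exists K
  haveI := hp
  obtain ⟨n, hpr, hc⟩ := FiniteField.card K p
  have h3 : p ∣ 2 := (CharP.cast_eq_zero_iff K p 2).1 (by exact_mod_cast h2)
  have h4 : p = 2 := (Nat.prime_dvd_prime_iff_eq hpr Nat.prime_two).1 h3
  have h5 : 2 ∣ q ^ 6 := by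
    rw [← h.card, hc, h4]; exact dvd_pow_self 2 n.ne_zero
  have h6 : 2 ∣ q := Nat.prime_two.dvd_of_dvd_pow h5
  have := h.mod4
  omega

/-- everything about `φ` we need. -/
structure SpPhi (q : ℕ) (φ : K →+* K) : Prop where
  e : ∀ x, x ^ q = φ x
  six : ∀ x, φ (φ (φ (φ (φ (φ x))))) = x

namespace SpPhi

variable {φ : K →+* K}

theorem p2 (H : SpPhi q φ) (x : K) : x ^ q ^ 2 = φ (φ x) := by
  rw [pow_two, pow_mul, H.e, H.e]

theorem p3 (H : SpPhi q φ) (x : K) : x ^ q ^ 3 = φ (φ (φ x)) := by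
  rw [show q ^ 3 = q * q * q by ring, pow_mul, pow_mul, H.e, H.e, H.e]

theorem p4 (H : SpPhi q φ) (x : K) : x ^ q ^ 4 = φ (φ (φ (φ x))) := by
  rw [show q ^ 4 = q * q * q * q by ring, pow_mul, pow_mul, pow_mul, H.e, H.e, H.e, H.e]

theorem T (H : SpPhi q φ) (x : K) : T3 q x = x + φ (φ x) + φ (φ (φ (φ x))) := by
  unfold T3; rw [H.p2, H.p4]

theorem N (H : SpPhi q φ) (x : K) : N3 q x = x * φ (φ x) * φ (φ (φ (φ x))) := by
  unfold N3; rw [H.p2, H.p4]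

end SpPhi

theorem sp_Phi (h : Std K q) : ∃ φ : K →+* K, SpPhi q φ := by
  obtain ⟨φ, h1, h2⟩ := sp_phi h
  exact ⟨φ, h1, h2⟩

/-- the data of a conic: `S`, `g`, `th`, `lam` and the action of Frobenius. -/
structure SpDat (q : ℕ) (φ : K →+* K) (S S1 S2 g th : K) : Prop where
  H : SpPhi q φ
  S0 : S ≠ 0
  S10 : S1 ≠ 0
  S20 : S2 ≠ 0
  fS : φ S = S2⁻¹
  fS1 : φ S1 = S⁻¹
  fS2 : φ S2 = S1⁻¹
  hg : g = S * S1 * S2
  g0 : g ≠ 0
  fg : φ g = g⁻¹
  g2 : g ^ 2 + 1 ≠ 0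
  fth : φ th = - th
  th2 : th ^ 2 = 3
  n3 : N3 q S = g
  two : (2 : K) ≠ 0

theorem sp_mu {S : K} (hS : S ∈ mu K q) : S ≠ 0 ∧ S ^ (q ^ 3 + 1) = 1 := by
  have h1 : S ^ (q ^ 3 + 1) = 1 := (Finset.mem_filter.1 hS).2
  refine ⟨?_, h1⟩
  rintro rfl
  rw [zero_pow (Nat.succ_ne_zero _)] at h1
  exact zero_ne_one h1

theorem sp_Dat (h : Std K q) {th : K} (hth : th ^ 2 = 3) (hth' : th ^ q = - th)
    {S : K} (hS : S ∈ mu K q) : ∃ (φ : K →+* K) (S1 S2 g : K), SpDat q φ S S1 S2 g th ∧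
      S1 = φ (φ S) ∧ S2 = φ (φ (φ (φ S))) := by
  obtain ⟨φ, H⟩ := sp_Phi h
  obtain ⟨hS0, hS1⟩ := sp_mu hS
  have a1 : φ (φ (φ S)) * S = 1 := by rw [← H.p3, ← pow_succ]; exact hS1
  have a1' : φ (φ (φ S)) = S⁻¹ := eq_inv_of_mul_eq_one_left a1
  have a2 : φ (φ (φ (φ S))) = (φ S)⁻¹ := by rw [a1', map_inv₀]
  have a3 : φ (φ (φ (φ (φ S)))) = (φ (φ S))⁻¹ := by rw [a2, map_inv₀]
  have b1 : φ S ≠ 0 := (map_ne_zero φ).2 hS0
  have b2 : φ (φ S) ≠ 0 := (map_ne_zero φ).2 b1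
  have b4 : φ (φ (φ (φ S))) ≠ 0 := by rw [a2]; exact inv_ne_zero b1
  have hg0 : S * φ (φ S) * φ (φ (φ (φ S))) ≠ 0 := mul_ne_zero (mul_ne_zero hS0 b2) b4
  have fg : φ (S * φ (φ S) * φ (φ (φ (φ S)))) = (S * φ (φ S) * φ (φ (φ (φ S))))⁻¹ := by
    rw [map_mul, map_mul, a3, a2, a1']
    field_simp
  have g2 : (S * φ (φ S) * φ (φ (φ (φ S)))) ^ 2 + 1 ≠ 0 := by
    intro hz
    set g := S * φ (φ S) * φ (φ (φ (φ S))) with hgdef
    have c1 : g ^ 2 = -1 := eq_neg_of_add_eq_zero_left hz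
    have c2 : g ^ (q + 1) = 1 := by
      rw [pow_succ, H.e, fg]; exact inv_mul_cancel₀ hg0
    have hq := h.mod4
    obtain ⟨k, hk⟩ : ∃ k, q + 1 = 2 * (2 * k + 1) := ⟨(q - 1) / 4, by omega⟩
    rw [hk, pow_mul, c1, Odd.neg_one_pow ⟨k, rfl⟩] at c2
    have := sp_two h
    apply this
    linear_combination -c2
  refine ⟨φ, φ (φ S), φ (φ (φ (φ S))), S * φ (φ S) * φ (φ (φ (φ S))), ?_, rfl, rfl⟩
  exact
    { H := H, S0 := hS0, S10 := b2, S20 := b4
      fS := by rw [a2, inv_inv]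
      fS1 := a1'
      fS2 := a3
      hg := rfl, g0 := hg0, fg := fg, g2 := g2
      fth := by rw [← H.e]; exact hth'
      th2 := hth
      n3 := H.N S
      two := sp_two h }

/-- the SpHeron form. -/
def SpHeron (a b c : K) : K := a ^ 2 + b ^ 2 + c ^ 2 - 2 * (a * b + b * c + c * a)

/-- the linear parametrisation of the eigenspace. -/
def spXE (φ : K →+* K) (S g th lam E : K) : K :=
  lam * g * ((1 - g ^ 2) * E - (1 + th * g) * φ (φ E) - (1 - th * g) * φ (φ (φ (φ E)))) / S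

/-- the form of `Z_0`. -/
def spZE (φ : K →+* K) (g th E : K) : K :=
  (g ^ 2 - 1) * E - (g ^ 2 - th * g) * φ (φ E) - (g ^ 2 + th * g) * φ (φ (φ (φ E)))

/-- `Y_0`. -/
def spYE (φ : K →+* K) (g th E : K) : K :=
  (1 - g ^ 2) * E - (1 + th * g) * φ (φ E) - (1 - th * g) * φ (φ (φ (φ E)))

section

variable {φ : K →+* K} {S S1 S2 g th : K}

theorem spXE_S (D : SpDat q φ S S1 S2 g th) (lam E : K) :
    S * spXE φ S g th lam E = lam * g * spYE φ g th E := by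
  have := D.S0
  unfold spXE spYE; field_simp

/-- Frobenius on a real triple -/
theorem sp_fE {E : K} (hE : φ (φ (φ E)) = E) : φ (φ (φ (φ E))) = φ E := by rw [hE]

theorem spXE_bar (D : SpDat q φ S S1 S2 g th) {lam E : K} (hlam : φ lam = g ^ 3 * lam)
    (hE : φ (φ (φ E)) = E) : φ (φ (φ (spXE φ S g th lam E))) = lam * spZE φ g th E * S := by
  have h0 := D.S0
  have h1 := D.S10
  have h2 := D.S20
  have hg0 := D.g0
  unfold spXE spZE
  simp only [map_mul, map_div₀, map_sub, map_add, map_one, map_pow, map_neg, map_inv₀, D.fS,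
    D.fS1, D.fS2, D.fg, D.fth, hlam, hE, inv_inv]
  field_simp
  ring

theorem sp_phi2_lam (D : SpDat q φ S S1 S2 g th) {lam : K} (hlam : φ lam = g ^ 3 * lam) :
    φ (φ lam) = lam := by
  have hg0 := D.g0
  rw [hlam, map_mul, map_pow, D.fg, hlam]; field_simp

theorem sp_N3_s (D : SpDat q φ S S1 S2 g th) : N3 q (S / g) = (g ^ 2)⁻¹ := by
  have h0 := D.S0
  have h1 := D.S10
  have h2 := D.S20
  have hg0 := D.g0
  rw [D.H.N]
  simp only [map_div₀, map_inv₀, D.fS, D.fS1, D.fS2, D.fg, inv_inv]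
  have : S * S1 * S2 = g := D.hg.symm
  field_simp
  linear_combination this

theorem sp_yE (D : SpDat q φ S S1 S2 g th) (lam E : K) :
    S / g * spXE φ S g th lam E = lam * spYE φ g th E := by
  have h0 := D.S0
  have hg0 := D.g0
  unfold spXE spYE; field_simp

theorem sp_zE (D : SpDat q φ S S1 S2 g th) {lam E : K} (hlam : φ lam = g ^ 3 * lam)
    (hE : φ (φ (φ E)) = E) :
    φ (φ (φ (spXE φ S g th lam E))) / (S / g) = lam * g * spZE φ g th E := by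
  have h0 := D.S0
  have hg0 := D.g0
  rw [spXE_bar D hlam hE]; field_simp

theorem sp_phi2_YE (D : SpDat q φ S S1 S2 g th) (E : K) :
    φ (φ (spYE φ g th E)) = spYE φ g th (φ (φ E)) := by
  unfold spYE
  simp only [map_mul, map_sub, map_add, map_one, map_pow, map_neg, map_inv₀, D.fg, D.fth,
    inv_inv, neg_neg]

theorem sp_phi2_ZE (D : SpDat q φ S S1 S2 g th) (E : K) :
    φ (φ (spZE φ g th E)) = spZE φ g th (φ (φ E)) := by
  unfold spZE
  simp only [map_mul, map_sub, map_add, map_one, map_pow, map_neg, map_inv₀, D.fg, D.fth,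
    inv_inv, neg_neg]

theorem sp_phi2_g (D : SpDat q φ S S1 S2 g th) : φ (φ g) = g := by
  rw [D.fg, map_inv₀, D.fg, inv_inv]

theorem sp_Af_XE (D : SpDat q φ S S1 S2 g th) {lam E : K} (hlam : φ lam = g ^ 3 * lam)
    (hE : φ (φ (φ E)) = E) :
    Af q th (S / g) (spXE φ S g th lam E) = - 2 * (g + g⁻¹) * spXE φ S g th lam E := by
  have h0 := D.S0
  have hg0 := D.g0
  have hE' := sp_fE hE
  unfold Af
  rw [sp_N3_s D, D.H.p2, D.H.p4, D.H.p3, D.H.p2, D.H.p4, sp_yE D, sp_zE D hlam hE]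
  simp only [map_mul, sp_phi2_lam D hlam, sp_phi2_YE D, sp_phi2_ZE D, sp_phi2_g D]
  have e1 : S * spXE φ S g th lam E = lam * g * spYE φ g th E := spXE_S D lam E
  rw [inv_mul_eq_iff_eq_mul₀ (div_ne_zero h0 hg0)]
  have e2 : S / g * (-2 * (g + g⁻¹) * spXE φ S g th lam E) =
      -2 * (g + g⁻¹) * (lam * spYE φ g th E) := by rw [← sp_yE D]; ring
  rw [e2]
  unfold Ap spYE spZE
  simp only [hE]
  field_simp
  linear_combination (lam * g ^ 2 * (φ E + φ (φ E) - 2 * E)) * D.th2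

/-- the polar form of `SpHeron` -/
def SpHeronB (a b c a' b' c' : K) : K :=
  2 * (a' * (a - b - c) + b' * (b - c - a) + c' * (c - a - b))

theorem sp_Bf_XE (D : SpDat q φ S S1 S2 g th) {lam E E' : K} (hlam : φ lam = g ^ 3 * lam)
    (hE : φ (φ (φ E)) = E) (hE' : φ (φ (φ E')) = E') :
    Bf q (spXE φ S g th lam E) (spXE φ S g th lam E') =
      - (lam ^ 2 * g * (1 + g ^ 2) ^ 2) *
        SpHeronB E (φ (φ E)) (φ E) E' (φ (φ E')) (φ E') := by
  have h0 := D.S0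
  have hg0 := D.g0
  unfold Bf
  have e1 : spXE φ S g th lam E * spXE φ S g th lam E' ^ q ^ 3 +
      spXE φ S g th lam E ^ q ^ 3 * spXE φ S g th lam E' =
      lam ^ 2 * g * (spYE φ g th E * spZE φ g th E' + spZE φ g th E * spYE φ g th E') := by
    rw [D.H.p3, D.H.p3, spXE_bar D hlam hE, spXE_bar D hlam hE']
    linear_combination (lam * spZE φ g th E') * spXE_S D lam E + (lam * spZE φ g th E) * spXE_S D lam E'
  rw [e1, D.H.T]
  simp only [map_mul, map_add, map_pow, sp_phi2_lam D hlam, sp_phi2_YE D, sp_phi2_ZE D, sp_phi2_g D]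
  unfold spYE spZE SpHeronB
  simp only [hE, hE']
  linear_combination (lam ^ 2 * g ^ 3 * (-4 * (E * E' + φ (φ E) * φ (φ E') + φ E * φ E')
    + 2 * (E * φ (φ E') + E * φ E' + φ (φ E) * E' + φ (φ E) * φ E' + φ E * E'
      + φ E * φ (φ E')))) * D.th2

theorem sp_Qf_XE (D : SpDat q φ S S1 S2 g th) {lam E : K} (hlam : φ lam = g ^ 3 * lam)
    (hE : φ (φ (φ E)) = E) :
    Qf q (spXE φ S g th lam E) =
      - (lam ^ 2 * g * (1 + g ^ 2) ^ 2) * SpHeron E (φ (φ E)) (φ E) := by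
  have h0 := D.S0
  have hg0 := D.g0
  unfold Qf
  have e1 : spXE φ S g th lam E * spXE φ S g th lam E ^ q ^ 3 =
      lam ^ 2 * g * (spYE φ g th E * spZE φ g th E) := by
    rw [D.H.p3, spXE_bar D hlam hE]
    linear_combination (lam * spZE φ g th E) * spXE_S D lam E
  rw [e1, D.H.T]
  simp only [map_mul, map_add, map_pow, sp_phi2_lam D hlam, sp_phi2_YE D, sp_phi2_ZE D, sp_phi2_g D]
  unfold spYE spZE SpHeron
  simp only [hE]
  linear_combination (lam ^ 2 * g ^ 3 * (2 * (E * φ (φ E) + φ (φ E) * φ E + φ E * E)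
    - 2 * (E ^ 2 + φ (φ E) ^ 2 + φ E ^ 2))) * D.th2

theorem sp_four_T (D : SpDat q φ S S1 S2 g th) : 4 * (g + g⁻¹) ≠ 0 := by
  have hg0 := D.g0
  have h4 : (4 : K) ≠ 0 := by
    rw [show (4 : K) = 2 * 2 by norm_num]; exact mul_ne_zero D.two D.two
  refine mul_ne_zero h4 ?_
  intro hz
  apply D.g2
  have : g * (g + g⁻¹) = 0 := by rw [hz, mul_zero]
  rw [mul_add, mul_inv_cancel₀ hg0] at this
  rw [pow_two]; exact this

theorem sp_exists_E (D : SpDat q φ S S1 S2 g th) {lam x : K} (hlam : φ lam = g ^ 3 * lam)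
    (hlam0 : lam ≠ 0)
    (hA : Af q th (S / g) x = - 2 * (g + g⁻¹) * x) :
    ∃ E : K, φ (φ (φ E)) = E ∧ x = spXE φ S g th lam E := by
  have h0 := D.S0
  have hg0 := D.g0
  have hg2 : 1 + g ^ 2 ≠ 0 := by rw [add_comm]; exact D.g2
  have h2 := D.two
  have hT := sp_four_T D
  obtain ⟨y0, hy0⟩ : ∃ y, y = S / g * x := ⟨_, rfl⟩
  obtain ⟨z2, hz2⟩ : ∃ y, y = φ y0 := ⟨_, rfl⟩
  obtain ⟨y1, hy1⟩ : ∃ y, y = φ z2 := ⟨_, rfl⟩
  obtain ⟨z0, hz0⟩ : ∃ y, y = φ y1 := ⟨_, rfl⟩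
  obtain ⟨y2, hy2⟩ : ∃ y, y = φ z0 := ⟨_, rfl⟩
  obtain ⟨z1, hz1⟩ : ∃ y, y = φ y2 := ⟨_, rfl⟩
  have hlast : φ z1 = y0 := by rw [hz1, hy2, hz0, hy1, hz2, D.H.six]
  have hx : x = g / S * y0 := by rw [hy0]; field_simp
  have hz0' : φ (φ (φ x)) / (S / g) = z0 := by
    rw [hz0, hy1, hz2, hy0]
    simp only [map_mul, map_div₀, map_inv₀, D.fS, D.fS1, D.fS2, D.fg, inv_inv]
    field_simp
  -- the six equations
  have E0 : Ap th (g ^ 2)⁻¹ y1 y2 z0 z1 z2 = -2 * (g + g⁻¹) * y0 := by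
    unfold Af at hA
    rw [sp_N3_s D, D.H.p2, D.H.p4, D.H.p3, D.H.p2, D.H.p4, hz0', ← hy0] at hA
    rw [← hz2, ← hy1, ← hz0, ← hy2, ← hz1, hlast, ← hz2] at hA
    rw [inv_mul_eq_iff_eq_mul₀ (div_ne_zero h0 hg0)] at hA
    rw [hA, hy0]; ring
  unfold Ap at E0
  have B2 := congrArg φ E0
  have E1 := congrArg φ B2
  have B0 := congrArg φ E1
  have E2 := congrArg φ B0
  have B1 := congrArg φ E2
  simp only [map_mul, map_sub, map_add, map_neg, map_pow, map_inv₀, map_one, map_ofNat, D.fg,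
    D.fth, inv_inv, ← hz2, ← hy1, ← hz0, ← hy2, ← hz1, hlast, neg_neg] at B2 E1 B0 E2 B1
  have key : (g - 3 * g ^ 3) * y0 - (g ^ 2 - 3) * z0 - (g - g ^ 3 + 2 * th * g ^ 2) * y1
      - (1 - g ^ 2 + 2 * th * g) * z1 - (g - g ^ 3 - 2 * th * g ^ 2) * y2
      - (1 - g ^ 2 - 2 * th * g) * z2 = 0 := by
    have hk : 4 * (g + g⁻¹) * ((g - 3 * g ^ 3) * y0 - (g ^ 2 - 3) * z0
      - (g - g ^ 3 + 2 * th * g ^ 2) * y1
      - (1 - g ^ 2 + 2 * th * g) * z1 - (g - g ^ 3 - 2 * th * g ^ 2) * y2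
      - (1 - g ^ 2 - 2 * th * g) * z2) = 0 := by
      field_simp at E0 E1 E2 B0 B1 B2 ⊢
      linear_combination (1 - 3 * g ^ 2) * E0 - (g ^ 2 - 3) * B0
        - (1 - g ^ 2 + 2 * th * g) * E1 - (1 - g ^ 2 + 2 * th * g) * B1
        - (1 - g ^ 2 - 2 * th * g) * E2 - (1 - g ^ 2 - 2 * th * g) * B2
        - (4 * g ^ 2 * z0 - 2 * g ^ 2 * z1 - 2 * g ^ 2 * z2 - 4 * g ^ 3 * y0 + 2 * g ^ 3 * y1
          + 2 * g ^ 3 * y2) * D.th2
    exact (mul_eq_zero.1 hk).resolve_left hT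
  have hL2 := sp_phi2_lam D hlam
  obtain ⟨E, hE⟩ : ∃ E, E = -((y1 + z1 / g) + (y2 + z2 / g) - (y0 + z0 / g)) /
    (2 * lam * (1 + g ^ 2)) := ⟨_, rfl⟩
  have f1 : φ E = -((y0 + z0 / g) + (y1 + z1 / g) - (y2 + z2 / g)) /
      (2 * lam * (1 + g ^ 2)) := by
    rw [hE]
    simp only [map_mul, map_sub, map_add, map_neg, map_pow, map_inv₀, map_div₀, map_one,
      map_ofNat, D.fg, hlam, inv_inv, ← hz2, ← hy1, ← hz0, ← hy2, ← hz1, hlast, neg_neg]
    have : g ^ 2 + 1 ≠ 0 := D.g2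
    field_simp
    ring
  have f2 : φ (φ E) = -((y2 + z2 / g) + (y0 + z0 / g) - (y1 + z1 / g)) /
      (2 * lam * (1 + g ^ 2)) := by
    rw [f1]
    simp only [map_mul, map_sub, map_add, map_neg, map_pow, map_inv₀, map_div₀, map_one,
      map_ofNat, D.fg, hlam, inv_inv, ← hz2, ← hy1, ← hz0, ← hy2, ← hz1, hlast, neg_neg]
    have : g ^ 2 + 1 ≠ 0 := D.g2
    field_simp
    ring
  have f3 : φ (φ (φ E)) = E := by
    rw [f2, hE]
    simp only [map_mul, map_sub, map_add, map_neg, map_pow, map_inv₀, map_div₀, map_one,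
      map_ofNat, D.fg, hlam, inv_inv, ← hz2, ← hy1, ← hz0, ← hy2, ← hz1, hlast, neg_neg]
    have : g ^ 2 + 1 ≠ 0 := D.g2
    field_simp
    ring
  refine ⟨E, f3, ?_⟩
  unfold spXE
  rw [f3, f2, f1, hE, hx]
  field_simp
  linear_combination (-1 : K) * key

end

end Pool.Agent.TH501.Hemi
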