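import Mathlib
import Pool.Agent.TH501.Hemi.Defs
import Pool.Agent.TH501.Hemi.SP1
import Pool.Agent.TH501.Hemi.Exist

/-!
Conic algebra, part 2 (helper411): the conic `C_S` as the set of singular points of the
eigenspace of `A_{S/N(S)}`.
-/

set_option autoImplicit false
set_option linter.unusedSectionVars false
set_option linter.style.haveILetI false
set_option linter.unusedSimpArgs false

namespace Pool.Agent.TH501.Hemi

open Finset Classical

variable {K : Type} [Field K] [Fintype K] {q : ℕ}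

section

variable {φ : K →+* K} {S S1 S2 g th : K}

theorem sp_g_norm (D : SpDat q φ S S1 S2 g th) : g ^ (q + 1) = 1 := by
  rw [pow_succ, D.H.e, D.fg]; exact inv_mul_cancel₀ D.g0

theorem sp_uS_XE (D : SpDat q φ S S1 S2 g th) {lam e : K} (he : φ (φ (φ e)) = e)
    (hT : e + φ (φ e) + φ e = 0) : uS q th S lam e = spXE φ S g th lam (e ^ 2) := by
  unfold uS spXE Yp
  rw [D.n3, D.H.p2, D.H.p4, he]
  simp only [map_pow, he]
  have h0 := D.S0
  field_simp
  have h1 : e = -(φ (φ e) + φ e) := by linear_combination hT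
  generalize φ (φ e) = b at *
  generalize φ e = c at *
  subst h1
  ring

theorem spXE_zero (D : SpDat q φ S S1 S2 g th) {lam E : K} (hlam : φ lam = g ^ 3 * lam)
    (hlam0 : lam ≠ 0) (hE : φ (φ (φ E)) = E) (hX : spXE φ S g th lam E = 0) : E = 0 := by
  have h1 : spYE φ g th E = 0 := by
    have h2 := spXE_S D lam E
    rw [hX, mul_zero] at h2
    rcases mul_eq_zero.1 h2.symm with h3 | h3
    · exact absurd h3 (mul_ne_zero hlam0 D.g0)
    · exact h3
  have h2 : spZE φ g th E = 0 := by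
    have h2 := spXE_bar D hlam hE
    rw [hX, map_zero, map_zero, map_zero] at h2
    rcases mul_eq_zero.1 h2.symm with h3 | h3
    · exact (mul_eq_zero.1 h3).resolve_left hlam0
    · exact absurd h3 D.S0
  have h3 : φ (φ E) + φ E = 0 := by
    have h4 : (g ^ 2 + 1) * (φ (φ E) + φ E) = 0 := by
      unfold spYE at h1; unfold spZE at h2
      rw [hE] at h1 h2
      linear_combination -h1 - h2
    exact (mul_eq_zero.1 h4).resolve_left D.g2
  have h4 : E + φ (φ E) = 0 := by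
    have := congrArg φ h3
    rw [map_add, hE, map_zero] at this; exact this
  have h5 : φ E + E = 0 := by
    have := congrArg φ h4
    rw [map_add, hE, map_zero] at this; exact this
  have h6 : 2 * E = 0 := by linear_combination h4 + h5 - h3
  exact (mul_eq_zero.1 h6).resolve_left D.two

theorem sp_heron_sq {a b c : K} (h : a + b + c = 0) : SpHeron (a ^ 2) (b ^ 2) (c ^ 2) = 0 := by
  have h1 : a = -(b + c) := by linear_combination h
  unfold SpHeron; subst h1; ring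

theorem sp_heronB_sq {a b c a' b' c' : K} (h : a + b + c = 0) (h' : a' + b' + c' = 0) :
    SpHeronB (a ^ 2) (b ^ 2) (c ^ 2) (a' ^ 2) (b' ^ 2) (c' ^ 2) = -4 * (b * c' - c * b') ^ 2 := by
  have h1 : a = -(b + c) := by linear_combination h
  have h1' : a' = -(b' + c') := by linear_combination h'
  unfold SpHeronB; subst h1; subst h1'; ring

theorem spD_InC_iff (D : SpDat q φ S S1 S2 g th) (x : K) : InC q th S x ↔
    ∃ lam e : K, lam ≠ 0 ∧ φ lam = g ^ 3 * lam ∧ e ≠ 0 ∧ φ (φ (φ e)) = e ∧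
      e + φ (φ e) + φ e = 0 ∧ x = spXE φ S g th lam (e ^ 2) := by
  constructor
  · rintro ⟨lam, e, h1, h2, h3, h4, h5, h6⟩
    rw [D.H.e, D.n3] at h2
    rw [D.H.p3] at h4
    rw [D.H.T, h4] at h5
    exact ⟨lam, e, h1, h2, h3, h4, h5, by rw [h6, sp_uS_XE D h4 h5]⟩
  · rintro ⟨lam, e, h1, h2, h3, h4, h5, h6⟩
    refine ⟨lam, e, h1, ?_, h3, ?_, ?_, ?_⟩
    · rw [D.H.e, D.n3]; exact h2
    · rw [D.H.p3]; exact h4
    · rw [D.H.T, h4]; exact h5
    · rw [h6, sp_uS_XE D h4 h5]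

theorem sp_fsq {e : K} (he : φ (φ (φ e)) = e) : φ (φ (φ (e ^ 2))) = e ^ 2 := by
  rw [map_pow, map_pow, map_pow, he]

end

theorem InC_ne_zero (h : Std K q) {th : K} (hth : th ^ 2 = 3) (hth' : th ^ q = - th)
    {S x : K} (hS : S ∈ mu K q) (hx : InC q th S x) : x ≠ 0 := by
  obtain ⟨φ, S1, S2, g, D, -, -⟩ := sp_Dat h hth hth' hS
  obtain ⟨lam, e, h1, h2, h3, h4, h5, rfl⟩ := (spD_InC_iff D x).1 hx
  intro h0
  have := spXE_zero D h2 h1 (sp_fsq h4) h0
  exact h3 (pow_eq_zero_iff (two_ne_zero) |>.1 this)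

theorem InC_sing (h : Std K q) {th : K} (hth : th ^ 2 = 3) (hth' : th ^ q = - th)
    {S x : K} (hS : S ∈ mu K q) (hx : InC q th S x) : Qf q x = 0 := by
  obtain ⟨φ, S1, S2, g, D, -, -⟩ := sp_Dat h hth hth' hS
  obtain ⟨lam, e, h1, h2, h3, h4, h5, rfl⟩ := (spD_InC_iff D x).1 hx
  rw [sp_Qf_XE D h2 (sp_fsq h4)]
  simp only [map_pow]
  rw [sp_heron_sq h5, mul_zero]

theorem InC_eigen (h : Std K q) {th : K} (hth : th ^ 2 = 3) (hth' : th ^ q = - th)
    {S x : K} (hS : S ∈ mu K q) (hx : InC q th S x) :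
    Af q th (S / N3 q S) x = - 2 * (N3 q S + (N3 q S)⁻¹) * x := by
  obtain ⟨φ, S1, S2, g, D, -, -⟩ := sp_Dat h hth hth' hS
  obtain ⟨lam, e, h1, h2, h3, h4, h5, rfl⟩ := (spD_InC_iff D x).1 hx
  rw [D.n3]
  exact sp_Af_XE D h2 (sp_fsq h4)

theorem InC_smul (h : Std K q) {th S x a : K} (hx : InC q th S x) (ha : a ^ q = a)
    (ha0 : a ≠ 0) : InC q th S (a * x) := by
  obtain ⟨lam, e, h1, h2, h3, h4, h5, rfl⟩ := hx
  refine ⟨a * lam, e, mul_ne_zero ha0 h1, ?_, h3, h4, h5, ?_⟩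
  · rw [mul_pow, ha, h2]; ring
  · unfold uS; ring

theorem InC_of_eigen (h : Std K q) {th : K} (hth : th ^ 2 = 3) (hth' : th ^ q = - th)
    {S x : K} (hS : S ∈ mu K q) (hx0 : x ≠ 0) (hx : Qf q x = 0)
    (hA : Af q th (S / N3 q S) x = - 2 * (N3 q S + (N3 q S)⁻¹) * x) : InC q th S x := by
  obtain ⟨φ, S1, S2, g, D, -, -⟩ := sp_Dat h hth hth' hS
  rw [D.n3] at hA
  obtain ⟨lam, hl0, hl⟩ := lam_exists h (g := g ^ 3) (by
    rw [← pow_mul, mul_comm, pow_mul, sp_g_norm D, one_pow])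
  rw [D.H.e] at hl
  obtain ⟨E, hE, hxE⟩ := sp_exists_E D hl hl0 hA
  have hE0 : E ≠ 0 := by
    rintro rfl
    apply hx0
    rw [hxE]; unfold spXE; simp
  have hH : SpHeron E (φ (φ E)) (φ E) = 0 := by
    have h1 := sp_Qf_XE D hl hE
    rw [← hxE, hx] at h1
    have h2 : -(lam ^ 2 * g * (1 + g ^ 2) ^ 2) ≠ 0 := by
      refine neg_ne_zero.2 (mul_ne_zero (mul_ne_zero (pow_ne_zero 2 hl0) D.g0) (pow_ne_zero 2 ?_))
      rw [add_comm]; exact D.g2
    exact (mul_eq_zero.1 h1.symm).resolve_left h2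
  have h2 := D.two
  obtain ⟨r0, hr0⟩ : ∃ r, r = (φ (φ E) + φ E - E) / 2 := ⟨_, rfl⟩
  have fr : φ r0 = (E + φ (φ E) - φ E) / 2 := by
    rw [hr0]; simp only [map_div₀, map_sub, map_add, map_ofNat, hE]
  have ffr : φ (φ r0) = (φ E + E - φ (φ E)) / 2 := by
    rw [fr]; simp only [map_div₀, map_sub, map_add, map_ofNat, hE]
  have fffr : φ (φ (φ r0)) = r0 := by
    rw [ffr, hr0]; simp only [map_div₀, map_sub, map_add, map_ofNat, hE]
  obtain ⟨M, hM⟩ : ∃ M, M = E * φ (φ E) * φ E := ⟨_, rfl⟩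
  have fM : φ M = M := by
    rw [hM]; simp only [map_mul, hE]; ring
  have hM0 : M ≠ 0 := by
    rw [hM]
    exact mul_ne_zero (mul_ne_zero hE0 ((map_ne_zero φ).2 ((map_ne_zero φ).2 hE0)))
      ((map_ne_zero φ).2 hE0)
  obtain ⟨e, he⟩ : ∃ e, e = φ r0 * φ (φ r0) := ⟨_, rfl⟩
  have e2 : e ^ 2 = M * E := by
    unfold SpHeron at hH
    rw [he, ffr, fr, hM]
    field_simp
    generalize φ (φ E) = b at *
    generalize φ E = c at *
    linear_combination ((E + b - c) ^ 2 + 4 * E * c) * hH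
  have he0 : e ≠ 0 := by
    intro hz
    rw [hz] at e2
    exact mul_ne_zero hM0 hE0 (by rw [← e2]; ring)
  have fe : φ e = φ (φ r0) * r0 := by rw [he, map_mul, fffr]
  have ffe : φ (φ e) = r0 * φ r0 := by rw [fe, map_mul, fffr]
  have fffe : φ (φ (φ e)) = e := by rw [ffe, map_mul, he]
  have hsum : e + φ (φ e) + φ e = 0 := by
    unfold SpHeron at hH
    rw [ffe, fe, he, ffr, fr, hr0]
    field_simp
    generalize φ (φ E) = b at *
    generalize φ E = c at *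
    linear_combination (-1 : K) * hH
  refine (spD_InC_iff D x).2 ⟨lam / M, e, div_ne_zero hl0 hM0, ?_, he0, fffe, hsum, ?_⟩
  · rw [map_div₀, hl, fM]; ring
  · rw [hxE, e2]
    unfold spXE
    simp only [map_mul, fM]
    field_simp

theorem Bf_uS (h : Std K q) {th : K} (hth : th ^ 2 = 3) (hth' : th ^ q = - th)
    {S lam e e' : K} (hS : S ∈ mu K q) (hlam : lam ^ q = N3 q S ^ 3 * lam)
    (he : e ^ q ^ 3 = e) (heT : T3 q e = 0) (he' : e' ^ q ^ 3 = e') (heT' : T3 q e' = 0) :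
    Bf q (uS q th S lam e) (uS q th S lam e')
      = 4 * lam ^ (q + 1) * (N3 q S + (N3 q S)⁻¹) ^ 2
        * (e ^ q ^ 2 * e' ^ q ^ 4 - e ^ q ^ 4 * e' ^ q ^ 2) ^ 2 := by
  obtain ⟨φ, S1, S2, g, D, -, -⟩ := sp_Dat h hth hth' hS
  rw [D.H.e, D.n3] at hlam
  rw [D.H.p3] at he he'
  rw [D.H.T, he] at heT
  rw [D.H.T, he'] at heT'
  have hp : lam ^ (q + 1) = g ^ 3 * lam * lam := by rw [pow_succ, D.H.e, hlam]
  rw [sp_uS_XE D he heT, sp_uS_XE D he' heT', sp_Bf_XE D hlam (sp_fsq he) (sp_fsq he'), D.n3, hp,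
    D.H.p2, D.H.p4, D.H.p2, D.H.p4, he, he']
  simp only [map_pow]
  rw [sp_heronB_sq heT heT']
  have := D.g0
  field_simp
  ring

end Pool.Agent.TH501.Hemi
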