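import Mathlib
import Pool.Agent.TH501.Hemi.Defs
import Pool.Agent.TH501.Hemi.SP2
import Pool.Agent.TH501.Hemi.Ops
import Pool.Agent.TH501.Hemi.Binary
import Pool.Agent.TH501.Hemi.Witt

/-!
Conic algebra, part 3 (helper411): tangents of the conic, characters, `sigma_plus`.
-/

set_option autoImplicit false
set_option linter.unusedSectionVars false
set_option linter.style.haveILetI false
set_option linter.unusedSimpArgs false
set_option linter.unusedVariables false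

namespace Pool.Agent.TH501.Hemi

open Finset Classical

variable {K : Type} [Field K] [Fintype K] {q : ℕ}

/-- vectors of the eigenspace orthogonal to a point of the conic. -/
theorem sp_tan (h : Std K q) {th : K} (hth : th ^ 2 = 3) (hth' : th ^ q = - th)
    {S x y : K} (hS : S ∈ mu K q) (hx : InC q th S x)
    (hA : Af q th (S / N3 q S) y = - 2 * (N3 q S + (N3 q S)⁻¹) * y) (hB : Bf q x y = 0) :
    ∃ lam om : K, lam ≠ 0 ∧ lam ^ q = N3 q S ^ 3 * lam ∧ om ^ q = om ∧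
      Qf q y = - (lam ^ (q + 1) * (N3 q S + (N3 q S)⁻¹) ^ 2 * om ^ 2) ∧
      (om = 0 → ∃ a : K, a ^ q = a ∧ y = a * x) := by
  obtain ⟨φ, S1, S2, g, D, -, -⟩ := sp_Dat h hth hth' hS
  obtain ⟨lam, e, h1, h2, h3, h4, h5, rfl⟩ := (spD_InC_iff D x).1 hx
  rw [D.n3] at hA ⊢
  obtain ⟨E, hE, hyE⟩ := sp_exists_E D h2 h1 hA
  have hg0 := D.g0
  have hg2 : 1 + g ^ 2 ≠ 0 := by rw [add_comm]; exact D.g2
  have hp : lam ^ (q + 1) = g ^ 3 * lam * lam := by rw [pow_succ, D.H.e, h2]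
  have e1 : φ e ≠ 0 := (map_ne_zero φ).2 h3
  have e2 : φ (φ e) ≠ 0 := (map_ne_zero φ).2 e1
  have hHB : SpHeronB (e ^ 2) (φ (φ (e ^ 2))) (φ (e ^ 2)) E (φ (φ E)) (φ E) = 0 := by
    rw [hyE, sp_Bf_XE D h2 (sp_fsq h4) hE] at hB
    have h6 : -(lam ^ 2 * g * (1 + g ^ 2) ^ 2) ≠ 0 :=
      neg_ne_zero.2 (mul_ne_zero (mul_ne_zero (pow_ne_zero 2 h1) hg0) (pow_ne_zero 2 hg2))
    exact (mul_eq_zero.1 hB).resolve_left h6
  obtain ⟨f, hf⟩ : ∃ f, f = E / e := ⟨_, rfl⟩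
  have hEf : E = e * f := by rw [hf]; field_simp
  have f3 : φ (φ (φ f)) = f := by
    rw [hf]; simp only [map_div₀, hE, h4]
  have fs : f + φ (φ f) + φ f = 0 := by
    have h4' : (4 : K) ≠ 0 := by
      rw [show (4 : K) = 2 * 2 by norm_num]; exact mul_ne_zero D.two D.two
    have h7 : 4 * (e * φ (φ e) * φ e) * (f + φ (φ f) + φ f) = 0 := by
      unfold SpHeronB at hHB
      simp only [map_pow] at hHB
      rw [hEf] at hHB
      simp only [map_mul] at hHB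
      have h8 : e = -(φ (φ e) + φ e) := by linear_combination h5
      generalize φ (φ e) = b at *
      generalize φ e = c at *
      generalize φ (φ f) = b' at *
      generalize φ f = c' at *
      subst h8
      linear_combination hHB
    exact (mul_eq_zero.1 h7).resolve_left
      (mul_ne_zero h4' (mul_ne_zero (mul_ne_zero h3 e2) e1))
  refine ⟨lam, φ (φ e) * φ f - φ e * φ (φ f), h1, by rw [D.H.e]; exact h2, ?_, ?_, ?_⟩
  · rw [D.H.e]
    simp only [map_sub, map_mul, h4, f3]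
    have h8 : e = -(φ (φ e) + φ e) := by linear_combination h5
    have h9 : f = -(φ (φ f) + φ f) := by linear_combination fs
    linear_combination (φ (φ f)) * h8 - (φ (φ e)) * h9
  · rw [hyE, sp_Qf_XE D h2 hE, hp, hEf]
    simp only [map_mul]
    have h8 : e = -(φ (φ e) + φ e) := by linear_combination h5
    have h9 : f = -(φ (φ f) + φ f) := by linear_combination fs
    have h10 : SpHeron (e * f) (φ (φ e) * φ (φ f)) (φ e * φ f) =
        (φ (φ e) * φ f - φ e * φ (φ f)) ^ 2 := by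
      unfold SpHeron
      generalize φ (φ e) = b at *
      generalize φ e = c at *
      generalize φ (φ f) = b' at *
      generalize φ f = c' at *
      subst h8; subst h9; ring
    rw [h10]
    field_simp
    ring
  · intro hom
    obtain ⟨k, hk⟩ : ∃ k, k = f / e := ⟨_, rfl⟩
    have k1 : φ (φ k) = φ k := by
      rw [hk]; simp only [map_div₀]
      field_simp
      linear_combination -hom
    have k2 : φ (φ (φ k)) = k := by rw [hk]; simp only [map_div₀, f3, h4]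
    have k3 : φ k = k := by
      rw [k1, k1] at k2; exact k2
    refine ⟨k, by rw [D.H.e]; exact k3, ?_⟩
    have hE2 : E = k * e ^ 2 := by rw [hEf, hk]; field_simp
    rw [hyE, hE2]
    unfold spXE
    simp only [map_mul, k3]
    field_simp

theorem sp_real_T (h : Std K q) {th : K} (hth : th ^ 2 = 3) (hth' : th ^ q = - th)
    {S : K} (hS : S ∈ mu K q) :
    (N3 q S + (N3 q S)⁻¹) ^ q = N3 q S + (N3 q S)⁻¹ ∧ N3 q S + (N3 q S)⁻¹ ≠ 0 := by
  obtain ⟨φ, S1, S2, g, D, -, -⟩ := sp_Dat h hth hth' hS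
  rw [D.n3, D.H.e, map_add, map_inv₀, D.fg, inv_inv]
  refine ⟨add_comm _ _, ?_⟩
  have := sp_four_T D
  exact right_ne_zero_of_mul this

theorem sp_g_inv (h : Std K q) {S : K} (hS : S ∈ mu K q) :
    N3 q S ≠ 0 ∧ N3 q S ^ q = (N3 q S)⁻¹ := by
  obtain ⟨th, t1, t2⟩ := th_exists h
  obtain ⟨φ, S1, S2, g, D, -, -⟩ := sp_Dat h t1 t2 hS
  rw [D.n3, D.H.e]
  exact ⟨D.g0, D.fg⟩

theorem sp_half (h : Std K q) : (q + 1) / 2 * 2 = q + 1 ∧ (q - 1) / 2 * 2 = q - 1 ∧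
    (q ^ 3 + 1) / 2 = (q + 1) / 2 * (q ^ 2 - q + 1) ∧ Odd ((q ^ 3 + 1) / 2) := by
  have h4 := h.mod4
  obtain ⟨k, hk⟩ : ∃ k, q = 4 * k + 1 := ⟨q / 4, by omega⟩
  have e1 : (q + 1) / 2 = 2 * k + 1 := by omega
  have e2 : (q ^ 3 + 1) / 2 = (2 * k + 1) * (q ^ 2 - q + 1) := by
    have : q ^ 2 - q = (4 * k + 1) * (4 * k) := by
      rw [hk]
      have : (4 * k + 1) ^ 2 = (4 * k + 1) * (4 * k) + (4 * k + 1) := by ring
      omega
    rw [this, hk]
    have : (4 * k + 1) ^ 3 + 1 = 2 * ((2 * k + 1) * ((4 * k + 1) * (4 * k) + 1)) := by ring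
    omega
  refine ⟨by omega, by omega, by rw [e1, e2], ?_⟩
  rw [e2]
  have : q ^ 2 - q = (4 * k + 1) * (4 * k) := by
    rw [hk]
    have : (4 * k + 1) ^ 2 = (4 * k + 1) * (4 * k) + (4 * k + 1) := by ring
    omega
  rw [this]
  refine Odd.mul ⟨k, rfl⟩ ⟨(4 * k + 1) * (2 * k), by ring⟩

/-- `S^((q^3+1)/2) = g^((q+1)/2)` -/
theorem sp_g_half (h : Std K q) {S : K} (hS : S ∈ mu K q) :
    N3 q S ^ ((q + 1) / 2) = S ^ ((q ^ 3 + 1) / 2) ∧
      (S ^ ((q ^ 3 + 1) / 2)) ^ 2 = 1 := by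
  obtain ⟨hS0, hS1⟩ := sp_mu hS
  obtain ⟨a1, a2, a3, a4⟩ := sp_half h
  constructor
  · obtain ⟨r, hr⟩ : ∃ r, r = S ^ ((q + 1) / 2) := ⟨_, rfl⟩
    have hr0 : r ≠ 0 := by rw [hr]; exact pow_ne_zero _ hS0
    have b1 : N3 q S ^ ((q + 1) / 2) = r * r ^ q ^ 2 * r ^ q ^ 4 := by
      unfold N3; rw [hr, mul_pow, mul_pow, ← pow_mul, ← pow_mul, ← pow_mul, ← pow_mul,
        mul_comm (q ^ 2), mul_comm (q ^ 4)]
    have b2 : r ^ (q ^ 3 + 1) = 1 := by
      rw [hr, ← pow_mul, mul_comm, pow_mul, hS1, one_pow]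
    have b3 : r ^ q ^ 4 * r ^ q = 1 := by
      have : r ^ q ^ 4 * r ^ q = (r ^ (q ^ 3 + 1)) ^ q := by
        rw [← pow_add, ← pow_mul]; congr 1; ring
      rw [this, b2, one_pow]
    have b4 : S ^ ((q ^ 3 + 1) / 2) * r ^ q = r * r ^ q ^ 2 := by
      rw [a3, pow_mul, ← hr, ← pow_add, ← pow_succ']
      congr 1
      have : q ≤ q ^ 2 := by nlinarith [h.mod4, Nat.zero_le q, (by have := h.mod4; omega : 1 ≤ q)]
      omega
    rw [b1, ← b4, mul_assoc, mul_comm (r ^ q), b3, mul_one]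
  · rw [← pow_mul]
    have : (q ^ 3 + 1) / 2 * 2 = q ^ 3 + 1 := by
      obtain ⟨k, hk⟩ : ∃ k, q = 4 * k + 1 := ⟨q / 4, by have := h.mod4; omega⟩
      have : q ^ 3 + 1 = 2 * ((2 * k + 1) * ((4 * k + 1) * (4 * k) + 1)) := by rw [hk]; ring
      omega
    rw [this]; exact hS1

theorem sp_neg_mu (h : Std K q) {S : K} (hS : S ∈ mu K q) : -S ∈ mu K q := by
  refine Finset.mem_filter.2 ⟨mem_univ _, ?_⟩
  have : Even (q ^ 3 + 1) := by
    obtain ⟨k, hk⟩ : ∃ k, q = 4 * k + 1 := ⟨q / 4, by have := h.mod4; omega⟩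
    refine ⟨(2 * k + 1) * ((4 * k + 1) * (4 * k) + 1), ?_⟩
    rw [hk]; ring
  rw [this.neg_pow]; exact (sp_mu hS).2

theorem sp_N3_neg (h : Std K q) (S : K) : N3 q (-S) = - N3 q S := by
  obtain ⟨φ, H⟩ := sp_Phi h
  rw [H.N, H.N]; simp only [map_neg]; ring

theorem sp_div_neg (h : Std K q) (S : K) : (-S) / N3 q (-S) = S / N3 q S := by
  rw [sp_N3_neg h, neg_div_neg_eq]

theorem sp_T_neg (h : Std K q) (S : K) :
    N3 q (-S) + (N3 q (-S))⁻¹ = - (N3 q S + (N3 q S)⁻¹) := by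
  rw [sp_N3_neg h, inv_neg]; ring

theorem sp_sq_one {a : K} (h : a ^ 2 = 1) : a = 1 ∨ a = -1 := by
  have h1 : (a - 1) * (a + 1) = 0 := by linear_combination h
  rcases mul_eq_zero.1 h1 with h2 | h2
  · exact Or.inl (sub_eq_zero.1 h2)
  · exact Or.inr (eq_neg_of_add_eq_zero_left h2)

theorem sp_s_mem (h : Std K q) {S : K} (hS : S ∈ mu K q) : S / N3 q S ∈ mu K q := by
  obtain ⟨h0, h1⟩ := sp_mu hS
  obtain ⟨h2, h3⟩ := sp_g_inv h hS
  refine Finset.mem_filter.2 ⟨mem_univ _, ?_⟩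
  rw [div_pow, h1, one_div, inv_eq_one]
  have e1 : q ^ 3 + 1 = (q + 1) * (q ^ 2 - q + 1) := by
    obtain ⟨k, hk⟩ : ∃ k, q = k + 1 := ⟨q - 1, by have := h.mod4; omega⟩
    have : (k + 1) ^ 2 - (k + 1) = (k + 1) * k := by
      have : (k + 1) ^ 2 = (k + 1) * k + (k + 1) := by ring
      omega
    rw [hk, this]; ring
  have e2 : N3 q S ^ (q + 1) = 1 := by rw [pow_succ, h3, inv_mul_cancel₀ h2]
  rw [e1, pow_mul, e2, one_pow]

end Pool.Agent.TH501.Hemi
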