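import Mathlib
import Pool.Agent.TH501.Hemi.Defs
import Pool.Agent.TH501.Hemi.SP3

/-!
Conic algebra, part 4 (helper411): characters, change of basis of a line.
-/

set_option autoImplicit false
set_option linter.unusedSectionVars false
set_option linter.style.haveILetI false
set_option linter.unusedSimpArgs false
set_option linter.unusedVariables false

namespace Pool.Agent.TH501.Hemi

open Finset Classical

variable {K : Type} [Field K] [Fintype K] {q : ℕ}

theorem sp_neg_one_ne (h : Std K q) : (-1 : K) ≠ 1 := by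
  intro h1
  exact sp_two h (by linear_combination -h1)

/-- the character of the norm of `lam`. -/
theorem sp_eta_lam (h : Std K q) {S lam : K} (hS : S ∈ mu K q) (hl0 : lam ≠ 0)
    (hl : lam ^ q = N3 q S ^ 3 * lam) : eta q (lam ^ (q + 1)) = chi2 q S ∧
      (lam ^ (q + 1)) ^ q = lam ^ (q + 1) := by
  obtain ⟨h1, h2⟩ := sp_g_half h hS
  obtain ⟨a1, a2, a3, a4⟩ := sp_half h
  obtain ⟨g0, g1⟩ := sp_g_inv h hS
  have hq1 : 1 ≤ q := by have := h.mod4; omega
  have e1 : lam ^ (q - 1) = N3 q S ^ 3 := by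
    have : lam ^ (q - 1) * lam = N3 q S ^ 3 * lam := by
      rw [← pow_succ, Nat.sub_add_cancel hq1, hl]
    exact mul_right_cancel₀ hl0 this
  have e2 : (lam ^ (q + 1)) ^ ((q - 1) / 2) = (S ^ ((q ^ 3 + 1) / 2)) ^ 3 := by
    rw [← h1, ← pow_mul, ← pow_mul]
    have : (q + 1) * ((q - 1) / 2) = (q - 1) * ((q + 1) / 2) := by
      obtain ⟨k, hk⟩ : ∃ k, q = 4 * k + 1 := ⟨q / 4, by have := h.mod4; omega⟩
      have b1 : (q - 1) / 2 = 2 * k := by omega
      have b2 : (q + 1) / 2 = 2 * k + 1 := by omega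
      have b3 : q - 1 = 4 * k := by omega
      rw [b1, b2, b3, hk]; ring
    rw [this, pow_mul, e1, ← pow_mul, mul_comm 3]
  constructor
  · unfold eta chi2
    rw [if_neg (pow_ne_zero _ hl0), e2]
    rcases sp_sq_one h2 with h3 | h3
    · rw [h3, one_pow, if_pos rfl]
    · rw [h3, if_neg, if_neg (sp_neg_one_ne h)]
      rw [show ((-1 : K)) ^ 3 = -1 by ring]
      exact sp_neg_one_ne h
  · have e3 : (lam ^ (q + 1)) ^ q = (lam ^ q) ^ (q + 1) := by
      rw [← pow_mul, ← pow_mul, mul_comm]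
    rw [e3, hl, mul_pow, ← pow_mul, mul_comm 3, pow_mul]
    have e2 : N3 q S ^ (q + 1) = 1 := by rw [pow_succ, g1, inv_mul_cancel₀ g0]
    rw [e2, one_pow, one_mul]

theorem sp_chi2_neg (h : Std K q) {S : K} (hS : S ∈ mu K q) : chi2 q (-S) = - chi2 q S := by
  obtain ⟨h1, h2⟩ := sp_g_half h hS
  obtain ⟨a1, a2, a3, a4⟩ := sp_half h
  unfold chi2
  rw [a4.neg_pow]
  rcases sp_sq_one h2 with h3 | h3
  · rw [h3, if_neg (sp_neg_one_ne h), if_pos rfl]
  · rw [h3, neg_neg, if_pos rfl, if_neg (sp_neg_one_ne h), neg_neg]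

theorem sp_neg_real (h : Std K q) : (-1 : K) ^ q = -1 := by
  have : Odd q := by rw [Nat.odd_iff]; have := h.mod4; omega
  exact this.neg_one_pow

theorem sp_eta_neg (h : Std K q) {a : K} (ha : a ^ q = a) : eta q (-a) = eta q a := by
  rw [show -a = (-1) * a by ring, eta_mul h (sp_neg_real h) ha, eta_neg_one h, one_mul]

theorem sp_Fs_neg (h : Std K q) {S : K} (hS : S ∈ mu K q) : Fs q (-S) = - Fs q S := by
  obtain ⟨th, t1, t2⟩ := th_exists h
  obtain ⟨r1, r2⟩ := sp_real_T h t1 t2 hS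
  unfold Fs
  rw [sp_T_neg h, sp_eta_neg h r1, sp_chi2_neg h hS]
  ring

/-! ### change of basis -/

theorem sp_mem_Fq {a : K} : a ∈ Fq K q ↔ a ^ q = a := by
  simp [Fq]

theorem sp_k_add (h : Std K q) {a b : K} (ha : a ^ q = a) (hb : b ^ q = b) :
    (a + b) ^ q = a + b := by
  obtain ⟨φ, H⟩ := sp_Phi h
  rw [H.e] at *; rw [map_add, ha, hb]

theorem sp_k_mul {a b : K} (ha : a ^ q = a) (hb : b ^ q = b) :
    (a * b) ^ q = a * b := by
  rw [mul_pow, ha, hb]

theorem sp_k_neg (h : Std K q) {a : K} (ha : a ^ q = a) : (-a) ^ q = -a := by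
  rw [show -a = (-1) * a by ring]; exact sp_k_mul (sp_neg_real h) ha

theorem sp_k_sub (h : Std K q) {a b : K} (ha : a ^ q = a) (hb : b ^ q = b) :
    (a - b) ^ q = a - b := by
  rw [sub_eq_add_neg]; exact sp_k_add h ha (sp_k_neg h hb)

theorem sp_k_inv {a : K} (ha : a ^ q = a) : (a⁻¹) ^ q = a⁻¹ := by
  rw [inv_pow, ha]

theorem sp_k_div {a b : K} (ha : a ^ q = a) (hb : b ^ q = b) : (a / b) ^ q = a / b := by
  rw [div_pow, ha, hb]

theorem sp_k_zero (h : Std K q) : (0 : K) ^ q = 0 := by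
  have := h.mod4
  exact zero_pow (by omega)

theorem sp_k_two (h : Std K q) : (2 : K) ^ q = 2 := by
  have h2 : (2 : K) = 1 + 1 := by norm_num
  rw [h2]; exact sp_k_add h (one_pow q) (one_pow q)

theorem sp_lsum_shift (h : Std K q) (f : K → ℤ) (u v : K) {b0 : K} (hb : b0 ^ q = b0) :
    lsum q f (u + b0 * v) v = lsum q f u v := by
  unfold lsum
  congr 1
  refine Finset.sum_bij (fun b _ => b0 + b) ?_ ?_ ?_ ?_
  · intro b hb'
    rw [sp_mem_Fq] at *
    exact sp_k_add h hb hb'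
  · intro a _ b _ hab
    exact add_left_cancel hab
  · intro b hb'
    rw [sp_mem_Fq] at hb'
    refine ⟨b - b0, ?_, by ring⟩
    rw [sp_mem_Fq]
    exact sp_k_sub h hb' hb
  · intro b _
    congr 1; ring

theorem sp_lsum_swap (h : Std K q) {f : K → ℤ} (hf : ∀ a x : K, a ^ q = a → a ≠ 0 → f (a * x) = f x)
    (u v : K) : lsum q f u v = lsum q f v u := by
  unfold lsum
  have h0 : (0 : K) ∈ Fq K q := sp_mem_Fq.2 (sp_k_zero h)
  rw [← Finset.add_sum_erase _ _ h0, ← Finset.add_sum_erase _ (fun b => f (v + b * u)) h0]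
  have : ∑ b ∈ (Fq K q).erase 0, f (u + b * v) = ∑ b ∈ (Fq K q).erase 0, f (v + b * u) := by
    refine Finset.sum_bij (fun b _ => b⁻¹) ?_ ?_ ?_ ?_
    · intro b hb
      rw [Finset.mem_erase, sp_mem_Fq] at *
      exact ⟨inv_ne_zero hb.1, sp_k_inv hb.2⟩
    · intro a _ b _ hab
      exact inv_injective hab
    · intro b hb
      rw [Finset.mem_erase, sp_mem_Fq] at hb
      refine ⟨b⁻¹, ?_, inv_inv b⟩
      rw [Finset.mem_erase, sp_mem_Fq]
      exact ⟨inv_ne_zero hb.1, sp_k_inv hb.2⟩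
    · intro b hb
      rw [Finset.mem_erase, sp_mem_Fq] at hb
      rw [← hf b (v + b⁻¹ * u) hb.2 hb.1]
      congr 1
      have := hb.1
      field_simp
      ring
  rw [this]
  simp only [zero_mul, add_zero]
  ring

theorem sp_IsLine_swap {u v : K} (h : Std K q) (hl : IsLine q u v) : IsLine q v u := by
  refine ⟨?_, hl.qv, hl.qu, by rw [Bf_symm h]; exact hl.b⟩
  intro a b ha hb hab
  have := hl.ind b a hb ha (by linear_combination hab)
  exact ⟨this.2, this.1⟩

theorem sp_IsLine_shift {u v : K} (h : Std K q) (hl : IsLine q u v) {b0 : K} (hb : b0 ^ q = b0) :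
    IsLine q (u + b0 * v) v := by
  refine ⟨?_, ?_, hl.qv, ?_⟩
  · intro a b ha hb' hab
    have h1 := hl.ind a (a * b0 + b) ha (sp_k_add h (sp_k_mul ha hb) hb')
      (by linear_combination hab)
    refine ⟨h1.1, ?_⟩
    have h2 := h1.2
    rw [h1.1, zero_mul, zero_add] at h2
    exact h2
  · rw [Qf_add h, Qf_smul h hb, hl.qu, hl.qv, Bf_symm h, Bf_smul h hb, Bf_symm h, hl.b]
    ring
  · rw [Bf_add h, Bf_smul h hb, hl.b, Bf_self h, hl.qv]; ring

end Pool.Agent.TH501.Hemi
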