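import Mathlib
import Pool.Agent.TH501.Hemi.Defs
import Pool.Agent.TH501.Hemi.SP4

/-!
`sigma_plus` (helper411).  The conic algebra (`InC_ne_zero`, `InC_sing`, `InC_eigen`, `InC_smul`,
`InC_of_eigen`, `Bf_uS`) is in the imported file `SP2`.
-/

set_option autoImplicit false
set_option linter.unusedSectionVars false
set_option linter.style.haveILetI false
set_option linter.unusedSimpArgs false
set_option linter.unusedVariables false

namespace Pool.Agent.TH501.Hemi

open Finset Classical

variable {K : Type} [Field K] [Fintype K] {q : ℕ}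

/-- the operator squares to the scalar `(2T)^2`. -/
theorem sp_A2 (h : Std K q) {th : K} (hth : th ^ 2 = 3) (hth' : th ^ q = - th)
    {S : K} (hS : S ∈ mu K q) (u : K) :
    Af q th (S / N3 q S) (Af q th (S / N3 q S) u)
      = (2 * (N3 q S + (N3 q S)⁻¹)) ^ 2 * u := by
  rw [Af_sq h hth hth' (sp_s_mem h hS)]
  obtain ⟨φ, S1, S2, g, D, -, -⟩ := sp_Dat h hth hth' hS
  have h1 := sp_N3_s D
  rw [D.n3, h1]
  have := D.g0
  field_simp
  ring

/-- the function summed on the right. -/
noncomputable def spF (q : ℕ) (th S x : K) : ℤ :=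
  (if InC q th S x then Fs q S else 0) + (if InC q th (-S) x then Fs q (-S) else 0)

theorem spF_neg (th S x : K) : spF q th (-S) x = spF q th S x := by
  unfold spF
  rw [neg_neg, add_comm]

theorem spF_smul (h : Std K q) (th S : K) {a : K} (x : K) (ha : a ^ q = a) (ha0 : a ≠ 0) :
    spF q th S (a * x) = spF q th S x := by
  have key : ∀ S' : K, InC q th S' (a * x) ↔ InC q th S' x := by
    intro S'
    constructor
    · intro h1
      have h2 := InC_smul h h1 (sp_k_inv ha) (inv_ne_zero ha0)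
      rwa [← mul_assoc, inv_mul_cancel₀ ha0, one_mul] at h2
    · intro h1
      exact InC_smul h h1 ha ha0
  unfold spF
  simp only [key]

theorem spR_smul (h : Std K q) (th s : K) {a : K} (x : K) (hth' : th ^ q = - th)
    (hs : s ∈ mu K q) (ha : a ^ q = a) (ha0 : a ≠ 0) :
    eta q (Rf q th s (a * x)) = eta q (Rf q th s x) := by
  rw [Rf_smul h th s ha, eta_mul h (by rw [← pow_mul, mul_comm, pow_mul, ha])
    (Rf_real h hth' hs x), eta_sq h ha ha0, one_mul]

/-- eigenvectors. -/
theorem sp_InC_neg_iff (h : Std K q) {th : K} (hth : th ^ 2 = 3) (hth' : th ^ q = - th)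
    {S x : K} (hS : S ∈ mu K q) (hx0 : x ≠ 0) (hx : Qf q x = 0) :
    InC q th (-S) x ↔ Af q th (S / N3 q S) x = 2 * (N3 q S + (N3 q S)⁻¹) * x := by
  constructor
  · intro h1
    have h2 := InC_eigen h hth hth' (sp_neg_mu h hS) h1
    rw [sp_div_neg h, sp_T_neg h] at h2
    rw [h2]; ring
  · intro h1
    refine InC_of_eigen h hth hth' (sp_neg_mu h hS) hx0 hx ?_
    rw [sp_div_neg h, sp_T_neg h, h1]; ring

theorem sp_InC_iff (h : Std K q) {th : K} (hth : th ^ 2 = 3) (hth' : th ^ q = - th)
    {S x : K} (hS : S ∈ mu K q) (hx0 : x ≠ 0) (hx : Qf q x = 0) :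
    InC q th S x ↔ Af q th (S / N3 q S) x = -(2 * (N3 q S + (N3 q S)⁻¹)) * x := by
  constructor
  · intro h1
    have h2 := InC_eigen h hth hth' hS h1
    rw [h2]; ring
  · intro h1
    refine InC_of_eigen h hth hth' hS hx0 hx ?_
    rw [h1]; ring

theorem sp_pt (h : Std K q) {y x : K} (hl : IsLine q y x) {b : K} (hb : b ^ q = b) :
    y + b * x ≠ 0 ∧ Qf q (y + b * x) = 0 := by
  constructor
  · intro h1
    have := (hl.ind 1 b (one_pow q) hb (by rw [one_mul]; exact h1)).1
    exact one_ne_zero this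
  · rw [Qf_add h, Qf_smul h hb, hl.qu, hl.qv, Bf_symm h, Bf_smul h hb, Bf_symm h, hl.b]
    ring

theorem sp_x0 (h : Std K q) {y x : K} (hl : IsLine q y x) : x ≠ 0 := by
  intro h1
  have := (hl.ind 0 1 (sp_k_zero h) (one_pow q) (by rw [h1]; ring)).2
  exact one_ne_zero this

theorem sp_card_Fq (h : Std K q) : (Fq K q).card = q := hb_card_Fq h

/-- the left side when `x` is radical. -/
theorem sp_lhs (h : Std K q) {th : K} (hth : th ^ 2 = 3) (hth' : th ^ q = - th)
    {s : K} (hs : s ∈ mu K q) {y x : K}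
    (hR : Rf q th s x = 0) (hB : Bf q (Af q th s x) y = 0) :
    lsum q (fun w => eta q (Rf q th s w)) y x = q * eta q (Rf q th s y) := by
  unfold lsum
  have h0 : eta q (Rf q th s x) = 0 := by rw [hR]; unfold eta; rw [if_pos rfl]
  have h1 : ∀ b ∈ Fq K q, eta q (Rf q th s (y + b * x)) = eta q (Rf q th s y) := by
    intro b hb
    rw [sp_mem_Fq] at hb
    congr 1
    rw [Rf_add h hth' hs, Rf_smul h th s hb, hR, Bf_symm h, Bf_smul h hb, Bf_symm h,
      Af_adj h hth' hs, Bf_symm h, hB]
    ring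
  simp only [h0]
  rw [Finset.sum_congr rfl h1, Finset.sum_const, sp_card_Fq h, zero_add, nsmul_eq_mul]

theorem sp_case (h : Std K q) {th : K} (hth : th ^ 2 = 3) (hth' : th ^ q = - th)
    {S : K} (hS : S ∈ mu K q) {y x : K} (hl : IsLine q y x)
    (hA : Af q th (S / N3 q S) x = -(2 * (N3 q S + (N3 q S)⁻¹)) * x) :
    eta q (Rf q th (S / N3 q S) y) = - lsum q (spF q th S) y x := by
  have hs := sp_s_mem h hS
  have hx0 := sp_x0 h hl
  obtain ⟨r1, r2⟩ := sp_real_T h hth hth' hS
  have htwo := sp_two h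
  have hCx : InC q th S x := (sp_InC_iff h hth hth' hS hx0 hl.qv).2 hA
  have hA2 := sp_A2 h hth hth' hS y
  have hFn := sp_Fs_neg h hS
  have hadj : Bf q x (Af q th (S / N3 q S) y) = 0 := by
    rw [← Af_adj h hth' hs, hA, Bf_smul h, Bf_symm h, hl.b, mul_zero]
    exact sp_k_neg h (sp_k_mul (sp_k_two h) r1)
  obtain ⟨T, hT⟩ : ∃ T, T = N3 q S + (N3 q S)⁻¹ := ⟨_, rfl⟩
  rw [← hT] at hA r1 r2 hA2
  obtain ⟨c, hc⟩ : ∃ c, c = 2 * T := ⟨_, rfl⟩
  have hc0 : c ≠ 0 := by rw [hc]; exact mul_ne_zero htwo r2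
  have hck : c ^ q = c := by rw [hc]; exact sp_k_mul (sp_k_two h) r1
  have h2c : 2 * c ≠ 0 := mul_ne_zero htwo hc0
  have hnx : ¬ InC q th (-S) x := by
    rw [sp_InC_neg_iff h hth hth' hS hx0 hl.qv, hA, ← hT, ← hc]
    intro h1
    have : 2 * c * x = 0 := by linear_combination -h1
    exact mul_ne_zero h2c hx0 this
  have hsx : spF q th S x = Fs q S := by
    unfold spF
    rw [if_pos hCx, if_neg hnx, add_zero]
  -- no other point of the line on C_S
  have hno : ∀ b : K, b ^ q = b → ¬ InC q th S (y + b * x) := by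
    intro b hb h1
    obtain ⟨p1, p2⟩ := sp_pt h hl hb
    have h2 := (sp_InC_iff h hth hth' hS p1 p2).1 h1
    have h3 : Bf q x (y + b * x) = 0 := by
      rw [Bf_symm h, Bf_add h, Bf_smul h hb, hl.b, Bf_self h, hl.qv]; ring
    obtain ⟨lam, om, m1, m2, m3, m4, m5⟩ := sp_tan h hth hth' hS hCx
      (by rw [h2]; ring) h3
    rw [p2] at m4
    have h4 : lam ^ (q + 1) * (N3 q S + (N3 q S)⁻¹) ^ 2 * om ^ 2 = 0 := by
      linear_combination m4
    rw [← hT] at h4
    have h5 : om = 0 := by
      rcases mul_eq_zero.1 h4 with h6 | h6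
      · exact absurd h6 (mul_ne_zero (pow_ne_zero _ m1) (pow_ne_zero _ r2))
      · exact pow_eq_zero_iff (two_ne_zero) |>.1 h6
    obtain ⟨a, ha, hya⟩ := m5 h5
    have := (hl.ind 1 (b - a) (one_pow q) (sp_k_sub h hb ha) (by linear_combination hya)).1
    exact one_ne_zero this
  have hAk : ∀ b : K, b ^ q = b → Af q th (S / N3 q S) (y + b * x) =
      Af q th (S / N3 q S) y - b * (c * x) := by
    intro b hb
    rw [Af_add h, Af_smul h _ _ hb, hA, ← hc]; ring
  by_cases hsub : ∃ b0 : K, b0 ^ q = b0 ∧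
      Af q th (S / N3 q S) (y + b0 * x) = c * (y + b0 * x)
  · obtain ⟨b0, hb0, hAb⟩ := hsub
    have hAy : Af q th (S / N3 q S) y = c * y + 2 * c * b0 * x := by
      rw [hAk b0 hb0] at hAb
      linear_combination hAb
    have hR : Rf q th (S / N3 q S) y = 0 := by
      have h1 := Rf_eq h hth' hs y
      rw [hAy, Bf_add h, Bf_smul h hck, Bf_smul h (sp_k_mul (sp_k_mul (sp_k_two h) hck) hb0),
        Bf_self h, hl.qu, Bf_symm h, hl.b] at h1
      have : 2 * Rf q th (S / N3 q S) y = 0 := by rw [h1]; ring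
      exact (mul_eq_zero.1 this).resolve_left htwo
    rw [hR]
    have he0 : eta q (0 : K) = 0 := by unfold eta; rw [if_pos rfl]
    rw [he0]
    unfold lsum
    rw [hsx]
    have hterm : ∀ b ∈ Fq K q, spF q th S (y + b * x) = if b = b0 then Fs q (-S) else 0 := by
      intro b hb
      rw [sp_mem_Fq] at hb
      obtain ⟨p1, p2⟩ := sp_pt h hl hb
      unfold spF
      rw [if_neg (hno b hb), zero_add]
      have hiff : InC q th (-S) (y + b * x) ↔ b = b0 := by
        rw [sp_InC_neg_iff h hth hth' hS p1 p2, ← hT, ← hc, hAk b hb, hAy]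
        constructor
        · intro h1
          have h2 : 2 * c * x * (b0 - b) = 0 := by linear_combination h1
          have h3 := (mul_eq_zero.1 h2).resolve_left (mul_ne_zero h2c hx0)
          exact (sub_eq_zero.1 h3).symm
        · intro h1
          rw [h1]; ring
      simp only [hiff]
    rw [Finset.sum_congr rfl hterm, Finset.sum_ite_eq' (Fq K q) b0, if_pos (sp_mem_Fq.2 hb0), hFn]
    ring
  · push Not at hsub
    have hterm : ∀ b ∈ Fq K q, spF q th S (y + b * x) = 0 := by
      intro b hb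
      rw [sp_mem_Fq] at hb
      obtain ⟨p1, p2⟩ := sp_pt h hl hb
      unfold spF
      rw [if_neg (hno b hb), zero_add, if_neg]
      rw [sp_InC_neg_iff h hth hth' hS p1 p2, ← hT, ← hc]
      exact hsub b hb
    unfold lsum
    rw [hsx, Finset.sum_congr rfl hterm, Finset.sum_const_zero, add_zero]
    -- the vector v
    have hv1 : Bf q x (c * y + (-1) * Af q th (S / N3 q S) y) = 0 := by
      rw [Bf_symm h, Bf_add h, Bf_smul h hck, Bf_smul h (sp_neg_real h), hl.b, Bf_symm h,
        hadj]; ring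
    have hv2 : Af q th (S / N3 q S) (c * y + (-1) * Af q th (S / N3 q S) y) =
        -2 * (N3 q S + (N3 q S)⁻¹) * (c * y + (-1) * Af q th (S / N3 q S) y) := by
      rw [Af_add h, Af_smul h _ _ hck, Af_smul h _ _ (sp_neg_real h), hA2, ← hT, hc]
      ring
    have hv3 : Qf q (c * y + (-1) * Af q th (S / N3 q S) y) =
        -(2 * c * Rf q th (S / N3 q S) y) := by
      have h1 := Rf_eq h hth' hs y
      have h2 : Bf q (Af q th (S / N3 q S) y) (Af q th (S / N3 q S) y) = 0 := by
        rw [Af_adj h hth' hs, hA2, ← hc, Bf_symm h, Bf_smul h (by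
          rw [← pow_mul, mul_comm, pow_mul, hck]), Bf_self h, hl.qu]; ring
      have h3 : Qf q (Af q th (S / N3 q S) y) = 0 := by
        rw [Bf_self h] at h2
        exact (mul_eq_zero.1 h2).resolve_left htwo
      rw [Qf_add h, Qf_smul h hck, Qf_smul h (sp_neg_real h), hl.qu, h3, Bf_smul h hck,
        Bf_symm h, Bf_smul h (sp_neg_real h), ← h1]
      ring
    obtain ⟨lam, om, m1, m2, m3, m4, m5⟩ := sp_tan h hth hth' hS hCx hv2 hv1
    rw [← hT, hv3] at m4
    have hom : om ≠ 0 := by
      intro h0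
      obtain ⟨a, ha, hya⟩ := m5 h0
      have hb : (-(a / (2 * c))) ^ q = -(a / (2 * c)) :=
        sp_k_neg h (sp_k_div ha (sp_k_mul (sp_k_two h) hck))
      refine hsub _ hb ?_
      rw [hAk _ hb]
      have h1 : Af q th (S / N3 q S) y = c * y - a * x := by linear_combination -hya
      rw [h1]
      field_simp
      ring
    obtain ⟨n1, n2⟩ := sp_eta_lam h hS m1 m2
    have hR : Rf q th (S / N3 q S) y = lam ^ (q + 1) * (T * (om / 2) ^ 2) := by
      have h1 : 2 * c * (Rf q th (S / N3 q S) y - lam ^ (q + 1) * (T * (om / 2) ^ 2)) = 0 := by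
        have : 2 * c * (lam ^ (q + 1) * (T * (om / 2) ^ 2)) =
            lam ^ (q + 1) * T ^ 2 * om ^ 2 := by rw [hc]; field_simp
        linear_combination -m4 - this
      exact sub_eq_zero.1 ((mul_eq_zero.1 h1).resolve_left h2c)
    have hom2 : (om / 2) ^ q = om / 2 := sp_k_div m3 (sp_k_two h)
    rw [hR, eta_mul h n2 (sp_k_mul r1 (by rw [← pow_mul, mul_comm, pow_mul, hom2])),
      eta_mul h r1 (by rw [← pow_mul, mul_comm, pow_mul, hom2]),
      eta_sq h hom2 (div_ne_zero hom htwo), n1]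
    unfold Fs
    rw [← hT]; ring

/-- both sides when `x` is radical. -/
theorem sp_core (h : Std K q) {th : K} (hth : th ^ 2 = 3) (hth' : th ^ q = - th)
    {S : K} (hS : S ∈ mu K q) {y x : K} (hl : IsLine q y x)
    (hR : Rf q th (S / N3 q S) x = 0) (hB : Bf q (Af q th (S / N3 q S) x) y = 0) :
    lsum q (fun w => eta q (Rf q th (S / N3 q S) w)) y x = - q * lsum q (spF q th S) y x := by
  have hs := sp_s_mem h hS
  have hx0 := sp_x0 h hl
  obtain ⟨r1, r2⟩ := sp_real_T h hth hth' hS
  have htwo := sp_two h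
  have hA2 := sp_A2 h hth hth' hS x
  have hFn := sp_Fs_neg h hS
  have hcase := fun h1 => sp_case h hth hth' hS hl h1
  have hcase' := fun h1 => sp_case h hth hth' (sp_neg_mu h hS) hl h1
  rw [sp_lhs h hth hth' hs hR hB]
  suffices hmain : eta q (Rf q th (S / N3 q S) y) = - lsum q (spF q th S) y x by
    rw [hmain]; ring
  rw [sp_div_neg h, sp_T_neg h] at hcase'
  have hspn : spF q th (-S) = spF q th S := by
    funext w; exact spF_neg th S w
  rw [hspn] at hcase'
  obtain ⟨T, hT⟩ : ∃ T, T = N3 q S + (N3 q S)⁻¹ := ⟨_, rfl⟩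
  rw [← hT] at r1 r2 hA2 hcase hcase'
  obtain ⟨c, hc⟩ : ∃ c, c = 2 * T := ⟨_, rfl⟩
  have hc0 : c ≠ 0 := by rw [hc]; exact mul_ne_zero htwo r2
  have hck : c ^ q = c := by rw [hc]; exact sp_k_mul (sp_k_two h) r1
  have h2c : 2 * c ≠ 0 := mul_ne_zero htwo hc0
  rw [← hc] at hA2
  -- A x is in the line
  have hQ : Qf q (Af q th (S / N3 q S) x) = 0 := by
    have h2 : Bf q (Af q th (S / N3 q S) x) (Af q th (S / N3 q S) x) = 0 := by
      rw [Af_adj h hth' hs, hA2, Bf_symm h, Bf_smul h (by
        rw [← pow_mul, mul_comm, pow_mul, hck]), Bf_self h, hl.qv]; ring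
    rw [Bf_self h] at h2
    exact (mul_eq_zero.1 h2).resolve_left htwo
  have hxA : Bf q x (Af q th (S / N3 q S) x) = 0 := by
    rw [Bf_symm h, ← Rf_eq h hth' hs, hR, mul_zero]
  obtain ⟨a, b, ha, hb, hw⟩ := witt h hl hQ (by rw [Bf_symm h]; exact hB) hxA
  have hAA : a * Af q th (S / N3 q S) y = (c ^ 2 - b ^ 2) * x - a * b * y := by
    have h1 := hA2
    rw [hw, Af_add h, Af_smul h _ _ ha, Af_smul h _ _ hb, hw] at h1
    linear_combination h1
  by_cases ha0 : a = 0
  · rw [ha0, zero_mul, zero_add] at hw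
    rw [ha0] at hAA
    have h1 : (c ^ 2 - b ^ 2) * x = 0 := by linear_combination -hAA
    have h2 := (mul_eq_zero.1 h1).resolve_right hx0
    have h3 : (b - c) * (b + c) = 0 := by linear_combination -h2
    rcases mul_eq_zero.1 h3 with h4 | h4
    · -- b = c
      have h5 : b = c := sub_eq_zero.1 h4
      refine hcase' ?_
      rw [hw, h5, hc]; ring
    · have h5 : b = -c := eq_neg_of_add_eq_zero_left h4
      refine hcase ?_
      rw [hw, h5, hc]
  · -- A x not a multiple of x
    have hAy : Af q th (S / N3 q S) y = -b * y + (c ^ 2 - b ^ 2) / a * x := by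
      field_simp
      linear_combination hAA
    have hRy : Rf q th (S / N3 q S) y = 0 := by
      have h1 := Rf_eq h hth' hs y
      have k1 : (-b) ^ q = -b := sp_k_neg h hb
      have k2 : ((c ^ 2 - b ^ 2) / a) ^ q = (c ^ 2 - b ^ 2) / a := by
        rw [pow_two, pow_two]
        exact sp_k_div (sp_k_sub h (sp_k_mul hck hck) (sp_k_mul hb hb)) ha
      rw [hAy, Bf_add h, Bf_smul h k1, Bf_smul h k2, Bf_self h, hl.qu, Bf_symm h, hl.b] at h1
      have : 2 * Rf q th (S / N3 q S) y = 0 := by rw [h1]; ring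
      exact (mul_eq_zero.1 this).resolve_left htwo
    rw [hRy]
    have he0 : eta q (0 : K) = 0 := by unfold eta; rw [if_pos rfl]
    rw [he0]
    have hnx : ∀ d : K, d ^ q = d → Af q th (S / N3 q S) x ≠ d * x := by
      intro d hd h1
      rw [hw] at h1
      exact ha0 (hl.ind a (b - d) ha (sp_k_sub h hb hd) (by linear_combination h1)).1
    have hx1 : spF q th S x = 0 := by
      unfold spF
      rw [if_neg, if_neg, add_zero]
      · rw [sp_InC_neg_iff h hth hth' hS hx0 hl.qv, ← hT, ← hc]; exact hnx c hck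
      · rw [sp_InC_iff h hth hth' hS hx0 hl.qv, ← hT, ← hc]; exact hnx (-c) (sp_k_neg h hck)
    have hpt : ∀ b' d : K, b' ^ q = b' → d ^ q = d → d ^ 2 = c ^ 2 →
        (Af q th (S / N3 q S) (y + b' * x) = d * (y + b' * x) ↔ b' = (b + d) / a) := by
      intro b' d hb' hd hdc
      rw [Af_add h, Af_smul h _ _ hb', hAy, hw]
      constructor
      · intro h1
        have h2 := (hl.ind (a * b' - b - d) ((c ^ 2 - b ^ 2) / a + b' * b - d * b')
          (sp_k_sub h (sp_k_sub h (sp_k_mul ha hb') hb) hd)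
          (by
            refine sp_k_sub h (sp_k_add h ?_ (sp_k_mul hb' hb)) (sp_k_mul hd hb')
            rw [pow_two, pow_two]
            exact sp_k_div (sp_k_sub h (sp_k_mul hck hck) (sp_k_mul hb hb)) ha)
          (by linear_combination h1)).1
        field_simp
        linear_combination h2
      · intro h1
        rw [h1, ← hdc]
        field_simp
        ring
    unfold lsum
    rw [hx1]
    have hterm : ∀ b' ∈ Fq K q, spF q th S (y + b' * x) =
        (if b' = (b + -c) / a then Fs q S else 0) + (if b' = (b + c) / a then Fs q (-S) else 0) := by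
      intro b' hb'
      rw [sp_mem_Fq] at hb'
      obtain ⟨p1, p2⟩ := sp_pt h hl hb'
      unfold spF
      have i1 : InC q th S (y + b' * x) ↔ b' = (b + -c) / a := by
        rw [sp_InC_iff h hth hth' hS p1 p2, ← hT, ← hc]
        exact hpt b' (-c) hb' (sp_k_neg h hck) (by ring)
      have i2 : InC q th (-S) (y + b' * x) ↔ b' = (b + c) / a := by
        rw [sp_InC_neg_iff h hth hth' hS p1 p2, ← hT, ← hc]
        exact hpt b' c hb' hck rfl
      simp only [i1, i2]
    rw [Finset.sum_congr rfl hterm, Finset.sum_add_distrib, Finset.sum_ite_eq' (Fq K q),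
      Finset.sum_ite_eq' (Fq K q), if_pos (sp_mem_Fq.2 (sp_k_div (sp_k_add h hb
        (sp_k_neg h hck)) ha)), if_pos (sp_mem_Fq.2 (sp_k_div (sp_k_add h hb hck) ha)), hFn]
    ring

/-- a point of the conic on the line is radical. -/
theorem sp_rad (h : Std K q) {th : K} (hth : th ^ 2 = 3) (hth' : th ^ q = - th)
    {S : K} (hS : S ∈ mu K q) {y x : K} (hl : IsLine q y x) (hx : InC q th S x) :
    Bf q (Af q th (S / N3 q S) x) y = 0 ∧ Rf q th (S / N3 q S) x = 0 := by
  have hs := sp_s_mem h hS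
  obtain ⟨r1, r2⟩ := sp_real_T h hth hth' hS
  have h1 := (sp_InC_iff h hth hth' hS (sp_x0 h hl) hl.qv).1 hx
  have k1 : (-(2 * (N3 q S + (N3 q S)⁻¹))) ^ q = -(2 * (N3 q S + (N3 q S)⁻¹)) :=
    sp_k_neg h (sp_k_mul (sp_k_two h) r1)
  constructor
  · rw [h1, Bf_smul h k1, Bf_symm h, hl.b, mul_zero]
  · have h2 := Rf_eq h hth' hs x
    rw [h1, Bf_smul h k1, Bf_self h, hl.qv, mul_zero, mul_zero] at h2
    exact (mul_eq_zero.1 h2).resolve_left (sp_two h)

theorem sigma_plus (h : Std K q) {th : K} (hth : th ^ 2 = 3) (hth' : th ^ q = - th)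
    {u v : K} (hl : IsLine q u v) {S : K} (hS : S ∈ mu K q) :
    lsum q (fun x => eta q (Rf q th (S / N3 q S) x)) u v
      = - q * lsum q (fun x => (if InC q th S x then Fs q S else 0)
          + (if InC q th (-S) x then Fs q (-S) else 0)) u v := by
  change lsum q (fun x => eta q (Rf q th (S / N3 q S) x)) u v
      = - q * lsum q (spF q th S) u v
  have hs := sp_s_mem h hS
  have htwo := sp_two h
  have hα := Rf_real h hth' hs u
  have hγ := Rf_real h hth' hs v
  have hβ := Bf_real h (Af q th (S / N3 q S) u) v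
  have hexp : ∀ b : K, b ^ q = b → Rf q th (S / N3 q S) (u + b * v) =
      Rf q th (S / N3 q S) u + b * Bf q (Af q th (S / N3 q S) u) v +
        b ^ 2 * Rf q th (S / N3 q S) v := by
    intro b hb
    rw [Rf_add h hth' hs, Rf_smul h _ _ hb, Bf_symm h _ (b * v), Bf_smul h hb, Bf_symm h v]
    ring
  have hsumL : lsum q (fun x => eta q (Rf q th (S / N3 q S) x)) u v =
      eta q (Rf q th (S / N3 q S) v) + ∑ b ∈ Fq K q, eta q (Rf q th (S / N3 q S) u +
        b * Bf q (Af q th (S / N3 q S) u) v + b ^ 2 * Rf q th (S / N3 q S) v) := by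
    unfold lsum
    simp only
    congr 1
    refine Finset.sum_congr rfl fun b hb => ?_
    rw [sp_mem_Fq] at hb
    rw [hexp b hb]
  by_cases hd : Bf q (Af q th (S / N3 q S) u) v ^ 2 -
      4 * Rf q th (S / N3 q S) u * Rf q th (S / N3 q S) v = 0
  · by_cases hg : Rf q th (S / N3 q S) v = 0
    · -- v is radical
      have hb0 : Bf q (Af q th (S / N3 q S) u) v = 0 := by
        rw [hg] at hd
        have : Bf q (Af q th (S / N3 q S) u) v ^ 2 = 0 := by linear_combination hd
        exact pow_eq_zero_iff (two_ne_zero) |>.1 this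
      refine sp_core h hth hth' hS hl hg ?_
      rw [Af_adj h hth' hs, Bf_symm h]; exact hb0
    · obtain ⟨b0, hb0d⟩ : ∃ b0, b0 = -(Bf q (Af q th (S / N3 q S) u) v /
        (2 * Rf q th (S / N3 q S) v)) := ⟨_, rfl⟩
      have hb0 : b0 ^ q = b0 := by
        rw [hb0d]; exact sp_k_neg h (sp_k_div hβ (sp_k_mul (sp_k_two h) hγ))
      have hl1 := sp_IsLine_shift h hl hb0
      have hl2 := sp_IsLine_swap h hl1
      have e1 : ∀ f : K → ℤ, (∀ a x : K, a ^ q = a → a ≠ 0 → f (a * x) = f x) →
          lsum q f u v = lsum q f v (u + b0 * v) := by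
        intro f hf
        rw [← sp_lsum_shift h f u v hb0, sp_lsum_swap h hf]
      rw [e1 _ (fun a x ha ha0 => spR_smul h th _ x hth' hs ha ha0),
        e1 (spF q th S) (fun a x ha ha0 => spF_smul h th S x ha ha0)]
      have hβb : Bf q (Af q th (S / N3 q S) u) v = -(2 * b0 * Rf q th (S / N3 q S) v) := by
        rw [hb0d]; field_simp
      refine sp_core h hth hth' hS hl2 ?_ ?_
      · rw [hexp b0 hb0]
        have h4 : 4 * Rf q th (S / N3 q S) v * (Rf q th (S / N3 q S) u +
            b0 * Bf q (Af q th (S / N3 q S) u) v + b0 ^ 2 * Rf q th (S / N3 q S) v) = 0 := by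
          rw [hβb] at hd ⊢
          linear_combination -hd
        refine (mul_eq_zero.1 h4).resolve_left (mul_ne_zero ?_ hg)
        rw [show (4 : K) = 2 * 2 by norm_num]; exact mul_ne_zero htwo htwo
      · rw [Af_add h, Af_smul h _ _ hb0, Bf_add h, Bf_smul h hb0, ← Rf_eq h hth' hs v, hβb]
        ring
  · -- non-degenerate
    rw [hsumL, binary_sum_nondeg h hα hβ hγ hd]
    have hz : ∀ x y : K, IsLine q y x →
        (Bf q (Af q th (S / N3 q S) x) y = 0 ∧ Rf q th (S / N3 q S) x = 0 → False) →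
        spF q th S x = 0 := by
      intro x y hxy hF
      unfold spF
      rw [if_neg, if_neg, add_zero]
      · intro h1
        have := sp_rad h hth hth' (sp_neg_mu h hS) hxy h1
        rw [sp_div_neg h] at this
        exact hF this
      · intro h1
        exact hF (sp_rad h hth hth' hS hxy h1)
    have hzero : lsum q (spF q th S) u v = 0 := by
      unfold lsum
      have h1 : spF q th S v = 0 := by
        refine hz v u hl ?_
        rintro ⟨h2, h3⟩
        rw [Af_adj h hth' hs, Bf_symm h] at h2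
        exact hd (by rw [h2, h3]; ring)
      have h2 : ∀ b ∈ Fq K q, spF q th S (u + b * v) = 0 := by
        intro b hb
        rw [sp_mem_Fq] at hb
        refine hz _ v (sp_IsLine_swap h (sp_IsLine_shift h hl hb)) ?_
        rintro ⟨h2, h3⟩
        rw [Af_add h, Af_smul h _ _ hb, Bf_add h, Bf_smul h hb, ← Rf_eq h hth' hs v] at h2
        rw [hexp b hb] at h3
        apply hd
        linear_combination (Bf q (Af q th (S / N3 q S) u) v + 2 * b * Rf q th (S / N3 q S) v) * h2
          - 4 * Rf q th (S / N3 q S) v * h3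
      rw [h1, Finset.sum_congr rfl h2, Finset.sum_const_zero, add_zero]
    rw [hzero, mul_zero]

end Pool.Agent.TH501.Hemi

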