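import Mathlib
import Pool.Agent.TH501.Hemi.Defs

/-! Job 3165 (Hemi F): type 0 (`N(s) = -1`), uniqueness of the kernel. -/

set_option autoImplicit false
set_option linter.unusedSectionVars false

namespace Pool.Agent.TH501.Hemi

open Finset Classical

/-! ### algebra -/

lemma t0_alg {F : Type} [Field F] {th y0 y1 y2 z0 z1 z2 c0 c1 c2 : F} (hth : th ^ 2 = 3)
    (h3 : (3 : F) ≠ 0) (hc : c0 * c1 * c2 = 1) (hy0 : y0 ≠ 0)
    (h1 : c1 ≠ 1) (h2 : c2 ≠ 1)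
    (hp : y0 + y1 + y2 = 0) (hP : z0 + z1 + z2 = 0)
    (hp' : c0 * y0 + c1 * y1 + c2 * y2 = 0) (hP' : z0 / c0 + z1 / c1 + z2 / c2 = 0)
    (E1 : -2 * z1 + z2 + z0 = th * (y2 - y0)) (E2 : -2 * z2 + z0 + z1 = th * (y0 - y1))
    (E1' : -2 * (z1 / c1) + z2 / c2 + z0 / c0 = th * (c2 * y2 - c0 * y0))
    (E2' : -2 * (z2 / c2) + z0 / c0 + z1 / c1 = th * (c0 * y0 - c1 * y1)) : c0 = 1 := by
  have hth0 : th ≠ 0 := by
    rintro rfl
    rw [zero_pow two_ne_zero] at hth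
    exact h3 hth.symm
  have hc0 : c0 ≠ 0 := by rintro rfl; simp at hc
  have hc1 : c1 ≠ 0 := by rintro rfl; simp at hc
  have hc2 : c2 ≠ 0 := by rintro rfl; simp at hc
  by_contra hne
  have hd0 : 1 - c0 ≠ 0 := sub_ne_zero.2 (Ne.symm hne)
  have hd1 : 1 - c1 ≠ 0 := sub_ne_zero.2 (Ne.symm h1)
  have hd2 : 1 - c2 ≠ 0 := sub_ne_zero.2 (Ne.symm h2)
  -- -3 z1 = th (y2 - y0)
  have G1 : -3 * z1 = th * (y2 - y0) := by linear_combination E1 - hP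
  have G2 : -3 * z2 = th * (y0 - y1) := by linear_combination E2 - hP
  have G1' : -3 * z1 = c1 * (th * (c2 * y2 - c0 * y0)) := by
    have : -3 * (z1 / c1) = th * (c2 * y2 - c0 * y0) := by linear_combination E1' - hP'
    rw [← this]
    field_simp
  have G2' : -3 * z2 = c2 * (th * (c0 * y0 - c1 * y1)) := by
    have : -3 * (z2 / c2) = th * (c0 * y0 - c1 * y1) := by linear_combination E2' - hP'
    rw [← this]
    field_simp
  have H1 : y2 - y0 = c1 * (c2 * y2 - c0 * y0) := by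
    apply mul_left_cancel₀ hth0
    linear_combination G1' - G1
  have H2 : y0 - y1 = c2 * (c0 * y0 - c1 * y1) := by
    apply mul_left_cancel₀ hth0
    linear_combination G2' - G2
  -- c2 y2 (1 - c0) = c0 y0 (1 - c2)
  have R1 : c2 * y2 * (1 - c0) = c0 * y0 * (1 - c2) := by
    linear_combination (-c0 * c2) * H1 - (c2 * y2 - c0 * y0) * hc
  have R2 : c0 * y0 * (1 - c1) = c1 * y1 * (1 - c0) := by
    linear_combination (-c0 * c1) * H2 - (c0 * y0 - c1 * y1) * hc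
  obtain ⟨m, hm⟩ : ∃ m, m = c0 * y0 / (1 - c0) := ⟨_, rfl⟩
  have hm0 : m ≠ 0 := hm ▸ div_ne_zero (mul_ne_zero hc0 hy0) hd0
  have k0 : c0 * y0 = m * (1 - c0) := by rw [hm]; field_simp
  have k1 : c1 * y1 = m * (1 - c1) := by
    apply mul_right_cancel₀ hd0
    rw [← R2, k0]; ring
  have k2 : c2 * y2 = m * (1 - c2) := by
    apply mul_right_cancel₀ hd0
    rw [R1, k0]; ring
  have s1 : c0 + c1 + c2 = 3 := by
    apply mul_left_cancel₀ hm0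
    linear_combination -hp' + k0 + k1 + k2
  have s2 : c1 * c2 + c0 * c2 + c0 * c1 = 3 := by
    apply mul_left_cancel₀ hm0
    have e0 : y0 = m * (c1 * c2 - 1) := by
      apply mul_left_cancel₀ hc0
      linear_combination k0 - m * hc
    have e1 : y1 = m * (c0 * c2 - 1) := by
      apply mul_left_cancel₀ hc1
      linear_combination k1 - m * hc
    have e2 : y2 = m * (c0 * c1 - 1) := by
      apply mul_left_cancel₀ hc2
      linear_combination k2 - m * hc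
    linear_combination hp - e0 - e1 - e2
  have hcube : (c0 - 1) ^ 3 = 0 := by
    linear_combination c0 ^ 2 * s1 - c0 * s2 + hc
  exact hne (sub_eq_zero.1 (pow_eq_zero_iff (three_ne_zero) |>.1 hcube))

lemma t0_sum {F : Type} [Field F] {th y0 y1 y2 z0 z1 z2 : F}
    (hQ : y0 * z0 + y1 * z1 + y2 * z2 = 0)
    (F0 : -2 * y0 + y1 + y2 = -th * (z1 - z2)) (F1 : -2 * y1 + y2 + y0 = -th * (z2 - z0))
    (F2 : -2 * y2 + y0 + y1 = -th * (z0 - z1)) :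
    (y0 + y1 + y2) * (z0 + z1 + z2) = 0 := by
  linear_combination 3 * hQ + z0 * F0 + z1 * F1 + z2 * F2

lemma t0_char3 {F : Type} [Field F] {y0 y1 y2 z0 z1 z2 : F} (h3 : (3 : F) = 0)
    (hQ : y0 * z0 + y1 * z1 + y2 * z2 = 0) (hy : y0 + y1 + y2 = 0) (hz : z0 + z1 + z2 = 0) :
    (y1 - y0) * (z1 - z0) = 0 := by
  linear_combination -hQ + z2 * hy - (y0 + y1) * hz + (z0 * y0 + y1 * z1) * h3

variable {K : Type} [Field K] [Fintype K] {q : ℕ}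

lemma t0_frob (h : Std K q) (j : ℕ) : ∃ φ : K →+* K, ∀ x, φ x = x ^ q ^ j := by
  obtain ⟨p, hp, n, hpp, hn⟩ := FiniteField.card' K
  have h1 : q ∣ p ^ (n : ℕ) := by
    rw [← hn, h.card]
    exact dvd_pow_self q (by norm_num)
  obtain ⟨m, -, hm⟩ := (Nat.dvd_prime_pow hpp).1 h1
  have := Fact.mk hpp
  refine ⟨iterateFrobenius K p (m * j), fun x => ?_⟩
  rw [iterateFrobenius_def, hm, pow_mul]

/-- all relations -/
lemma t0_rel (h : Std K q) {th : K} (hth' : th ^ q = - th)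
    {x : K} {s : K} (hs : s ∈ mu K q) (hN : N3 q s = -1) (hA : Af q th s x = 0) :
    (-2 * (x ^ q ^ 3 / s) + (x ^ q ^ 3 / s) ^ q ^ 2 + (x ^ q ^ 3 / s) ^ q ^ 4 =
      th * ((s * x) ^ q ^ 2 - (s * x) ^ q ^ 4)) ∧
    (-2 * (x ^ q ^ 3 / s) ^ q ^ 2 + (x ^ q ^ 3 / s) ^ q ^ 4 + (x ^ q ^ 3 / s) =
      th * ((s * x) ^ q ^ 4 - (s * x))) ∧
    (-2 * (x ^ q ^ 3 / s) ^ q ^ 4 + (x ^ q ^ 3 / s) + (x ^ q ^ 3 / s) ^ q ^ 2 =
      th * ((s * x) - (s * x) ^ q ^ 2)) ∧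
    (-2 * (s * x) + (s * x) ^ q ^ 2 + (s * x) ^ q ^ 4 =
      -th * ((x ^ q ^ 3 / s) ^ q ^ 2 - (x ^ q ^ 3 / s) ^ q ^ 4)) ∧
    (-2 * (s * x) ^ q ^ 2 + (s * x) ^ q ^ 4 + (s * x) =
      -th * ((x ^ q ^ 3 / s) ^ q ^ 4 - (x ^ q ^ 3 / s))) ∧
    (-2 * (s * x) ^ q ^ 4 + (s * x) + (s * x) ^ q ^ 2 =
      -th * ((x ^ q ^ 3 / s) - (x ^ q ^ 3 / s) ^ q ^ 2)) ∧
    (s * x) ^ q ^ 3 = x ^ q ^ 3 / s := by
  obtain ⟨φ, hφ⟩ := t0_frob h 2
  obtain ⟨ψ, hψ⟩ := t0_frob h 3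
  have h6 : ∀ w : K, w ^ q ^ 6 = w := fun w => by rw [← h.card]; exact FiniteField.pow_card w
  have hodd : Odd q := by rw [Nat.odd_iff]; have := h.mod4; omega
  have hth2 : th ^ q ^ 2 = th := by rw [sq, pow_mul, hth', hodd.neg_pow, hth', neg_neg]
  have hth3 : th ^ q ^ 3 = -th := by
    rw [show q ^ 3 = q ^ 2 * q by ring, pow_mul, hth2, hth']
  have hs1 : s ^ (q ^ 3 + 1) = 1 := (mem_filter.1 hs).2
  have hs0 : s ≠ 0 := by
    rintro rfl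
    rw [zero_pow (by positivity)] at hs1
    exact zero_ne_one hs1
  have hsb : s ^ q ^ 3 = s⁻¹ := by
    rw [pow_succ] at hs1
    exact eq_inv_of_mul_eq_one_left hs1
  obtain ⟨y, hy⟩ : ∃ y, y = s * x := ⟨_, rfl⟩
  obtain ⟨z, hz⟩ : ∃ z, z = x ^ q ^ 3 / s := ⟨_, rfl⟩
  have hyz : y ^ q ^ 3 = z := by rw [hy, hz, mul_pow, hsb]; field_simp
  have hzy : z ^ q ^ 3 = y := by
    rw [← hyz, ← pow_mul, ← pow_add]; exact h6 y
  rw [← hy, ← hz]
  have E0 : -2 * z + z ^ q ^ 2 + z ^ q ^ 4 = th * (y ^ q ^ 2 - y ^ q ^ 4) := by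
    unfold Af Ap at hA
    rw [hN, ← hy, ← hz] at hA
    have hA' := (mul_eq_zero.1 hA).resolve_left (inv_ne_zero hs0)
    linear_combination hA'
  have c24 : ∀ w : K, (w ^ q ^ 2) ^ q ^ 2 = w ^ q ^ 4 := fun w => by
    rw [← pow_mul, ← pow_add]
  have c46 : ∀ w : K, (w ^ q ^ 4) ^ q ^ 2 = w := fun w => by
    rw [← pow_mul, ← pow_add]; exact h6 w
  have conj : ∀ {a0 a1 a2 b1 b2 t : K}, -2 * a0 + a1 + a2 = t * (b1 - b2) →
      -2 * a0 ^ q ^ 2 + a1 ^ q ^ 2 + a2 ^ q ^ 2 = t ^ q ^ 2 * (b1 ^ q ^ 2 - b2 ^ q ^ 2) := by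
    intro a0 a1 a2 b1 b2 t he
    have := congrArg φ he
    simp only [map_add, map_mul, map_sub, map_neg, map_ofNat] at this
    simp only [hφ] at this
    exact this
  have conj3 : ∀ {a0 a1 a2 b1 b2 t : K}, -2 * a0 + a1 + a2 = t * (b1 - b2) →
      -2 * a0 ^ q ^ 3 + a1 ^ q ^ 3 + a2 ^ q ^ 3 = t ^ q ^ 3 * (b1 ^ q ^ 3 - b2 ^ q ^ 3) := by
    intro a0 a1 a2 b1 b2 t he
    have := congrArg ψ he
    simp only [map_add, map_mul, map_sub, map_neg, map_ofNat] at this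
    simp only [hψ] at this
    exact this
  have E1 := conj E0
  rw [c24, c46, c24, c46, hth2] at E1
  have E2 := conj E1
  rw [c24, c46, c46, hth2] at E2
  have k1 : ∀ w : K, (w ^ q ^ 2) ^ q ^ 3 = (w ^ q ^ 3) ^ q ^ 2 := fun w => by
    rw [← pow_mul, ← pow_mul, mul_comm]
  have k2 : ∀ w : K, (w ^ q ^ 4) ^ q ^ 3 = (w ^ q ^ 3) ^ q ^ 4 := fun w => by
    rw [← pow_mul, ← pow_mul, mul_comm]
  have F0 := conj3 E0
  rw [k1, k2, k1, k2, hth3, hyz, hzy] at F0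
  have F1 := conj3 E1
  rw [k1, k2, k2, hth3, hyz, hzy] at F1
  have F2 := conj3 E2
  rw [k1, k2, k1, hth3, hyz, hzy] at F2
  exact ⟨E0, E1, E2, F0, F1, F2, hyz⟩

theorem type0_unique (h : Std K q) {th : K} (hth : th ^ 2 = 3) (hth' : th ^ q = - th)
    {x : K} (hx0 : x ≠ 0) (hx : Qf q x = 0) {s s' : K} (hs : s ∈ mu K q) (hs' : s' ∈ mu K q)
    (hN : N3 q s = -1) (hN' : N3 q s' = -1) (hA : Af q th s x = 0) (hA' : Af q th s' x = 0) :
    s = s' := by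
  have hq0 : 0 < q := by
    rcases Nat.eq_zero_or_pos q with h0 | h0
    · have := h.mod4
      rw [h0] at this
      omega
    · exact h0
  have hne : ∀ {t : K}, N3 q t = -1 → t ≠ 0 := by
    intro t ht h0
    rw [h0] at ht
    unfold N3 at ht
    rw [zero_mul, zero_mul] at ht
    exact one_ne_zero (neg_eq_zero.1 ht.symm)
  have hs0 := hne hN
  have hs'0 := hne hN'
  obtain ⟨E0, E1, E2, F0, F1, F2, hyz⟩ := t0_rel h hth' hs hN hA
  obtain ⟨E0', E1', E2', F0', F1', F2', hyz'⟩ := t0_rel h hth' hs' hN' hA'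
  obtain ⟨ψ, hψ⟩ := t0_frob h 3
  obtain ⟨φ, hφ⟩ := t0_frob h 2
  have hcomm2 : ∀ w : K, (w ^ q ^ 2) ^ q ^ 3 = (w ^ q ^ 3) ^ q ^ 2 := fun w => by
    rw [← pow_mul, ← pow_mul, mul_comm]
  have hcomm4 : ∀ w : K, (w ^ q ^ 4) ^ q ^ 3 = (w ^ q ^ 3) ^ q ^ 4 := fun w => by
    rw [← pow_mul, ← pow_mul, mul_comm]
  have h6 : ∀ w : K, w ^ q ^ 6 = w := fun w => by rw [← h.card]; exact FiniteField.pow_card w
  -- the quadratic form
  have hQ : ∀ {t : K}, t ≠ 0 → (t * x) * (x ^ q ^ 3 / t) + (t * x) ^ q ^ 2 * (x ^ q ^ 3 / t) ^ q ^ 2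
      + (t * x) ^ q ^ 4 * (x ^ q ^ 3 / t) ^ q ^ 4 = 0 := by
    intro t ht
    have h1 : t * x * (x ^ q ^ 3 / t) = x * x ^ q ^ 3 := by field_simp
    rw [← mul_pow, ← mul_pow, h1]
    exact hx
  -- traces
  have htr : ∀ {t : K}, t ≠ 0 → (t * x) ^ q ^ 3 = x ^ q ^ 3 / t →
      ((t * x) + (t * x) ^ q ^ 2 + (t * x) ^ q ^ 4) *
        ((x ^ q ^ 3 / t) + (x ^ q ^ 3 / t) ^ q ^ 2 + (x ^ q ^ 3 / t) ^ q ^ 4) = 0 →
      (t * x) + (t * x) ^ q ^ 2 + (t * x) ^ q ^ 4 = 0 ∧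
        (x ^ q ^ 3 / t) + (x ^ q ^ 3 / t) ^ q ^ 2 + (x ^ q ^ 3 / t) ^ q ^ 4 = 0 := by
    intro t ht h1 h2
    have h3 : ((t * x) + (t * x) ^ q ^ 2 + (t * x) ^ q ^ 4) ^ q ^ 3 =
        (x ^ q ^ 3 / t) + (x ^ q ^ 3 / t) ^ q ^ 2 + (x ^ q ^ 3 / t) ^ q ^ 4 := by
      rw [← hψ, map_add, map_add, hψ, hψ, hψ, hcomm2, hcomm4, h1]
    rw [← h3] at h2 ⊢
    have h4 : (t * x) + (t * x) ^ q ^ 2 + (t * x) ^ q ^ 4 = 0 := by
      rcases mul_eq_zero.1 h2 with h5 | h5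
      · exact h5
      · exact pow_eq_zero_iff (by positivity) |>.1 h5
    exact ⟨h4, by rw [h4]; exact zero_pow (by positivity)⟩
  obtain ⟨hp, hP⟩ := htr hs0 hyz (t0_sum (hQ hs0) F0 F1 F2)
  obtain ⟨hp', hP'⟩ := htr hs'0 hyz' (t0_sum (hQ hs'0) F0' F1' F2')
  -- the quotient
  obtain ⟨c, hc⟩ : ∃ c, c = s' / s := ⟨_, rfl⟩
  have hs'c : s' = c * s := by rw [hc]; field_simp
  have hc0 : c ≠ 0 := hc ▸ div_ne_zero hs'0 hs0
  have hNc : c * c ^ q ^ 2 * c ^ q ^ 4 = 1 := by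
    have h1 : N3 q s' = (c * c ^ q ^ 2 * c ^ q ^ 4) * N3 q s := by
      rw [hs'c]
      unfold N3
      rw [mul_pow, mul_pow]
      ring
    rw [hN, hN'] at h1
    linear_combination h1
  suffices hc1 : c = 1 by rw [hs'c, hc1, one_mul]
  by_cases h3 : (3 : K) = 0
  · -- characteristic 3
    have key : ∀ {t : K}, t ≠ 0 → (t * x) ^ q ^ 3 = x ^ q ^ 3 / t →
        (t * x) + (t * x) ^ q ^ 2 + (t * x) ^ q ^ 4 = 0 →
        (x ^ q ^ 3 / t) + (x ^ q ^ 3 / t) ^ q ^ 2 + (x ^ q ^ 3 / t) ^ q ^ 4 = 0 →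
        (t * x) ^ q ^ 2 = t * x := by
      intro t ht h1 h2 h4
      have h5 := t0_char3 h3 (hQ ht) h2 h4
      rw [← h1] at h5
      have h7 : ((t * x) ^ q ^ 3) ^ q ^ 2 - (t * x) ^ q ^ 3 = ((t * x) ^ q ^ 2 - t * x) ^ q ^ 3 := by
        rw [← hψ ((t * x) ^ q ^ 2 - t * x), map_sub, hψ, hψ, hcomm2]
      rw [h7] at h5
      rcases mul_eq_zero.1 h5 with h8 | h8
      · exact sub_eq_zero.1 h8
      · exact sub_eq_zero.1 (pow_eq_zero_iff (by positivity) |>.1 h8)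
    have h1 := key hs0 hyz hp hP
    have h2 := key hs'0 hyz' hp' hP'
    have hc2 : c ^ q ^ 2 = c := by
      have h4 : c * (s * x) = s' * x := by rw [hs'c]; ring
      have h5 : c ^ q ^ 2 * (s * x) = c * (s * x) := by
        rw [h4, ← h2, ← h4, mul_pow, h1]
      exact mul_right_cancel₀ (mul_ne_zero hs0 hx0) h5
    have hc4 : c ^ q ^ 4 = c := by
      rw [show q ^ 4 = q ^ 2 * q ^ 2 by ring, pow_mul, hc2, hc2]
    rw [hc2, hc4] at hNc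
    have hcube : (c - 1) ^ 3 = 0 := by
      linear_combination hNc + (c - c ^ 2) * h3
    exact sub_eq_zero.1 (pow_eq_zero_iff (three_ne_zero) |>.1 hcube)
  · by_contra hc1
    have hc2 : c ^ q ^ 2 ≠ 1 := by
      intro h1
      apply hc1
      rw [← hφ, ← map_one φ] at h1
      exact φ.injective h1
    have hc4 : c ^ q ^ 4 ≠ 1 := by
      intro h1
      apply hc2
      have h2 : (c ^ q ^ 2) ^ q ^ 2 = 1 := by rw [← pow_mul, ← pow_add]; exact h1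
      rw [← hφ, ← map_one φ] at h2
      exact φ.injective h2
    have ey : s' * x = c * (s * x) := by rw [hs'c]; ring
    have ez : x ^ q ^ 3 / s' = (x ^ q ^ 3 / s) / c := by rw [hs'c]; field_simp
    rw [ey, mul_pow c, mul_pow c] at hp'
    rw [ez, div_pow _ c, div_pow _ c] at hP'
    rw [ey, ez, div_pow _ c, div_pow _ c, mul_pow c] at E1'
    rw [ey, ez, div_pow _ c, div_pow _ c, mul_pow c] at E2'
    exact hc1 (t0_alg hth h3 hNc (mul_ne_zero hs0 hx0) hc2 hc4 hp hP hp' hP' E1 E2 E1' E2')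

end Pool.Agent.TH501.Hemi
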