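import Mathlib
import Pool.Agent.TH501.Hemi.Defs
import Pool.Agent.TH501.Hemi.CoreAux
import Pool.Agent.TH501.Hemi.EvalB
import Pool.Agent.TH501.Hemi.Disjoint
import Pool.Agent.TH501.Hemi.SigmaPlus
import Pool.Agent.TH501.Hemi.Type0
import Pool.Agent.TH501.Hemi.Sigma

set_option autoImplicit false

namespace Pool.Agent.TH501.Hemi

open Finset Classical

variable {K : Type} [Field K] [Fintype K] {q : ℕ}

theorem corH (h : Std K q) {th : K} (hth : th ^ 2 = 3) (hth' : th ^ q = - th) : CorH K q th where
  ev := fun _ _ hS hx => evalB h hth hth' hS hx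
  part := fun _ hx0 hx => partition' h hth hth' hx0 hx
  fs := fun _ hS => Fs_eq h hS
  ne := fun _ _ hS hx => InC_ne_zero h hth hth' hS hx
  sing := fun _ _ hS hx => InC_sing h hth hth' hS hx
  t0 := fun _ hx0 hx _ _ hs hs' hN hN' hA hA' => type0_unique h hth hth' hx0 hx hs hs' hN hN' hA hA'
  s0 := fun _ _ hl _ hs hN => sigma_zero h hth hth' hl hs hN
  sm := fun _ _ hl _ hs hc hN => sigma_minus h hth hth' hl hs hc hN
  sp := fun _ _ hl _ hS => sigma_plus h hth hth' hl hS

/-- The core statement. -/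
theorem core (h : Std K q) : CoreProp K q := by
  obtain ⟨th, hth, hth'⟩ := th_exists h
  exact core_of h (corH h hth hth')

end Pool.Agent.TH501.Hemi
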