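import Mathlib
import Pool.Agent.TH501.Hemi.Defs

set_option autoImplicit false

namespace Pool.Agent.TH501.Hemi

open Finset Classical

section mdl_abs

variable {K : Type} [Field K]

/-- cross product of the vectors `(x, s x, s s x)`, first coordinate -/
def mdl_cr (s : K →+* K) (x y : K) : K := s x * s (s y) - s (s x) * s y

/-- sum of the three conjugates -/
def mdl_tr (s : K →+* K) (x : K) : K := x + s x + s (s x)

/-- what is used of the two automorphisms `s x = x^(q^2)`, `b x = x^(q^3)` -/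
structure mdl_Ax (s b : K →+* K) : Prop where
  s3 : ∀ x, s (s (s x)) = x
  b2 : ∀ x, b (b x) = x
  bs : ∀ x, b (s x) = s (b x)
  two : (2 : K) ≠ 0
  tr1 : ∃ z, mdl_tr s z ≠ 0
  eps : ∃ e, e ≠ 0 ∧ s e = e ∧ b e = - e
  nonF : ∃ z, s z ≠ z

variable {s b : K →+* K}

theorem mdl_s_tr (A : mdl_Ax s b) (x : K) : s (mdl_tr s x) = mdl_tr s x := by
  simp only [mdl_tr, map_add, A.s3]; ring

theorem mdl_tr_self_cr (A : mdl_Ax s b) (P x : K) : mdl_tr s (x * mdl_cr s P x) = 0 := by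
  simp only [mdl_tr, mdl_cr, map_sub, map_mul, A.s3]; ring

theorem mdl_tr_cr_self (A : mdl_Ax s b) (P x : K) : mdl_tr s (P * mdl_cr s P x) = 0 := by
  simp only [mdl_tr, mdl_cr, map_sub, map_mul, A.s3]; ring

theorem mdl_polar (A : mdl_Ax s b) (P x y : K) :
    mdl_tr s (x * mdl_cr s P y + mdl_cr s P x * y) = 0 := by
  simp only [mdl_tr, mdl_cr, map_add, map_sub, map_mul, A.s3]; ring

theorem mdl_cr_cr (A : mdl_Ax s b) (a c d : K) :
    mdl_cr s a (mdl_cr s c d) = c * mdl_tr s (a * d) - d * mdl_tr s (a * c) := by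
  simp only [mdl_tr, mdl_cr, map_sub, map_mul, A.s3]; ring

theorem mdl_b_cr (A : mdl_Ax s b) (x y : K) : b (mdl_cr s x y) = mdl_cr s (b x) (b y) := by
  simp only [mdl_cr, map_sub, map_mul, A.bs]

theorem mdl_b_tr (A : mdl_Ax s b) (x : K) : b (mdl_tr s x) = mdl_tr s (b x) := by
  simp only [mdl_tr, map_add, A.bs]

theorem mdl_cr_smul_left {c : K} (hc : s c = c) (x y : K) :
    mdl_cr s (c * x) y = c * mdl_cr s x y := by
  simp only [mdl_cr, map_mul, hc]; ring

theorem mdl_cr_smul_right {c : K} (hc : s c = c) (x y : K) :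
    mdl_cr s x (c * y) = c * mdl_cr s x y := by
  simp only [mdl_cr, map_mul, hc]; ring

theorem mdl_tr_smul {c : K} (hc : s c = c) (x : K) :
    mdl_tr s (c * x) = c * mdl_tr s x := by
  simp only [mdl_tr, map_mul, hc]; ring

theorem mdl_cr_add_left (x x' y : K) : mdl_cr s (x + x') y = mdl_cr s x y + mdl_cr s x' y := by
  simp only [mdl_cr, map_add]; ring

theorem mdl_cr_add_right (x y y' : K) : mdl_cr s x (y + y') = mdl_cr s x y + mdl_cr s x y' := by
  simp only [mdl_cr, map_add]; ring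

theorem mdl_cr_sub_left (x x' y : K) : mdl_cr s (x - x') y = mdl_cr s x y - mdl_cr s x' y := by
  simp only [mdl_cr, map_sub]; ring

theorem mdl_cr_sub_right (x y y' : K) : mdl_cr s x (y - y') = mdl_cr s x y - mdl_cr s x y' := by
  simp only [mdl_cr, map_sub]; ring

theorem mdl_tr_add (x y : K) : mdl_tr s (x + y) = mdl_tr s x + mdl_tr s y := by
  simp only [mdl_tr, map_add]; ring

theorem mdl_tr_sub (x y : K) : mdl_tr s (x - y) = mdl_tr s x - mdl_tr s y := by
  simp only [mdl_tr, map_sub]; ring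

theorem mdl_cr_self (x : K) : mdl_cr s x x = 0 := by
  simp only [mdl_cr]; ring

theorem mdl_cr_comm (x y : K) : mdl_cr s x y = - mdl_cr s y x := by
  simp only [mdl_cr]; ring

theorem mdl_tr_cr_cr (A : mdl_Ax s b) (a c d e : K) :
    mdl_tr s (mdl_cr s a c * mdl_cr s d e) =
      mdl_tr s (a * d) * mdl_tr s (c * e) - mdl_tr s (a * e) * mdl_tr s (c * d) := by
  simp only [mdl_tr, mdl_cr, map_sub, map_mul, A.s3]; ring

theorem mdl_triple (A : mdl_Ax s b) (n a c d : K) :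
    n * mdl_tr s (a * mdl_cr s c d) = mdl_tr s (n * a) * mdl_cr s c d
      + mdl_tr s (n * c) * mdl_cr s d a + mdl_tr s (n * d) * mdl_cr s a c := by
  simp only [mdl_tr, mdl_cr, map_sub, map_mul, A.s3]; ring

theorem mdl_s_inj : Function.Injective s := s.injective

/-- parallel vectors -/
theorem mdl_par {x y : K} (hx : x ≠ 0) (h : mdl_cr s x y = 0) :
    s (y / x) = y / x := by
  have h1 : s x ≠ 0 := (map_ne_zero s).2 hx
  have h2 : s (s x) ≠ 0 := (map_ne_zero s).2 h1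
  apply s.injective
  rw [map_div₀, map_div₀, div_eq_div_iff h2 h1]
  unfold mdl_cr at h
  linear_combination h

theorem mdl_span (A : mdl_Ax s b) {n u v w : K} (hn : n ≠ 0) (hu : mdl_tr s (n * u) = 0)
    (hv : mdl_tr s (n * v) = 0) (hw : mdl_tr s (n * w) = 0) (huv : mdl_cr s u v ≠ 0) :
    ∃ α β : K, s α = α ∧ s β = β ∧ w = α * u + β * v := by
  have hdet : mdl_tr s (w * mdl_cr s u v) = 0 := by
    have := mdl_triple A n w u v
    rw [hu, hv, hw] at this
    simp only [zero_mul, add_zero] at this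
    exact (mul_eq_zero.1 this).resolve_left hn
  have hu0 : u ≠ 0 := by
    rintro rfl
    exact huv (by simp [mdl_cr])
  have hα : s (mdl_cr s w v / mdl_cr s u v) = mdl_cr s w v / mdl_cr s u v := by
    apply mdl_par huv
    rw [mdl_cr_cr A, mul_comm (mdl_cr s u v) v, mdl_tr_self_cr A, mul_comm (mdl_cr s u v) w, hdet]
    ring
  have hβ : s (mdl_cr s u w / mdl_cr s u v) = mdl_cr s u w / mdl_cr s u v := by
    apply mdl_par huv
    rw [mdl_cr_cr A, mul_comm (mdl_cr s u v) w, hdet, mul_comm (mdl_cr s u v) u,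
      mdl_tr_cr_self A]
    ring
  set α := mdl_cr s w v / mdl_cr s u v with hαd
  set β := mdl_cr s u w / mdl_cr s u v with hβd
  have h1 : mdl_cr s (w - α * u - β * v) v = 0 := by
    rw [mdl_cr_sub_left, mdl_cr_sub_left, mdl_cr_smul_left hα, mdl_cr_smul_left hβ, mdl_cr_self,
      hαd, div_mul_cancel₀ _ huv]
    ring
  have h2 : mdl_cr s u (w - α * u - β * v) = 0 := by
    rw [mdl_cr_sub_right, mdl_cr_sub_right, mdl_cr_smul_right hα, mdl_cr_smul_right hβ,
      mdl_cr_self, hβd, div_mul_cancel₀ _ huv]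
    ring
  have h3 := mdl_par hu0 h2
  have h4 : w - α * u - β * v = (w - α * u - β * v) / u * u := (div_mul_cancel₀ _ hu0).symm
  rw [h4, mdl_cr_smul_left h3] at h1
  have h5 : (w - α * u - β * v) / u = 0 := (mul_eq_zero.1 h1).resolve_right huv
  refine ⟨α, β, hα, hβ, ?_⟩
  rw [h5, zero_mul] at h4
  linear_combination h4

theorem mdl_ex_cr (A : mdl_Ax s b) {n : K} (hn : n ≠ 0) : ∃ c, mdl_cr s n c ≠ 0 := by
  obtain ⟨z, hz⟩ := A.nonF
  refine ⟨n * z, ?_⟩
  have h1 : s n ≠ 0 := (map_ne_zero s).2 hn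
  have h2 : s (s n) ≠ 0 := (map_ne_zero s).2 h1
  have h3 : s (s z) - s z ≠ 0 := fun h => hz (s.injective (sub_eq_zero.1 h))
  have : mdl_cr s n (n * z) = s n * s (s n) * (s (s z) - s z) := by
    simp only [mdl_cr, map_mul]; ring
  rw [this]
  exact mul_ne_zero (mul_ne_zero h1 h2) h3

theorem mdl_ex_tr (A : mdl_Ax s b) {n : K} (hn : n ≠ 0) : ∃ d, mdl_tr s (n * d) = 1 := by
  obtain ⟨z, hz⟩ := A.tr1
  refine ⟨z / (mdl_tr s z * n), ?_⟩
  have : n * (z / (mdl_tr s z * n)) = (mdl_tr s z)⁻¹ * z := by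
    field_simp
  rw [this, mdl_tr_smul (by rw [map_inv₀, mdl_s_tr A]), inv_mul_cancel₀ hz]

theorem mdl_two_dim (A : mdl_Ax s b) {n : K} (hn : n ≠ 0) :
    ∃ x y, mdl_tr s (n * x) = 0 ∧ mdl_tr s (n * y) = 0 ∧ mdl_cr s x y ≠ 0 := by
  obtain ⟨c, hc⟩ := mdl_ex_cr A hn
  obtain ⟨d, hd⟩ := mdl_ex_tr A hc
  refine ⟨mdl_cr s n c, mdl_cr s n d, mdl_tr_cr_self A _ _, mdl_tr_cr_self A _ _, ?_⟩
  rw [mdl_cr_cr A, hd, mul_comm (mdl_cr s n c) n, mdl_tr_cr_self A]
  simpa using hn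

theorem mdl_line (A : mdl_Ax s b) {P : K} (hP : mdl_tr s (P * b P) = -1) :
    ∃ u v, b u = mdl_cr s P u ∧ b v = mdl_cr s P v ∧ mdl_cr s u v ≠ 0 ∧
      ∀ x, b x = mdl_cr s P x → ∃ α β : K, s α = α ∧ b α = α ∧ s β = β ∧ b β = β ∧
        x = α * u + β * v := by
  have hP0 : P ≠ 0 := by
    rintro rfl
    simp [mdl_tr] at hP
  have hn : b P ≠ 0 := (map_ne_zero b).2 hP0
  have hperp : ∀ x, b x = mdl_cr s P x → mdl_tr s (b P * x) = 0 := by
    intro x hx
    have h1 : mdl_tr s (P * b x) = 0 := by rw [hx]; exact mdl_tr_cr_self A _ _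
    have h2 := congrArg b h1
    rw [mdl_b_tr A, map_mul, A.b2, map_zero] at h2
    exact h2
  obtain ⟨e, he0, hse, hbe⟩ := A.eps
  -- the semilinear involution
  have hJJ : ∀ x, mdl_tr s (b P * x) = 0 →
      mdl_cr s (b P) (b (mdl_cr s (b P) (b x))) = x := by
    intro x hx
    rw [mdl_b_cr A, A.b2, A.b2, mdl_cr_cr A, hx, mul_comm (b P) P, hP]
    ring
  have hV1 : ∀ x, mdl_tr s (b P * x) = 0 →
      b (x + mdl_cr s (b P) (b x)) = mdl_cr s P (x + mdl_cr s (b P) (b x)) := by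
    intro x hx
    have h1 := congrArg b (hJJ x hx)
    rw [mdl_b_cr A, A.b2, A.b2] at h1
    rw [map_add, mdl_b_cr A, A.b2, A.b2, mdl_cr_add_right, h1]
    ring
  have hV2 : ∀ x, mdl_tr s (b P * x) = 0 →
      b (e * (x - mdl_cr s (b P) (b x))) = mdl_cr s P (e * (x - mdl_cr s (b P) (b x))) := by
    intro x hx
    have h1 := congrArg b (hJJ x hx)
    rw [mdl_b_cr A, A.b2, A.b2] at h1
    rw [map_mul, map_sub, mdl_b_cr A, A.b2, A.b2, mdl_cr_smul_right hse, mdl_cr_sub_right, h1, hbe]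
    ring
  obtain ⟨x, y, hx, hy, hxy⟩ := mdl_two_dim A hn
  have hex : ∃ u v, b u = mdl_cr s P u ∧ b v = mdl_cr s P v ∧ mdl_cr s u v ≠ 0 := by
    by_contra hcon
    push Not at hcon
    have a1 := hcon _ _ (hV1 x hx) (hV1 y hy)
    have a2 := hcon _ _ (hV1 x hx) (hV2 y hy)
    have a3 := hcon _ _ (hV2 x hx) (hV1 y hy)
    have a4 := hcon _ _ (hV2 x hx) (hV2 y hy)
    have h2e : s (2 * e) = 2 * e := by rw [map_mul, hse, map_ofNat]
    have key : mdl_cr s (2 * e * x) (2 * e * y) = 0 := by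
      have hx' : 2 * e * x = e * (x + mdl_cr s (b P) (b x)) + e * (x - mdl_cr s (b P) (b x)) := by
        ring
      have hy' : 2 * e * y = e * (y + mdl_cr s (b P) (b y)) + e * (y - mdl_cr s (b P) (b y)) := by
        ring
      rw [hx', hy', mdl_cr_add_left, mdl_cr_add_right, mdl_cr_add_right,
        mdl_cr_smul_left hse (x + mdl_cr s (b P) (b x)) (e * (y + mdl_cr s (b P) (b y))),
        mdl_cr_smul_right hse (x + mdl_cr s (b P) (b x)) (y + mdl_cr s (b P) (b y)), a1,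
        mdl_cr_smul_left hse (x + mdl_cr s (b P) (b x)) (e * (y - mdl_cr s (b P) (b y))), a2,
        mdl_cr_smul_right hse (e * (x - mdl_cr s (b P) (b x))) (y + mdl_cr s (b P) (b y)), a3, a4]
      ring
    rw [mdl_cr_smul_left h2e, mdl_cr_smul_right h2e] at key
    have h3 : (2 : K) * e ≠ 0 := mul_ne_zero A.two he0
    exact hxy ((mul_eq_zero.1 ((mul_eq_zero.1 key).resolve_left h3)).resolve_left h3)
  obtain ⟨u, v, hu, hv, huv⟩ := hex
  refine ⟨u, v, hu, hv, huv, fun w hw => ?_⟩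
  obtain ⟨α, β, hα, hβ, hwe⟩ := mdl_span A hn (hperp u hu) (hperp v hv) (hperp w hw) huv
  have hbα : s (b α) = b α := by rw [← A.bs, hα]
  have hbβ : s (b β) = b β := by rw [← A.bs, hβ]
  have h1 : b α * b u + b β * b v = α * b u + β * b v := by
    have h2 := hw
    rw [hwe, map_add, map_mul, map_mul, mdl_cr_add_right, mdl_cr_smul_right hα,
      mdl_cr_smul_right hβ, ← hu, ← hv] at h2
    exact h2
  have hne : mdl_cr s (b u) (b v) ≠ 0 := by
    rw [← mdl_b_cr A]; exact (map_ne_zero b).2 huv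
  have hα' : b α = α := by
    have h2 : mdl_cr s (b α * b u + b β * b v) (b v) = mdl_cr s (α * b u + β * b v) (b v) := by
      rw [h1]
    rw [mdl_cr_add_left, mdl_cr_add_left, mdl_cr_smul_left hbα, mdl_cr_smul_left hbβ,
      mdl_cr_smul_left hα, mdl_cr_smul_left hβ, mdl_cr_self] at h2
    have h3 : (b α - α) * mdl_cr s (b u) (b v) = 0 := by linear_combination h2
    exact sub_eq_zero.1 ((mul_eq_zero.1 h3).resolve_right hne)
  have hβ' : b β = β := by
    have h2 : mdl_cr s (b u) (b α * b u + b β * b v) = mdl_cr s (b u) (α * b u + β * b v) := by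
      rw [h1]
    rw [mdl_cr_add_right, mdl_cr_add_right, mdl_cr_smul_right hbα, mdl_cr_smul_right hbβ,
      mdl_cr_smul_right hα, mdl_cr_smul_right hβ, mdl_cr_self] at h2
    have h3 : (b β - β) * mdl_cr s (b u) (b v) = 0 := by linear_combination h2
    exact sub_eq_zero.1 ((mul_eq_zero.1 h3).resolve_right hne)
  exact ⟨α, β, hα, hα', hβ, hβ', hwe⟩

theorem mdl_gen_point (A : mdl_Ax s b) {x : K} (hx0 : x ≠ 0) (hx : mdl_tr s (x * b x) = 0) :
    ∃ P, mdl_cr s P x = b x ∧ mdl_tr s (P * b x) = 0 := by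
  obtain ⟨w, hw⟩ := mdl_ex_tr A hx0
  refine ⟨mdl_cr s w (b x), ?_, ?_⟩
  · rw [mdl_cr_comm, mdl_cr_cr A, hw, hx]; ring
  · rw [mul_comm]; exact mdl_tr_self_cr A _ _

theorem mdl_gen_iso (A : mdl_Ax s b) {x : K} (hx0 : x ≠ 0) (hx : mdl_tr s (x * b x) = 0)
    {Y P Y' P' : K} (hY : s Y = Y) (hY' : s Y' = Y') (h1 : mdl_cr s P x = Y * b x)
    (h1' : mdl_cr s P' x = Y' * b x) :
    Y * b Y' + mdl_tr s (P * b P') = 0 := by
  obtain ⟨w, hw⟩ := mdl_ex_tr A hx0
  have hP : P = Y * mdl_cr s w (b x) + mdl_tr s (w * P) * x := by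
    have h := mdl_cr_cr A w P x
    rw [h1, mdl_cr_smul_right hY, mul_comm w x, hw] at h
    linear_combination -h
  have hP' : P' = Y' * mdl_cr s w (b x) + mdl_tr s (w * P') * x := by
    have h := mdl_cr_cr A w P' x
    rw [h1', mdl_cr_smul_right hY', mul_comm w x, hw] at h
    linear_combination -h
  set l := mdl_tr s (w * P) with hl
  set l' := mdl_tr s (w * P') with hl'
  have hls : s l = l := mdl_s_tr A _
  have hls' : s l' = l' := mdl_s_tr A _
  have hbY' : s (b Y') = b Y' := by rw [← A.bs, hY']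
  have hbl' : s (b l') = b l' := by rw [← A.bs, hls']
  have hbP' : b P' = b Y' * mdl_cr s (b w) x + b l' * b x := by
    rw [hP', map_add, map_mul, map_mul, mdl_b_cr A, A.b2]
  have e1 : P * b P' = (Y * b Y') * (mdl_cr s w (b x) * mdl_cr s (b w) x)
      + (Y * b l') * (b x * mdl_cr s w (b x)) + (l * b Y') * (x * mdl_cr s (b w) x)
      + (l * b l') * (x * b x) := by
    rw [hbP']
    conv_lhs => rw [hP]
    ring
  have f1 : s (Y * b Y') = Y * b Y' := by rw [map_mul, hY, hbY']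
  have f2 : s (Y * b l') = Y * b l' := by rw [map_mul, hY, hbl']
  have f3 : s (l * b Y') = l * b Y' := by rw [map_mul, hls, hbY']
  have f4 : s (l * b l') = l * b l' := by rw [map_mul, hls, hbl']
  have hbw : mdl_tr s (b x * b w) = 1 := by
    rw [← map_mul, ← mdl_b_tr A, hw, map_one]
  rw [e1, mdl_tr_add, mdl_tr_add, mdl_tr_add, mdl_tr_smul f1, mdl_tr_smul f2, mdl_tr_smul f3,
    mdl_tr_smul f4, mdl_tr_cr_cr A, mul_comm w x, hw, hbw, mul_comm (b x) x, hx,
    mdl_tr_self_cr A, mdl_tr_self_cr A]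
  ring

theorem mdl_onb (A : mdl_Ax s b) (N1 : ∀ z, z ≠ 0 → b z = z → ∃ v, v * b v = z)
    (N2 : ∀ t, t ≠ 0 → s t = t → b t = t → ∃ c, s c = c ∧ c * b c = t) :
    ∃ v1 v2 v3 : K, mdl_tr s (v1 * b v1) = 1 ∧ mdl_tr s (v2 * b v2) = 1 ∧
      mdl_tr s (v3 * b v3) = 1 ∧ mdl_tr s (v1 * b v2) = 0 ∧ mdl_tr s (v1 * b v3) = 0 ∧
      mdl_tr s (v2 * b v1) = 0 ∧ mdl_tr s (v2 * b v3) = 0 ∧ mdl_tr s (v3 * b v1) = 0 ∧
      mdl_tr s (v3 * b v2) = 0 ∧
      ∀ x, x = mdl_tr s (x * b v1) * v1 + mdl_tr s (x * b v2) * v2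
        + mdl_tr s (x * b v3) * v3 := by
  have htwo := A.two
  -- the first vector
  obtain ⟨v1, hv1⟩ : ∃ v1, mdl_tr s (v1 * b v1) = 1 := by
    obtain ⟨y, hy⟩ := mdl_ex_tr A (one_ne_zero)
    rw [one_mul] at hy
    have h2 : s ((2 : K)⁻¹) = (2 : K)⁻¹ := by rw [map_inv₀, map_ofNat]
    have hz : mdl_tr s ((2 : K)⁻¹ * (y + b y)) = 1 := by
      rw [mdl_tr_smul h2, mdl_tr_add, ← mdl_b_tr A, hy, map_one]
      field_simp; norm_num
    have hz0 : (2 : K)⁻¹ * (y + b y) ≠ 0 := by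
      intro h0
      rw [h0] at hz
      simp [mdl_tr] at hz
    obtain ⟨v, hv⟩ := N1 _ hz0 (by
      rw [map_mul, map_add, map_inv₀, map_ofNat, A.b2]; ring)
    exact ⟨v, by rw [hv]; exact hz⟩
  have hv10 : v1 ≠ 0 := by
    rintro rfl
    simp [mdl_tr] at hv1
  -- an anisotropic vector in the complement
  obtain ⟨w, hw1, hw⟩ : ∃ w, mdl_tr s (w * b v1) = 0 ∧ mdl_tr s (w * b w) ≠ 0 := by
    by_contra hcon
    push Not at hcon
    obtain ⟨e', he'⟩ := mdl_ex_cr A hv10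
    obtain ⟨d, hd⟩ := mdl_ex_tr A he'
    obtain ⟨e, he0, hse, hbe⟩ := A.eps
    set c' := mdl_cr s v1 e' with hc'
    have hc1 : mdl_tr s (c' * v1) = 0 := by rw [mul_comm]; exact mdl_tr_cr_self A _ _
    set w1 := mdl_cr s (b v1) c' with hw1
    set w2 := mdl_cr s (b v1) (b d) with hw2
    have k1 : mdl_tr s (w1 * b v1) = 0 := by rw [mul_comm]; exact mdl_tr_cr_self A _ _
    have k2 : mdl_tr s (w2 * b v1) = 0 := by rw [mul_comm]; exact mdl_tr_cr_self A _ _
    have k12 : mdl_tr s (w1 * b w2) = 1 := by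
      rw [hw2, mdl_b_cr A, A.b2, A.b2, hw1, mdl_tr_cr_cr A, mul_comm (b v1) v1, hv1, hd, hc1]
      ring
    have m1 := hcon w1 k1
    have m2 := hcon w2 k2
    have m3 := hcon (w1 + w2) (by rw [add_mul, mdl_tr_add, k1, k2, add_zero])
    have m4 := hcon (w1 + e * w2) (by
      rw [add_mul, mdl_tr_add, mul_assoc, mdl_tr_smul hse, k1, k2]; ring)
    have n3 : mdl_tr s ((w1 + w2) * b (w1 + w2)) = mdl_tr s (w1 * b w1) + mdl_tr s (w1 * b w2)
        + mdl_tr s (w2 * b w1) + mdl_tr s (w2 * b w2) := by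
      rw [← mdl_tr_add, ← mdl_tr_add, ← mdl_tr_add, map_add]
      congr 1; ring
    have hee : s (e * e) = e * e := by rw [map_mul, hse]
    have n4 : mdl_tr s ((w1 + e * w2) * b (w1 + e * w2)) = mdl_tr s (w1 * b w1)
        - e * mdl_tr s (w1 * b w2) + e * mdl_tr s (w2 * b w1)
        - (e * e) * mdl_tr s (w2 * b w2) := by
      rw [← mdl_tr_smul hse, ← mdl_tr_smul hse, ← mdl_tr_smul hee, ← mdl_tr_sub, ← mdl_tr_add,
        ← mdl_tr_sub, map_add, map_mul, hbe]
      congr 1; ring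
    rw [n3, m1, m2, k12] at m3
    rw [n4, m1, m2, k12] at m4
    have m5 : mdl_tr s (w2 * b w1) = -1 := by linear_combination m3
    rw [m5] at m4
    have m6 : (2 : K) * e = 0 := by linear_combination -m4
    exact (mul_ne_zero htwo he0) m6
  obtain ⟨c, hsc, hc⟩ := N2 (mdl_tr s (w * b w))⁻¹ (inv_ne_zero hw)
    (by rw [map_inv₀, mdl_s_tr A])
    (by rw [map_inv₀, mdl_b_tr A, map_mul, A.b2, mul_comm])
  set v2 := c * w with hv2d
  have hbc : s (b c) = b c := by rw [← A.bs, hsc]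
  have hv2 : mdl_tr s (v2 * b v2) = 1 := by
    have : v2 * b v2 = (c * b c) * (w * b w) := by rw [hv2d, map_mul]; ring
    rw [this, mdl_tr_smul (by rw [map_mul, hsc, hbc]), hc, inv_mul_cancel₀ hw]
  have h21 : mdl_tr s (v2 * b v1) = 0 := by
    rw [hv2d, mul_assoc, mdl_tr_smul hsc, hw1, mul_zero]
  have h12 : mdl_tr s (v1 * b v2) = 0 := by
    have := congrArg b h21
    rw [mdl_b_tr A, map_mul, A.b2, map_zero, mul_comm] at this
    exact this
  set v3 := mdl_cr s (b v1) (b v2) with hv3d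
  have hbv3 : b v3 = mdl_cr s v1 v2 := by rw [hv3d, mdl_b_cr A, A.b2, A.b2]
  have hv3 : mdl_tr s (v3 * b v3) = 1 := by
    rw [hbv3, hv3d, mdl_tr_cr_cr A, mul_comm (b v1) v1, hv1, mul_comm (b v2) v2, hv2,
      mul_comm (b v1) v2, h21]
    ring
  have h13 : mdl_tr s (v1 * b v3) = 0 := by rw [hbv3]; exact mdl_tr_cr_self A _ _
  have h23 : mdl_tr s (v2 * b v3) = 0 := by rw [hbv3]; exact mdl_tr_self_cr A _ _
  have h31 : mdl_tr s (v3 * b v1) = 0 := by rw [mul_comm]; exact mdl_tr_cr_self A _ _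
  have h32 : mdl_tr s (v3 * b v2) = 0 := by rw [mul_comm]; exact mdl_tr_self_cr A _ _
  have hv30 : v3 ≠ 0 := by
    intro h0
    rw [h0] at hv3
    simp [mdl_tr] at hv3
  refine ⟨v1, v2, v3, hv1, hv2, hv3, h12, h13, h21, h23, h31, h32, fun x => ?_⟩
  have ht1 : s (mdl_tr s (x * b v1)) = mdl_tr s (x * b v1) := mdl_s_tr A _
  have ht2 : s (mdl_tr s (x * b v2)) = mdl_tr s (x * b v2) := mdl_s_tr A _
  have ht3 : s (mdl_tr s (x * b v3)) = mdl_tr s (x * b v3) := mdl_s_tr A _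
  set t1 := mdl_tr s (x * b v1) with ht1d
  set t2 := mdl_tr s (x * b v2) with ht2d
  set t3 := mdl_tr s (x * b v3) with ht3d
  have hgen : ∀ v, mdl_tr s ((x - t1 * v1 - t2 * v2 - t3 * v3) * v) = mdl_tr s (x * v)
      - t1 * mdl_tr s (v1 * v) - t2 * mdl_tr s (v2 * v) - t3 * mdl_tr s (v3 * v) := by
    intro v
    rw [← mdl_tr_smul ht1, ← mdl_tr_smul ht2, ← mdl_tr_smul ht3, ← mdl_tr_sub, ← mdl_tr_sub,
      ← mdl_tr_sub]
    congr 1; ring
  have g1 := hgen (b v1)
  have g2 := hgen (b v2)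
  have g3 := hgen (b v3)
  rw [hv1, h21, h31, ← ht1d] at g1
  rw [h12, hv2, h32, ← ht2d] at g2
  rw [h13, h23, hv3, ← ht3d] at g3
  have g1' : mdl_tr s ((x - t1 * v1 - t2 * v2 - t3 * v3) * b v1) = 0 := by rw [g1]; ring
  have g2' : mdl_tr s ((x - t1 * v1 - t2 * v2 - t3 * v3) * b v2) = 0 := by rw [g2]; ring
  have g3' : mdl_tr s ((x - t1 * v1 - t2 * v2 - t3 * v3) * b v3) = 0 := by rw [g3]; ring
  have hcr : mdl_cr s v3 (x - t1 * v1 - t2 * v2 - t3 * v3) = 0 := by
    rw [mdl_cr_comm, hv3d, mdl_cr_cr A, g1', g2']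
    ring
  have hpar := mdl_par hv30 hcr
  have hd : x - t1 * v1 - t2 * v2 - t3 * v3
      = (x - t1 * v1 - t2 * v2 - t3 * v3) / v3 * v3 := (div_mul_cancel₀ _ hv30).symm
  rw [hd, mul_assoc, mdl_tr_smul hpar, hv3, mul_one] at g3'
  rw [g3', zero_mul] at hd
  linear_combination hd

end mdl_abs

section mdl_fin

variable {K : Type} [Field K] [Fintype K] {q : ℕ}

theorem mdl_q (h : Std K q) : 5 ≤ q := by
  have h1 := h.mod4
  have h2 : 1 < Fintype.card K := Fintype.one_lt_card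
  rw [h.card] at h2
  rcases Nat.lt_or_ge q 5 with h3 | h3
  · interval_cases q <;> simp_all
  · exact h3

/-- the Frobenius of order six -/
theorem mdl_frob (h : Std K q) : ∃ f : K →+* K, (∀ x, f x = x ^ q) := by
  obtain ⟨p, hp⟩ := CharP.exists K
  obtain ⟨n, hpp, hn⟩ := FiniteField.card K p
  have : Fact p.Prime := ⟨hpp⟩
  have h1 : q ∣ p ^ (n : ℕ) := by
    rw [← hn, h.card]
    exact dvd_pow_self q (by norm_num)
  obtain ⟨m, -, hm⟩ := (Nat.dvd_prime_pow hpp).1 h1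
  refine ⟨iterateFrobenius K p m, fun x => ?_⟩
  rw [iterateFrobenius_def, hm]

theorem mdl_two (h : Std K q) : (2 : K) ≠ 0 := by
  apply Ring.two_ne_zero
  intro h1
  have h2 := FiniteField.even_card_iff_char_two.1 h1
  rw [h.card] at h2
  have h3 := h.mod4
  have h4 : q % 2 = 1 := by omega
  have h5 : q ^ 6 % 2 = 1 := by
    rw [Nat.pow_mod, h4]
  omega

theorem mdl_nonroot (h : Std K q) (p : Polynomial K) (hp : p ≠ 0) (hd : p.natDegree < q ^ 6) :
    ∃ x, p.eval x ≠ 0 := by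
  by_contra hcon
  push Not at hcon
  apply hp
  refine Polynomial.eq_zero_of_natDegree_lt_card_of_eval_eq_zero (ι := K) p (f := id)
    Function.injective_id hcon ?_
  rw [h.card]; exact hd

theorem mdl_pow6 (h : Std K q) (x : K) : x ^ q ^ 6 = x := by
  have := FiniteField.pow_card x
  rwa [h.card] at this

/-- roots in the cyclic group -/
theorem mdl_root (h : Std K q) {d d' : ℕ} (hd : d * d' = q ^ 6 - 1) {z : K} (hz : z ≠ 0)
    (hzd : z ^ d' = 1) : ∃ v : K, v ≠ 0 ∧ v ^ d = z := by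
  obtain ⟨g, hg⟩ := IsCyclic.exists_generator (α := Kˣ)
  have hord : orderOf g = q ^ 6 - 1 := by
    rw [orderOf_eq_card_of_forall_mem_zpowers hg, Nat.card_eq_fintype_card, Fintype.card_units,
      h.card]
  obtain ⟨k, hk⟩ : Units.mk0 z hz ∈ Submonoid.powers g :=
    mem_powers_iff_mem_zpowers.2 (hg _)
  have h1 : g ^ (k * d') = 1 := by
    rw [pow_mul]
    have : g ^ k = Units.mk0 z hz := hk
    rw [this]
    ext
    simpa using hzd
  have h2 := orderOf_dvd_of_pow_eq_one h1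
  rw [hord, ← hd] at h2
  have hd'0 : 0 < d' := by
    rcases Nat.eq_zero_or_pos d' with h3 | h3
    · rw [h3, mul_zero] at hd
      have h4 : 2 ≤ q := by have := mdl_q h; omega
      have : 1 < q ^ 6 := Nat.one_lt_pow (by norm_num) h4
      omega
    · exact h3
  obtain ⟨j, hj⟩ := Nat.dvd_of_mul_dvd_mul_right hd'0 h2
  refine ⟨((g ^ j : Kˣ) : K), Units.ne_zero _, ?_⟩
  have h3 : (g ^ j) ^ d = Units.mk0 z hz := by
    rw [← pow_mul, mul_comm j d, ← hj]; exact hk
  have h4 := congrArg (fun u : Kˣ => (u : K)) h3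
  simpa using h4

theorem mdl_exists (h : Std K q) : ∃ s b : K →+* K, (∀ x, x ^ q ^ 2 = s x) ∧
    (∀ x, x ^ q ^ 4 = s (s x)) ∧ (∀ x, x ^ q ^ 3 = b x) ∧ mdl_Ax s b ∧
    (∀ a, a ^ q = a ↔ s a = a ∧ b a = a) ∧ (∀ a, s a = a → b a = a ^ q) ∧
    (∀ z, z ≠ 0 → b z = z → ∃ v, v * b v = z) ∧
    (∀ t, t ≠ 0 → s t = t → b t = t → ∃ c, s c = c ∧ c * b c = t) := by
  obtain ⟨f, hf⟩ := mdl_frob h
  have hq5 := mdl_q h
  have f2 : ∀ x, x ^ q ^ 2 = f (f x) := by
    intro x; rw [hf, hf, ← pow_mul]; ring_nf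
  have f3 : ∀ x, x ^ q ^ 3 = f (f (f x)) := by
    intro x; rw [hf, hf, hf, ← pow_mul, ← pow_mul]; ring_nf
  have f4 : ∀ x, x ^ q ^ 4 = f (f (f (f x))) := by
    intro x; rw [hf, hf, hf, hf, ← pow_mul, ← pow_mul, ← pow_mul]; ring_nf
  have f5 : ∀ x, x ^ q ^ 5 = f (f (f (f (f x)))) := by
    intro x; rw [hf, hf, hf, hf, hf, ← pow_mul, ← pow_mul, ← pow_mul, ← pow_mul]; ring_nf
  have f6 : ∀ x, f (f (f (f (f (f x))))) = x := by
    intro x
    conv_rhs => rw [← mdl_pow6 h x]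
    rw [hf, hf, hf, hf, hf, hf, ← pow_mul, ← pow_mul, ← pow_mul, ← pow_mul, ← pow_mul]
    ring_nf
  have hfq : ∀ a, a ^ q = a ↔ f (f a) = a ∧ f (f (f a)) = a := by
    intro a
    constructor
    · intro ha
      have : f a = a := by rw [hf, ha]
      rw [this, this]; simp [this]
    · rintro ⟨h1, h2⟩
      rw [← hf]
      rw [h1] at h2
      exact h2
  have q1 : 1 < q := by omega
  have l24 : q ^ 2 < q ^ 4 := Nat.pow_lt_pow_right q1 (by norm_num)
  have l46 : q ^ 4 < q ^ 6 := Nat.pow_lt_pow_right q1 (by norm_num)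
  have l56 : q ^ 5 < q ^ 6 := Nat.pow_lt_pow_right q1 (by norm_num)
  have l12 : 1 < q ^ 2 := Nat.one_lt_pow (by norm_num) q1
  have l13 : 1 < q ^ 3 := Nat.one_lt_pow (by norm_num) q1
  have l14 : 1 < q ^ 4 := Nat.one_lt_pow (by norm_num) q1
  have l15 : 1 < q ^ 5 := Nat.one_lt_pow (by norm_num) q1
  have l35 : q ^ 3 < q ^ 5 := Nat.pow_lt_pow_right q1 (by norm_num)
  have l45 : q ^ 4 < q ^ 5 := Nat.pow_lt_pow_right q1 (by norm_num)
  have l25 : q ^ 2 < q ^ 5 := Nat.pow_lt_pow_right q1 (by norm_num)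
  have l05 : q < q ^ 5 := by
    calc q = q ^ 1 := (pow_one q).symm
      _ < q ^ 5 := Nat.pow_lt_pow_right q1 (by norm_num)
  -- trace is not zero
  have htr : ∃ z : K, z + f (f z) + f (f (f (f z))) ≠ 0 := by
    obtain ⟨z, hz⟩ := mdl_nonroot h
      (Polynomial.X + Polynomial.X ^ (q ^ 2) + Polynomial.X ^ (q ^ 4)) (by
        intro h0
        have := congrArg (fun p => Polynomial.coeff p 1) h0
        simp only [Polynomial.coeff_add, Polynomial.coeff_X_one, Polynomial.coeff_X_pow,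
          Polynomial.coeff_zero] at this
        rw [if_neg (by omega), if_neg (by omega)] at this
        simp at this) (by
        refine lt_of_le_of_lt (b := q ^ 4) ?_ l46
        refine Polynomial.natDegree_add_le_of_degree_le
          (Polynomial.natDegree_add_le_of_degree_le ?_ ?_) ?_
        · rw [Polynomial.natDegree_X]; omega
        · rw [Polynomial.natDegree_X_pow]; omega
        · rw [Polynomial.natDegree_X_pow])
    refine ⟨z, ?_⟩
    simpa [f2, f4] using hz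
  have hnF : ∃ z : K, f (f z) ≠ z := by
    obtain ⟨z, hz⟩ := mdl_nonroot h
      (Polynomial.X ^ (q ^ 2) - Polynomial.X) (by
        intro h0
        have := congrArg (fun p => Polynomial.coeff p 1) h0
        simp only [Polynomial.coeff_sub, Polynomial.coeff_X_one, Polynomial.coeff_X_pow,
          Polynomial.coeff_zero] at this
        rw [if_neg (by omega)] at this
        simp at this) (by
        refine lt_of_le_of_lt (b := q ^ 4) ?_ l46
        refine Polynomial.natDegree_sub_le_of_le ?_ ?_ |>.trans (max_self _).le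
        · rw [Polynomial.natDegree_X_pow]; omega
        · rw [Polynomial.natDegree_X]; omega)
    refine ⟨z, fun hz' => hz ?_⟩
    simp [f2, hz']
  have hnB : ∃ y : K, f (f (f y)) + f (f (f (f (f y)))) + f y
      - (y + f (f y) + f (f (f (f y)))) ≠ 0 := by
    obtain ⟨z, hz⟩ := mdl_nonroot h
      (Polynomial.X ^ (q ^ 3) + Polynomial.X ^ (q ^ 5) + Polynomial.X ^ q
        - (Polynomial.X + Polynomial.X ^ (q ^ 2) + Polynomial.X ^ (q ^ 4))) (by
        intro h0
        have := congrArg (fun p => Polynomial.coeff p 1) h0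
        simp only [Polynomial.coeff_sub, Polynomial.coeff_add, Polynomial.coeff_X_one,
          Polynomial.coeff_X_pow, Polynomial.coeff_zero] at this
        rw [if_neg (by omega), if_neg (by omega), if_neg (by omega), if_neg (by omega),
          if_neg (by omega)] at this
        simp at this) (by
        refine lt_of_le_of_lt (b := q ^ 5) ?_ l56
        refine (Polynomial.natDegree_sub_le_of_le (m := q ^ 5) (n := q ^ 5) ?_ ?_).trans
          (max_self _).le
        · refine Polynomial.natDegree_add_le_of_degree_le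
            (Polynomial.natDegree_add_le_of_degree_le ?_ ?_) ?_
          · rw [Polynomial.natDegree_X_pow]; omega
          · rw [Polynomial.natDegree_X_pow]
          · rw [Polynomial.natDegree_X_pow]; omega
        · refine Polynomial.natDegree_add_le_of_degree_le
            (Polynomial.natDegree_add_le_of_degree_le ?_ ?_) ?_
          · rw [Polynomial.natDegree_X]; omega
          · rw [Polynomial.natDegree_X_pow]; omega
          · rw [Polynomial.natDegree_X_pow]; omega)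
    refine ⟨z, ?_⟩
    simpa [f2, f3, f4, f5, ← hf] using hz
  refine ⟨f.comp f, (f.comp f).comp f, ?_, ?_, ?_, ?_, ?_, ?_, ?_, ?_⟩
  · intro x; rw [f2]; rfl
  · intro x; rw [f4]; rfl
  · intro x; rw [f3]; rfl
  · refine ⟨?_, ?_, ?_, mdl_two h, ?_, ?_, ?_⟩
    · intro x; exact f6 x
    · intro x; exact f6 x
    · intro x; rfl
    · obtain ⟨z, hz⟩ := htr
      exact ⟨z, hz⟩
    · obtain ⟨y, hy⟩ := hnB
      refine ⟨f (f (f y)) + f (f (f (f (f y)))) + f y
        - (y + f (f y) + f (f (f (f y)))), hy, ?_, ?_⟩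
      · simp only [RingHom.comp_apply, map_sub, map_add, f6]
        ring
      · simp only [RingHom.comp_apply, map_sub, map_add, f6]
        ring
    · obtain ⟨z, hz⟩ := hnF
      exact ⟨z, hz⟩
  · intro a; exact hfq a
  · intro a ha
    have ha' : f (f a) = a := ha
    show f (f (f a)) = a ^ q
    rw [ha', hf]
  · intro z hz hbz
    have hbz' : z ^ q ^ 3 = z := by rw [f3]; exact hbz
    obtain ⟨v, hv0, hv⟩ := mdl_root h (d := q ^ 3 + 1) (d' := q ^ 3 - 1) (by
      have : 1 ≤ q ^ 3 := l13.le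
      obtain ⟨m, hm⟩ := Nat.exists_eq_add_of_le this
      rw [show q ^ 6 = (q ^ 3) ^ 2 by ring, hm]
      have e1 : 1 + m - 1 = m := by omega
      rw [e1]
      have e2 : (1 + m) ^ 2 = (1 + m + 1) * m + 1 := by ring
      rw [e2]; omega) hz (by
      have h1 : z ^ (q ^ 3 - 1) * z = z := by
        rw [← pow_succ, Nat.sub_add_cancel l13.le, hbz']
      exact mul_right_cancel₀ hz (by rw [h1, one_mul]))
    refine ⟨v, ?_⟩
    rw [← hv, pow_succ, f3, mul_comm]; rfl
  · intro t ht hst hbt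
    have htq : t ^ q = t := (hfq t).2 ⟨hst, hbt⟩
    obtain ⟨v, hv0, hv⟩ := mdl_root h (d := 1 + q + q ^ 2 + q ^ 3 + q ^ 4 + q ^ 5)
      (d' := q - 1) (by
      obtain ⟨m, hm⟩ := Nat.exists_eq_add_of_le q1.le
      rw [hm]
      have e1 : 1 + m - 1 = m := by omega
      rw [e1]
      have e2 : (1 + m) ^ 6 = (1 + (1 + m) + (1 + m) ^ 2 + (1 + m) ^ 3 + (1 + m) ^ 4
        + (1 + m) ^ 5) * m + 1 := by ring
      rw [e2]; omega) ht (by
      have h1 : t ^ (q - 1) * t = t := by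
        rw [← pow_succ, Nat.sub_add_cancel q1.le, htq]
      exact mul_right_cancel₀ ht (by rw [h1, one_mul]))
    refine ⟨v * f (f v) * f (f (f (f v))), ?_, ?_⟩
    · simp only [RingHom.comp_apply, map_mul, f6]
      ring
    · rw [← hv]
      simp only [pow_add, pow_one, f2, f3, f4, f5, ← hf, RingHom.comp_apply, map_mul, f6]
      ring

omit [Fintype K] in
theorem mdl_T3 {s : K →+* K} (h2 : ∀ x : K, x ^ q ^ 2 = s x) (h4 : ∀ x : K, x ^ q ^ 4 = s (s x))
    (x : K) : T3 q x = mdl_tr s x := by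
  rw [T3, h2, h4, mdl_tr]

theorem ell_line (h : Std K q) {Y P : K} (hY : Y ^ q ^ 2 = Y) (h0 : ¬ (Y = 0 ∧ P = 0))
    (hiso : Y ^ (q + 1) + T3 q (P * P ^ q ^ 3) = 0) :
    ∃ u v : K, IsLine q u v ∧ ∀ x : K,
      (P ^ q ^ 2 * x ^ q ^ 4 - P ^ q ^ 4 * x ^ q ^ 2 = Y * x ^ q ^ 3 ∧ T3 q (P * x ^ q ^ 3) = 0)
        ↔ ∃ a b : K, a ^ q = a ∧ b ^ q = b ∧ x = a * u + b * v := by
  obtain ⟨s, b, h2, h4, h3, A, hFq, hbq, -, -⟩ := mdl_exists h
  have hT := mdl_T3 h2 h4
  have hYs : s Y = Y := by rw [← h2, hY]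
  have hYb : Y ^ (q + 1) = Y * b Y := by rw [hbq Y hYs, pow_succ, mul_comm]
  rw [hYb, hT, h3] at hiso
  by_cases hY0 : Y = 0
  · have hP0 : P ≠ 0 := fun hP => h0 ⟨hY0, hP⟩
    rw [hY0, map_zero, mul_zero, zero_add] at hiso
    obtain ⟨e, he0, hse, hbe⟩ := A.eps
    refine ⟨P, e * P, ⟨?_, ?_, ?_, ?_⟩, ?_⟩
    · intro a c ha hc hac
      obtain ⟨has, hab⟩ := (hFq a).1 ha
      obtain ⟨hcs, hcb⟩ := (hFq c).1 hc
      have e1 : a + c * e = 0 := by
        have : (a + c * e) * P = 0 := by linear_combination hac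
        exact (mul_eq_zero.1 this).resolve_right hP0
      have e2 : a - c * e = 0 := by
        have := congrArg b e1
        rw [map_add, map_mul, hab, hcb, hbe, map_zero] at this
        linear_combination this
      have e3 : (2 : K) * a = 0 := by linear_combination e1 + e2
      have ha0 : a = 0 := (mul_eq_zero.1 e3).resolve_left A.two
      rw [ha0, zero_add] at e1
      exact ⟨ha0, (mul_eq_zero.1 e1).resolve_right he0⟩
    · rw [Qf, hT, h3, hiso]
    · rw [Qf, hT, h3, map_mul, hbe]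
      have : e * P * (-e * b P) = (-(e * e)) * (P * b P) := by ring
      rw [this, mdl_tr_smul (by rw [map_neg, map_mul, hse]), hiso, mul_zero]
    · rw [Bf, hT, h3, h3, map_mul, hbe]
      have : P * (-e * b P) + b P * (e * P) = 0 := by ring
      rw [this]; simp [mdl_tr]
    · intro x
      rw [h2, h4, h4, h2, h3, hT, hY0, zero_mul]
      constructor
      · rintro ⟨hx1, -⟩
        have hc := mdl_par hP0 (show mdl_cr s P x = 0 from hx1)
        set c := x / P with hcd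
        have hsbc : s (b c) = b c := by rw [← A.bs, hc]
        have h2s : s ((2 : K)) = 2 := map_ofNat s 2
        have h2b : b ((2 : K)) = 2 := map_ofNat b 2
        refine ⟨(c + b c) / 2, (c - b c) / (2 * e), ?_, ?_, ?_⟩
        · rw [hFq]
          constructor
          · rw [map_div₀, map_add, hc, hsbc, h2s]
          · rw [map_div₀, map_add, A.b2, h2b, add_comm]
        · rw [hFq]
          constructor
          · rw [map_div₀, map_sub, hc, hsbc, map_mul, h2s, hse]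
          · rw [map_div₀, map_sub, A.b2, map_mul, h2b, hbe]
            have : (2 : K) ≠ 0 := A.two
            field_simp
            ring
        · have hx : x = c * P := (div_mul_cancel₀ _ hP0).symm
          have : (2 : K) ≠ 0 := A.two
          conv_lhs => rw [hx]
          field_simp
          ring
      · rintro ⟨a, c, ha, hc, rfl⟩
        obtain ⟨has, hab⟩ := (hFq a).1 ha
        obtain ⟨hcs, hcb⟩ := (hFq c).1 hc
        have hx : a * P + c * (e * P) = (a + c * e) * P := by ring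
        have hs1 : s (a + c * e) = a + c * e := by rw [map_add, map_mul, has, hcs, hse]
        rw [hx]
        constructor
        · show mdl_cr s P ((a + c * e) * P) = 0
          rw [mdl_cr_smul_right hs1, mdl_cr_self, mul_zero]
        · have hs2 : s (b (a + c * e)) = b (a + c * e) := by rw [← A.bs, hs1]
          rw [map_mul]
          have : P * (b (a + c * e) * b P) = b (a + c * e) * (P * b P) := by ring
          rw [this, mdl_tr_smul hs2, hiso, mul_zero]
  · have hYi : s Y⁻¹ = Y⁻¹ := by rw [map_inv₀, hYs]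
    have hbYs : s (b Y) = b Y := by rw [← A.bs, hYs]
    have hbY0 : b Y ≠ 0 := (map_ne_zero b).2 hY0
    have hP' : mdl_tr s ((Y⁻¹ * P) * b (Y⁻¹ * P)) = -1 := by
      have e1 : (Y⁻¹ * P) * b (Y⁻¹ * P) = (Y⁻¹ * (b Y)⁻¹) * (P * b P) := by
        rw [map_mul, map_inv₀]; ring
      rw [e1, mdl_tr_smul (by rw [map_mul, hYi, map_inv₀, hbYs])]
      have e2 : mdl_tr s (P * b P) = - (Y * b Y) := by linear_combination hiso
      rw [e2]
      field_simp
    have hPY : P = Y * (Y⁻¹ * P) := by field_simp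
    obtain ⟨u, v, hu, hv, huv, hall⟩ := mdl_line A hP'
    refine ⟨u, v, ⟨?_, ?_, ?_, ?_⟩, ?_⟩
    · intro a c ha hc hac
      obtain ⟨has, hab⟩ := (hFq a).1 ha
      obtain ⟨hcs, hcb⟩ := (hFq c).1 hc
      have e1 : a * mdl_cr s u v = 0 := by
        have : mdl_cr s (a * u + c * v) v = 0 := by rw [hac]; simp [mdl_cr]
        rwa [mdl_cr_add_left, mdl_cr_smul_left has, mdl_cr_smul_left hcs, mdl_cr_self, mul_zero,
          add_zero] at this
      have e2 : c * mdl_cr s u v = 0 := by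
        have : mdl_cr s u (a * u + c * v) = 0 := by rw [hac]; simp [mdl_cr]
        rwa [mdl_cr_add_right, mdl_cr_smul_right has, mdl_cr_smul_right hcs, mdl_cr_self,
          mul_zero, zero_add] at this
      exact ⟨(mul_eq_zero.1 e1).resolve_right huv, (mul_eq_zero.1 e2).resolve_right huv⟩
    · rw [Qf, hT, h3, hu]; exact mdl_tr_self_cr A _ _
    · rw [Qf, hT, h3, hv]; exact mdl_tr_self_cr A _ _
    · rw [Bf, hT, h3, h3, hu, hv]; exact mdl_polar A _ _ _
    · intro x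
      rw [h2, h4, h4, h2, h3, hT]
      have hcr : s P * s (s x) - s (s P) * s x = Y * mdl_cr s (Y⁻¹ * P) x := by
        rw [← mdl_cr_smul_left hYs, ← hPY, mdl_cr]
      rw [hcr]
      constructor
      · rintro ⟨hx1, -⟩
        obtain ⟨a, c, ha1, ha2, hc1, hc2, hx⟩ := hall x (mul_left_cancel₀ hY0 hx1).symm
        exact ⟨a, c, (hFq a).2 ⟨ha1, ha2⟩, (hFq c).2 ⟨hc1, hc2⟩, hx⟩
      · rintro ⟨a, c, ha, hc, hx⟩
        obtain ⟨has, hab⟩ := (hFq a).1 ha
        obtain ⟨hcs, hcb⟩ := (hFq c).1 hc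
        have hbx : b x = mdl_cr s (Y⁻¹ * P) x := by
          rw [hx, map_add, map_mul, map_mul, hab, hcb, hu, hv, mdl_cr_add_right,
            mdl_cr_smul_right has, mdl_cr_smul_right hcs]
        refine ⟨by rw [hbx], ?_⟩
        rw [hbx]
        have e1 : P * mdl_cr s (Y⁻¹ * P) x = Y * ((Y⁻¹ * P) * mdl_cr s (Y⁻¹ * P) x) := by
          rw [← mul_assoc, ← hPY]
        rw [e1, mdl_tr_smul hYs, mdl_tr_cr_self A, mul_zero]

theorem gen_point (h : Std K q) {x : K} (hx0 : x ≠ 0) (hx : Qf q x = 0) :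
    ∃ P : K, P ^ q ^ 2 * x ^ q ^ 4 - P ^ q ^ 4 * x ^ q ^ 2 = x ^ q ^ 3 ∧
      T3 q (P * x ^ q ^ 3) = 0 := by
  obtain ⟨s, b, h2, h4, h3, A, hFq, hbq, -, -⟩ := mdl_exists h
  have hT := mdl_T3 h2 h4
  rw [Qf, hT, h3] at hx
  obtain ⟨P, hP1, hP2⟩ := mdl_gen_point A hx0 hx
  refine ⟨P, ?_, ?_⟩
  · rw [h2, h4, h4, h2, h3]; exact hP1
  · rw [hT, h3]; exact hP2

theorem gen_iso (h : Std K q) {x : K} (hx0 : x ≠ 0) (hx : Qf q x = 0) {Y P Y' P' : K}
    (hY : Y ^ q ^ 2 = Y) (hY' : Y' ^ q ^ 2 = Y')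
    (h1 : P ^ q ^ 2 * x ^ q ^ 4 - P ^ q ^ 4 * x ^ q ^ 2 = Y * x ^ q ^ 3)
    (h2 : T3 q (P * x ^ q ^ 3) = 0)
    (h1' : P' ^ q ^ 2 * x ^ q ^ 4 - P' ^ q ^ 4 * x ^ q ^ 2 = Y' * x ^ q ^ 3)
    (h2' : T3 q (P' * x ^ q ^ 3) = 0) :
    Y * Y' ^ q + T3 q (P * P' ^ q ^ 3) = 0 := by
  obtain ⟨s, b, k2, k4, k3, A, hFq, hbq, -, -⟩ := mdl_exists h
  have hT := mdl_T3 k2 k4
  rw [Qf, hT, k3] at hx
  rw [k2] at hY hY'
  rw [k2, k4, k4, k2, k3] at h1 h1'
  rw [← hbq Y' hY', hT, k3]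
  exact mdl_gen_iso A hx0 hx hY hY' h1 h1'

theorem on_basis (h : Std K q) :
    ∃ b : Fin 3 → K, (∀ i j, T3 q (b i * b j ^ q ^ 3) = if i = j then 1 else 0) ∧
      ∀ x : K, x = ∑ i, T3 q (x * b i ^ q ^ 3) * b i := by
  obtain ⟨s, b, h2, h4, h3, A, hFq, hbq, N1, N2⟩ := mdl_exists h
  have hT := mdl_T3 h2 h4
  obtain ⟨v1, v2, v3, e11, e22, e33, e12, e13, e21, e23, e31, e32, hx⟩ := mdl_onb A N1 N2
  refine ⟨![v1, v2, v3], ?_, ?_⟩
  · intro i j
    rw [hT, h3]
    fin_cases i <;> fin_cases j <;> simp [e11, e22, e33, e12, e13, e21, e23, e31, e32]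
  · intro x
    rw [Fin.sum_univ_three]
    simp only [hT, h3]
    exact hx x

end mdl_fin

end Pool.Agent.TH501.Hemi
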