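import Mathlib
import Pool.Agent.TH501.Hemi.Defs
import Pool.Agent.TH501.Hemi.Ops
import Pool.Agent.TH501.Hemi.Binary
import Pool.Agent.TH501.Hemi.Model

/-!
# Hemisystems of H(3,q^2): the geometric part

From a function `f` on the points of the elliptic quadric to the hemisystem.
-/

set_option autoImplicit false

set_option linter.unusedSectionVars false
set_option linter.unusedVariables false

namespace Pool.Agent.TH501.Hemi

open Finset Classical

section geo

variable {F K : Type} [Field F] [Fintype F] [Field K] [Fintype K] [Algebra F K] {q : ℕ}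

lemma gx_q (h : Std K q) : 5 ≤ q := Bin.q_ge h

omit [Fintype K] in
/-- the elements of `F` are fixed by the square of the Frobenius -/
lemma gx_fix (hF : Fintype.card F = q ^ 2) (a : F) :
    (algebraMap F K a) ^ q ^ 2 = algebraMap F K a := by
  rw [← map_pow, ← hF, FiniteField.pow_card]

/-- and conversely -/
lemma gx_range (h : Std K q) (hF : Fintype.card F = q ^ 2) {x : K} (hx : x ^ q ^ 2 = x) :
    ∃ a : F, algebraMap F K a = x := by
  have hq := gx_q h
  have hq2 : 1 < q ^ 2 := Nat.one_lt_pow (by norm_num) (by omega)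
  set f : Polynomial K := Polynomial.X ^ q ^ 2 - Polynomial.X with hf
  have hf0 : f ≠ 0 := FiniteField.X_pow_card_sub_X_ne_zero K hq2
  have hdeg : f.natDegree = q ^ 2 := FiniteField.X_pow_card_sub_X_natDegree_eq K hq2
  have hsub : (univ.image (algebraMap F K)) ⊆ f.roots.toFinset := by
    intro y hy
    obtain ⟨a, -, rfl⟩ := Finset.mem_image.1 hy
    rw [Multiset.mem_toFinset, Polynomial.mem_roots hf0, Polynomial.IsRoot.def, hf,
      Polynomial.eval_sub, Polynomial.eval_pow, Polynomial.eval_X, gx_fix hF, sub_self]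
  have hcard : f.roots.toFinset.card ≤ (univ.image (algebraMap F K)).card := by
    rw [Finset.card_image_of_injective _ (algebraMap F K).injective, Finset.card_univ, hF]
    exact (Multiset.toFinset_card_le _).trans ((Polynomial.card_roots' f).trans hdeg.le)
  have heq := Finset.eq_of_subset_of_card_le hsub hcard
  have hxm : x ∈ f.roots.toFinset := by
    rw [Multiset.mem_toFinset, Polynomial.mem_roots hf0, Polynomial.IsRoot.def, hf,
      Polynomial.eval_sub, Polynomial.eval_pow, Polynomial.eval_X, hx, sub_self]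
  rw [← heq] at hxm
  obtain ⟨a, -, ha⟩ := Finset.mem_image.1 hxm
  exact ⟨a, ha⟩

lemma gx_T3_add (h : Std K q) (x y : K) : T3 q (x + y) = T3 q x + T3 q y := by
  obtain ⟨φ, h1, h2, h3, h4, h6⟩ := ops_frob h
  simp only [T3, h2, h4, map_add]
  ring

lemma gx_T3_zero (h : Std K q) : T3 q (0 : K) = 0 := by
  obtain ⟨φ, h1, h2, h3, h4, h6⟩ := ops_frob h
  simp only [T3, h2, h4, map_zero, add_zero]

lemma gx_T3_sum (h : Std K q) {ι : Type} (s : Finset ι) (f : ι → K) :
    T3 q (∑ i ∈ s, f i) = ∑ i ∈ s, T3 q (f i) := by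
  induction s using Finset.induction_on with
  | empty => rw [Finset.sum_empty, Finset.sum_empty, gx_T3_zero h]
  | insert a s ha ih => rw [Finset.sum_insert ha, Finset.sum_insert ha, gx_T3_add h, ih]

lemma gx_T3_smul (h : Std K q) {a : K} (ha : a ^ q ^ 2 = a) (x : K) :
    T3 q (a * x) = a * T3 q x := by
  obtain ⟨φ, h1, h2, h3, h4, h6⟩ := ops_frob h
  have ha' : φ (φ a) = a := by rw [← h2]; exact ha
  simp only [T3, h2, h4, map_mul, ha']
  ring

lemma gx_T3_fix (h : Std K q) (x : K) : (T3 q x) ^ q ^ 2 = T3 q x := by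
  obtain ⟨φ, h1, h2, h3, h4, h6⟩ := ops_frob h
  simp only [T3, h2, h4, map_add, h6]
  ring

/-- The generator of `x`. -/
def gx_G (F : Type) {K : Type} [Field F] [Fintype F] [Field K] [Fintype K] [Algebra F K] {q : ℕ}
    (h : Std K q) (hF : Fintype.card F = q ^ 2) (x : K) : Submodule F (F × K) where
  carrier := {v | v.2 ^ q ^ 2 * x ^ q ^ 4 - v.2 ^ q ^ 4 * x ^ q ^ 2 =
    algebraMap F K v.1 * x ^ q ^ 3 ∧ T3 q (v.2 * x ^ q ^ 3) = 0}
  zero_mem' := by
    obtain ⟨φ, h1, h2, h3, h4, h6⟩ := ops_frob h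
    refine ⟨?_, ?_⟩
    · simp only [Prod.fst_zero, Prod.snd_zero, map_zero, h2, h4, zero_mul, sub_zero]
    · simp only [Prod.snd_zero, zero_mul]
      exact gx_T3_zero h
  add_mem' := by
    rintro v w ⟨hv1, hv2⟩ ⟨hw1, hw2⟩
    refine ⟨?_, ?_⟩
    · obtain ⟨φ, h1, h2, h3, h4, h6⟩ := ops_frob h
      simp only [Prod.fst_add, Prod.snd_add, map_add, h2, h3, h4] at *
      linear_combination hv1 + hw1
    · simp only [Prod.snd_add, add_mul]
      rw [gx_T3_add h, hv2, hw2, add_zero]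
  smul_mem' := by
    rintro c v ⟨hv1, hv2⟩
    have hc : (algebraMap F K c) ^ q ^ 2 = algebraMap F K c := gx_fix hF c
    have e1 : (c • v).1 = c * v.1 := rfl
    have e2 : (c • v).2 = algebraMap F K c * v.2 := by rw [Prod.smul_snd, Algebra.smul_def]
    refine ⟨?_, ?_⟩
    · obtain ⟨φ, h1, h2, h3, h4, h6⟩ := ops_frob h
      have hc' : φ (φ (algebraMap F K c)) = algebraMap F K c := by rw [← h2]; exact hc
      rw [e1, e2]
      simp only [h2, h3, h4] at hv1
      simp only [h2, h3, h4, map_mul, hc']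
      linear_combination (algebraMap F K c) * hv1
    · rw [e2, mul_assoc, gx_T3_smul h hc, hv2, mul_zero]

lemma gx_mem_G (h : Std K q) (hF : Fintype.card F = q ^ 2) (x : K) (v : F × K) :
    v ∈ gx_G F h hF x ↔ v.2 ^ q ^ 2 * x ^ q ^ 4 - v.2 ^ q ^ 4 * x ^ q ^ 2 =
      algebraMap F K v.1 * x ^ q ^ 3 ∧ T3 q (v.2 * x ^ q ^ 3) = 0 := Iff.rfl

/-- the elements `(0, P)` of the generator -/
lemma gx_zero (h : Std K q) (hF : Fintype.card F = q ^ 2) {x : K} (hx0 : x ≠ 0) {P : K}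
    (hP : ((0 : F), P) ∈ gx_G F h hF x) : ∃ a : F, P = algebraMap F K a * x := by
  obtain ⟨φ, h1, h2, h3, h4, h6⟩ := ops_frob h
  have hP1 := ((gx_mem_G h hF x _).1 hP).1
  simp only [map_zero, zero_mul, h2, h4] at hP1
  have hφ0 : ∀ y : K, y ≠ 0 → φ y ≠ 0 := fun y hy => (map_ne_zero φ).2 hy
  have h5 : φ (φ (P / x)) = φ (φ (φ (φ (P / x)))) := by
    simp only [map_div₀]
    rw [div_eq_div_iff (hφ0 _ (hφ0 _ hx0)) (hφ0 _ (hφ0 _ (hφ0 _ (hφ0 _ hx0))))]
    linear_combination hP1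
  have h7 : φ (φ (P / x)) = P / x := (φ.injective (φ.injective h5)).symm
  obtain ⟨a, ha⟩ := gx_range (F := F) h hF (x := P / x) (by rw [h2]; exact h7)
  exact ⟨a, by rw [ha, div_mul_cancel₀ _ hx0]⟩

lemma gx_self (h : Std K q) (hF : Fintype.card F = q ^ 2) {x : K} (hx : Qf q x = 0) :
    ((0 : F), x) ∈ gx_G F h hF x := by
  rw [gx_mem_G]
  refine ⟨?_, hx⟩
  simp only [map_zero, zero_mul]
  ring

lemma gx_point (h : Std K q) (hF : Fintype.card F = q ^ 2) {x : K} (hx0 : x ≠ 0)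
    (hx : Qf q x = 0) : ∃ P : K, ((1 : F), P) ∈ gx_G F h hF x := by
  obtain ⟨P, h1, h2⟩ := gen_point h hx0 hx
  exact ⟨P, (gx_mem_G h hF x _).2 ⟨by rw [h1]; simp, h2⟩⟩

lemma gx_lin_fst (a Y : F) (x P : K) :
    (a • ((0 : F), x) + Y • ((1 : F), P)).1 = Y := by
  rw [Prod.fst_add, Prod.smul_fst, Prod.smul_fst]
  simp

lemma gx_lin_snd (a Y : F) (x P : K) :
    (a • ((0 : F), x) + Y • ((1 : F), P)).2 = algebraMap F K a * x + algebraMap F K Y * P := by
  rw [Prod.snd_add, Prod.smul_snd, Prod.smul_snd, Algebra.smul_def, Algebra.smul_def]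

lemma gx_span (h : Std K q) (hF : Fintype.card F = q ^ 2) {x : K} (hx0 : x ≠ 0)
    (hx : Qf q x = 0) {P : K} (hP : ((1 : F), P) ∈ gx_G F h hF x) :
    gx_G F h hF x = Submodule.span F (Set.range ![((0 : F), x), ((1 : F), P)]) := by
  apply le_antisymm
  · rintro ⟨Y, R⟩ hv
    have h1 : ((0 : F), R - algebraMap F K Y * P) ∈ gx_G F h hF x := by
      have := Submodule.sub_mem _ hv (Submodule.smul_mem _ Y hP)
      simpa [Algebra.smul_def] using this
    obtain ⟨a, ha⟩ := gx_zero h hF hx0 h1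
    have h2 : ((Y, R) : F × K) = a • ((0 : F), x) + Y • ((1 : F), P) := by
      ext
      · rw [gx_lin_fst]
      · rw [gx_lin_snd]
        linear_combination ha
    rw [h2]
    exact Submodule.add_mem _ (Submodule.smul_mem _ _ (Submodule.subset_span ⟨0, rfl⟩))
      (Submodule.smul_mem _ _ (Submodule.subset_span ⟨1, rfl⟩))
  · rw [Submodule.span_le]
    rintro _ ⟨i, rfl⟩
    fin_cases i
    · exact gx_self h hF hx
    · exact hP

lemma gx_finrank (h : Std K q) (hF : Fintype.card F = q ^ 2) {x : K} (hx0 : x ≠ 0)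
    (hx : Qf q x = 0) : Module.finrank F (gx_G F h hF x) = 2 := by
  obtain ⟨P, hP⟩ := gx_point (F := F) h hF hx0 hx
  rw [gx_span h hF hx0 hx hP]
  have hli : LinearIndependent F ![((0 : F), x), ((1 : F), P)] := by
    rw [LinearIndependent.pair_iff]
    intro s t hst
    have h1 : t = 0 := by
      have := congrArg Prod.fst hst
      rwa [gx_lin_fst] at this
    have h2 := congrArg Prod.snd hst
    rw [gx_lin_snd, h1, map_zero, zero_mul, add_zero, Prod.snd_zero] at h2
    subst h1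
    refine ⟨?_, rfl⟩
    rcases mul_eq_zero.1 h2 with h3 | h3
    · exact (map_eq_zero _).1 h3
    · exact absurd h3 hx0
  have := finrank_span_eq_card hli
  simpa using this

/-- multiples by elements of `k` give the same generator -/
lemma gx_G_smul (h : Std K q) (hF : Fintype.card F = q ^ 2) {x a : K} (ha : a ^ q = a)
    (ha0 : a ≠ 0) : gx_G F h hF (a * x) = gx_G F h hF x := by
  obtain ⟨φ, h1, h2, h3, h4, h6⟩ := ops_frob h
  have ha' : φ a = a := by rw [← h1]; exact ha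
  have ha2 : a ^ q ^ 2 = a := by rw [h2, ha', ha']
  ext v
  rw [gx_mem_G, gx_mem_G]
  refine and_congr ?_ ?_
  · simp only [h2, h3, h4, map_mul, ha']
    constructor
    · intro hh
      apply mul_left_cancel₀ ha0
      linear_combination hh
    · intro hh
      linear_combination a * hh
  · have e : v.2 * (a * x) ^ q ^ 3 = a * (v.2 * x ^ q ^ 3) := by
      simp only [h3, map_mul, ha']
      ring
    rw [e, gx_T3_smul h ha2, mul_eq_zero]
    constructor
    · rintro (h5 | h5)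
      · exact absurd h5 ha0
      · exact h5
    · exact Or.inr

/-- two points with the same generator -/
lemma gx_G_inj (h : Std K q) (hF : Fintype.card F = q ^ 2) {x x' : K} (hx0 : x ≠ 0)
    (hx : Qf q x = 0) (hx0' : x' ≠ 0) (hx' : Qf q x' = 0)
    (hG : gx_G F h hF x = gx_G F h hF x') : ∃ b : K, b ^ q = b ∧ x' = b * x := by
  obtain ⟨a, ha⟩ := gx_zero h hF hx0 (P := x') (by rw [hG]; exact gx_self h hF hx')
  obtain ⟨P, hP⟩ := gx_point (F := F) h hF hx0 hx
  have hP' := hP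
  rw [hG] at hP'
  have e1 := ((gx_mem_G h hF x _).1 hP).1
  have e2 := ((gx_mem_G h hF x' _).1 hP').1
  obtain ⟨φ, h1, h2, h3, h4, h6⟩ := ops_frob h
  have hc : φ (φ (algebraMap F K a)) = algebraMap F K a := by
    rw [← h2]; exact gx_fix hF a
  refine ⟨algebraMap F K a, ?_, ha⟩
  simp only [ha, h2, h3, h4, map_mul, map_one, one_mul, hc] at e1 e2
  have hx3 : φ (φ (φ x)) ≠ 0 := (map_ne_zero φ).2 ((map_ne_zero φ).2 ((map_ne_zero φ).2 hx0))
  rw [h1]
  apply mul_right_cancel₀ hx3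
  linear_combination (algebraMap F K a) * e1 - e2



/-! ### Coordinates -/

/-- `v ↦ (v 0, ∑ v (i+1) b_i)`. -/
noncomputable def gx_psi (F : Type) {K : Type} [Field F] [Field K] [Algebra F K]
    (b : Fin 3 → K) : (Fin 4 → F) →ₗ[F] F × K :=
  LinearMap.prod (LinearMap.proj 0)
    (∑ i : Fin 3, (LinearMap.proj i.succ : (Fin 4 → F) →ₗ[F] F).smulRight (b i))

omit [Fintype F] [Fintype K] in
lemma gx_psi_fst (b : Fin 3 → K) (v : Fin 4 → F) : (gx_psi F b v).1 = v 0 := rfl

omit [Fintype F] [Fintype K] in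
lemma gx_psi_snd (b : Fin 3 → K) (v : Fin 4 → F) :
    (gx_psi F b v).2 = ∑ i : Fin 3, algebraMap F K (v i.succ) * b i := by
  simp [gx_psi, Algebra.smul_def]

lemma gx_coord (h : Std K q) (hF : Fintype.card F = q ^ 2) {b : Fin 3 → K}
    (hb : ∀ i j, T3 q (b i * b j ^ q ^ 3) = if i = j then 1 else 0) (a : Fin 3 → F) (j : Fin 3) :
    T3 q ((∑ i, algebraMap F K (a i) * b i) * b j ^ q ^ 3) = algebraMap F K (a j) := by
  rw [Finset.sum_mul, gx_T3_sum h]
  have : ∀ i, T3 q (algebraMap F K (a i) * b i * b j ^ q ^ 3) =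
      if i = j then algebraMap F K (a i) else 0 := by
    intro i
    rw [mul_assoc, gx_T3_smul h (gx_fix hF _), hb]
    split_ifs <;> simp
  rw [Finset.sum_congr rfl (fun i _ => this i)]
  simp

lemma gx_psi_bij (h : Std K q) (hF : Fintype.card F = q ^ 2) {b : Fin 3 → K}
    (hb : ∀ i j, T3 q (b i * b j ^ q ^ 3) = if i = j then 1 else 0)
    (hs : ∀ x : K, x = ∑ i, T3 q (x * b i ^ q ^ 3) * b i) :
    Function.Bijective (gx_psi F b) := by
  constructor
  · rw [← LinearMap.ker_eq_bot, LinearMap.ker_eq_bot']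
    intro v hv
    have h1 : (gx_psi F b v).1 = 0 := by rw [hv]; rfl
    have h2 : (gx_psi F b v).2 = 0 := by rw [hv]; rfl
    rw [gx_psi_fst] at h1
    rw [gx_psi_snd] at h2
    ext j
    refine Fin.cases h1 (fun j => ?_) j
    have h3 := gx_coord h hF hb (fun i => v i.succ) j
    rw [h2, zero_mul, gx_T3_zero h] at h3
    exact (map_eq_zero _).1 h3.symm
  · rintro ⟨Y, x⟩
    have h1 : ∀ i, ∃ a : F, algebraMap F K a = T3 q (x * b i ^ q ^ 3) :=
      fun i => gx_range h hF (gx_T3_fix h _)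
    choose a ha using h1
    refine ⟨Fin.cons Y a, ?_⟩
    ext
    · rw [gx_psi_fst]; rfl
    · rw [gx_psi_snd]
      simp only [Fin.cons_succ]
      rw [Finset.sum_congr rfl (fun i _ => by rw [ha])]
      exact (hs x).symm

lemma gx_pow_q3 (h : Std K q) (hF : Fintype.card F = q ^ 2) (a : F) :
    (algebraMap F K a) ^ q ^ 3 = (algebraMap F K a) ^ q := by
  rw [show q ^ 3 = q ^ 2 * q by ring, pow_mul, gx_fix hF]

lemma gx_form (h : Std K q) (hF : Fintype.card F = q ^ 2) {b : Fin 3 → K}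
    (hb : ∀ i j, T3 q (b i * b j ^ q ^ 3) = if i = j then 1 else 0) (v w : Fin 4 → F) :
    algebraMap F K (∑ i, v i * w i ^ q) =
      algebraMap F K (gx_psi F b v).1 * (algebraMap F K (gx_psi F b w).1) ^ q +
        T3 q ((gx_psi F b v).2 * (gx_psi F b w).2 ^ q ^ 3) := by
  obtain ⟨φ, h1, h2, h3, h4, h6⟩ := ops_frob h
  rw [Fin.sum_univ_succ, map_add, map_mul, map_pow, map_sum]
  rw [gx_psi_fst, gx_psi_fst]
  congr 1
  have e1 : (gx_psi F b w).2 ^ q ^ 3 =
      ∑ j : Fin 3, (algebraMap F K (w j.succ)) ^ q * b j ^ q ^ 3 := by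
    rw [gx_psi_snd, h3, map_sum, map_sum, map_sum]
    refine Finset.sum_congr rfl (fun j _ => ?_)
    rw [map_mul, map_mul, map_mul, ← h3, gx_pow_q3 h hF, h3]
  rw [e1, Finset.mul_sum, gx_T3_sum h]
  refine Finset.sum_congr rfl (fun j _ => ?_)
  have e2 : (gx_psi F b v).2 * ((algebraMap F K (w j.succ)) ^ q * b j ^ q ^ 3) =
      (algebraMap F K (w j.succ)) ^ q * ((gx_psi F b v).2 * b j ^ q ^ 3) := by ring
  rw [e2, gx_T3_smul h (by rw [← pow_mul, mul_comm q, pow_mul, gx_fix hF]), gx_psi_snd,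
    gx_coord h hF hb (fun i => v i.succ) j, map_mul, map_pow]
  ring

lemma gx_self_form (h : Std K q) (hF : Fintype.card F = q ^ 2) {b : Fin 3 → K}
    (hb : ∀ i j, T3 q (b i * b j ^ q ^ 3) = if i = j then 1 else 0) (v : Fin 4 → F) :
    algebraMap F K (∑ i, v i ^ (q + 1)) =
      (algebraMap F K (gx_psi F b v).1) ^ (q + 1) +
        T3 q ((gx_psi F b v).2 * (gx_psi F b v).2 ^ q ^ 3) := by
  have := gx_form h hF hb v v
  rw [show (∑ i, v i ^ (q + 1)) = ∑ i, v i * v i ^ q from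
    Finset.sum_congr rfl (fun i _ => by rw [pow_succ]; ring), this]
  ring

end geo

section count

variable {K : Type} [Field K] [Fintype K] {q : ℕ}

/-- The representatives of the points of the line. -/
noncomputable def gx_R (q : ℕ) (u w : K) : Finset K :=
  insert w ((Fq K q).image (fun b => u + b * w))

lemma gx_one_pow : (1 : K) ^ q = 1 := one_pow q

lemma gx_w_notin (h : Std K q) {u w : K} (hl : IsLine q u w) :
    w ∉ (Fq K q).image (fun b => u + b * w) := by
  obtain ⟨φ, h1, h2, h3, h4, h6⟩ := ops_frob h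
  intro hw
  obtain ⟨b, hb, hbw⟩ := Finset.mem_image.1 hw
  have hb' : b ^ q = b := by simpa [Fq] using hb
  have := hl.ind 1 (b - 1) (one_pow q) (by rw [h1, map_sub, map_one, ← h1, hb'])
    (by linear_combination hbw)
  exact one_ne_zero this.1

lemma gx_inj_on (h : Std K q) {u w : K} (hl : IsLine q u w) :
    Set.InjOn (fun b => u + b * w) ((Fq K q : Finset K) : Set K) := by
  obtain ⟨φ, h1, h2, h3, h4, h6⟩ := ops_frob h
  intro b hb c hc hbc
  have hb' : b ^ q = b := by simpa [Fq] using hb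
  have hc' : c ^ q = c := by simpa [Fq] using hc
  have hbc' : u + b * w = u + c * w := hbc
  have := hl.ind 0 (b - c) (zero_pow (by have := gx_q h; omega))
    (by rw [h1, map_sub, ← h1, ← h1, hb', hc'])
    (by linear_combination hbc')
  exact sub_eq_zero.1 this.2

lemma gx_card_R (h : Std K q) {u w : K} (hl : IsLine q u w) : (gx_R q u w).card = q + 1 := by
  rw [gx_R, Finset.card_insert_of_notMem (gx_w_notin h hl), Finset.card_image_of_injOn
    (gx_inj_on h hl), card_Fq h]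

lemma gx_sum_R (h : Std K q) {u w : K} (hl : IsLine q u w) (f : K → ℤ) :
    ∑ x ∈ gx_R q u w, f x = lsum q f u w := by
  rw [gx_R, Finset.sum_insert (gx_w_notin h hl), Finset.sum_image (gx_inj_on h hl), lsum]

lemma gx_half (h : Std K q) {u w : K} (hl : IsLine q u w) {f : K → ℤ}
    (hf : ∀ x, f x = 1 ∨ f x = -1) (hs : lsum q f u w = 0) :
    ((gx_R q u w).filter (fun x => f x = 1)).card = (q + 1) / 2 := by
  have h1 := gx_sum_R h hl f
  have h2 := gx_card_R h hl
  have h3 : ∑ x ∈ gx_R q u w, f x = 2 * (((gx_R q u w).filter (fun x => f x = 1)).card : ℤ) -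
      ((gx_R q u w).card : ℤ) := by
    have : ∀ x, f x = 2 * (if f x = 1 then 1 else 0) - 1 := by
      intro x
      rcases hf x with hx | hx <;> rw [hx] <;> norm_num
    rw [Finset.sum_congr rfl (fun x _ => this x), Finset.sum_sub_distrib, ← Finset.mul_sum]
    simp
  rw [h1, hs, h2] at h3
  push_cast at h3
  omega

lemma gx_mem_R (h : Std K q) {u w x : K} (hx : x ∈ gx_R q u w) :
    ∃ a b : K, a ^ q = a ∧ b ^ q = b ∧ x = a * u + b * w ∧ (a = 1 ∨ (a = 0 ∧ b = 1)) := by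
  rcases Finset.mem_insert.1 hx with rfl | hx
  · exact ⟨0, 1, zero_pow (by have := gx_q h; omega), one_pow q, by ring, Or.inr ⟨rfl, rfl⟩⟩
  · obtain ⟨b, hb, rfl⟩ := Finset.mem_image.1 hx
    exact ⟨1, b, one_pow q, by simpa [Fq] using hb, by ring, Or.inl rfl⟩

lemma gx_R_ne (h : Std K q) {u w x : K} (hl : IsLine q u w) (hx : x ∈ gx_R q u w) : x ≠ 0 := by
  obtain ⟨a, b, ha, hb, rfl, hab⟩ := gx_mem_R h hx
  intro h0
  obtain ⟨h1, h2⟩ := hl.ind a b ha hb h0
  rcases hab with h3 | ⟨-, h3⟩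
  · exact one_ne_zero (h3.symm.trans h1)
  · exact one_ne_zero (h3.symm.trans h2)

lemma gx_Qf_line (h : Std K q) {u w : K} (hl : IsLine q u w) {a b : K} (ha : a ^ q = a)
    (hb : b ^ q = b) : Qf q (a * u + b * w) = 0 := by
  rw [Qf_add h, Qf_smul h ha, Qf_smul h hb, hl.qu, hl.qv, Bf_smul h ha, Bf_symm h, Bf_smul h hb,
    Bf_symm h, hl.b]
  ring

lemma gx_R_Q (h : Std K q) {u w x : K} (hl : IsLine q u w) (hx : x ∈ gx_R q u w) :
    Qf q x = 0 := by
  obtain ⟨a, b, ha, hb, rfl, hab⟩ := gx_mem_R h hx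
  exact gx_Qf_line h hl ha hb

/-- two proportional representatives are equal -/
lemma gx_R_inj (h : Std K q) {u w x x' : K} (hl : IsLine q u w) (hx : x ∈ gx_R q u w)
    (hx' : x' ∈ gx_R q u w) {c : K} (hc : c ^ q = c) (hcx : x' = c * x) : x' = x := by
  obtain ⟨φ, h1, h2, h3, h4, h6⟩ := ops_frob h
  obtain ⟨a, b, ha, hb, e, hab⟩ := gx_mem_R h hx
  obtain ⟨a', b', ha', hb', e', hab'⟩ := gx_mem_R h hx'
  have k1 : (a' - c * a) ^ q = a' - c * a := by
    rw [h1, map_sub, map_mul, ← h1, ← h1, ← h1, ha, ha', hc]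
  have k2 : (b' - c * b) ^ q = b' - c * b := by
    rw [h1, map_sub, map_mul, ← h1, ← h1, ← h1, hb, hb', hc]
  obtain ⟨h5, h7⟩ := hl.ind (a' - c * a) (b' - c * b) k1 k2 (by
    have : x' - c * x = 0 := by rw [hcx]; ring
    rw [e, e'] at this
    linear_combination this)
  have hc1 : c = 1 := by
    rcases hab with ra | ⟨ra, rb⟩ <;> rcases hab' with ra' | ⟨ra', rb'⟩
    · rw [ra, ra'] at h5
      linear_combination -h5
    · rw [ra, ra'] at h5
      rw [rb'] at h7
      have : c = 0 := by linear_combination -h5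
      rw [this] at h7
      exact absurd (by linear_combination h7 : (1 : K) = 0) one_ne_zero
    · rw [ra, ra'] at h5
      exact absurd (by linear_combination h5 : (1 : K) = 0) one_ne_zero
    · rw [rb, rb'] at h7
      linear_combination -h7
  rw [hcx, hc1, one_mul]

/-- every nonzero point of the line is proportional to a representative -/
lemma gx_R_surj (h : Std K q) {u w : K} (hl : IsLine q u w) {a b : K} (ha : a ^ q = a)
    (hb : b ^ q = b) (h0 : a * u + b * w ≠ 0) :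
    ∃ r ∈ gx_R q u w, ∃ c : K, c ≠ 0 ∧ c ^ q = c ∧ a * u + b * w = c * r := by
  by_cases ha0 : a = 0
  · subst ha0
    have hb0 : b ≠ 0 := by rintro rfl; exact h0 (by ring)
    exact ⟨w, Finset.mem_insert_self _ _, b, hb0, hb, by ring⟩
  · refine ⟨u + (b / a) * w, Finset.mem_insert_of_mem (Finset.mem_image.2 ⟨b / a, ?_, rfl⟩), a,
      ha0, ha, ?_⟩
    · simp [Fq, div_pow, ha, hb]
    · field_simp

end count

section main

variable {F K : Type} [Field F] [Fintype F] [Field K] [Fintype K] [Algebra F K] {q : ℕ}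

/-- multiplication by `c` as an `F`-linear equivalence -/
noncomputable def gx_mul (F : Type) {K : Type} [Field F] [Field K] [Algebra F K] (c : K)
    (hc : c ≠ 0) : K ≃ₗ[F] K :=
  LinearEquiv.ofLinearMap (LinearMap.mulLeft F c) (LinearMap.mulLeft F c⁻¹)
    (by ext x; simp [hc]) (by ext x; simp [hc])

/-- `(Y, P) ↦ (Y, c P)`. -/
noncomputable def gx_act (F : Type) {K : Type} [Field F] [Field K] [Algebra F K] (c : K)
    (hc : c ≠ 0) : (F × K) ≃ₗ[F] (F × K) :=
  LinearEquiv.prodCongr (LinearEquiv.refl F F) (gx_mul F c hc)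

omit [Fintype F] [Fintype K] in
lemma gx_act_apply (c : K) (hc : c ≠ 0) (v : F × K) : gx_act F c hc v = (v.1, c * v.2) := rfl

/-- the exponents -/
lemma gx_c3 (h : Std K q) {c : K} (hc : c ^ (q ^ 2 - q + 1) = 1) : c ^ (q ^ 3 + 1) = 1 := by
  have hq := gx_q h
  have e : q ^ 3 + 1 = (q ^ 2 - q + 1) * (q + 1) := by
    have h1 : q ≤ q ^ 2 := by nlinarith
    zify [h1]
    ring
  rw [e, pow_mul, hc, one_pow]

lemma gx_c4 (h : Std K q) {c : K} (hc : c ^ (q ^ 2 - q + 1) = 1) :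
    c ^ (q ^ 2 + q ^ 4 + 1) = 1 := by
  have hq := gx_q h
  have e : q ^ 2 + q ^ 4 + 1 = (q ^ 2 - q + 1) * (q ^ 2 + q + 1) := by
    have h1 : q ≤ q ^ 2 := by nlinarith
    zify [h1]
    ring
  rw [e, pow_mul, hc, one_pow]

lemma gx_c_ne (h : Std K q) {c : K} (hc : c ^ (q ^ 2 - q + 1) = 1) : c ≠ 0 := by
  rintro rfl
  rw [zero_pow (by omega)] at hc
  exact zero_ne_one hc

lemma gx_act_G (h : Std K q) (hF : Fintype.card F = q ^ 2) {c : K}
    (hc : c ^ (q ^ 2 - q + 1) = 1) (x : K) (v : F × K) :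
    (v.1, c * v.2) ∈ gx_G F h hF (c * x) ↔ v ∈ gx_G F h hF x := by
  have h0 := gx_c_ne h hc
  have k3 := gx_c3 h hc
  have k4 := gx_c4 h hc
  have k5 : c ^ q ^ 2 * c ^ q ^ 4 = c ^ q ^ 3 := by
    apply mul_right_cancel₀ h0
    rw [← pow_add, ← pow_succ, ← pow_succ, k3, k4]
  rw [gx_mem_G, gx_mem_G]
  refine and_congr ?_ ?_
  · have h3 : c ^ q ^ 3 ≠ 0 := pow_ne_zero _ h0
    simp only [mul_pow]
    constructor
    · intro hh
      apply mul_left_cancel₀ h3
      linear_combination hh - (v.2 ^ q ^ 2 * x ^ q ^ 4 - v.2 ^ q ^ 4 * x ^ q ^ 2) * k5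
    · intro hh
      linear_combination (c ^ q ^ 3) * hh +
        (v.2 ^ q ^ 2 * x ^ q ^ 4 - v.2 ^ q ^ 4 * x ^ q ^ 2) * k5
  · have : c * v.2 * (c * x) ^ q ^ 3 = v.2 * x ^ q ^ 3 := by
      rw [mul_pow]
      have k6 : c ^ q ^ 3 * c = 1 := by rw [← pow_succ, k3]
      linear_combination (v.2 * x ^ q ^ 3) * k6
    show T3 q (c * v.2 * (c * x) ^ q ^ 3) = 0 ↔ _
    rw [this]

lemma gx_act_Q (h : Std K q) {c : K} (hc : c ^ (q ^ 2 - q + 1) = 1) (x : K) :
    (c * x) * (c * x) ^ q ^ 3 = x * x ^ q ^ 3 := by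
  have k3 := gx_c3 h hc
  rw [mul_pow]
  have k6 : c ^ q ^ 3 * c = 1 := by rw [← pow_succ, k3]
  linear_combination (x * x ^ q ^ 3) * k6

/-- an element of exact order `q^2 - q + 1` -/
lemma gx_exists_c (h : Std K q) : ∃ c : K, c ^ (q ^ 2 - q + 1) = 1 ∧
    ∀ k : ℕ, 0 < k → k < q ^ 2 - q + 1 → c ^ k ≠ 1 := by
  have hq := gx_q h
  obtain ⟨g, hg⟩ := IsCyclic.exists_generator (α := Kˣ)
  have ho : orderOf g = q ^ 6 - 1 := by
    rw [orderOf_eq_card_of_forall_mem_zpowers hg, Nat.card_eq_fintype_card, Fintype.card_units,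
      h.card]
  have h1 : q ≤ q ^ 2 := by nlinarith
  have h2 : 1 ≤ q ^ 6 := Nat.one_le_pow _ _ (by omega)
  have h3 : 1 ≤ q ^ 3 := Nat.one_le_pow _ _ (by omega)
  have e : q ^ 6 - 1 = ((q ^ 3 - 1) * (q + 1)) * (q ^ 2 - q + 1) := by
    zify [h1, h2, h3]
    ring
  have h4 : (q ^ 3 - 1) * (q + 1) ≠ 0 := by
    have : 1 < q ^ 3 := Nat.one_lt_pow (by norm_num) (by omega)
    have : 0 < q ^ 3 - 1 := by omega
    positivity
  have h5 : orderOf (g ^ ((q ^ 3 - 1) * (q + 1))) = q ^ 2 - q + 1 := by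
    rw [orderOf_pow_of_dvd h4 (by rw [ho, e]; exact dvd_mul_right _ _), ho, e]
    exact Nat.mul_div_cancel_left _ (Nat.pos_of_ne_zero h4)
  refine ⟨((g ^ ((q ^ 3 - 1) * (q + 1)) : Kˣ) : K), ?_, ?_⟩
  · rw [← Units.val_pow_eq_pow_val, ← h5, pow_orderOf_eq_one, Units.val_one]
  · intro k hk hk' hck
    rw [← Units.val_pow_eq_pow_val] at hck
    have := orderOf_dvd_of_pow_eq_one (Units.val_eq_one.1 hck)
    rw [h5] at this
    exact absurd (Nat.le_of_dvd hk this) (by omega)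

end main

section final

lemma gx_main (F : Type) [Field F] [Fintype F] (K : Type) [Field K] [Fintype K] [Algebra F K]
    (q : ℕ) (h : Std K q) (hF : Fintype.card F = q ^ 2) (core : CoreProp K q) :
    ∃ (S : Set (Submodule F (Fin 4 → F))) (g : (Fin 4 → F) ≃+ (Fin 4 → F)) (τ : F ≃+* F),
      (∀ L ∈ S, Module.finrank F L = 2 ∧ ∀ x ∈ L, ∀ y ∈ L, ∑ i, x i * y i ^ q = 0) ∧
      (∀ P : Submodule F (Fin 4 → F), Module.finrank F P = 1 →
          (∀ x ∈ P, ∑ i, x i ^ (q + 1) = 0) →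
          Set.ncard {L | L ∈ S ∧ P ≤ L} = (q + 1) / 2) ∧
      (∀ (c : F) (x : Fin 4 → F), g (c • x) = τ c • g x) ∧
      (∀ x : Fin 4 → F, (∑ i, g x i ^ (q + 1) = 0 ↔ ∑ i, x i ^ (q + 1) = 0)) ∧
      (∀ L ∈ S, ∃ L' ∈ S, (L' : Set (Fin 4 → F)) = ⇑g '' (L : Set (Fin 4 → F))) ∧
      (∀ v : Fin 4 → F, ∃ c : F, (⇑g)^[q ^ 2 - q + 1] v = c • v) ∧
      (∀ k : ℕ, 0 < k → k < q ^ 2 - q + 1 →
        ∃ v : Fin 4 → F, ∀ c : F, (⇑g)^[k] v ≠ c • v) := by
  obtain ⟨f, hf1, hf2, hf3, hf4⟩ := core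
  obtain ⟨b, hb, hs⟩ := on_basis h
  obtain ⟨c, hc1, hc2⟩ := gx_exists_c h
  have hc0 := gx_c_ne h hc1
  have hinj : Function.Injective (algebraMap F K) := (algebraMap F K).injective
  set e : (Fin 4 → F) ≃ₗ[F] F × K := LinearEquiv.ofBijective (gx_psi F b)
    (gx_psi_bij h hF hb hs) with he
  have hev : ∀ v, e v = gx_psi F b v := fun v => rfl
  have hform : ∀ v w : Fin 4 → F, algebraMap F K (∑ i, v i * w i ^ q) =
      algebraMap F K (e v).1 * (algebraMap F K (e w).1) ^ q + T3 q ((e v).2 * (e w).2 ^ q ^ 3) :=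
    fun v w => gx_form h hF hb v w
  have hself : ∀ v : Fin 4 → F, algebraMap F K (∑ i, v i ^ (q + 1)) =
      (algebraMap F K (e v).1) ^ (q + 1) + T3 q ((e v).2 * (e v).2 ^ q ^ 3) :=
    fun v => gx_self_form h hF hb v
  -- the generators
  set GG : K → Submodule F (Fin 4 → F) := fun x => (gx_G F h hF x).comap e.toLinearMap with hGG
  have hmem : ∀ x v, v ∈ GG x ↔ e v ∈ gx_G F h hF x := fun x v => Iff.rfl
  have hGGinj : ∀ x y, GG x = GG y → gx_G F h hF x = gx_G F h hF y := by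
    intro x y hxy
    ext v
    have := Submodule.ext_iff.1 hxy (e.symm v)
    rwa [hmem, hmem, LinearEquiv.apply_symm_apply] at this
  set S : Set (Submodule F (Fin 4 → F)) :=
    {L | ∃ x : K, x ≠ 0 ∧ Qf q x = 0 ∧ f x = 1 ∧ L = GG x} with hS
  set g : (Fin 4 → F) ≃ₗ[F] (Fin 4 → F) := (e.trans (gx_act F c hc0)).trans e.symm with hg
  have hge : ∀ v, e (g v) = ((e v).1, c * (e v).2) := by
    intro v
    rw [hg]
    simp only [LinearEquiv.trans_apply, LinearEquiv.apply_symm_apply]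
    rfl
  refine ⟨S, g.toAddEquiv, RingEquiv.refl F, ?_, ?_, ?_, ?_, ?_, ?_, ?_⟩
  · -- lines, totally isotropic
    rintro L ⟨x, hx0, hxQ, hfx, rfl⟩
    refine ⟨?_, ?_⟩
    · have h1 : GG x = (gx_G F h hF x).map e.symm.toLinearMap := by
        ext v
        rw [hmem, Submodule.mem_map]
        constructor
        · intro hv
          exact ⟨e v, hv, e.symm_apply_apply v⟩
        · rintro ⟨w, hw, rfl⟩
          rw [LinearEquiv.coe_coe, LinearEquiv.apply_symm_apply]
          exact hw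
      rw [h1, LinearEquiv.finrank_map_eq]
      exact gx_finrank h hF hx0 hxQ
    · intro v hv w hw
      rw [hmem, gx_mem_G] at hv hw
      apply hinj
      rw [hform, map_zero]
      exact gen_iso h hx0 hxQ (gx_fix hF _) (gx_fix hF _) hv.1 hv.2 hw.1 hw.2
  · -- the count
    intro P hP1 hP2
    obtain ⟨⟨v, hvP⟩, hv0, hv⟩ := finrank_eq_one_iff'.1 hP1
    have hv0' : v ≠ 0 := fun h0 => hv0 (Subtype.ext h0)
    have hle : ∀ L : Submodule F (Fin 4 → F), P ≤ L ↔ v ∈ L := by
      intro L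
      refine ⟨fun hL => hL hvP, fun hL w hw => ?_⟩
      obtain ⟨a, ha⟩ := hv ⟨w, hw⟩
      have : w = a • v := (congrArg Subtype.val ha).symm
      rw [this]
      exact L.smul_mem a hL
    have hev0 : ¬ (algebraMap F K (e v).1 = 0 ∧ (e v).2 = 0) := by
      rintro ⟨h1, h2⟩
      apply hv0'
      have : e v = 0 := by
        ext
        · exact (map_eq_zero _).1 h1
        · exact h2
      exact (LinearEquiv.map_eq_zero_iff e).1 this
    obtain ⟨u, w, hl, huw⟩ := ell_line h (gx_fix hF (e v).1) hev0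
      (by rw [← hself, hP2 v hvP, map_zero])
    have hcnt := gx_half h hl hf1 (hf4 u w hl)
    have hset : {L | L ∈ S ∧ P ≤ L} =
        ((((gx_R q u w).filter (fun x => f x = 1)).image GG : Finset _) :
          Set (Submodule F (Fin 4 → F))) := by
      ext L
      rw [Set.mem_ofPred_eq, hle, Finset.coe_image, Set.mem_image]
      constructor
      · rintro ⟨⟨x, hx0, hxQ, hfx, rfl⟩, hvx⟩
        rw [hmem, gx_mem_G] at hvx
        obtain ⟨a, d, ha, hd, hx⟩ := (huw x).1 hvx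
        obtain ⟨r, hr, t, ht0, ht, hrt⟩ := gx_R_surj h hl ha hd (by rw [← hx]; exact hx0)
        refine ⟨r, ?_, ?_⟩
        · rw [Finset.mem_coe, Finset.mem_filter]
          refine ⟨hr, ?_⟩
          rw [← hf2 t r ht0 ht, ← hrt, ← hx]
          exact hfx
        · show (gx_G F h hF r).comap _ = (gx_G F h hF x).comap _
          rw [hx, hrt, gx_G_smul h hF ht ht0]
      · rintro ⟨r, hr, rfl⟩
        rw [Finset.mem_coe, Finset.mem_filter] at hr
        obtain ⟨a, d, ha, hd, hx, -⟩ := gx_mem_R h hr.1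
        exact ⟨⟨r, gx_R_ne h hl hr.1, gx_R_Q h hl hr.1, hr.2, rfl⟩,
          (huw r).2 ⟨a, d, ha, hd, hx⟩⟩
    rw [hset, Set.ncard_coe_finset, Finset.card_image_of_injOn, hcnt]
    intro r hr r' hr' hrr
    rw [Finset.mem_coe, Finset.mem_filter] at hr hr'
    obtain ⟨t, ht, htr⟩ := gx_G_inj h hF (gx_R_ne h hl hr.1) (gx_R_Q h hl hr.1)
      (gx_R_ne h hl hr'.1) (gx_R_Q h hl hr'.1) (hGGinj _ _ hrr)
    exact (gx_R_inj h hl hr.1 hr'.1 ht htr).symm
  · intro a x
    exact g.map_smul a x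
  · intro x
    have h1 : ∀ y : Fin 4 → F, ∑ i, y i ^ (q + 1) = 0 ↔
        algebraMap F K (∑ i, y i ^ (q + 1)) = 0 := fun y => (map_eq_zero _).symm
    show ∑ i, (g x) i ^ (q + 1) = 0 ↔ _
    rw [h1, h1 x, hself, hself, hge]
    show _ ^ (q + 1) + T3 q (c * (e x).2 * (c * (e x).2) ^ q ^ 3) = 0 ↔ _
    rw [gx_act_Q h hc1]
  · rintro L ⟨x, hx0, hxQ, hfx, rfl⟩
    refine ⟨GG (c * x), ⟨c * x, mul_ne_zero hc0 hx0, ?_, by rw [hf3 c x hc1, hfx], rfl⟩, ?_⟩
    · rw [Qf, gx_act_Q h hc1]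
      exact hxQ
    · ext v
      constructor
      · intro hv
        refine ⟨g.symm v, ?_, g.apply_symm_apply v⟩
        have h1 : e v = ((e (g.symm v)).1, c * (e (g.symm v)).2) := by
          rw [← hge, g.apply_symm_apply]
        have h2 : e v ∈ gx_G F h hF (c * x) := hv
        rw [h1] at h2
        exact (gx_act_G h hF hc1 x _).1 h2
      · rintro ⟨w, hw, rfl⟩
        show e (g w) ∈ gx_G F h hF (c * x)
        rw [hge]
        exact (gx_act_G h hF hc1 x _).2 hw
  · intro v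
    refine ⟨1, ?_⟩
    have hit : ∀ m : ℕ, e ((⇑g.toAddEquiv)^[m] v) = ((e v).1, c ^ m * (e v).2) := by
      intro m
      induction m with
      | zero => simp
      | succ m ih =>
        rw [Function.iterate_succ_apply']
        show e (g _) = _
        rw [hge, ih]
        ext
        · rfl
        · show c * (c ^ m * (e v).2) = c ^ (m + 1) * (e v).2
          ring
    apply e.injective
    rw [hit, hc1, one_smul, one_mul]
  · intro k hk hk'
    refine ⟨e.symm (1, 1), fun a ha => ?_⟩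
    have hit : ∀ m : ℕ, e ((⇑g.toAddEquiv)^[m] (e.symm (1, 1))) = ((1 : F), c ^ m) := by
      intro m
      induction m with
      | zero => simp
      | succ m ih =>
        rw [Function.iterate_succ_apply']
        show e (g _) = _
        rw [hge, ih]
        ext
        · rfl
        · show c * (c ^ m) = c ^ (m + 1)
          ring
    have h1 := hit k
    rw [ha, map_smul, LinearEquiv.apply_symm_apply] at h1
    have h2 : a = 1 := by
      have := congrArg Prod.fst h1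
      simpa using this
    have h3 := congrArg Prod.snd h1
    rw [h2, one_smul] at h3
    exact hc2 k hk hk' h3.symm

end final

theorem geometry (F : Type) [Field F] [Fintype F] (q : ℕ) (hF : Fintype.card F = q ^ 2)
    (h4 : q % 4 = 1) (h3 : q % 3 = 0 ∨ q % 3 = 2)
    (core : ∀ (K : Type) [Field K] [Fintype K], Std K q → CoreProp K q) :
    ∃ (S : Set (Submodule F (Fin 4 → F))) (g : (Fin 4 → F) ≃+ (Fin 4 → F)) (τ : F ≃+* F),
      (∀ L ∈ S, Module.finrank F L = 2 ∧ ∀ x ∈ L, ∀ y ∈ L, ∑ i, x i * y i ^ q = 0) ∧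
      (∀ P : Submodule F (Fin 4 → F), Module.finrank F P = 1 →
          (∀ x ∈ P, ∑ i, x i ^ (q + 1) = 0) →
          Set.ncard {L | L ∈ S ∧ P ≤ L} = (q + 1) / 2) ∧
      (∀ (c : F) (x : Fin 4 → F), g (c • x) = τ c • g x) ∧
      (∀ x : Fin 4 → F, (∑ i, g x i ^ (q + 1) = 0 ↔ ∑ i, x i ^ (q + 1) = 0)) ∧
      (∀ L ∈ S, ∃ L' ∈ S, (L' : Set (Fin 4 → F)) = ⇑g '' (L : Set (Fin 4 → F))) ∧
      (∀ v : Fin 4 → F, ∃ c : F, (⇑g)^[q ^ 2 - q + 1] v = c • v) ∧
      (∀ k : ℕ, 0 < k → k < q ^ 2 - q + 1 → ∃ v : Fin 4 → F, ∀ c : F, (⇑g)^[k] v ≠ c • v) := by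
  obtain ⟨p, hp⟩ := CharP.exists F
  have := hp
  have : Fact p.Prime := ⟨(FiniteField.card F p).choose_spec.1⟩
  let _ : Fintype (FiniteField.Extension F p 3) := Fintype.ofFinite _
  have hcard : Fintype.card (FiniteField.Extension F p 3) = q ^ 6 := by
    rw [← Nat.card_eq_fintype_card, FiniteField.natCard_extension, Nat.card_eq_fintype_card, hF]
    ring
  have hstd : Std (FiniteField.Extension F p 3) q := ⟨hcard, h4, by omega⟩
  exact gx_main F (FiniteField.Extension F p 3) q hstd hF (core _ hstd)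

end Pool.Agent.TH501.Hemi
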